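import Pool.Agent.MP_61ef33_al.Defs3

/- Free subsemigroups; renormalizations whose small Julia sets meet outside the postcritical set. -/

namespace Pool.Agent.MP_61ef33_al

open Polynomial

/-- Two elements generate a free semigroup: different words in them have different values. -/
def FreePair (G : Type) [Group G] : Prop :=
  ∃ x y : G, Function.Injective fun l : List Bool => (l.map fun b => if b then x else y).prod

/-- `f = z ^ 2 + c` has a renormalization `F = f ^ p : U → V` whose small filled Julia set holds a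
point `x` fixed by `f ^ m` with `m` not a multiple of `p`, and `f ^ m` fixes no postcritical
point. -/
def Touching (c : ℂ) : Prop :=
  ∃ (p : ℕ) (F : ℂ → ℂ) (U V : Set ℂ), 2 ≤ p ∧ F = (fun z => z ^ 2 + c)^[p] ∧
    IsDisc U ∧ IsDisc V ∧ closure U ⊆ V ∧ Set.MapsTo F U V ∧
    (∀ C ⊆ V, IsCompact C → IsCompact (U ∩ F ⁻¹' C)) ∧
    (∀ v ∈ V, ∃ z, U ∩ F ⁻¹' {v} = {z, -z}) ∧ (∀ k : ℕ, F^[k] 0 ∈ U) ∧
    ∃ (x : ℂ) (m : ℕ), (∀ k : ℕ, F^[k] x ∈ U) ∧ ¬ p ∣ m ∧ (fun z => z ^ 2 + c)^[m] x = x ∧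
      ∀ s ∈ postcrit (X ^ 2 + C c), (fun z => z ^ 2 + c)^[m] s ≠ s

end Pool.Agent.MP_61ef33_al
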