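import Mathlib

/- Definitions used in the statements on growth of iterated monodromy groups. -/

namespace Pool.Agent.MP_61ef33_al

open Filter

/-- The ball of radius `n` in the word metric defined by `S`. -/
def ball {G : Type} [Group G] (S : Finset G) (n : ℕ) : Set G :=
  {g | ∃ l : List G, l.length ≤ n ∧ (∀ x ∈ l, x ∈ S ∨ x⁻¹ ∈ S) ∧ l.prod = g}

/-- The word growth function. -/
noncomputable def growth {G : Type} [Group G] (S : Finset G) (n : ℕ) : ℕ := (ball S n).ncard

/-- For some finite generating set the growth function grows faster than every polynomial and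
slower than every exponential. -/
def IntermediateGrowth (G : Type) [Group G] : Prop :=
  ∃ S : Finset G, Subgroup.closure (S : Set G) = ⊤ ∧
    (∀ d : ℕ, Tendsto (fun n : ℕ => (growth S n : ℝ) / (n : ℝ) ^ d) atTop atTop) ∧
    (∀ c : ℝ, 0 < c → Tendsto (fun n : ℕ => (growth S n : ℝ) / Real.exp (c * n)) atTop (nhds 0))

end Pool.Agent.MP_61ef33_al
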