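import Pool.Agent.MP_61ef33_al.Defs

/- The iterated monodromy group of a complex polynomial; kneading sequence of an angle. -/

namespace Pool.Agent.MP_61ef33_al

open Polynomial

/-- The postcritical set: all images of critical points under positive iterates. -/
def postcrit (f : ℂ[X]) : Set ℂ :=
  {z | ∃ n : ℕ, 1 ≤ n ∧ ∃ w : ℂ, f.derivative.eval w = 0 ∧ (fun x => f.eval x)^[n] w = z}

/-- Vertices of the tree of preimages of `t`: pairs `(n, z)` with `z` an `n`-th preimage. -/
def PreTree (f : ℂ[X]) (t : ℂ) : Type := {p : ℕ × ℂ // (fun x => f.eval x)^[p.1] p.2 = t}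

/-- The iterated monodromy group: the permutations of the tree induced by loops at `t` outside
the postcritical set, each vertex being sent to the endpoint of the lift starting at it. -/
def IMG (f : ℂ[X]) (t : ℂ) : Subgroup (Equiv.Perm (PreTree f t)) :=
  Subgroup.closure {π | ∃ γ : Path t t, (∀ τ, γ τ ∉ postcrit f) ∧
    ∀ v w : PreTree f t, w.1.1 = v.1.1 →
      (∃ Γ : Path v.1.2 w.1.2, ∀ τ, (fun x => f.eval x)^[v.1.1] (Γ τ) = γ τ) → π v = w}

/-- The kneading sequence of the angle `θ` (in full turns): entry `j` records in which of the two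
half circles cut out by `θ / 2` and `(θ + 1) / 2` the angle `2 ^ j θ` lies. -/
noncomputable def kneading (θ : ℝ) (j : ℕ) : Bool :=
  decide (Int.fract (2 ^ j * θ - θ / 2) < 1 / 2)

end Pool.Agent.MP_61ef33_al
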