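import Pool.Agent.MP_61ef33_al.Defs2

/- Renormalization of a quadratic polynomial. -/

namespace Pool.Agent.MP_61ef33_al

/-- A bounded plane domain with connected complement (a bounded simply connected domain). -/
def IsDisc (U : Set ℂ) : Prop :=
  IsOpen U ∧ Bornology.IsBounded U ∧ IsConnected U ∧ IsConnected Uᶜ

/-- `z ^ 2 + c` is renormalizable: some iterate `F` of order at least two restricts to a
quadratic-like map `U → V` about the critical point `0`, whose critical orbit stays in `U`. -/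
def Renormalizable (c : ℂ) : Prop :=
  ∃ (p : ℕ) (F : ℂ → ℂ) (U V : Set ℂ), 2 ≤ p ∧ F = (fun z => z ^ 2 + c)^[p] ∧
    IsDisc U ∧ IsDisc V ∧ closure U ⊆ V ∧ Set.MapsTo F U V ∧
    (∀ C ⊆ V, IsCompact C → IsCompact (U ∩ F ⁻¹' C)) ∧
    (∀ v ∈ V, ∃ z, U ∩ F ⁻¹' {v} = {z, -z}) ∧ ∀ k : ℕ, F^[k] 0 ∈ U

end Pool.Agent.MP_61ef33_al
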