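import Pool.Agent.MP_61ef33_al.Defs2

/- Period doubling read off the signs of the critical orbit of a real quadratic polynomial. -/

namespace Pool.Agent.MP_61ef33_al

/-- For some `g ≥ 1` the points `f ^ i (0)` and `f ^ j (0)` of the critical orbit of
`f = x ^ 2 + c` are nonzero and of the same sign whenever `i ≡ j` modulo `g` and `2 g` divides
neither `i` nor `j`. -/
def Doubling (c : ℝ) : Prop :=
  ∃ g : ℕ, 1 ≤ g ∧ ∀ i j : ℕ, ¬ 2 * g ∣ i → ¬ 2 * g ∣ j → i ≡ j [MOD g] →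
    0 < (fun x : ℝ => x ^ 2 + c)^[i] 0 * (fun x : ℝ => x ^ 2 + c)^[j] 0

end Pool.Agent.MP_61ef33_al
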