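import Pool.Agent.MP_61ef33_al.Defs3

/- Renormalizations whose small Julia sets meet; separated period doubling of a real critical
orbit. -/

namespace Pool.Agent.MP_61ef33_al

/-- `f = z ^ 2 + c` has a renormalization `F = f ^ p : U → V` whose small filled Julia set `K` (the
points whose `F`-orbit stays in `U`) meets `f ^ j (K)` for some `0 < j < p`. -/
def Meeting (c : ℂ) : Prop :=
  ∃ (p : ℕ) (F : ℂ → ℂ) (U V : Set ℂ), 2 ≤ p ∧ F = (fun z => z ^ 2 + c)^[p] ∧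
    IsDisc U ∧ IsDisc V ∧ closure U ⊆ V ∧ Set.MapsTo F U V ∧
    (∀ C ⊆ V, IsCompact C → IsCompact (U ∩ F ⁻¹' C)) ∧
    (∀ v ∈ V, ∃ z, U ∩ F ⁻¹' {v} = {z, -z}) ∧ (∀ k : ℕ, F^[k] 0 ∈ U) ∧
    ∃ (y : ℂ) (j : ℕ), 0 < j ∧ j < p ∧ (∀ k : ℕ, F^[k] y ∈ U) ∧
      ∀ k : ℕ, F^[k] ((fun z => z ^ 2 + c)^[j] y) ∈ U

/-- For some `g ≥ 1` the critical orbit `x i = f ^ i (0)` of `f = x ^ 2 + c` satisfies: `x i` and
`x j` are nonzero and of the same sign whenever `i ≡ j` modulo `g` and `2 g` divides neither `i`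
nor `j`; and `x i = x j` only if `i ≡ j` modulo `2 g`. -/
def Doubled (c : ℝ) : Prop :=
  ∃ g : ℕ, 1 ≤ g ∧ (∀ i j : ℕ, ¬ 2 * g ∣ i → ¬ 2 * g ∣ j → i ≡ j [MOD g] →
    0 < (fun x : ℝ => x ^ 2 + c)^[i] 0 * (fun x : ℝ => x ^ 2 + c)^[j] 0) ∧
    ∀ i j : ℕ, (fun x : ℝ => x ^ 2 + c)^[i] 0 = (fun x : ℝ => x ^ 2 + c)^[j] 0 →
      i ≡ j [MOD 2 * g]

end Pool.Agent.MP_61ef33_al
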