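import Pool.Agent.MP_61ef33_al.Defs4

/- The groups `K(v)` of Bartholdi and Nekrashevych. -/

namespace Pool.Agent.MP_61ef33_al

/-- The action on binary words of the generators `a 0, …, a n` of `K(v)`, `n` the length of `v`:
`a 0 = (1, a n) σ`, and `a (i + 1) = (a i, 1)` or `(1, a i)` as the letter `i` of `v` is `0`
or `1`. -/
def kact (v : List Bool) : List Bool → ℕ → List Bool
  | [], _ => []
  | y :: w, 0 => (!y) :: (if y then kact v w v.length else w)
  | y :: w, i + 1 => y :: (if y = v.getD i false then kact v w i else w)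

/-- The group `K(v)`, generated by `a 0, …, a n`. -/
def KGroup (v : List Bool) : Subgroup (Equiv.Perm (List Bool)) :=
  Subgroup.closure {π | ∃ i ≤ v.length, ∀ w, π w = kact v w i}

/-- For some `0 < g < p` with `g ∣ p ∣ n + 1`, `n` the length of `v`, the letters `i` and `j` of
`v` (counted from `0`) agree whenever `i ≡ j` modulo `g` and `p` divides neither `i + 1` nor
`j + 1`. -/
def Satellite (v : List Bool) : Prop :=
  ∃ p g : ℕ, 0 < g ∧ g < p ∧ g ∣ p ∧ p ∣ v.length + 1 ∧
    ∀ i j : ℕ, i < v.length → j < v.length → ¬ p ∣ i + 1 → ¬ p ∣ j + 1 → i ≡ j [MOD g] →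
      v.getD i false = v.getD j false

end Pool.Agent.MP_61ef33_al
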