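import Mathlib

/- Kneading automata of strictly preperiodic quadratic type and their action on the binary tree. -/

namespace Pool.Agent.MP_61ef33_al

/-- Abstract kneading data. -/
structure KA (S : Type) where
  sg : S
  nx : S → S
  cl : S → Bool
  ha : ∀ s, nx s ≠ sg
  hb : ∀ s t, nx s = nx t → cl s = cl t → s = t
  hc : ∀ s, ∃ k, nx^[k] sg = s
  hd : ∀ s t, (∀ i, cl (nx^[i] s) = cl (nx^[i] t)) → s = t

namespace KA

variable {S : Type} (A : KA S)

/-- Star (renormalisable) form of the kneading sequence. -/
def Star : Prop :=
  ∃ p, 2 ≤ p ∧ ∀ j, ¬ p ∣ j + 1 → A.cl (A.nx^[j + p] A.sg) = A.cl (A.nx^[j] A.sg)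

open Classical in
noncomputable def prev (x : Bool) (s : S) : Option S :=
  if h : ∃ t, A.nx t = s ∧ A.cl t = x then some h.choose else none

theorem prev_eq_some {x : Bool} {s t : S} : A.prev x s = some t ↔ A.nx t = s ∧ A.cl t = x := by
  unfold prev
  split_ifs with h
  · constructor
    · intro e
      have := h.choose_spec
      rw [Option.some.injEq] at e
      rw [← e]; exact this
    · rintro ⟨h1, h2⟩
      have := h.choose_spec
      rw [Option.some.injEq]
      exact A.hb _ _ (this.1.trans h1.symm) (this.2.trans h2.symm)
  · constructor
    · intro e; cases e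
    · intro e; exact absurd ⟨t, e⟩ h

theorem prev_eq_none {x : Bool} {s : S} : A.prev x s = none ↔ ∀ t, A.nx t = s → A.cl t ≠ x := by
  constructor
  · intro h t h1 h2
    have := (A.prev_eq_some (x := x) (s := s) (t := t)).2 ⟨h1, h2⟩
    rw [h] at this; cases this
  · intro h
    cases e : A.prev x s with
    | none => rfl
    | some t => exact absurd (A.prev_eq_some.1 e).2 (h t (A.prev_eq_some.1 e).1)

theorem prev_sg (x : Bool) : A.prev x A.sg = none :=
  A.prev_eq_none.2 fun t h _ => A.ha t h

theorem prev_nx (t : S) : A.prev (A.cl t) (A.nx t) = some t := A.prev_eq_some.2 ⟨rfl, rfl⟩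

open Classical in
/-- `isg s` says that `s` is the active state. -/
noncomputable def isg (s : S) : Bool := decide (s = A.sg)

@[simp] theorem isg_sg : A.isg A.sg = true := by simp [isg]
theorem isg_ne {s : S} (h : s ≠ A.sg) : A.isg s = false := by simp [isg, h]
theorem isg_eq_true {s : S} : A.isg s = true ↔ s = A.sg := by simp [isg]
theorem isg_eq_false {s : S} : A.isg s = false ↔ s ≠ A.sg := by simp [isg]
@[simp] theorem isg_nx (s : S) : A.isg (A.nx s) = false := A.isg_ne (A.ha s)

/-- Action of a state on a vertex of the binary tree. -/
noncomputable def act : List Bool → S → List Bool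
  | [], _ => []
  | x :: w, s => (xor x (A.isg s)) :: (match A.prev x s with
      | none => w
      | some t => act w t)

theorem act_act (w : List Bool) (s : S) : A.act (A.act w s) s = w := by
  induction w generalizing s with
  | nil => rfl
  | cons x w ih =>
    by_cases h : s = A.sg
    · subst h
      simp [act, prev_sg]
    · cases e : A.prev x s with
      | none => simp [act, A.isg_ne h, e]
      | some t => simp [act, A.isg_ne h, e, ih]

/-- The generator attached to a state. -/
noncomputable def gen (s : S) : Equiv.Perm (List Bool) :=
  Function.Involutive.toPerm (fun w => A.act w s) (fun w => A.act_act w s)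

theorem gen_apply (s : S) (w : List Bool) : A.gen s w = A.act w s := rfl

theorem gen_mul_self (s : S) : A.gen s * A.gen s = 1 := by
  ext1 w; exact A.act_act w s

theorem gen_inv (s : S) : (A.gen s)⁻¹ = A.gen s :=
  inv_eq_of_mul_eq_one_left (A.gen_mul_self s)

/-- Value of a word (letters are applied from left to right). -/
noncomputable def ev : List S → Equiv.Perm (List Bool)
  | [] => 1
  | s :: W => ev W * A.gen s

@[simp] theorem ev_nil : A.ev [] = 1 := rfl
@[simp] theorem ev_cons (s : S) (W : List S) : A.ev (s :: W) = A.ev W * A.gen s := rfl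

theorem ev_append (U V : List S) : A.ev (U ++ V) = A.ev V * A.ev U := by
  induction U with
  | nil => simp
  | cons s U ih => simp [ih, mul_assoc]

theorem ev_reverse (U : List S) : A.ev U.reverse = (A.ev U)⁻¹ := by
  induction U with
  | nil => simp
  | cons s U ih => simp [ev_append, ih, gen_inv]

/-- Parity of the number of active letters. -/
noncomputable def par : List S → Bool
  | [] => false
  | s :: W => xor (A.isg s) (par W)

@[simp] theorem par_nil : A.par [] = false := rfl
@[simp] theorem par_cons (s : S) (W : List S) : A.par (s :: W) = xor (A.isg s) (A.par W) := rfl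

theorem par_append (U V : List S) : A.par (U ++ V) = xor (A.par U) (A.par V) := by
  induction U with
  | nil => simp
  | cons s U ih => simp [ih]

/-- Section of a word at a first-level vertex. -/
noncomputable def sec : List S → Bool → List S
  | [], _ => []
  | s :: W, y => (A.prev y s).toList ++ sec W (xor y (A.isg s))

@[simp] theorem sec_nil (y : Bool) : A.sec [] y = [] := rfl
theorem sec_cons (s : S) (W : List S) (y : Bool) :
    A.sec (s :: W) y = (A.prev y s).toList ++ A.sec W (xor y (A.isg s)) := rfl

theorem sec_append (U V : List S) (y : Bool) :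
    A.sec (U ++ V) y = A.sec U y ++ A.sec V (xor y (A.par U)) := by
  induction U generalizing y with
  | nil => simp
  | cons s U ih => simp [sec_cons, ih]

@[simp] theorem ev_apply_nil (W : List S) : A.ev W [] = [] := by
  induction W with
  | nil => rfl
  | cons s W ih => simpa [gen_apply, act] using ih

theorem ev_apply_cons (W : List S) (y : Bool) (v : List Bool) :
    A.ev W (y :: v) = xor y (A.par W) :: A.ev (A.sec W y) v := by
  induction W generalizing y v with
  | nil => simp
  | cons s W ih =>
    simp only [ev_cons, Equiv.Perm.mul_apply, gen_apply, act, ih, par_cons, sec_cons, ev_append,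
      Bool.xor_assoc]
    congr 2
    cases A.prev y s with
    | none => simp
    | some t => simp [gen_apply]

theorem par_eq_of_ev {U V : List S} (h : A.ev U = A.ev V) : A.par U = A.par V := by
  have h1 := A.ev_apply_cons U false []
  rw [h, A.ev_apply_cons] at h1
  simpa using (List.cons.inj h1).1.symm

theorem sec_eq_of_ev {U V : List S} (h : A.ev U = A.ev V) (y : Bool) :
    A.ev (A.sec U y) = A.ev (A.sec V y) := by
  ext1 v
  have h1 := A.ev_apply_cons U y v
  rw [h, A.ev_apply_cons] at h1
  exact (List.cons.inj h1).2.symm

theorem ev_eq_of_sec {U V : List S} (hp : A.par U = A.par V)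
    (h : ∀ y, A.ev (A.sec U y) = A.ev (A.sec V y)) : A.ev U = A.ev V := by
  ext1 v
  cases v with
  | nil => simp
  | cons y v => rw [ev_apply_cons, ev_apply_cons, hp, h]

theorem mem_sec {W : List S} {y : Bool} {t : S} (h : t ∈ A.sec W y) : A.nx t ∈ W := by
  induction W generalizing y with
  | nil => simp at h
  | cons s W ih =>
    rw [sec_cons, List.mem_append] at h
    rcases h with h | h
    · have : A.prev y s = some t := by simpa using h
      rw [(A.prev_eq_some.1 this).1]; simp
    · exact List.mem_cons_of_mem _ (ih h)

theorem par_of_not_mem {W : List S} (hW : A.sg ∉ W) : A.par W = false := by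
  induction W with
  | nil => rfl
  | cons s W ih =>
    simp only [List.mem_cons, not_or] at hW
    simp [ih hW.2, A.isg_ne (Ne.symm hW.1)]

theorem cl_of_mem_sec {W : List S} (hW : A.sg ∉ W) {y : Bool} {t : S} (h : t ∈ A.sec W y) :
    A.cl t = y := by
  induction W with
  | nil => simp at h
  | cons s W ih =>
    simp only [List.mem_cons, not_or] at hW
    rw [sec_cons, List.mem_append, A.isg_ne (Ne.symm hW.1)] at h
    rcases h with h | h
    · have : A.prev y s = some t := by simpa using h
      exact (A.prev_eq_some.1 this).2
    · exact ih hW.2 (by simpa using h)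

end KA

end Pool.Agent.MP_61ef33_al
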