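import Pool.Agent.MP_61ef33_al.K9

/- Rigid stabilisers and superpolynomial growth. -/

namespace Pool.Agent.MP_61ef33_al

namespace KA

variable {S : Type} {A : KA S}

/-- `L` fixes the vertex `v` and has section `X` there. -/
def Lft (v : List Bool) (L X : A.G) : Prop := ∀ w, L.1 (v ++ w) = v ++ X.1 w

/-- `W` acts trivially outside the subtree at `v`. -/
def Ri (v : List Bool) (W : A.G) : Prop := ∀ x, (∀ w, x ≠ v ++ w) → W.1 x = x

theorem Lft.mul {v : List Bool} {L X L' X' : A.G} (h : Lft v L X) (h' : Lft v L' X') :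
    Lft v (L * L') (X * X') := fun w => by
  simp only [Subgroup.coe_mul, Equiv.Perm.mul_apply, h' w, h _]

theorem Lft.inv {v : List Bool} {L X : A.G} (h : Lft v L X) : Lft v L⁻¹ X⁻¹ := fun w => by
  have := h (X⁻¹.1 w)
  simp only [Subgroup.coe_inv, Equiv.Perm.coe_inv, Equiv.apply_symm_apply] at this ⊢
  rw [← this]; simp

theorem Ri.mul {v : List Bool} {W W' : A.G} (h : Ri v W) (h' : Ri v W') : Ri v (W * W') :=
  fun x hx => by simp only [Subgroup.coe_mul, Equiv.Perm.mul_apply, h' x hx, h x hx]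

theorem Ri.inv {v : List Bool} {W : A.G} (h : Ri v W) : Ri v W⁻¹ := fun x hx => by
  have := h x hx
  simp only [Subgroup.coe_inv, Equiv.Perm.coe_inv]
  conv_lhs => rw [← this]
  simp

theorem Ri.conj {v : List Bool} {W L X : A.G} (h : Ri v W) (hL : Lft v L X) :
    Ri v (L * W * L⁻¹) := fun x hx => by
  have : W.1 (L⁻¹.1 x) = L⁻¹.1 x := h _ fun w e => hx (X.1 w) (by
    rw [← hL w, ← e]; simp)
  simp only [Subgroup.coe_mul, Equiv.Perm.mul_apply, this]
  simp

theorem Ri.mono {v w : List Bool} {W : A.G} (h : Ri (v ++ w) W) : Ri v W :=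
  fun x hx => h x fun u e => hx (w ++ u) (by rw [e, List.append_assoc])

theorem Ri.eq_one {v : List Bool} {W : A.G} (h : Ri v W) (h' : ∀ w, W.1 (v ++ w) = v ++ w) :
    W = 1 := by
  apply Subtype.ext
  ext1 x
  by_cases hx : ∃ w, x = v ++ w
  · obtain ⟨w, rfl⟩ := hx; exact h' w
  · push Not at hx; exact h x hx

theorem Ri.disj {v : List Bool} {W : A.G} (h : Ri (v ++ [false]) W) (h' : Ri (v ++ [true]) W) :
    W = 1 := h.eq_one fun w => h' _ fun w' e => by simp at e

theorem Ri.fix {v : List Bool} {W : A.G} (h : Ri v W) {d : ℕ} (hd : d < v.length) : Fix d W :=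
  fun x hx => h x fun w e => by rw [e, List.length_append] at hx; omega

theorem lft_one {y : Bool} {L X : A.G} (h1 : gp L = false) (h2 : gs L y = X) : Lft [y] L X :=
  fun w => by simp [g_cons, h1, h2]

theorem ri_one {y : Bool} {L : A.G} (h1 : gp L = false) (h2 : gs L (!y) = 1) : Ri [y] L := by
  intro x hx
  cases x with
  | nil => exact g_nil L
  | cons z x =>
    have : z = !y := by
      have := hx x
      revert this; cases z <;> cases y <;> simp
    rw [g_cons, h1, this, h2]; simp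

theorem Lft.trans {v w : List Bool} {L X Y : A.G} (h : Lft v L X) (h' : Lft w X Y) :
    Lft (v ++ w) L Y := fun u => by rw [List.append_assoc, h, h', List.append_assoc]

theorem Ri.trans {v w : List Bool} {L X : A.G} (h : Ri v L) (hL : Lft v L X) (h' : Ri w X) :
    Ri (v ++ w) L := by
  intro x hx
  by_cases h1 : ∃ u, x = v ++ u
  · obtain ⟨u, rfl⟩ := h1
    rw [hL, h' u fun u' e => hx u' (by rw [e, List.append_assoc])]
  · push Not at h1; exact h x h1

theorem exists_lft (v : List Bool) (X : List S) :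
    ∃ L : List S, Lft v (A.el L) (A.el X) ∧ L.length ≤ 3 ^ v.length * X.length := by
  induction v with
  | nil => exact ⟨X, fun w => rfl, by simp⟩
  | cons y v ih =>
    obtain ⟨L, h1, h2⟩ := ih
    obtain ⟨a1, a2, a3⟩ := lift1_spec (A := A) y L
    refine ⟨A.lift1 y L, (lft_one (y := y) (by rw [gp_el, a1]) (by rw [gs_el, a2])).trans h1, ?_⟩
    rw [List.length_cons, pow_succ]
    nlinarith

theorem exists_lft' (v : List Bool) (X : A.G) : ∃ L : A.G, Lft v L X := by
  obtain ⟨X, rfl⟩ := A.el_surj X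
  obtain ⟨L, h, _⟩ := exists_lft v X
  exact ⟨_, h⟩

section
variable {a : S} (ha : ∀ t, A.nx t = A.nx a → t = a)
include ha

theorem exists_ri (v : List Bool) : ∃ W U : A.G, Ri v W ∧ Lft v W U ∧ U ≠ 1 := by
  induction v using List.reverseRecOn with
  | nil => exact ⟨A.ga A.sg, A.ga A.sg, fun x hx => absurd rfl (hx x), fun _ => rfl, ga_ne_one _⟩
  | append_singleton v y ih =>
    have comm : ∀ W U X : A.G, Ri v W → Lft v W U →
        ∃ W', Ri v W' ∧ Lft v W' (U * X * U⁻¹ * X⁻¹) := by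
      intro W U X h1 h2
      obtain ⟨L, hL⟩ := exists_lft' v X
      refine ⟨W * (L * W⁻¹ * L⁻¹), h1.mul (h1.inv.conj hL), ?_⟩
      have := h2.mul ((hL.mul h2.inv).mul hL.inv)
      simpa [mul_assoc] using this
    have h1 : ∃ W U : A.G, Ri v W ∧ Lft v W U ∧ gp U = false ∧ gs U y ≠ 1 := by
      obtain ⟨W, U, h1, h2, h3⟩ := ih
      by_cases hp : gp U = false
      · by_cases hy : gs U y = 1
        · have hy' : gs U (!y) ≠ 1 := fun e => h3 (g_ext (by simp [hp]) fun z => by
            by_cases hz : z = y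
            · rw [hz, hy, gs_one]
            · have : z = !y := by revert hz; cases z <;> cases y <;> simp
              rw [this, e, gs_one])
          obtain ⟨L, hL⟩ := exists_lft' v (A.ga A.sg)
          refine ⟨L * W * L⁻¹, _, h1.conj hL, (hL.mul h2).mul hL.inv, by simp [gp_mul, hp], ?_⟩
          simpa [gs_mul, gs_inv, gp_ga, gs_ga_sg] using hy'
        · exact ⟨W, U, h1, h2, hp, hy⟩
      · have hp : gp U = true := by simpa using hp
        obtain ⟨f, f1, f2, f3⟩ := exists_phi ha 1 y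
        obtain ⟨W', a1, a2⟩ := comm W U f h1 h2
        refine ⟨W', _, a1, a2, by simp [gp_mul, f1], ?_⟩
        simpa [gs_mul, gs_inv, gp_mul, f1, hp, f2, f3] using ga_ne_one a
    obtain ⟨W, U, h1, h2, h3, h4⟩ := h1
    obtain ⟨g, hg⟩ : ∃ g : A.G, ¬ gs U y * (g * A.ga a * g⁻¹) = (g * A.ga a * g⁻¹) * gs U y := by
      by_contra h
      push Not at h
      exact h4 (cen_trivial ha h)
    obtain ⟨f, f1, f2, f3⟩ := exists_phi ha g y
    obtain ⟨W', a1, a2⟩ := comm W U f h1 h2
    have b1 : gp (U * f * U⁻¹ * f⁻¹) = false := by simp [gp_mul, f1]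
    refine ⟨W', _, a1.trans a2 (ri_one b1 ?_), a2.trans (lft_one b1 rfl), ?_⟩
    · simp [gs_mul, gs_inv, f1, h3, f3]
    · simp only [gs_mul, gs_inv, gp_inv, f1, h3, f2, Bool.xor_false]
      intro e
      apply hg
      rw [mul_inv_eq_one, mul_inv_eq_iff_eq_mul] at e
      exact e

theorem ri_infinite (u : List Bool) : {W : A.G | Ri u W}.Infinite := by
  intro hf
  obtain ⟨c0, hc⟩ := exists_sep ((hf.insert 1).image Subtype.val)
  obtain ⟨W, U, h1, h2, h3⟩ := exists_ri ha (u ++ List.replicate (c0 + 1) false)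
  have : W = 1 := Subtype.ext (hc _ ⟨W, Or.inr h1.mono, rfl⟩ _ ⟨1, Or.inl rfl, rfl⟩
    (h1.fix (by simp; omega)))
  apply h3
  apply Subtype.ext
  ext1 w
  have := h2 w
  subst W
  simpa using this.symm

theorem conj_infinite {U : A.G} (hU : U ≠ 1) : (Set.range fun X : A.G => X * U * X⁻¹).Infinite := by
  intro hf
  obtain ⟨u, hu⟩ : ∃ u, U.1 u ≠ u := by
    by_contra h
    push Not at h
    exact hU (Subtype.ext (Equiv.ext h))
  obtain ⟨W1, h1, W2, h2, hne, e⟩ := (ri_infinite ha u).exists_ne_map_eq_of_mapsTo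
    (f := fun X : A.G => X * U * X⁻¹) (fun X _ => Set.mem_range_self X) hf
  have hW : Ri u (W2⁻¹ * W1) := (Ri.inv h2).mul h1
  have hc : U * (W2⁻¹ * W1) = (W2⁻¹ * W1) * U := by
    calc U * (W2⁻¹ * W1) = W2⁻¹ * (W2 * U * W2⁻¹) * W1 := by group
      _ = _ := by rw [← e]; group
  set W := W2⁻¹ * W1 with hWd
  have : W = 1 := hW.eq_one fun w => by
    apply U.1.injective
    have e1 := congrArg (fun g : A.G => g.1 (u ++ w)) hc
    simp only [Subgroup.coe_mul, Equiv.Perm.mul_apply] at e1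
    rw [e1]
    refine hW _ fun w' e' => ?_
    obtain ⟨w'', e''⟩ := g_append U u w
    rw [e''] at e'
    exact hu (List.append_inj e' (g_length U u)).1
  exact hne (by rw [hWd, inv_mul_eq_one] at this; exact this.symm)

theorem conj_card [Finite S] {U : A.G} (hU : U ≠ 1) (r : ℕ) :
    r + 1 ≤ ((fun X => A.el X * U * (A.el X)⁻¹) '' {X : List S | X.length ≤ r}).ncard := by
  set K : ℕ → Set A.G := fun r => (fun X => A.el X * U * (A.el X)⁻¹) '' {X : List S | X.length ≤ r}
  have hf : ∀ r, (K r).Finite := fun r => (List.finite_length_le S r).image _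
  change r + 1 ≤ (K r).ncard
  induction r with
  | zero => exact (Set.ncard_pos (hf 0)).2 ⟨_, [], by simp, rfl⟩
  | succ r ih =>
    refine Nat.succ_le_of_lt (lt_of_le_of_lt ih (Set.ncard_lt_ncard ⟨?_, fun hsub => ?_⟩ (hf _)))
    · rintro _ ⟨X, hX, rfl⟩
      exact ⟨X, (show X.length ≤ r from hX).trans (Nat.le_succ r), rfl⟩
    · refine conj_infinite ha hU ((hf r).subset ?_)
      rintro _ ⟨X, rfl⟩
      obtain ⟨X, rfl⟩ := A.el_surj X
      induction X using List.reverseRecOn with
      | nil => exact ⟨[], by simp, rfl⟩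
      | append_singleton X s ih =>
        obtain ⟨X', h1, h2⟩ := ih
        refine hsub ⟨X' ++ [s], by simpa using h1, ?_⟩
        simp only [el_append] at h2 ⊢
        calc _ = A.el [s] * (A.el X' * U * (A.el X')⁻¹) * (A.el [s])⁻¹ := by group
          _ = _ := by rw [h2]; group

theorem many_ri [Finite S] (j : ℕ) (v : List Bool) : ∃ c : ℕ, ∀ r : ℕ, (r + 1) ^ j ≤
    {W : A.G | Ri v W ∧ W.1 ∈ A.wball (c * (r + 1))}.ncard := by
  have hf : ∀ v n, {W : A.G | Ri v W ∧ W.1 ∈ A.wball n}.Finite := fun v n =>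
    ((A.wball_finite n).preimage Subtype.val_injective.injOn).subset fun W h => h.2
  induction j generalizing v with
  | zero =>
    refine ⟨0, fun r => ?_⟩
    rw [pow_zero]
    exact (Set.ncard_pos (hf _ _)).2 ⟨1, fun _ _ => rfl, [], by simp, rfl⟩
  | succ j ih =>
    obtain ⟨c, hc⟩ := ih (v ++ [false])
    obtain ⟨W, U, h1, h2, h3⟩ := exists_ri ha (v ++ [true])
    obtain ⟨W, rfl⟩ := A.el_surj W
    choose L hL using fun X : List S => exists_lft (A := A) (v ++ [true]) X
    set c' := 2 * 3 ^ (v ++ [true]).length + W.length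
    have hc' : ∀ r, r + 1 ≤ {W : A.G | Ri (v ++ [true]) W ∧ W.1 ∈ A.wball (c' * (r + 1))}.ncard := by
      intro r
      refine (conj_card ha h3 r).trans ?_
      choose! X hX using fun (g : A.G) (hg : g ∈ (fun X => A.el X * U * (A.el X)⁻¹) ''
        {X : List S | X.length ≤ r}) => hg
      refine Set.ncard_le_ncard_of_injOn
        (fun g => A.el (L (X g)) * A.el W * (A.el (L (X g)))⁻¹) (fun g hg => ?_) ?_ (hf _ _)
      · refine ⟨h1.conj (hL _).1, (L (X g)).reverse ++ W ++ L (X g), ?_, ?_⟩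
        · have a1 := (hL (X g)).2
          have a2 : (X g).length ≤ r := (hX g hg).1
          have a3 : 3 ^ (v ++ [true]).length * (X g).length ≤ 3 ^ (v ++ [true]).length * r :=
            Nat.mul_le_mul_left _ a2
          simp only [List.length_append, List.length_reverse, c'] at *
          nlinarith [Nat.zero_le (W.length * r), Nat.zero_le (3 ^ (v.length + [true].length))]
        · simp [ev_append, ev_reverse, el, mul_assoc]
      · intro g hg g' hg' e
        have b1 := ((hL (X g)).1.mul h2).mul (hL (X g)).1.inv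
        have b2 := ((hL (X g')).1.mul h2).mul (hL (X g')).1.inv
        rw [← (hX g hg).2, ← (hX g' hg').2]
        apply Subtype.ext
        ext1 w
        have := b1 w
        simp only at e
        rw [e, b2 w] at this
        exact (List.append_cancel_left this).symm
    refine ⟨c + c', fun r => ?_⟩
    rw [pow_succ]
    refine (Nat.mul_le_mul (hc r) (hc' r)).trans ?_
    rw [← Set.ncard_prod]
    refine Set.ncard_le_ncard_of_injOn (fun p => p.1 * p.2) ?_ ?_ (hf _ _)
    · rintro ⟨W1, W2⟩ ⟨⟨a1, X1, a2, a3⟩, ⟨b1, X2, b2, b3⟩⟩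
      refine ⟨a1.mono.mul b1.mono, X2 ++ X1, ?_, ?_⟩
      · rw [List.length_append, add_mul]; omega
      · rw [ev_append, a3, b3]; rfl
    · rintro ⟨W1, W2⟩ ⟨⟨a1, _⟩, ⟨b1, _⟩⟩ ⟨W1', W2'⟩ ⟨⟨a1', _⟩, ⟨b1', _⟩⟩ e
      simp only at e a1 b1 a1' b1'
      have e' : W1'⁻¹ * W1 = W2' * W2⁻¹ := by
        calc W1'⁻¹ * W1 = W1'⁻¹ * (W1 * W2) * W2⁻¹ := by group
          _ = _ := by rw [e]; group
      have h0 : W1'⁻¹ * W1 = 1 := (a1'.inv.mul a1).disj (e' ▸ b1'.mul b1.inv)
      rw [h0] at e'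
      rw [inv_mul_eq_one] at h0
      rw [eq_comm, mul_inv_eq_one] at e'
      rw [h0, e']

end

variable (A) in
theorem superpoly [Fintype S] (h3 : 3 ≤ Fintype.card S) (j : ℕ) :
    ∃ c : ℕ, ∀ r : ℕ, (r + 1) ^ j ≤ (A.wball (c * (r + 1))).ncard := by
  obtain ⟨a, ha⟩ := A.exists_uniq h3
  obtain ⟨c, hc⟩ := many_ri ha j []
  exact ⟨c, fun r => (hc r).trans (Set.ncard_le_ncard_of_injOn Subtype.val (fun W h => h.2)
    Subtype.val_injective.injOn (A.wball_finite _))⟩

end KA

end Pool.Agent.MP_61ef33_al
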