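import Pool.Agent.MP_61ef33_al.K10
import Pool.Agent.MP_61ef33_al.Defs

/- Intermediate growth of the groups generated by non-star kneading automata. -/

namespace Pool.Agent.MP_61ef33_al

open Filter

theorem IntermediateGrowth.of_equiv {G H : Type} [Group G] [Group H] (e : G ≃* H)
    (h : IntermediateGrowth G) : IntermediateGrowth H := by
  classical
  obtain ⟨S, h1, h2, h3⟩ := h
  have hb : ∀ n, ball (S.image e) n = e '' ball S n := by
    intro n
    ext g
    constructor
    · rintro ⟨l, a1, a2, rfl⟩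
      refine ⟨(l.map e.symm).prod, ⟨l.map e.symm, by simpa using a1, ?_, rfl⟩, ?_⟩
      · intro x hx
        obtain ⟨y, hy, rfl⟩ := List.mem_map.1 hx
        rcases a2 y hy with h | h
        · obtain ⟨z, hz, rfl⟩ := Finset.mem_image.1 h
          left; simpa using hz
        · obtain ⟨z, hz, e'⟩ := Finset.mem_image.1 h
          right; rw [← map_inv, ← e']; simpa using hz
      · rw [map_list_prod, List.map_map]; simp
    · rintro ⟨_, ⟨l, a1, a2, rfl⟩, rfl⟩
      refine ⟨l.map e, by simpa using a1, ?_, (map_list_prod e l).symm⟩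
      intro x hx
      obtain ⟨y, hy, rfl⟩ := List.mem_map.1 hx
      rcases a2 y hy with h | h
      · exact Or.inl (Finset.mem_image_of_mem _ h)
      · right; rw [← map_inv]; exact Finset.mem_image_of_mem _ h
  have hg : ∀ n, growth (S.image e) n = growth S n := fun n => by
    rw [growth, hb, Set.ncard_image_of_injective _ e.injective, growth]
  refine ⟨S.image e, ?_, by simpa only [hg] using h2, by simpa only [hg] using h3⟩
  rw [Finset.coe_image]
  change Subgroup.closure (e.toMonoidHom '' _) = ⊤
  rw [← MonoidHom.map_closure, h1]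
  exact Subgroup.map_top_of_surjective _ e.surjective

theorem tendsto_of_poly {γ : ℕ → ℕ} (hm : Monotone γ)
    (h : ∀ j : ℕ, ∃ c : ℕ, ∀ r : ℕ, (r + 1) ^ j ≤ γ (c * (r + 1))) (d : ℕ) :
    Tendsto (fun n : ℕ => (γ n : ℝ) / (n : ℝ) ^ d) atTop atTop := by
  obtain ⟨c, hc⟩ := h (d + 1)
  have hlim : Tendsto (fun n : ℕ => (n : ℝ) / (2 * (c + 1)) ^ (d + 1)) atTop atTop :=
    tendsto_natCast_atTop_atTop.atTop_div_const (by positivity)
  refine tendsto_atTop_mono' _ ?_ hlim
  filter_upwards [eventually_ge_atTop (c + 1)] with n hn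
  have hn0 : (0 : ℝ) < n := by exact_mod_cast (by omega : 0 < n)
  obtain ⟨r, hr⟩ : ∃ r, n / (c + 1) = r + 1 :=
    ⟨n / (c + 1) - 1, by have := Nat.div_pos hn (by omega); omega⟩
  have h1 : c * (r + 1) ≤ n := by
    have := Nat.div_mul_le_self n (c + 1)
    rw [hr] at this; nlinarith
  have h2 : n ≤ 2 * (c + 1) * (r + 1) := by
    have := Nat.lt_div_mul_add (a := n) (show 0 < c + 1 by omega)
    rw [hr] at this; nlinarith
  have h3 : n ^ (d + 1) ≤ (2 * (c + 1)) ^ (d + 1) * γ n := by
    calc n ^ (d + 1) ≤ (2 * (c + 1) * (r + 1)) ^ (d + 1) := Nat.pow_le_pow_left h2 _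
      _ = (2 * (c + 1)) ^ (d + 1) * (r + 1) ^ (d + 1) := mul_pow _ _ _
      _ ≤ _ := Nat.mul_le_mul_left _ ((hc r).trans (hm h1))
  rw [div_le_div_iff₀ (by positivity) (by positivity), ← pow_succ', mul_comm]
  exact_mod_cast h3

theorem tendsto_of_subexp {γ : ℕ → ℕ}
    (h : ∀ δ : ℝ, 0 < δ → ∃ K : ℝ, ∀ n : ℕ, (γ n : ℝ) ≤ K * Real.exp (δ * n)) (c : ℝ) (hc : 0 < c) :
    Tendsto (fun n : ℕ => (γ n : ℝ) / Real.exp (c * n)) atTop (nhds 0) := by
  obtain ⟨K, hK⟩ := h (c / 2) (by linarith)
  have hlim : Tendsto (fun n : ℕ => K * Real.exp (-(c / 2 * n))) atTop (nhds 0) := by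
    have := (Real.tendsto_exp_neg_atTop_nhds_zero.comp
      (tendsto_natCast_atTop_atTop.const_mul_atTop (show 0 < c / 2 by linarith))).const_mul K
    simpa using this
  refine squeeze_zero (fun n => by positivity) (fun n => ?_) hlim
  rw [div_le_iff₀ (Real.exp_pos _), mul_assoc, ← Real.exp_add]
  refine (hK n).trans (le_of_eq ?_)
  congr 2; ring

namespace KA

variable {S : Type} (A : KA S)

theorem intermediate [Fintype S] (hs : ¬ A.Star) (h3 : 3 ≤ Fintype.card S) :
    IntermediateGrowth A.G := by
  classical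
  have hb : ∀ n, A.wball n = Subtype.val '' ball (Finset.univ.image A.ga) n := by
    intro n
    ext g
    constructor
    · rintro ⟨W, h1, rfl⟩
      refine ⟨A.el W, ⟨W.reverse.map A.ga, by simpa using h1, ?_, ?_⟩, rfl⟩
      · intro x hx
        obtain ⟨s, _, rfl⟩ := List.mem_map.1 hx
        simp
      · clear h1
        induction W with
        | nil => rfl
        | cons s W ih =>
          rw [List.reverse_cons, List.map_append, List.prod_append, ih]
          simpa [ga] using (A.el_append [s] W).symm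
    · rintro ⟨_, ⟨l, h1, h2, rfl⟩, rfl⟩
      induction l generalizing n with
      | nil => exact ⟨[], by simp, rfl⟩
      | cons x l ih =>
        obtain ⟨W, a1, a2⟩ := ih l.length le_rfl fun y hy => h2 y (by simp [hy])
        obtain ⟨s, rfl⟩ : ∃ s, A.ga s = x := by
          rcases h2 x (by simp) with h | h
          · simpa using h
          · obtain ⟨s, _, hs⟩ := Finset.mem_image.1 h
            exact ⟨s, by rw [← ga_inv, hs, inv_inv]⟩
        refine ⟨W ++ [s], by simp at h1 ⊢; omega, ?_⟩
        rw [ev_append, a2]; rfl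
  have hg : ∀ n, growth (Finset.univ.image A.ga) n = (A.wball n).ncard := fun n => by
    rw [hb, Set.ncard_image_of_injective _ Subtype.val_injective, growth]
  refine ⟨Finset.univ.image A.ga, ?_, ?_, ?_⟩
  · rw [eq_top_iff]
    intro g _
    obtain ⟨W, rfl⟩ := A.el_surj g
    induction W using List.reverseRecOn with
    | nil => exact one_mem _
    | append_singleton W s ih =>
      rw [el_append]
      exact mul_mem (Subgroup.subset_closure (by simp [ga])) (ih trivial)
  · simp only [hg]
    exact tendsto_of_poly (γ := fun n => (A.wball n).ncard)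
      (fun m n h => Set.ncard_le_ncard (fun g ⟨W, h1, h2⟩ => ⟨W, h1.trans h, h2⟩)
        (A.wball_finite _)) (A.superpoly h3)
  · simp only [hg]
    exact tendsto_of_subexp (γ := fun n => (A.wball n).ncard) (A.subexp hs)

end KA

end Pool.Agent.MP_61ef33_al
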