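import Pool.Agent.MP_61ef33_al.K1

/- Proper subsets of the generators generate finite groups (non-star case). -/

namespace Pool.Agent.MP_61ef33_al

namespace KA

variable {S : Type} (A : KA S)

/-- Elements represented by words over `B`. -/
def Wd (B : Set S) : Set (Equiv.Perm (List Bool)) := {g | ∃ W : List S, (∀ s ∈ W, s ∈ B) ∧ A.ev W = g}

theorem finite_of_sec {B B1 B2 : Set S} (h1 : (A.Wd B1).Finite) (h2 : (A.Wd B2).Finite)
    (h : ∀ W : List S, (∀ s ∈ W, s ∈ B) → (∀ s ∈ A.sec W false, s ∈ B1) ∧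
      (∀ s ∈ A.sec W true, s ∈ B2)) : (A.Wd B).Finite := by
  let f : Equiv.Perm (List Bool) → Bool × (List Bool → List Bool) × (List Bool → List Bool) :=
    fun g => ((g [false]).headD false, fun v => (g (false :: v)).tail, fun v => (g (true :: v)).tail)
  have hf : ∀ W, f (A.ev W) = (A.par W, (A.ev (A.sec W false) : List Bool → List Bool),
      (A.ev (A.sec W true) : List Bool → List Bool)) := by
    intro W
    simp [f, A.ev_apply_cons]
  refine Set.Finite.of_injOn (f := f) (t := Set.univ ×ˢ ((fun g : Equiv.Perm (List Bool) =>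
    (g : List Bool → List Bool)) '' A.Wd B1) ×ˢ ((fun g : Equiv.Perm (List Bool) =>
    (g : List Bool → List Bool)) '' A.Wd B2)) ?_ ?_ ?_
  · rintro g ⟨W, hW, rfl⟩
    rw [hf]
    exact ⟨trivial, ⟨_, ⟨_, (h W hW).1, rfl⟩, rfl⟩, ⟨_, ⟨_, (h W hW).2, rfl⟩, rfl⟩⟩
  · rintro g ⟨W, hW, rfl⟩ g' ⟨W', hW', rfl⟩ e
    rw [hf, hf] at e
    simp only [Prod.mk.injEq, DFunLike.coe_fn_eq] at e
    refine A.ev_eq_of_sec e.1 fun y => ?_
    cases y
    · exact e.2.1
    · exact e.2.2
  · exact Set.finite_univ.prod ((h1.image _).prod (h2.image _))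

theorem exists_cl (x : Bool) : ∃ s, A.cl s = x := by
  by_contra h
  push Not at h
  have h2 : ∀ s t, A.cl s = A.cl t := by
    intro s t
    have a := h s
    have b := h t
    revert a b
    cases A.cl s <;> cases A.cl t <;> cases x <;> simp
  exact A.ha A.sg (A.hd _ _ fun i => h2 _ _)

theorem exists_child {B : Set S} (hB : B ≠ Set.univ) (hi : (A.Wd B).Infinite) :
    ∃ B' : Set S, (B' ≠ Set.univ ∧ (A.Wd B').Infinite) ∧ (∀ s ∈ B', A.nx s ∈ B) ∧
      (A.sg ∉ B → ∀ s ∈ B', ∀ t ∈ B', A.cl s = A.cl t) := by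
  by_cases hs : A.sg ∈ B
  · refine ⟨{s | A.nx s ∈ B}, ⟨?_, ?_⟩, fun s h => h, fun h => absurd hs h⟩
    · intro e
      apply hB
      rw [Set.eq_univ_iff_forall] at e ⊢
      intro s
      obtain ⟨k, rfl⟩ := A.hc s
      cases k with
      | zero => exact hs
      | succ k => rw [Function.iterate_succ_apply']; exact e _
    · intro hf
      exact hi (A.finite_of_sec hf hf fun W hW =>
        ⟨fun s h => hW _ (A.mem_sec h), fun s h => hW _ (A.mem_sec h)⟩)
  · have key : ∃ x, (A.Wd {s | A.nx s ∈ B ∧ A.cl s = x}).Infinite := by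
      by_contra h
      push Not at h
      refine hi (A.finite_of_sec (h false) (h true) fun W hW => ?_)
      have hn : A.sg ∉ W := fun h' => hs (hW _ h')
      exact ⟨fun s h => ⟨hW _ (A.mem_sec h), A.cl_of_mem_sec hn h⟩,
        fun s h => ⟨hW _ (A.mem_sec h), A.cl_of_mem_sec hn h⟩⟩
    obtain ⟨x, hx⟩ := key
    refine ⟨_, ⟨?_, hx⟩, fun s h => h.1, fun _ s h t h' => h.2.trans h'.2.symm⟩
    intro e
    obtain ⟨s, hs'⟩ := A.exists_cl (!x)
    have : s ∈ {s | A.nx s ∈ B ∧ A.cl s = x} := e ▸ Set.mem_univ s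
    have h3 := this.2
    rw [hs'] at h3
    cases x <;> simp at h3

theorem chain_star (C : ℕ → Set S) (p : ℕ) (hp : 0 < p) (hper : ∀ k, C (k + p) = C k)
    (hne : C 0 ≠ Set.univ) (hnx : ∀ k, ∀ s ∈ C k, A.nx s ∈ C (k + 1))
    (hcl : ∀ k, A.sg ∉ C (k + 1) → ∀ s ∈ C k, ∀ t ∈ C k, A.cl s = A.cl t) :
    A.Star ∨ (C 0).Subsingleton := by
  classical
  have hit : ∀ j k, ∀ s ∈ C k, A.nx^[j] s ∈ C (k + j) := by
    intro j
    induction j with
    | zero => intro k s h; exact h
    | succ j ih =>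
      intro k s h
      rw [Function.iterate_succ_apply']
      exact hnx _ _ (ih k s h)
  have hperm : ∀ m k, C (k + m * p) = C k := by
    intro m
    induction m with
    | zero => intro k; simp
    | succ m ih => intro k; rw [Nat.succ_mul, ← add_assoc, hper, ih]
  by_cases hT : ∃ k, A.sg ∈ C k
  swap
  · right
    push Not at hT
    intro s hs t ht
    exact A.hd _ _ fun i => hcl _ (hT _) _ (hit i 0 s hs) _ (hit i 0 t ht)
  left
  let P : ℕ → Prop := fun d => ∀ k, A.sg ∈ C k ↔ A.sg ∈ C (k + d)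
  have hP0 : ∃ d, 0 < d ∧ P d := ⟨p, hp, fun k => by rw [hper]⟩
  let g := Nat.find hP0
  have hg : 0 < g ∧ P g := Nat.find_spec hP0
  have hgm : ∀ m k, A.sg ∈ C k ↔ A.sg ∈ C (k + m * g) := by
    intro m
    induction m with
    | zero => intro k; simp
    | succ m ih => intro k; rw [Nat.succ_mul, ← add_assoc, ← hg.2, ih]
  have hdiv : ∀ d, P d → g ∣ d := by
    intro d hd
    by_contra hnd
    have hr : 0 < d % g := Nat.pos_of_ne_zero fun h => hnd (Nat.dvd_of_mod_eq_zero h)
    have hlt : d % g < g := Nat.mod_lt _ hg.1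
    refine Nat.find_min hP0 hlt ⟨hr, fun k => ?_⟩
    rw [hd k, hgm (d / g) (k + d % g)]
    have := Nat.mod_add_div' d g
    rw [add_assoc, this]
  have hg2 : 2 ≤ g := by
    by_contra h
    have h1 : g = 1 := by have := hg.1; omega
    obtain ⟨k0, hk0⟩ := hT
    have hall : ∀ k, A.sg ∈ C k := by
      intro k
      have a := (hgm k 0)
      have b := (hgm k0 0)
      rw [h1] at a b
      simp only [zero_add, mul_one] at a b
      exact a.1 (b.2 hk0)
    apply hne
    rw [Set.eq_univ_iff_forall]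
    intro s
    obtain ⟨k, rfl⟩ := A.hc s
    have := hit k ((p - 1) * k) _ (hall _)
    have e : (p - 1) * k + k = 0 + k * p := by
      obtain ⟨q, rfl⟩ : ∃ q, p = q + 1 := ⟨p - 1, by omega⟩
      simp; ring
    rwa [e, hperm] at this
  refine ⟨g, hg2, fun j hj => ?_⟩
  have hex : ∃ i, A.sg ∈ C i ∧ A.sg ∉ C (i + (j + 1)) := by
    by_contra h
    push Not at h
    apply hj
    apply hdiv
    intro k
    refine ⟨h k, fun hk => ?_⟩
    have hm : ∀ m i, A.sg ∈ C i → A.sg ∈ C (i + m * (j + 1)) := by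
      intro m
      induction m with
      | zero => intro i hi; simpa using hi
      | succ m ih => intro i hi; rw [Nat.succ_mul, ← add_assoc]; exact h _ (ih i hi)
    have := hm (p - 1) _ hk
    have e : k + (j + 1) + (p - 1) * (j + 1) = k + (j + 1) * p := by
      obtain ⟨q, rfl⟩ : ∃ q, p = q + 1 := ⟨p - 1, by omega⟩
      simp; ring
    rwa [e, hperm] at this
  obtain ⟨i, hi, hi'⟩ := hex
  have h1 := hit j i _ hi
  have h2 := hit (j + g) _ _ ((hgm (p - 1) i).1 hi)
  have e : i + (p - 1) * g + (j + g) = i + j + g * p := by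
    obtain ⟨q, rfl⟩ : ∃ q, p = q + 1 := ⟨p - 1, by omega⟩
    simp; ring
  rw [e, hperm] at h2
  exact hcl (i + j) hi' _ h2 _ h1

theorem finite_Wd_subsingleton {B : Set S} (h : B.Subsingleton) : (A.Wd B).Finite := by
  rcases B.eq_empty_or_nonempty with rfl | ⟨s, hs⟩
  · refine (Set.finite_singleton 1).subset ?_
    rintro g ⟨W, hW, rfl⟩
    cases W with
    | nil => rfl
    | cons t W => exact absurd (hW t (by simp)) (by simp)
  · refine ((Set.finite_singleton (A.gen s)).insert 1).subset ?_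
    rintro g ⟨W, hW, rfl⟩
    induction W with
    | nil => left; rfl
    | cons t W ih =>
      have ht : t = s := h (hW t (by simp)) hs
      subst ht
      rcases ih (fun u hu => hW u (by simp [hu])) with e | e
      · right; simp [e]
      · left; rw [ev_cons, e, gen_mul_self]

theorem finite_Wd [Finite S] (hs : ¬ A.Star) {B : Set S} (hB : B ≠ Set.univ) : (A.Wd B).Finite := by
  by_contra hi
  let T := {B : Set S // B ≠ Set.univ ∧ (A.Wd B).Infinite}
  have hch : ∀ B : T, ∃ B' : T, (∀ s ∈ B'.1, A.nx s ∈ B.1) ∧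
      (A.sg ∉ B.1 → ∀ s ∈ B'.1, ∀ t ∈ B'.1, A.cl s = A.cl t) := by
    intro B
    obtain ⟨B', h1, h2⟩ := A.exists_child B.2.1 B.2.2
    exact ⟨⟨B', h1⟩, h2⟩
  choose ch hch using hch
  obtain ⟨a, b, hab, e⟩ := Finite.exists_ne_map_eq_of_infinite (fun n => ch^[n] (⟨B, hB, hi⟩ : T))
  wlog hlt : a < b generalizing a b
  · exact this b a hab.symm e.symm (by omega)
  obtain ⟨q, rfl⟩ : ∃ q, b = q + 1 + a := ⟨b - a - 1, by omega⟩
  set B0 : T := ch^[a] ⟨B, hB, hi⟩ with hB0
  have hfix : ch^[q + 1] B0 = B0 := by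
    rw [hB0, ← Function.iterate_add_apply]; exact e.symm
  have hfixm : ∀ m, ch^[m * (q + 1)] B0 = B0 := by
    intro m
    induction m with
    | zero => simp
    | succ m ih => rw [Nat.succ_mul, Function.iterate_add_apply, hfix, ih]
  let C : ℕ → T := fun k => ch^[q * k] B0
  have hC : ∀ k, ch (C (k + 1)) = C k := by
    intro k
    show ch (ch^[q * (k + 1)] B0) = ch^[q * k] B0
    rw [← Function.iterate_succ_apply' ch]
    have : (q * (k + 1)).succ = q * k + (q + 1) := by simp [Nat.succ_eq_add_one]; ring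
    rw [this, Function.iterate_add_apply, hfix]
  have := A.chain_star (fun k => (C k).1) (q + 1) (by omega) (fun k => by
      show (ch^[q * (k + (q + 1))] B0).1 = (ch^[q * k] B0).1
      rw [mul_add, Function.iterate_add_apply, hfixm]) (C 0).2.1
    (fun k s h => (hch (C (k + 1))).1 s (by rw [hC]; exact h))
    (fun k h s h1 t h2 => (hch (C (k + 1))).2 h s (by rw [hC]; exact h1) t (by rw [hC]; exact h2))
  rcases this with h | h
  · exact hs h
  · exact (C 0).2.2 (A.finite_Wd_subsingleton h)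

end KA

end Pool.Agent.MP_61ef33_al
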