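import Pool.Agent.MP_61ef33_al.K1

/- Cuts of the state set, and closed walks of cuts of consecutive lengths (non-star case). -/

namespace Pool.Agent.MP_61ef33_al

namespace KA

variable {S : Type} (A : KA S)

/-- The cut separating the active state from the others. -/
noncomputable def cut0 : S → Bool := fun s => !A.isg s

/-- Pull-back of a cut into one class, normalised so that the active state is outside. -/
noncomputable def step (F : S → Bool) (x : Bool) : S → Bool := fun s =>
  xor (F (A.nx s) && (A.cl s == x)) (F (A.nx A.sg) && (A.cl A.sg == x))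

theorem step_sg (F : S → Bool) (x : Bool) : A.step F x A.sg = false := by simp [step]

noncomputable def walk (xs : List Bool) : S → Bool := xs.foldl A.step A.cut0

theorem walk_concat (xs : List Bool) (x : Bool) : A.walk (xs ++ [x]) = A.step (A.walk xs) x := by
  simp [walk]

theorem walk_sg (xs : List Bool) : A.walk xs A.sg = false := by
  induction xs using List.reverseRecOn with
  | nil => simp [walk, cut0]
  | append_singleton xs x _ => rw [walk_concat, step_sg]

theorem walk_append {xs : List Bool} (h : A.walk xs = A.cut0) (ys : List Bool) :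
    A.walk (xs ++ ys) = A.walk ys := by
  unfold walk at *
  rw [List.foldl_append, h]

/-- Some cut reached in `L` steps separates `r` from `B`. -/
def Lam (L : ℕ) (r : S) (B : Set S) : Prop :=
  ∃ xs : List Bool, xs.length = L ∧ ∀ b ∈ B, A.walk xs b ≠ A.walk xs r

theorem Lam.mono {L : ℕ} {r : S} {B B' : Set S} (h : A.Lam L r B) (hB : B' ⊆ B) : A.Lam L r B' := by
  obtain ⟨xs, h1, h2⟩ := h
  exact ⟨xs, h1, fun b hb => h2 b (hB hb)⟩

theorem Lam.symm {L : ℕ} {r t : S} (h : A.Lam L r {t}) : A.Lam L t {r} := by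
  obtain ⟨xs, h1, h2⟩ := h
  refine ⟨xs, h1, fun b hb => ?_⟩
  rw [Set.mem_singleton_iff.1 hb]
  exact (h2 t rfl).symm

theorem lam_zero (r : S) : A.Lam 0 (A.nx r) {A.sg} := by
  refine ⟨[], rfl, fun b hb => ?_⟩
  rw [Set.mem_singleton_iff.1 hb]
  simp [walk, cut0]

theorem lam_two {L : ℕ} {r : S} {B B' : Set S} (h : A.Lam L (A.nx r) B')
    (hB : ∀ b ∈ B, (A.cl b = A.cl r → A.nx b ∈ B') ∧ (A.cl b ≠ A.cl r → A.sg ∈ B')) :
    A.Lam (L + 1) r B := by
  obtain ⟨xs, h1, h2⟩ := h
  refine ⟨xs ++ [A.cl r], by simp [h1], fun b hb => ?_⟩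
  rw [walk_concat]
  simp only [step, ne_eq, Bool.xor_left_inj, BEq.rfl, Bool.and_true]
  by_cases hc : A.cl b = A.cl r
  · have := h2 _ ((hB b hb).1 hc)
    simpa [hc] using this
  · have := h2 _ ((hB b hb).2 hc)
    rw [walk_sg] at this
    have e : (A.cl b == A.cl r) = false := by simpa using hc
    simpa [e] using this

theorem lam_three {L : ℕ} {r : S} {B B' : Set S} (h : A.Lam L A.sg B')
    (hB : ∀ b ∈ B, A.cl b ≠ A.cl r ∧ A.nx b ∈ B') : A.Lam (L + 1) r B := by
  obtain ⟨xs, h1, h2⟩ := h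
  refine ⟨xs ++ [!A.cl r], by simp [h1], fun b hb => ?_⟩
  rw [walk_concat]
  have a := h2 _ (hB b hb).2
  rw [walk_sg] at a
  have a' : A.walk xs (A.nx b) = true := by simpa using a
  have c := (hB b hb).1
  simp only [step, ne_eq, Bool.xor_left_inj, a']
  revert c
  cases A.cl b <;> cases A.cl r <;> simp

/-- `r` is an extreme point with respect to `B`, in a strong form. -/
def Good (r : S) (B : Set S) : Prop :=
  ∃ i, ∀ L, A.Lam L (A.nx^[i + 1] r) {A.sg} → A.Lam (L + i + 1) r B

theorem good_pull {r : S} {B B' : Set S} (h : A.Good (A.nx r) B')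
    (hB : ∀ b ∈ B, (A.cl b = A.cl r → A.nx b ∈ B') ∧ (A.cl b ≠ A.cl r → A.sg ∈ B')) :
    A.Good r B := by
  obtain ⟨i, hi⟩ := h
  exact ⟨i + 1, fun L hL => A.lam_two (hi L hL) hB⟩

theorem good_base {r : S} {B : Set S} (hB : ∀ b ∈ B, A.cl b ≠ A.cl r) : A.Good r B :=
  ⟨0, fun _ hL => A.lam_two hL fun b hb => ⟨fun h => absurd h (hB b hb), fun _ => rfl⟩⟩

theorem good_pair {r t : S} (h : r ≠ t) : A.Good r {t} := by
  have : ∃ k, A.cl (A.nx^[k] r) ≠ A.cl (A.nx^[k] t) := by
    by_contra h'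
    push Not at h'
    exact h (A.hd _ _ h')
  obtain ⟨k, hk⟩ := this
  clear h
  induction k generalizing r t with
  | zero =>
    exact A.good_base fun b hb => by rw [Set.mem_singleton_iff.1 hb]; exact Ne.symm hk
  | succ k ih =>
    by_cases hc : A.cl t = A.cl r
    · refine A.good_pull (ih (r := A.nx r) (t := A.nx t) hk) fun b hb => ?_
      rw [Set.mem_singleton_iff.1 hb]
      exact ⟨fun _ => rfl, fun h => absurd hc h⟩
    · exact A.good_base fun b hb => by rw [Set.mem_singleton_iff.1 hb]; exact hc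

theorem extreme [DecidableEq S] (n : ℕ) : ∀ U : Finset S, U.card ≤ n → U.Nonempty → ∀ t ∉ U,
    ∃ r ∈ U, A.Good r {b | b = t ∨ (b ∈ U ∧ b ≠ r)} := by
  induction n with
  | zero =>
    intro U hU hne
    exact absurd (Finset.card_pos.2 hne) (by omega)
  | succ n ih =>
    have nonmono : ∀ U : Finset S, U.card ≤ n + 1 → (∃ u ∈ U, ∃ v ∈ U, A.cl u ≠ A.cl v) → ∀ t,
        ∃ r ∈ U, A.Good r {b | b = t ∨ (b ∈ U ∧ b ≠ r)} := by
      rintro U hU ⟨u, hu, v, hv, huv⟩ t
      have hex1 : ∃ w ∈ U, A.cl w ≠ A.cl t := by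
        by_cases h : A.cl u = A.cl t
        · exact ⟨v, hv, fun h' => huv (h.trans h'.symm)⟩
        · exact ⟨u, hu, h⟩
      have hex2 : ∃ w ∈ U, A.cl w = A.cl t := by
        by_cases h : A.cl u = A.cl t
        · exact ⟨u, hu, h⟩
        · refine ⟨v, hv, ?_⟩
          revert h huv
          cases A.cl u <;> cases A.cl v <;> cases A.cl t <;> simp
      set U1 := U.filter (fun w => A.cl w ≠ A.cl t) with hU1
      have hlt : U1.card < U.card := by
        apply Finset.card_lt_card
        rw [hU1, Finset.filter_ssubset]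
        obtain ⟨w, hw, h⟩ := hex2
        exact ⟨w, hw, by simpa using h⟩
      obtain ⟨r', hr', hg⟩ := ih (U1.image A.nx) ((Finset.card_image_le).trans (by omega))
        (by obtain ⟨w, hw, h⟩ := hex1; exact ⟨A.nx w, Finset.mem_image_of_mem _ (by simp [hU1, hw, h])⟩)
        A.sg (by simp [A.ha])
      obtain ⟨r, hr, rfl⟩ := Finset.mem_image.1 hr'
      have hr2 := Finset.mem_filter.1 hr
      refine ⟨r, hr2.1, A.good_pull hg fun b hb => ⟨fun hc => ?_, fun _ => Or.inl rfl⟩⟩
      rcases hb with rfl | ⟨hb1, hb2⟩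
      · exact absurd hc.symm hr2.2
      · exact Or.inr ⟨Finset.mem_image_of_mem _ (Finset.mem_filter.2 ⟨hb1, hc ▸ hr2.2⟩),
          fun e => hb2 (A.hb _ _ e hc)⟩
    intro U hU hne t ht
    by_cases hs : ∃ u ∈ U, ∃ v ∈ U, u ≠ v
    swap
    · push Not at hs
      obtain ⟨r, hr⟩ := hne
      refine ⟨r, hr, ?_⟩
      obtain ⟨i, hi⟩ := A.good_pair (r := r) (t := t) (fun e => ht (e ▸ hr))
      refine ⟨i, fun L hL => (hi L hL).mono A ?_⟩
      rintro b (rfl | ⟨h1, h2⟩)
      · rfl
      · exact absurd (hs b h1 r hr) h2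
    obtain ⟨u, hu, v, hv, huv⟩ := hs
    have : ∃ k, A.cl (A.nx^[k] u) ≠ A.cl (A.nx^[k] v) := by
      by_contra h'
      push Not at h'
      exact huv (A.hd _ _ h')
    obtain ⟨k, hk⟩ := this
    clear huv hne
    induction k generalizing U t u v with
    | zero => exact nonmono U hU ⟨u, hu, v, hv, hk⟩ t
    | succ k ihk =>
      by_cases hm : ∃ u ∈ U, ∃ v ∈ U, A.cl u ≠ A.cl v
      · exact nonmono U hU hm t
      push Not at hm
      obtain ⟨r', hr', hg⟩ := ihk (U.image A.nx) ((Finset.card_image_le).trans hU)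
        (if A.cl t = A.cl u then A.nx t else A.sg) (by
          split_ifs with h
          · intro h'
            obtain ⟨w, hw, e⟩ := Finset.mem_image.1 h'
            exact ht (A.hb _ _ e ((hm w hw u hu).trans h.symm) ▸ hw)
          · simp [A.ha]) (A.nx u) (Finset.mem_image_of_mem _ hu) (A.nx v)
          (Finset.mem_image_of_mem _ hv) hk
      obtain ⟨r, hr, rfl⟩ := Finset.mem_image.1 hr'
      refine ⟨r, hr, A.good_pull hg fun b hb => ?_⟩
      rcases hb with rfl | ⟨hb1, hb2⟩
      · constructor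
        · intro hc
          left; rw [if_pos (hc.trans (hm r hr u hu))]
        · intro hc
          left; rw [if_neg (fun h => hc (h.trans (hm u hu r hr)))]
      · exact ⟨fun hc => Or.inr ⟨Finset.mem_image_of_mem _ hb1, fun e => hb2 (A.hb _ _ e hc)⟩,
          fun hc => absurd (hm b hb1 r hr) hc⟩

theorem good_sg [Finite S] : A.Good A.sg {b | b ≠ A.sg} := by
  classical
  have := Fintype.ofFinite S
  obtain ⟨r, hr, hg⟩ := A.extreme _ (Finset.univ.erase A.sg) le_rfl
    ⟨A.nx A.sg, by simp [A.ha]⟩ A.sg (by simp)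
  have hg' : A.Good r {b | b ≠ r} := by
    obtain ⟨i, hi⟩ := hg
    refine ⟨i, fun L hL => (hi L hL).mono A fun b hb => ?_⟩
    by_cases h : b = A.sg
    · exact Or.inl h
    · exact Or.inr ⟨by simp [h], hb⟩
  obtain ⟨k, rfl⟩ := A.hc r
  clear hg hr
  induction k with
  | zero => exact hg'
  | succ k ih =>
    apply ih
    rw [Function.iterate_succ_apply'] at hg'
    exact A.good_pull hg' fun b hb =>
      ⟨fun hc e => hb (A.hb _ _ e hc), fun _ => (A.ha _).symm⟩

/-- There is a closed walk of length `L` at the basic cut. -/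
def Closed (L : ℕ) : Prop := ∃ xs : List Bool, xs.length = L ∧ A.walk xs = A.cut0

theorem closed_of_lam {L : ℕ} (h : A.Lam L A.sg {b | b ≠ A.sg}) : A.Closed L := by
  obtain ⟨xs, h1, h2⟩ := h
  refine ⟨xs, h1, funext fun s => ?_⟩
  by_cases hs : s = A.sg
  · subst hs; simp [walk_sg, cut0]
  · have := h2 s hs
    rw [walk_sg] at this
    simpa [cut0, A.isg_ne hs] using this

theorem Closed.add {a b : ℕ} (ha : A.Closed a) (hb : A.Closed b) : A.Closed (a + b) := by
  obtain ⟨xs, h1, h2⟩ := ha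
  obtain ⟨ys, h3, h4⟩ := hb
  exact ⟨xs ++ ys, by simp [h1, h3], by rw [A.walk_append h2, h4]⟩

theorem iter_ne_sg (q : ℕ) (r : S) : A.nx^[q + 1] r ≠ A.sg := by
  rw [Function.iterate_succ_apply']; exact A.ha _

theorem lam_chain {L j : ℕ} {r t : S} (hj : ∀ i < j, A.cl (A.nx^[i] r) = A.cl (A.nx^[i] t))
    (h : A.Lam L (A.nx^[j] r) {A.nx^[j] t}) : A.Lam (L + j) r {t} := by
  induction j generalizing r t with
  | zero => exact h
  | succ j ih =>
    have h1 := ih (r := A.nx r) (t := A.nx t) (fun i hi => hj (i + 1) (by omega)) h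
    refine A.lam_two h1 fun b hb => ?_
    rw [Set.mem_singleton_iff.1 hb]
    exact ⟨fun _ => rfl, fun hc => absurd (hj 0 (by omega)).symm hc⟩

/-- Closure of a set of naturals under differences. -/
inductive Dif (Q : ℕ → Prop) : ℕ → Prop
  | base {a : ℕ} : Q a → Dif Q a
  | sub {a b : ℕ} : Dif Q a → Dif Q b → b ≤ a → Dif Q (a - b)

theorem star_of_dvd [Finite S] {g : ℕ} (hg : 2 ≤ g) (h : ∀ L, A.Closed L → g ∣ L) : A.Star := by
  classical
  let Q : ℕ → Prop := fun q => 0 < q ∧ g ∣ q ∧ ∀ L, A.Lam L (A.nx^[q] A.sg) {A.sg} → g ∣ L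
  have hQ0 : ∃ q, Q q := by
    obtain ⟨i, hi⟩ := A.good_sg
    have h0 : g ∣ i + 1 := by
      have := h _ (A.closed_of_lam (hi 0 (by
        rw [Function.iterate_succ_apply']; exact A.lam_zero _)))
      simpa using this
    refine ⟨i + 1, by omega, h0, fun L hL => ?_⟩
    have := h _ (A.closed_of_lam (hi L hL))
    rw [add_assoc] at this
    exact (Nat.dvd_add_left h0).1 this
  have hstep : ∀ q, Q q → ∃ d, Q (d + 1) ∧ Q (q + (d + 1)) ∧
      ∀ i < d, A.cl (A.nx^[i + q] A.sg) = A.cl (A.nx^[i] A.sg) := by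
    rintro q ⟨hq0, hq1, hq2⟩
    have hex : ∃ k, A.cl (A.nx^[k] (A.nx^[q] A.sg)) ≠ A.cl (A.nx^[k] A.sg) := by
      by_contra h'
      push Not at h'
      obtain ⟨q', rfl⟩ : ∃ q', q = q' + 1 := ⟨q - 1, by omega⟩
      exact A.iter_ne_sg q' _ (A.hd _ _ h')
    let d := Nat.find hex
    have hd := Nat.find_spec hex
    have hmin : ∀ i < d, A.cl (A.nx^[i] (A.nx^[q] A.sg)) = A.cl (A.nx^[i] A.sg) := fun i hi =>
      not_not.1 (Nat.find_min hex hi)
    have e1 : A.nx (A.nx^[d] (A.nx^[q] A.sg)) = A.nx^[q + (d + 1)] A.sg := by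
      rw [add_comm q, Function.iterate_add_apply, Function.iterate_succ_apply']
    have k1 : ∀ L, A.Lam L (A.nx^[q + (d + 1)] A.sg) {A.sg} → g ∣ L + (d + 1) := by
      intro L hL
      rw [← e1] at hL
      have := A.lam_chain hmin (A.lam_two (B := {A.nx^[d] A.sg}) hL fun b hb => by
        rw [Set.mem_singleton_iff.1 hb]
        exact ⟨fun hc => absurd hc.symm hd, fun _ => rfl⟩)
      have := hq2 _ this
      rwa [show L + 1 + d = L + (d + 1) by ring] at this
    have k2 : ∀ L, A.Lam L (A.nx^[d + 1] A.sg) {A.sg} → g ∣ L + (d + 1) := by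
      intro L hL
      have := A.lam_chain hmin (A.lam_three (B := {A.nx^[d] A.sg}) (hL.symm A) fun b hb => by
        rw [Set.mem_singleton_iff.1 hb]
        exact ⟨Ne.symm hd, by rw [Function.iterate_succ_apply']; rfl⟩)
      have := hq2 _ this
      rwa [show L + 1 + d = L + (d + 1) by ring] at this
    have hd1 : g ∣ d + 1 := by
      have := k2 0 (by rw [Function.iterate_succ_apply']; exact A.lam_zero _)
      simpa using this
    refine ⟨d, ⟨by omega, hd1, fun L hL => (Nat.dvd_add_left hd1).1 (k2 L hL)⟩,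
      ⟨by omega, Dvd.dvd.add hq1 hd1, fun L hL => (Nat.dvd_add_left hd1).1 (k1 L hL)⟩,
      fun i hi => ?_⟩
    rw [Function.iterate_add_apply]; exact hmin i hi
  have hR0 : ∃ d, 0 < d ∧ Dif Q d := by
    obtain ⟨q, hq⟩ := hQ0
    exact ⟨q, hq.1, Dif.base hq⟩
  let p := Nat.find hR0
  have hp : 0 < p ∧ Dif Q p := Nat.find_spec hR0
  have hgR : ∀ a, Dif Q a → g ∣ a := by
    intro a ha
    induction ha with
    | base h => exact h.2.1
    | sub _ _ _ h1 h2 => exact Nat.dvd_sub h1 h2
  have hpR : ∀ a, Dif Q a → p ∣ a := by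
    intro a
    induction a using Nat.strong_induction_on with
    | _ a ih =>
      intro ha
      rcases Nat.eq_zero_or_pos a with rfl | h0
      · simp
      have hle : p ≤ a := Nat.find_min' hR0 ⟨h0, ha⟩
      have := ih (a - p) (by have := hp.1; omega) (Dif.sub ha hp.2 hle)
      have e : a = a - p + p := by omega
      rw [e]; exact Dvd.dvd.add this dvd_rfl
  have hQper : ∀ j, ¬ p ∣ j + 1 → ∀ q, Q q →
      A.cl (A.nx^[j + q] A.sg) = A.cl (A.nx^[j] A.sg) := by
    intro j
    induction j using Nat.strong_induction_on with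
    | _ j ih =>
      intro hj q hq
      obtain ⟨d, h1, h2, h3⟩ := hstep q hq
      rcases lt_trichotomy j d with hlt | rfl | hgt
      · exact h3 j hlt
      · exact absurd (hpR _ (Dif.base h1)) hj
      · obtain ⟨j', rfl⟩ : ∃ j', j = j' + (d + 1) := ⟨j - (d + 1), by omega⟩
        have hj' : ¬ p ∣ j' + 1 := fun hh => hj (by
          rw [show j' + (d + 1) + 1 = j' + 1 + (d + 1) by ring]
          exact Dvd.dvd.add hh (hpR _ (Dif.base h1)))
        rw [ih j' (by omega) hj' _ h1, ← ih j' (by omega) hj' _ h2]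
        congr 2; ring
  have hRper : ∀ a, Dif Q a → ∀ j, ¬ p ∣ j + 1 →
      A.cl (A.nx^[j + a] A.sg) = A.cl (A.nx^[j] A.sg) := by
    intro a ha
    induction ha with
    | base h => exact fun j hj => hQper j hj _ h
    | @sub a b ha hb hle h1 h2 =>
      intro j hj
      have hj' : ¬ p ∣ j + (a - b) + 1 := fun hh => hj (by
        rw [show j + (a - b) + 1 = (a - b) + (j + 1) by ring] at hh
        exact (Nat.dvd_add_right (hpR _ (Dif.sub ha hb hle))).1 hh)
      rw [← h2 _ hj', ← h1 j hj]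
      congr 2; omega
  refine ⟨p, ?_, hRper p hp.2⟩
  exact hg.trans (Nat.le_of_dvd hp.1 (hgR p hp.2))

theorem exists_closed [Finite S] (hs : ¬ A.Star) : ∃ L, A.Closed (L + 1) ∧ A.Closed (L + 2) := by
  classical
  have hpos : ∃ i, A.Closed (i + 1) := by
    obtain ⟨i, hi⟩ := A.good_sg
    have := A.closed_of_lam (hi 0 (by rw [Function.iterate_succ_apply']; exact A.lam_zero _))
    exact ⟨i, by simpa using this⟩
  have h0 : A.Closed 0 := ⟨[], rfl, rfl⟩
  have hex : ∃ d, 0 < d ∧ ∃ b, A.Closed b ∧ A.Closed (b + d) := by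
    obtain ⟨i, hi⟩ := hpos
    exact ⟨i + 1, by omega, 0, h0, by simpa using hi⟩
  let d := Nat.find hex
  have hd : 0 < d ∧ ∃ b, A.Closed b ∧ A.Closed (b + d) := Nat.find_spec hex
  have hdiv : ∀ a, (∃ b, A.Closed b ∧ A.Closed (b + a)) → d ∣ a := by
    intro a
    induction a using Nat.strong_induction_on with
    | _ a ih =>
      rintro ⟨b, hb1, hb2⟩
      rcases Nat.eq_zero_or_pos a with rfl | hp
      · simp
      have hle : d ≤ a := Nat.find_min' hex ⟨hp, b, hb1, hb2⟩
      obtain ⟨c, hc1, hc2⟩ := hd.2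
      have := ih (a - d) (by have := hd.1; omega) ⟨b + (c + d), hb1.add A hc2, by
        have := hb2.add A hc1
        rwa [show b + a + c = b + (c + d) + (a - d) by omega] at this⟩
      have e : a = a - d + d := by omega
      rw [e]; exact Dvd.dvd.add this dvd_rfl
  have hd1 : d = 1 := by
    by_contra h
    exact hs (A.star_of_dvd (g := d) (by have := hd.1; omega) fun L hL =>
      hdiv L ⟨0, h0, by simpa using hL⟩)
  obtain ⟨c, hc1, hc2⟩ := hd.2
  obtain ⟨i, hi⟩ := hpos
  rw [hd1] at hc2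
  refine ⟨c + i, hc1.add A hi, ?_⟩
  have := hc2.add A hi
  rwa [show c + 1 + (i + 1) = c + i + 2 by ring] at this

end KA

end Pool.Agent.MP_61ef33_al
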