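import Pool.Agent.MP_61ef33_al.K3

/- Periodic systems of cuts, crossing numbers. -/

namespace Pool.Agent.MP_61ef33_al

namespace KA

variable {S : Type} (A : KA S)

/-- A finite system of cuts closed under pull-back, containing two cycles through the basic cut,
of lengths `L` and `L + 1`. -/
structure CS (I : Type) where
  F : I → S → Bool
  pa : I ≃ I
  x : I → Bool
  hF : ∀ i, F i = A.step (F (pa i)) (x i)
  i0 : I
  i1 : I
  j0 : I
  j1 : I
  L : ℕ
  h0 : F i0 = A.cut0
  h1 : F i1 = A.cut0
  hj0 : pa j0 = i0
  hj1 : pa j1 = i1
  x0 : x j0 = false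
  x1 : x j1 = true
  hL0 : pa^[L] i0 = i0
  hL1 : pa^[L] i1 = j1

theorem step_cut0 (x : Bool) : A.step A.cut0 x = fun s => xor (A.cl s) (A.cl A.sg) := by
  funext s
  simp only [step, cut0, isg_nx]
  cases A.cl s <;> cases A.cl A.sg <;> cases x <;> rfl

theorem closed_head {L : ℕ} (h : A.Closed (L + 1)) (x : Bool) :
    ∃ xs : List Bool, xs.length = L + 1 ∧ A.walk xs = A.cut0 ∧ xs.getD 0 false = x := by
  obtain ⟨xs, h1, h2⟩ := h
  cases xs with
  | nil => simp at h1
  | cons y xs =>
    refine ⟨x :: xs, by simpa using h1, ?_, rfl⟩
    rw [← h2]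
    simp [walk, step_cut0]

theorem cyc {xs : List Bool} {n : ℕ} (hn : xs.length = n + 1) (hw : A.walk xs = A.cut0)
    (k : ZMod (n + 1)) : A.walk (xs.take k.val) =
      A.step (A.walk (xs.take (k - 1).val)) (xs.getD (k - 1).val false) := by
  have hm : (k - 1).val < n + 1 := ZMod.val_lt _
  have hk : k.val = ((k - 1).val + 1) % (n + 1) := by
    conv_lhs => rw [show k = (k - 1) + 1 by ring]
    rw [ZMod.val_add, ZMod.val_one_eq_one_mod]
    simp
  set m := (k - 1).val
  have h1 : A.walk (xs.take (m + 1)) = A.step (A.walk (xs.take m)) (xs.getD m false) := by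
    rw [List.take_add_one, ← walk_concat]
    congr 2
    rw [List.getD_eq_getElem _ _ (by omega), List.getElem?_eq_getElem (by omega)]
    rfl
  rw [← h1, hk]
  by_cases h : m + 1 < n + 1
  · rw [Nat.mod_eq_of_lt h]
  · have : m + 1 = n + 1 := by omega
    rw [this, Nat.mod_self, ← hn, List.take_length, hw]
    rfl

theorem exists_CS [Finite S] (hs : ¬ A.Star) :
    ∃ (I : Type) (_ : Fintype I), Nonempty (A.CS I) := by
  obtain ⟨L, hL0, hL1⟩ := A.exists_closed hs
  obtain ⟨xs, a1, a2, a3⟩ := A.closed_head hL0 false
  obtain ⟨ys, b1, b2, b3⟩ := A.closed_head hL1 true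
  let pa : ZMod (L + 1) ⊕ ZMod (L + 1 + 1) ≃ ZMod (L + 1) ⊕ ZMod (L + 1 + 1) :=
    Equiv.sumCongr (Equiv.subRight 1) (Equiv.subRight 1)
  have it0 : ∀ (m : ℕ) k, pa^[m] (Sum.inl k) = Sum.inl (k - m) := by
    intro m
    induction m with
    | zero => simp
    | succ m ih => intro k; rw [Function.iterate_succ_apply', ih]; simp [pa, sub_sub]
  have it1 : ∀ (m : ℕ) k, pa^[m] (Sum.inr k) = Sum.inr (k - m) := by
    intro m
    induction m with
    | zero => simp
    | succ m ih => intro k; rw [Function.iterate_succ_apply', ih]; simp [pa, sub_sub]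
  refine ⟨ZMod (L + 1) ⊕ ZMod (L + 1 + 1), inferInstance, ⟨⟨
    Sum.elim (fun k => A.walk (xs.take k.val)) (fun k => A.walk (ys.take k.val)), pa,
    Sum.elim (fun k => xs.getD (k - 1).val false) (fun k => ys.getD (k - 1).val false), ?_,
    Sum.inl 0, Sum.inr 0, Sum.inl 1, Sum.inr 1, L + 1, by simp [walk], by simp [walk],
    by simp [pa], by simp [pa], by simpa using a3, by simpa using b3, ?_, ?_⟩⟩⟩
  · rintro (k | k)
    · exact A.cyc a1 a2 k
    · exact A.cyc b1 b2 k
  · rw [it0]; simp
  · rw [it1]
    congr 1
    have : ((L + 1 + 1 : ℕ) : ZMod (L + 1 + 1)) = 0 := ZMod.natCast_self _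
    push_cast at this ⊢
    linear_combination -this

end KA

/-- Discrete distance on `Bool`. -/
def bd (a b : Bool) : ℕ := if a = b then 0 else 1

@[simp] theorem bd_self (a : Bool) : bd a a = 0 := by simp [bd]
theorem bd_le (a b : Bool) : bd a b ≤ 1 := by unfold bd; split_ifs <;> omega
theorem bd_tri (a b c : Bool) : bd a c ≤ bd a b + bd b c := by
  cases a <;> cases b <;> cases c <;> simp [bd]
theorem bd_xor (a b f : Bool) : bd (xor a f) (xor b f) = bd a b := by
  cases a <;> cases b <;> cases f <;> simp [bd]

/-- Number of changes along `a, l, b`. -/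
def crs : Bool → List Bool → Bool → ℕ
  | a, [], b => bd a b
  | a, c :: l, b => bd a c + crs c l b

@[simp] theorem crs_nil (a b : Bool) : crs a [] b = bd a b := rfl
@[simp] theorem crs_cons (a c b : Bool) (l : List Bool) : crs a (c :: l) b = bd a c + crs c l b :=
  rfl

theorem crs_left (a a' : Bool) (l : List Bool) (b : Bool) : crs a l b ≤ bd a a' + crs a' l b := by
  cases l with
  | nil => exact bd_tri _ _ _
  | cons c l => have := bd_tri a a' c; simp only [crs_cons]; omega

theorem crs_right (a : Bool) (l : List Bool) (b b' : Bool) : crs a l b ≤ crs a l b' + bd b' b := by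
  induction l generalizing a with
  | nil => exact bd_tri _ _ _
  | cons c l ih => have := ih c; simp only [crs_cons]; omega

theorem crs_ends (a a' : Bool) (l : List Bool) (b b' : Bool) : crs a l b ≤ crs a' l b' + 2 := by
  have h1 := crs_left a a' l b
  have h2 := crs_right a' l b b'
  have := bd_le a a'
  have := bd_le b' b
  omega

theorem crs_append_le (a m b : Bool) (l l' : List Bool) :
    crs a (l ++ l') b ≤ crs a l m + crs m l' b := by
  induction l generalizing a with
  | nil => exact crs_left _ _ _ _
  | cons c l ih => have := ih c; simp only [List.cons_append, crs_cons]; omega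

theorem crs_append_cons (a c b : Bool) (l l' : List Bool) :
    crs a (l ++ c :: l') b = crs a l c + crs c l' b := by
  induction l generalizing a with
  | nil => rfl
  | cons d l ih => simp only [List.cons_append, crs_cons, ih]; omega

theorem crs_sublist {l l' : List Bool} (h : l.Sublist l') (a b : Bool) : crs a l b ≤ crs a l' b := by
  induction h generalizing a with
  | slnil => exact le_rfl
  | cons c _ ih => exact (crs_left a c _ b).trans (by simpa using ih c)
  | cons_cons c _ ih => simpa using ih c

theorem crs_xor (a b f : Bool) (l : List Bool) :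
    crs (xor a f) (l.map fun c => xor c f) (xor b f) = crs a l b := by
  induction l generalizing a with
  | nil => exact bd_xor _ _ _
  | cons c l ih => simp only [List.map_cons, crs_cons, bd_xor, ih]

theorem crs_mod (a b : Bool) (l : List Bool) : crs a l b % 2 = bd a b := by
  induction l generalizing a with
  | nil => have := bd_le a b; simp only [crs_nil]; omega
  | cons c l ih =>
    have := ih c
    simp only [crs_cons]
    revert this
    cases a <;> cases b <;> cases c <;> simp [bd] <;> omega

theorem crs_le_length (a b : Bool) (l : List Bool) : crs a l b ≤ l.length + 1 := by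
  induction l generalizing a with
  | nil => simpa using bd_le a b
  | cons c l ih => have := ih c; have := bd_le a c; simp only [crs_cons, List.length_cons]; omega

theorem crs_const (a b c : Bool) (l : List Bool) (h : ∀ d ∈ l, d = c) : crs a l b ≤ 2 := by
  have : crs c l c = 0 := by
    induction l with
    | nil => simp
    | cons d l ih =>
      have e := h d (by simp)
      subst e
      simpa using ih fun e he => h e (by simp [he])
  have := crs_ends a c l b c
  omega

namespace KA

variable {S : Type} (A : KA S)

/-- The cut values seen at those letters that are read at the parity `e`. -/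
noncomputable def lifted (F : S → Bool) : Bool → List S → List Bool
  | _, [] => []
  | e, s :: W => (F s && !e) :: lifted F (xor e (A.isg s)) W

/-- Crossings of the cut `F` taking place at parity `e`. -/
noncomputable def Nc (F : S → Bool) (e a : Bool) (W : List S) (b : Bool) : ℕ :=
  crs (a && !e) (A.lifted F e W) (b && !(xor e (A.par W)))

theorem Nc_add {F : S → Bool} (hF : F A.sg = false) (e a : Bool) (W : List S) (b : Bool) :
    A.Nc F e a W b + A.Nc F (!e) a W b = crs a (W.map F) b := by
  unfold Nc
  induction W generalizing e a with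
  | nil => cases e <;> cases a <;> cases b <;> simp [lifted, bd]
  | cons s W ih =>
    by_cases h : s = A.sg
    · subst h
      have := ih (!e) false
      simp only [lifted, hF, isg_sg, par_cons, List.map_cons, crs_cons] at this ⊢
      rw [← this]
      cases e <;> cases a <;> simp [bd] <;> omega
    · have := ih e (F s)
      simp only [lifted, A.isg_ne h, par_cons, List.map_cons, crs_cons, Bool.xor_false,
        Bool.false_xor] at this ⊢
      rw [← this]
      cases e <;> cases a <;> cases F s <;> simp [bd] <;> omega

theorem sec_sublist (F : S → Bool) (x : Bool) (W : List S) (y : Bool) :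
    ((A.sec W y).map fun s => F (A.nx s) && (A.cl s == x)).Sublist (A.lifted F (xor x y) W) := by
  induction W generalizing y with
  | nil => simp [lifted]
  | cons s W ih =>
    rw [sec_cons, lifted, List.map_append, Bool.xor_assoc]
    cases e : A.prev y s with
    | none => simpa using (ih _).cons _
    | some t =>
      obtain ⟨h1, h2⟩ := A.prev_eq_some.1 e
      have : (F (A.nx t) && (A.cl t == x)) = (F s && !(xor x y)) := by
        rw [h1, h2]; cases x <;> cases y <;> rfl
      simpa [this] using ih _

theorem lifted_append (F : S → Bool) (e : Bool) (U V : List S) :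
    A.lifted F e (U ++ V) = A.lifted F e U ++ A.lifted F (xor e (A.par U)) V := by
  induction U generalizing e with
  | nil => simp [lifted]
  | cons s U ih => simp [lifted, ih]

end KA

end Pool.Agent.MP_61ef33_al
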