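import Pool.Agent.MP_61ef33_al.K4

/- Words with end positions, non-expansion, perfect words. -/

namespace Pool.Agent.MP_61ef33_al

/-- A word with an initial and a final position. -/
structure WT (S I : Type) where
  a : I → Bool
  W : List S
  b : I → Bool

def WT.comp {S I : Type} (t u : WT S I) : WT S I := ⟨t.a, t.W ++ u.W, u.b⟩

namespace KA.CS

variable {S I : Type} {A : KA S} (C : A.CS I)

noncomputable def fl (i : I) : Bool := C.F (C.pa i) (A.nx A.sg) && (A.cl A.sg == C.x i)

noncomputable def lp (a : I → Bool) (y : Bool) : I → Bool :=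
  fun i => xor (a (C.pa i) && (y == C.x i)) (C.fl i)

noncomputable def child (t : WT S I) (y : Bool) : WT S I :=
  ⟨C.lp t.a y, A.sec t.W y, C.lp t.b (xor y (A.par t.W))⟩

noncomputable def cr (i : I) (t : WT S I) : ℕ := crs (t.a i) (t.W.map (C.F i)) (t.b i)

noncomputable def N (i : I) (e : Bool) (t : WT S I) : ℕ := A.Nc (C.F i) e (t.a i) t.W (t.b i)

def pos (s : S) : I → Bool := fun i => C.F i s

theorem F_sg (i : I) : C.F i A.sg = false := by rw [C.hF, step_sg]

theorem N_add (i : I) (e : Bool) (t : WT S I) : C.N i e t + C.N i (!e) t = C.cr i t :=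
  A.Nc_add (C.F_sg i) _ _ _ _

theorem cr_child_le (j : I) (t : WT S I) (y : Bool) :
    C.cr j (C.child t y) ≤ C.N (C.pa j) (xor (C.x j) y) t := by
  have h := crs_sublist (A.sec_sublist (C.F (C.pa j)) (C.x j) t.W y)
    (t.a (C.pa j) && (y == C.x j)) (t.b (C.pa j) && (xor y (A.par t.W) == C.x j))
  rw [← crs_xor _ _ (C.fl j), List.map_map] at h
  have e : C.cr j (C.child t y) = crs (xor (t.a (C.pa j) && (y == C.x j)) (C.fl j))
      ((A.sec t.W y).map ((fun c => xor c (C.fl j)) ∘
        fun s => C.F (C.pa j) (A.nx s) && (A.cl s == C.x j)))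
      (xor (t.b (C.pa j) && (xor y (A.par t.W) == C.x j)) (C.fl j)) := by
    unfold cr child
    conv_lhs => rw [C.hF j]
    rfl
  rw [e]
  refine h.trans (le_of_eq ?_)
  unfold N Nc
  congr 2
  · cases y <;> cases C.x j <;> rfl
  · cases y <;> cases C.x j <;> cases A.par t.W <;> rfl

theorem child_comp (t u : WT S I) (y : Bool) :
    C.child (t.comp u) y = (C.child t y).comp (C.child u (xor y (A.par t.W))) := by
  simp [child, WT.comp, sec_append, par_append]

theorem cr_comp_le (i : I) {t u : WT S I} (h : t.b = u.a) :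
    C.cr i (t.comp u) ≤ C.cr i t + C.cr i u := by
  unfold cr WT.comp
  simp only [List.map_append]
  rw [← h]
  exact crs_append_le _ _ _ _ _

theorem N_comp_le (i : I) (e : Bool) {t u : WT S I} (h : t.b = u.a) :
    C.N i e (t.comp u) ≤ C.N i e t + C.N i (xor e (A.par t.W)) u := by
  unfold N Nc WT.comp
  simp only [lifted_append, par_append, ← Bool.xor_assoc]
  rw [← h]
  exact crs_append_le _ _ _ _ _

/-- Total crossings of a cut over all descendants of depth `D`. -/
noncomputable def crD (i : I) : ℕ → WT S I → ℕ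
  | 0, t => C.cr i t
  | D + 1, t => crD i D (C.child t false) + crD i D (C.child t true)

theorem crD_comp_le (i : I) (D : ℕ) {t u : WT S I} (h : t.b = u.a) :
    C.crD i D (t.comp u) ≤ C.crD i D t + C.crD i D u := by
  induction D generalizing t u with
  | zero => exact C.cr_comp_le i h
  | succ D ih =>
    simp only [crD, child_comp]
    have h1 := ih (t := C.child t false) (u := C.child u (xor false (A.par t.W)))
      (by simp [child, h])
    have h2 := ih (t := C.child t true) (u := C.child u (xor true (A.par t.W)))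
      (by simp [child, h])
    revert h1 h2
    cases A.par t.W <;> simp <;> omega

variable [Fintype I]

noncomputable def lenD (D : ℕ) (t : WT S I) : ℕ := ∑ i, C.crD i D t

noncomputable def len (t : WT S I) : ℕ := ∑ i, C.cr i t

theorem lenD_zero (t : WT S I) : C.lenD 0 t = C.len t := rfl

theorem lenD_succ (D : ℕ) (t : WT S I) :
    C.lenD (D + 1) t = C.lenD D (C.child t false) + C.lenD D (C.child t true) := by
  simp [lenD, crD, Finset.sum_add_distrib]

omit [Fintype I] in
theorem cr_child_add_le (j : I) (t : WT S I) :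
    C.cr j (C.child t false) + C.cr j (C.child t true) ≤ C.cr (C.pa j) t := by
  have h1 := C.cr_child_le j t false
  have h2 := C.cr_child_le j t true
  have h3 := C.N_add (C.pa j) (C.x j) t
  simp only [Bool.xor_false, Bool.xor_true] at h1 h2
  omega

theorem len_child_le (t : WT S I) : C.len (C.child t false) + C.len (C.child t true) ≤ C.len t := by
  unfold len
  rw [← Finset.sum_add_distrib, ← Equiv.sum_comp C.pa (fun i => C.cr i t)]
  exact Finset.sum_le_sum fun j _ => C.cr_child_add_le j t

theorem lenD_le (D : ℕ) (t : WT S I) : C.lenD D t ≤ C.len t := by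
  induction D generalizing t with
  | zero => exact le_rfl
  | succ D ih =>
    rw [lenD_succ]
    exact (Nat.add_le_add (ih _) (ih _)).trans (C.len_child_le t)

theorem lenD_comp_le (D : ℕ) {t u : WT S I} (h : t.b = u.a) :
    C.lenD D (t.comp u) ≤ C.lenD D t + C.lenD D u := by
  unfold lenD
  rw [← Finset.sum_add_distrib]
  exact Finset.sum_le_sum fun i _ => C.crD_comp_le i D h

theorem len_comp_le {t u : WT S I} (h : t.b = u.a) : C.len (t.comp u) ≤ C.len t + C.len u :=
  C.lenD_comp_le 0 h

/-- No crossing is lost at any depth. -/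
def Perf (t : WT S I) : Prop := ∀ D, C.lenD D t = C.len t

variable {C}

theorem Perf.child {t : WT S I} (h : C.Perf t) (y : Bool) : C.Perf (C.child t y) := by
  intro D
  have h1 := h (D + 1)
  rw [lenD_succ] at h1
  have h2 := C.lenD_le D (C.child t false)
  have h3 := C.lenD_le D (C.child t true)
  have h4 := C.len_child_le t
  cases y <;> omega

theorem Perf.cr_child {t : WT S I} (h : C.Perf t) (j : I) (y : Bool) :
    C.cr j (C.child t y) = C.N (C.pa j) (xor (C.x j) y) t := by
  have h1 := h 1
  rw [lenD_succ, lenD_zero, lenD_zero] at h1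
  unfold len at h1
  rw [← Finset.sum_add_distrib, ← Equiv.sum_comp C.pa (fun i => C.cr i t)] at h1
  have h2 := (Finset.sum_eq_sum_iff_of_le fun j _ => C.cr_child_add_le j t).1 h1 j
    (Finset.mem_univ _)
  have a1 := C.cr_child_le j t false
  have a2 := C.cr_child_le j t true
  have h3 := C.N_add (C.pa j) (C.x j) t
  simp only [Bool.xor_false, Bool.xor_true] at a1 a2
  cases y
  · simp only [Bool.xor_false]; omega
  · simp only [Bool.xor_true]; omega

theorem Perf.crD {t : WT S I} (h : C.Perf t) (i : I) (D : ℕ) :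
    C.crD i D t = C.cr (C.pa^[D] i) t := by
  induction D generalizing t with
  | zero => rfl
  | succ D ih =>
    rw [CS.crD, ih (h.child _), ih (h.child _), h.cr_child, h.cr_child,
      Function.iterate_succ_apply', ← C.N_add _ (C.x (C.pa^[D] i))]
    simp

variable (C) in
/-- Lengths add up. -/
def Add (t u : WT S I) : Prop := t.b = u.a ∧ C.len (t.comp u) = C.len t + C.len u

theorem Add.cr {t u : WT S I} (h : C.Add t u) (i : I) : C.cr i (t.comp u) = C.cr i t + C.cr i u := by
  have h1 := h.2
  unfold len at h1
  rw [← Finset.sum_add_distrib] at h1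
  exact (Finset.sum_eq_sum_iff_of_le fun j _ => C.cr_comp_le j h.1).1 h1 i (Finset.mem_univ _)

theorem Add.N {t u : WT S I} (h : C.Add t u) (i : I) (e : Bool) :
    C.N i e (t.comp u) = C.N i e t + C.N i (xor e (A.par t.W)) u := by
  have h1 := h.cr i
  have h2 := C.N_comp_le i e h.1
  have h3 := C.N_comp_le i (!e) h.1
  have h4 := C.N_add i e t
  have h5 := C.N_add i (xor e (A.par t.W)) u
  have h6 := C.N_add i e (t.comp u)
  rw [Bool.not_xor] at h3
  omega

theorem Add.perf_left {t u : WT S I} (h : C.Add t u) (hp : C.Perf (t.comp u)) : C.Perf t := by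
  intro D
  have h1 := hp D
  have h2 := C.lenD_comp_le D h.1
  have h3 := C.lenD_le D t
  have h4 := C.lenD_le D u
  have := h.2
  omega

theorem Add.perf_right {t u : WT S I} (h : C.Add t u) (hp : C.Perf (t.comp u)) : C.Perf u := by
  intro D
  have h1 := hp D
  have h2 := C.lenD_comp_le D h.1
  have h3 := C.lenD_le D t
  have h4 := C.lenD_le D u
  have := h.2
  omega

theorem Add.child {t u : WT S I} (h : C.Add t u) (hp : C.Perf (t.comp u)) (y : Bool) :
    C.Add (C.child t y) (C.child u (xor y (A.par t.W))) := by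
  have hm : ∀ y, (C.child t y).b = (C.child u (xor y (A.par t.W))).a := fun y => by
    simp [CS.child, h.1]
  refine ⟨hm y, ?_⟩
  have h1 := hp 1
  rw [lenD_succ, lenD_zero, lenD_zero, child_comp, child_comp] at h1
  have h2 := C.len_comp_le (hm false)
  have h3 := C.len_comp_le (hm true)
  have h4 := C.len_child_le t
  have h5 := C.len_child_le u
  have := h.2
  revert h1 h2 h3
  cases y <;> cases A.par t.W <;> simp <;> omega

variable (C) in
theorem add_cut (a b : I → Bool) (U V : List S) (w : S) :
    C.Add ⟨a, U, C.pos w⟩ ⟨C.pos w, w :: V, b⟩ := by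
  refine ⟨rfl, ?_⟩
  unfold len
  rw [← Finset.sum_add_distrib]
  refine Finset.sum_congr rfl fun i _ => ?_
  simp [CS.cr, WT.comp, crs_append_cons, pos]

end KA.CS

end Pool.Agent.MP_61ef33_al
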