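import Pool.Agent.MP_61ef33_al.K5

/- Perfect words are determined by their two ends. -/

namespace Pool.Agent.MP_61ef33_al

theorem crs_right_diff (a b b' : Bool) (l0 l : List Bool) (hl : l ≠ []) :
    crs a (l0 ++ l) b + crs false l b' = crs a (l0 ++ l) b' + crs false l b := by
  obtain ⟨c, l, rfl⟩ := List.exists_cons_of_ne_nil hl
  simp only [crs_append_cons, crs_cons]
  omega

theorem crs_diff (a a' b b' : Bool) (l1 l l2 : List Bool) (h1 : l1 ≠ []) (h2 : l2 ≠ []) :
    (crs a (l1 ++ (l ++ l2)) b : ℤ) - crs a' (l1 ++ (l ++ l2)) b' =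
      ((crs a l1 false : ℤ) - crs a' l1 false) + ((crs false l2 b : ℤ) - crs false l2 b') := by
  obtain ⟨c, l1, rfl⟩ := List.exists_cons_of_ne_nil h1
  have := crs_right_diff c b b' (l1 ++ l) l2 h2
  simp only [List.cons_append, crs_cons, ← List.append_assoc]
  omega

namespace KA.CS

variable {S I : Type} {A : KA S} (C : A.CS I)

theorem F_j : C.F C.j0 = C.F C.j1 := by
  rw [C.hF C.j0, C.hF C.j1, C.hj0, C.hj1, C.h0, C.h1, step_cut0, step_cut0]

theorem fl_j0 : C.fl C.j0 = !A.cl A.sg := by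
  simp only [fl, C.hj0, C.h0, C.x0, cut0, isg_nx]
  cases A.cl A.sg <;> rfl

theorem fl_j1 : C.fl C.j1 = A.cl A.sg := by
  simp only [fl, C.hj1, C.h1, C.x1, cut0, isg_nx]
  cases A.cl A.sg <;> rfl

/-- The size parameter. -/
noncomputable def n (t : WT S I) : ℕ := C.cr C.i1 t

/-- All descendants of depth `D` have nonempty words. -/
def NE : ℕ → WT S I → Prop
  | 0, t => t.W ≠ []
  | D + 1, t => NE D (C.child t false) ∧ NE D (C.child t true)

noncomputable def al : ℕ → WT S I → ℤ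
  | 0, t => (crs (t.a C.i0) (t.W.map A.cut0) false : ℤ) - crs (t.a C.i1) (t.W.map A.cut0) false
  | D + 1, t => al D (C.child t false) + al D (C.child t true)

noncomputable def be : ℕ → WT S I → ℤ
  | 0, t => (crs false (t.W.map A.cut0) (t.b C.i0) : ℤ) - crs false (t.W.map A.cut0) (t.b C.i1)
  | D + 1, t => be D (C.child t false) + be D (C.child t true)

theorem crD_diff (D : ℕ) {P m Y : WT S I} (hP : C.NE D P) (hY : C.NE D Y) :
    (C.crD C.i0 D (P.comp (m.comp Y)) : ℤ) - C.crD C.i1 D (P.comp (m.comp Y)) =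
      C.al D P + C.be D Y := by
  induction D generalizing P m Y with
  | zero =>
    simp only [crD, cr, WT.comp, C.h0, C.h1, List.map_append, al, be]
    exact crs_diff _ _ _ _ _ _ _ (by simpa [NE] using hP) (by simpa [NE] using hY)
  | succ D ih =>
    have hY' : ∀ y, C.NE D (C.child Y y) := fun y => by cases y; exact hY.1; exact hY.2
    have h1 := ih (m := C.child m (xor false (A.par P.W))) hP.1
      (hY' (xor (xor false (A.par P.W)) (A.par m.W)))
    have h2 := ih (m := C.child m (xor true (A.par P.W))) hP.2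
      (hY' (xor (xor true (A.par P.W)) (A.par m.W)))
    simp only [crD, child_comp, al, be]
    push_cast
    revert h1 h2
    cases A.par P.W <;> cases A.par m.W <;> simp <;> omega

theorem crD_bd (D : ℕ) (t : WT S I) : C.crD C.i0 D t ≤ C.crD C.i1 D t + 2 * 2 ^ D ∧
    C.crD C.i1 D t ≤ C.crD C.i0 D t + 2 * 2 ^ D := by
  induction D generalizing t with
  | zero =>
    simp only [crD, cr, C.h0, C.h1]
    exact ⟨crs_ends _ _ _ _ _, crs_ends _ _ _ _ _⟩
  | succ D ih =>
    have h1 := ih (C.child t false)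
    have h2 := ih (C.child t true)
    simp only [crD, pow_succ]
    omega

/-- The additive error in the halving of the size. -/
def c3 : ℕ := 4 * 2 ^ C.L + 8

/-- Thresholds. -/
def th : ℕ → ℕ
  | 0 => 3
  | k + 1 => 2 * th k + C.c3

theorem th_ge (k : ℕ) : 3 ≤ C.th k := by
  induction k with
  | zero => exact le_rfl
  | succ k ih => simp only [th]; omega

theorem th_mono {k l : ℕ} (h : k ≤ l) : C.th k ≤ C.th l := by
  induction h with
  | refl => exact le_rfl
  | step _ ih => simp only [th]; omega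

theorem th_le (k : ℕ) : C.th k + C.c3 ≤ 2 ^ k * (3 + C.c3) := by
  induction k with
  | zero => simp [th]
  | succ k ih => simp only [th, pow_succ]; nlinarith

theorem exists_letter {t : WT S I} (h : 3 ≤ C.n t) : ∃ w ∈ t.W, w ≠ A.sg := by
  by_contra h'
  push Not at h'
  have := crs_const (t.a C.i1) (t.b C.i1) false (t.W.map (C.F C.i1)) (by
    intro d hd
    obtain ⟨s, hs, rfl⟩ := List.mem_map.1 hd
    rw [h' s hs, F_sg])
  unfold n cr at h
  omega

variable [Fintype I] {C}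

theorem Perf.halve {t : WT S I} (h : C.Perf t) (y : Bool) :
    2 * C.n (C.child t y) ≤ C.n t + C.c3 ∧ C.n t ≤ 2 * C.n (C.child t y) + C.c3 := by
  have hc := h.child y
  have a1 := hc.crD C.i0 C.L
  have a2 := hc.crD C.i1 C.L
  rw [C.hL0] at a1
  rw [C.hL1] at a2
  have a3 := C.crD_bd C.L (C.child t y)
  have a4 := C.crD_bd 0 (C.child t y)
  simp only [CS.crD] at a4
  have a5 := h.cr_child C.j1 y
  have a6 := h.cr_child C.j1 false
  have a7 := h.cr_child C.j0 false
  rw [C.hj1, C.x1] at a5 a6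
  rw [C.hj0, C.x0] at a7
  have a8 : C.cr C.j0 (C.child t false) ≤ C.cr C.j1 (C.child t false) + 2 ∧
      C.cr C.j1 (C.child t false) ≤ C.cr C.j0 (C.child t false) + 2 := by
    simp only [cr, C.F_j]
    exact ⟨crs_ends _ _ _ _ _, crs_ends _ _ _ _ _⟩
  have a9 : C.N C.i0 false t ≤ C.N C.i1 false t + 2 ∧ C.N C.i1 false t ≤ C.N C.i0 false t + 2 := by
    simp only [N, Nc, C.h0, C.h1]
    exact ⟨crs_ends _ _ _ _ _, crs_ends _ _ _ _ _⟩
  have a10 := C.N_add C.i1 false t
  unfold n c3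
  cases y <;> simp only [Bool.xor_false, Bool.xor_self, Bool.not_false] at * <;> omega

theorem Perf.th_child {t : WT S I} (h : C.Perf t) {k : ℕ} (hk : C.th (k + 1) ≤ C.n t) (y : Bool) :
    C.th k ≤ C.n (C.child t y) := by
  have := h.halve y
  simp only [th] at hk
  omega

theorem Perf.ne {t : WT S I} (h : C.Perf t) {k : ℕ} (hk : C.th k ≤ C.n t) : C.NE k t := by
  induction k generalizing t with
  | zero =>
    obtain ⟨w, hw, _⟩ := C.exists_letter hk
    exact List.ne_nil_of_mem hw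
  | succ k ih => exact ⟨ih (h.child _) (h.th_child hk _), ih (h.child _) (h.th_child hk _)⟩

theorem Perf.mid {t : WT S I} (h : C.Perf t) (a0 : t.a C.i0 = true) (a1 : t.a C.i1 = true)
    (b0 : t.b C.i0 = true) (b1 : t.b C.i1 = true) :
    C.N C.i1 false t = C.N C.i1 true t ∧ C.N C.i1 true t % 2 = bd false (A.par t.W) := by
  constructor
  · have a6 := h.cr_child C.j1 false
    have a7 := h.cr_child C.j0 false
    rw [C.hj1, C.x1] at a6
    rw [C.hj0, C.x0] at a7
    have e1 : C.N C.i0 false t = C.N C.i1 false t := by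
      simp only [N, C.h0, C.h1, a0, a1, b0, b1]
    have e2 : C.cr C.j0 (C.child t false) = C.cr C.j1 (C.child t false) := by
      simp only [cr, C.F_j, CS.child, lp, C.hj0, C.hj1, C.x0, C.x1, a0, a1, b0, b1, fl_j0, fl_j1]
      congr 1
      · cases A.cl A.sg <;> rfl
      · cases A.cl A.sg <;> cases A.par t.W <;> rfl
    simp only [Bool.xor_false] at a6 a7
    omega
  · simp only [N, Nc, crs_mod, a1, b1]
    cases A.par t.W <;> rfl

theorem stepA {a b : I → Bool} {P1 M M' Y2 : List S} {w w' : S} (hw : w ≠ A.sg) (hw' : w' ≠ A.sg)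
    (h : C.Perf ⟨a, P1 ++ w :: (M ++ w' :: Y2), b⟩) (h' : C.Perf ⟨a, P1 ++ w :: (M' ++ w' :: Y2), b⟩)
    (hn : C.n ⟨a, P1 ++ w :: (M ++ w' :: Y2), b⟩ = C.n ⟨a, P1 ++ w :: (M' ++ w' :: Y2), b⟩) :
    A.par M = A.par M' ∧ ∀ e, C.N C.i1 e ⟨a, P1 ++ w :: (M ++ w' :: Y2), b⟩ =
      C.N C.i1 e ⟨a, P1 ++ w :: (M' ++ w' :: Y2), b⟩ := by
  have key : ∀ M : List S, C.Perf ⟨a, P1 ++ w :: (M ++ w' :: Y2), b⟩ →
      ∃ k, k % 2 = bd false (A.par M) ∧ C.n ⟨a, P1 ++ w :: (M ++ w' :: Y2), b⟩ =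
        C.n ⟨a, P1, C.pos w⟩ + 2 * k + C.n ⟨C.pos w', w' :: Y2, b⟩ ∧
      ∀ e, C.N C.i1 e ⟨a, P1 ++ w :: (M ++ w' :: Y2), b⟩ = C.N C.i1 e ⟨a, P1, C.pos w⟩ + k +
        C.N C.i1 (xor (xor e (A.par P1)) (A.par M)) ⟨C.pos w', w' :: Y2, b⟩ := by
    intro M h
    have ad1 := C.add_cut a b P1 (M ++ w' :: Y2) w
    have ad2 := C.add_cut (C.pos w) b (w :: M) Y2 w'
    have p1 := ad1.perf_right h
    have p2 := ad2.perf_left p1
    have hm := p2.mid (by simp [pos, C.h0, cut0, A.isg_ne hw]) (by simp [pos, C.h1, cut0, A.isg_ne hw])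
      (by simp [pos, C.h0, cut0, A.isg_ne hw']) (by simp [pos, C.h1, cut0, A.isg_ne hw'])
    have hpar : A.par (w :: M) = A.par M := by simp [A.isg_ne hw]
    refine ⟨C.N C.i1 true ⟨C.pos w, w :: M, C.pos w'⟩, by rw [hm.2, hpar], ?_, fun e => ?_⟩
    · have e1 := ad1.cr C.i1
      have e2 := ad2.cr C.i1
      have e3 := C.N_add C.i1 false ⟨C.pos w, w :: M, C.pos w'⟩
      simp only [WT.comp, List.cons_append, Bool.not_false] at e1 e2 e3
      unfold n
      omega
    · have e1 := ad1.N C.i1 e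
      have e2 := ad2.N C.i1 (xor e (A.par P1))
      simp only [WT.comp, List.cons_append, hpar] at e1 e2
      rw [e1, e2]
      have := hm.1
      cases xor e (A.par P1) <;> omega
  obtain ⟨k, k1, k2, k3⟩ := key M h
  obtain ⟨k', k1', k2', k3'⟩ := key M' h'
  have hk : k = k' := by omega
  have hp : A.par M = A.par M' := by
    rw [hk, k1'] at k1
    revert k1
    cases A.par M <;> cases A.par M' <;> simp [bd]
  exact ⟨hp, fun e => by rw [k3, k3', hk, hp]⟩

variable (C) in
/-- A perfect additive triple product. -/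
structure Tri (P m Y : WT S I) : Prop where
  ad2 : C.Add m Y
  ad1 : C.Add P (m.comp Y)
  perf : C.Perf (P.comp (m.comp Y))

theorem Tri.pP {P m Y : WT S I} (h : C.Tri P m Y) : C.Perf P := h.ad1.perf_left h.perf
theorem Tri.pm {P m Y : WT S I} (h : C.Tri P m Y) : C.Perf m :=
  h.ad2.perf_left (h.ad1.perf_right h.perf)
theorem Tri.pY {P m Y : WT S I} (h : C.Tri P m Y) : C.Perf Y :=
  h.ad2.perf_right (h.ad1.perf_right h.perf)

theorem Tri.n_eq {P m Y : WT S I} (h : C.Tri P m Y) :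
    C.n (P.comp (m.comp Y)) = C.n P + C.n m + C.n Y := by
  unfold n
  rw [h.ad1.cr, h.ad2.cr, add_assoc]

theorem Tri.child {P m Y : WT S I} (h : C.Tri P m Y) (y : Bool) :
    C.Tri (C.child P y) (C.child m (xor y (A.par P.W)))
      (C.child Y (xor (xor y (A.par P.W)) (A.par m.W))) := by
  refine ⟨h.ad2.child (h.ad1.perf_right h.perf) _, ?_, ?_⟩
  · rw [← child_comp]; exact h.ad1.child h.perf y
  · rw [← child_comp, ← child_comp]; exact h.perf.child y

theorem one_step {P m m' Y : WT S I} (h : C.Tri P m Y) (h' : C.Tri P m' Y) (hn : C.n m = C.n m')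
    (hP : C.th (C.L + 1) ≤ C.n P) (hY : C.th (C.L + 1) ≤ C.n Y) :
    A.par m.W = A.par m'.W ∧ ∀ y, C.n (C.child m y) = C.n (C.child m' y) := by
  obtain ⟨w, hw1, hw⟩ := C.exists_letter ((C.th_ge _).trans hP)
  obtain ⟨w', hw1', hw'⟩ := C.exists_letter ((C.th_ge _).trans hY)
  obtain ⟨P1, P2, eP⟩ := List.append_of_mem hw1
  obtain ⟨Y1, Y2, eY⟩ := List.append_of_mem hw1'
  have e : ∀ m : WT S I, P.comp (m.comp Y) =
      ⟨P.a, P1 ++ w :: ((P2 ++ m.W ++ Y1) ++ w' :: Y2), Y.b⟩ := fun m => by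
    simp [WT.comp, eP, eY]
  have hnn : C.n (P.comp (m.comp Y)) = C.n (P.comp (m'.comp Y)) := by rw [h.n_eq, h'.n_eq, hn]
  have sA := stepA (C := C) (a := P.a) (b := Y.b) (P1 := P1) (Y2 := Y2) (M := P2 ++ m.W ++ Y1)
    (M' := P2 ++ m'.W ++ Y1) hw hw' (e m ▸ h.perf) (e m' ▸ h'.perf) (by rw [← e, ← e]; exact hnn)
  rw [← e, ← e] at sA
  have hp : A.par m.W = A.par m'.W := by
    have := sA.1
    simp only [par_append] at this
    revert this
    cases A.par P2 <;> cases A.par Y1 <;> cases A.par m.W <;> cases A.par m'.W <;> simp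
  refine ⟨hp, fun y' => ?_⟩
  obtain ⟨y, rfl⟩ : ∃ y, y' = xor y (A.par P.W) := ⟨xor y' (A.par P.W), by simp⟩
  have t1 := h.child y
  have t2 := h'.child y
  rw [← hp] at t2
  have key : ∀ m : WT S I, ∀ z, C.Tri (C.child P y) m (C.child Y z) →
      (C.n ((C.child P y).comp (m.comp (C.child Y z))) : ℤ) =
        C.cr C.j1 ((C.child P y).comp (m.comp (C.child Y z))) +
        (C.al C.L (C.child P y) + C.be C.L (C.child Y z)) -
        (C.al 0 (C.child P y) + C.be 0 (C.child Y z)) := by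
    intro m z t
    have b1 := h.pP.th_child hP y
    have b2 := h.pY.th_child hY z
    have d1 := C.crD_diff C.L (m := m) (t.pP.ne b1) (t.pY.ne b2)
    have d0 := C.crD_diff 0 (m := m) (t.pP.ne ((C.th_mono (Nat.zero_le _)).trans b1))
      (t.pY.ne ((C.th_mono (Nat.zero_le _)).trans b2))
    rw [t.perf.crD, t.perf.crD, C.hL0, C.hL1] at d1
    simp only [CS.crD] at d0
    unfold n
    omega
  have k1 := key _ _ t1
  have k2 := key _ _ t2
  have j1 := h.perf.cr_child C.j1 y
  have j2 := h'.perf.cr_child C.j1 y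
  rw [C.hj1] at j1 j2
  rw [child_comp, child_comp] at j1 j2
  rw [← hp] at j2
  rw [sA.2] at j1
  have n1 := t1.n_eq
  have n2 := t2.n_eq
  omega

theorem same_levels (d : ℕ) {P m m' Y : WT S I} (h : C.Tri P m Y) (h' : C.Tri P m' Y)
    (hn : C.n m = C.n m') (hP : C.th (d + C.L + 1) ≤ C.n P) (hY : C.th (d + C.L + 1) ≤ C.n Y)
    (v : List Bool) (hv : v.length ≤ d) : A.ev m.W v = A.ev m'.W v := by
  induction d generalizing P m m' Y v with
  | zero =>
    have : v = [] := by simpa using hv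
    simp [this]
  | succ d ih =>
    cases v with
    | nil => simp
    | cons y' v =>
      have os := one_step h h' hn ((C.th_mono (by omega)).trans hP) ((C.th_mono (by omega)).trans hY)
      obtain ⟨y, rfl⟩ : ∃ y, y' = xor y (A.par P.W) := ⟨xor y' (A.par P.W), by simp⟩
      have t1 := h.child y
      have t2 := h'.child y
      rw [← os.1] at t2
      have e : d + 1 + C.L + 1 = d + C.L + 1 + 1 := by ring
      have := ih t1 t2 (os.2 _) (h.pP.th_child (e ▸ hP) _) (h.pY.th_child (e ▸ hY) _) v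
        (by simpa using hv)
      rw [ev_apply_cons, ev_apply_cons, ← os.1]
      congr 1

theorem key_lemma {c0 : ℕ} (hc0 : ∀ m m' : WT S I, C.n m ≤ C.c3 + 1 → C.n m' ≤ C.c3 + 1 →
      (∀ v : List Bool, v.length ≤ c0 → A.ev m.W v = A.ev m'.W v) → A.ev m.W = A.ev m'.W)
    (j : ℕ) {P m m' Y : WT S I} (h : C.Tri P m Y) (h' : C.Tri P m' Y)
    (hn : C.n m = C.n m') (hm : C.n m ≤ 2 ^ j + C.c3) (hP : C.th (j + c0 + C.L + 1) ≤ C.n P)
    (hY : C.th (j + c0 + C.L + 1) ≤ C.n Y) : A.ev m.W = A.ev m'.W := by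
  induction j generalizing P m m' Y with
  | zero =>
    refine hc0 m m' (by omega) (by omega) fun v hv => same_levels c0 h h' hn ?_ ?_ v hv
    · simpa using hP
    · simpa using hY
  | succ j ih =>
    have os := one_step h h' hn ((C.th_mono (by omega)).trans hP) ((C.th_mono (by omega)).trans hY)
    refine A.ev_eq_of_sec os.1 fun y' => ?_
    obtain ⟨y, rfl⟩ : ∃ y, y' = xor y (A.par P.W) := ⟨xor y' (A.par P.W), by simp⟩
    have t1 := h.child y
    have t2 := h'.child y
    rw [← os.1] at t2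
    have e : j + 1 + c0 + C.L + 1 = j + c0 + C.L + 1 + 1 := by ring
    have hh := (h.pm.halve (xor y (A.par P.W))).1
    exact ih t1 t2 (os.2 _) (by rw [pow_succ] at hm; omega) (h.pP.th_child (e ▸ hP) _)
      (h.pY.th_child (e ▸ hY) _)

end KA.CS

end Pool.Agent.MP_61ef33_al
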