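import Mathlib

/- Exponential growth rates of counting functions; an incompressibility criterion. -/

namespace Pool.Agent.MP_61ef33_al

open Real

def cnt {X : Type} (s : Set X) (f : X → ℕ) (n : ℕ) : Set X := {x | x ∈ s ∧ f x ≤ n}

/-- The counting function of `f` on `s` has exponential rate at most `t`. -/
def Rate {X : Type} (s : Set X) (f : X → ℕ) (t : ℝ) : Prop :=
  ∀ δ > 0, ∃ K : ℝ, ∀ n : ℕ, (cnt s f n).Finite ∧ ((cnt s f n).ncard : ℝ) ≤ K * exp ((t + δ) * n)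

theorem Rate.pos {X : Type} {s : Set X} {f : X → ℕ} {t : ℝ} (h : Rate s f t) (δ : ℝ) (hδ : 0 < δ) :
    ∃ K : ℝ, 0 ≤ K ∧ ∀ n : ℕ, (cnt s f n).Finite ∧
      ((cnt s f n).ncard : ℝ) ≤ K * exp ((t + δ) * n) := by
  obtain ⟨K, hK⟩ := h δ hδ
  refine ⟨K, ?_, hK⟩
  have := (hK 0).2
  simp only [Nat.cast_zero, mul_zero, exp_zero, mul_one] at this
  exact (Nat.cast_nonneg _).trans this

theorem Rate.mono {X : Type} {s : Set X} {f : X → ℕ} {t t' : ℝ} (h : Rate s f t) (ht : t ≤ t') :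
    Rate s f t' := by
  intro δ hδ
  obtain ⟨K, K0, hK⟩ := h.pos δ hδ
  refine ⟨K, fun n => ⟨(hK n).1, (hK n).2.trans ?_⟩⟩
  gcongr

theorem Rate.subset {X : Type} {s s' : Set X} {f : X → ℕ} {t : ℝ} (h : Rate s f t) (hs : s' ⊆ s) :
    Rate s' f t := by
  intro δ hδ
  obtain ⟨K, hK⟩ := h δ hδ
  have : ∀ n, cnt s' f n ⊆ cnt s f n := fun n x hx => ⟨hs hx.1, hx.2⟩
  refine ⟨K, fun n => ⟨(hK n).1.subset (this n), le_trans ?_ (hK n).2⟩⟩
  exact_mod_cast Set.ncard_le_ncard (this n) (hK n).1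

theorem rate_zero {X : Type} {s : Set X} {f : X → ℕ} {t0 : ℝ} (h0 : Rate s f t0)
    (himp : ∀ t > 0, Rate s f t → ∃ t' < t, Rate s f t') : Rate s f 0 := by
  let E : Set ℝ := {t | 0 ≤ t ∧ Rate s f t}
  have hne : E.Nonempty := ⟨max t0 0, le_max_right _ _, h0.mono (le_max_left _ _)⟩
  have hbd : BddBelow E := ⟨0, fun t ht => ht.1⟩
  have hinf : Rate s f (sInf E) := by
    intro δ hδ
    obtain ⟨t, ht, hlt⟩ := exists_lt_of_csInf_lt hne (show sInf E < sInf E + δ / 2 by linarith)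
    obtain ⟨K, K0, hK⟩ := ht.2.pos (δ / 2) (by linarith)
    refine ⟨K, fun n => ⟨(hK n).1, (hK n).2.trans ?_⟩⟩
    have : t + δ / 2 ≤ sInf E + δ := by linarith
    gcongr
  by_cases h : 0 < sInf E
  · obtain ⟨t', h1, h2⟩ := himp _ h hinf
    have : max t' 0 ∈ E := ⟨le_max_right _ _, h2.mono (le_max_left _ _)⟩
    have := csInf_le hbd this
    have : max t' 0 < sInf E := max_lt h1 h
    linarith
  · exact hinf.mono (not_lt.1 h)

theorem succ_le_exp {δ : ℝ} (hδ : 0 < δ) (n : ℕ) : (n : ℝ) + 1 ≤ (1 + 1 / δ) * exp (δ * n) := by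
  have h1 := add_one_le_exp (δ * n)
  have h2 : (0 : ℝ) ≤ n := Nat.cast_nonneg n
  have h3 : 0 < 1 / δ := by positivity
  calc (n : ℝ) + 1 ≤ (1 + 1 / δ) * (δ * n + 1) := by
        have : (1 + 1 / δ) * (δ * n + 1) = δ * n + 1 + n + 1 / δ := by field_simp; ring
        rw [this]; nlinarith
    _ ≤ _ := by gcongr

theorem ncard_biUnion_le' {X : Type} (n : ℕ) (F : ℕ → Set X) (b : ℝ)
    (h : ∀ k ≤ n, (F k).Finite ∧ ((F k).ncard : ℝ) ≤ b) :
    (⋃ k ∈ Finset.range (n + 1), F k).Finite ∧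
      ((⋃ k ∈ Finset.range (n + 1), F k).ncard : ℝ) ≤ (n + 1) * b := by
  induction n with
  | zero => simpa using h 0 le_rfl
  | succ n ih =>
    have := ih fun k hk => h k (by omega)
    have e : (⋃ k ∈ Finset.range (n + 1 + 1), F k) =
        F (n + 1) ∪ ⋃ k ∈ Finset.range (n + 1), F k := by
      rw [Finset.range_add_one, Finset.set_biUnion_insert]
    rw [e]
    refine ⟨(h _ le_rfl).1.union this.1, ?_⟩
    have h1 : ((F (n + 1) ∪ ⋃ k ∈ Finset.range (n + 1), F k).ncard : ℝ) ≤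
        (F (n + 1)).ncard + (⋃ k ∈ Finset.range (n + 1), F k).ncard := by
      exact_mod_cast Set.ncard_union_le _ _
    have h2 := (h _ le_rfl).2
    push_cast
    linarith [this.2]

theorem Rate.pair {X Y : Type} {s : Set X} {s' : Set Y} {f : X → ℕ} {f' : Y → ℕ} {t : ℝ}
    (h : Rate s f t) (h' : Rate s' f' t) :
    Rate (s ×ˢ s') (fun p => f p.1 + f' p.2) t := by
  intro δ hδ
  obtain ⟨K, K0, hK⟩ := h.pos (δ / 2) (by linarith)
  obtain ⟨K', K0', hK'⟩ := h'.pos (δ / 2) (by linarith)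
  refine ⟨(1 + 1 / (δ / 2)) * (K * K'), fun n => ?_⟩
  have hU := ncard_biUnion_le' n (fun k => cnt s f k ×ˢ cnt s' f' (n - k))
    (K * K' * exp ((t + δ / 2) * n)) (fun k hk => ⟨(hK k).1.prod (hK' _).1, by
      rw [Set.ncard_prod]
      push_cast
      calc ((cnt s f k).ncard : ℝ) * (cnt s' f' (n - k)).ncard
          ≤ (K * exp ((t + δ / 2) * k)) * (K' * exp ((t + δ / 2) * (n - k : ℕ))) := by
            gcongr
            · exact (hK k).2
            · exact (hK' _).2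
        _ = _ := by
            rw [Nat.cast_sub hk, mul_mul_mul_comm, ← exp_add]; congr 2; ring⟩)
  have hsub : cnt (s ×ˢ s') (fun p => f p.1 + f' p.2) n ⊆
      ⋃ k ∈ Finset.range (n + 1), cnt s f k ×ˢ cnt s' f' (n - k) := by
    rintro ⟨x, y⟩ ⟨⟨h1, h2⟩, h3⟩
    simp only [Set.mem_iUnion, Finset.mem_range]
    simp only at h3
    exact ⟨f x, by omega, ⟨h1, le_rfl⟩, ⟨h2, by simp only; omega⟩⟩
  refine ⟨hU.1.subset hsub, ?_⟩
  have h1 : ((cnt (s ×ˢ s') (fun p => f p.1 + f' p.2) n).ncard : ℝ) ≤ _ :=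
    le_trans (by exact_mod_cast Set.ncard_le_ncard hsub hU.1) hU.2
  refine h1.trans ?_
  have h2 := succ_le_exp (show 0 < δ / 2 by linarith) n
  calc ((n : ℝ) + 1) * (K * K' * exp ((t + δ / 2) * n))
      ≤ ((1 + 1 / (δ / 2)) * exp (δ / 2 * n)) * (K * K' * exp ((t + δ / 2) * n)) := by gcongr
    _ = _ := by
      rw [mul_mul_mul_comm, ← exp_add]; congr 2; ring

theorem rate_finite {K : Type} [Finite K] {t : ℝ} (ht : 0 ≤ t) :
    Rate (Set.univ : Set K) (fun _ => 0) t := by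
  intro δ hδ
  refine ⟨Nat.card K, fun n => ⟨Set.toFinite _, ?_⟩⟩
  have h1 : ((cnt (Set.univ : Set K) (fun _ => 0) n).ncard : ℝ) ≤ Nat.card K := by
    exact_mod_cast Set.ncard_le_card _
  have h2 : 1 ≤ exp ((t + δ) * n) := one_le_exp (by positivity)
  have h3 : (0 : ℝ) ≤ Nat.card K := Nat.cast_nonneg _
  nlinarith

theorem Rate.of_inj {X Y : Type} {s : Set X} {s' : Set Y} {f : X → ℕ} {f' : Y → ℕ} {t : ℝ}
    (h : Rate s' f' t) (φ : X → Y) (hφ : Set.InjOn φ s) (hs : ∀ x ∈ s, φ x ∈ s' ∧ f' (φ x) ≤ f x) :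
    Rate s f t := by
  intro δ hδ
  obtain ⟨K, hK⟩ := h δ hδ
  have hm : ∀ n, Set.MapsTo φ (cnt s f n) (cnt s' f' n) := fun n x hx =>
    ⟨(hs x hx.1).1, (hs x hx.1).2.trans hx.2⟩
  have hi : ∀ n, Set.InjOn φ (cnt s f n) := fun n => hφ.mono fun x hx => hx.1
  refine ⟨K, fun n => ⟨Set.Finite.of_injOn (hm n) (hi n) (hK n).1, le_trans ?_ (hK n).2⟩⟩
  exact_mod_cast Set.ncard_le_ncard_of_injOn φ (hm n) (hi n) (hK n).1

theorem Rate.shrink {X Y : Type} {s : Set X} {s' : Set Y} {f : X → ℕ} {f' : Y → ℕ} {t β : ℝ}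
    (h : Rate s' f' t) (ht : 0 ≤ t) (hβ : 0 ≤ β) (hβ1 : β ≤ 1) (k0 c : ℕ)
    (hfin : ∀ n, (cnt s f n).Finite)
    (hφ : ∀ k ≥ k0, ∃ φ : X → Y × ℕ, Set.InjOn φ {x | x ∈ s ∧ f x = k} ∧ ∀ x ∈ s, f x = k →
      (φ x).1 ∈ s' ∧ (f' (φ x).1 : ℝ) ≤ β * k + c ∧ (φ x).2 ≤ k) : Rate s f (β * t) := by
  intro δ hδ
  obtain ⟨K, K0, hK⟩ := h.pos (δ / 3) (by linarith)
  set B : ℝ := (cnt s f k0).ncard + K * exp ((t + δ / 3) * c) with hB
  have hB0 : 0 ≤ B := by positivity
  refine ⟨(1 + 1 / (δ / 3)) * ((1 + 1 / (δ / 3)) * B), fun n => ⟨hfin n, ?_⟩⟩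
  have hE : 1 ≤ exp ((β * t + δ / 3) * n) := one_le_exp (by positivity)
  have hU := ncard_biUnion_le' n (fun k => {x | x ∈ s ∧ f x = k})
    ((n + 1) * (B * exp ((β * t + δ / 3) * n))) (fun k hk => ⟨(hfin k).subset
      fun x hx => ⟨hx.1, hx.2.le⟩, by
      have hn1 : (1 : ℝ) ≤ n + 1 := by have : (0 : ℝ) ≤ n := Nat.cast_nonneg n; linarith
      by_cases hk0 : k0 ≤ k
      · obtain ⟨φ, h1, h2⟩ := hφ k hk0
        have hm : Set.MapsTo φ {x | x ∈ s ∧ f x = k}
            (cnt s' f' ⌊β * k + c⌋₊ ×ˢ (Finset.range (n + 1) : Set ℕ)) := fun x hx => by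
          obtain ⟨a1, a2, a3⟩ := h2 x hx.1 hx.2
          exact ⟨⟨a1, Nat.le_floor a2⟩, by simp; omega⟩
        have h3 := Set.ncard_le_ncard_of_injOn φ hm h1 ((hK _).1.prod (Finset.finite_toSet _))
        rw [Set.ncard_prod, Set.ncard_coe_finset, Finset.card_range] at h3
        have h4 : (({x | x ∈ s ∧ f x = k} : Set X).ncard : ℝ) ≤
            (cnt s' f' ⌊β * k + c⌋₊).ncard * (n + 1) := by exact_mod_cast h3
        refine h4.trans ?_
        rw [mul_comm]
        gcongr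
        refine (hK _).2.trans ?_
        have hfl : (⌊β * k + c⌋₊ : ℝ) ≤ β * n + c :=
          (Nat.floor_le (by positivity)).trans (by gcongr)
        calc K * exp ((t + δ / 3) * ⌊β * k + c⌋₊) ≤ K * exp ((t + δ / 3) * (β * n + c)) := by gcongr
          _ ≤ K * exp ((t + δ / 3) * c + (β * t + δ / 3) * n) := by
            gcongr
            have : (0 : ℝ) ≤ n := Nat.cast_nonneg n
            have : δ / 3 * β * n ≤ δ / 3 * 1 * n := by gcongr
            nlinarith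
          _ = K * exp ((t + δ / 3) * c) * exp ((β * t + δ / 3) * n) := by rw [exp_add, mul_assoc]
          _ ≤ _ := by
            gcongr
            rw [hB]
            have : (0 : ℝ) ≤ (cnt s f k0).ncard := Nat.cast_nonneg _
            linarith
      · have h3 : (({x | x ∈ s ∧ f x = k} : Set X).ncard : ℝ) ≤ (cnt s f k0).ncard := by
          have hsub : {x | x ∈ s ∧ f x = k} ⊆ cnt s f k0 :=
            fun x hx => ⟨hx.1, by have := hx.2; omega⟩
          exact_mod_cast Set.ncard_le_ncard hsub (hfin k0)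
        have h4 : ((cnt s f k0).ncard : ℝ) ≤ B := by
          rw [hB]
          have : 0 ≤ K * exp ((t + δ / 3) * c) := by positivity
          linarith
        calc _ ≤ B := h3.trans h4
          _ = 1 * (B * 1) := by ring
          _ ≤ _ := by gcongr⟩)
  have hsub : cnt s f n ⊆ ⋃ k ∈ Finset.range (n + 1), {x | x ∈ s ∧ f x = k} := by
    intro x hx
    simp only [Set.mem_iUnion, Finset.mem_range]
    exact ⟨f x, by have := hx.2; omega, hx.1, rfl⟩
  have h1 : ((cnt s f n).ncard : ℝ) ≤ _ :=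
    le_trans (by exact_mod_cast Set.ncard_le_ncard hsub hU.1) hU.2
  refine h1.trans ?_
  have h2 := succ_le_exp (show 0 < δ / 3 by linarith) n
  calc ((n : ℝ) + 1) * ((n + 1) * (B * exp ((β * t + δ / 3) * n)))
      ≤ ((1 + 1 / (δ / 3)) * exp (δ / 3 * n)) * (((1 + 1 / (δ / 3)) * exp (δ / 3 * n)) *
        (B * exp ((β * t + δ / 3) * n))) := by gcongr
    _ = (1 + 1 / (δ / 3)) * ((1 + 1 / (δ / 3)) * B) *
        (exp (δ / 3 * n) * exp (δ / 3 * n) * exp ((β * t + δ / 3) * n)) := by ring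
    _ = _ := by rw [← exp_add, ← exp_add]; congr 2; ring

/-- Sum of the norms of all descendants of depth `D`. -/
def nD {X : Type} (nrm : X → ℕ) (ch : X → Bool → X) : ℕ → X → ℕ
  | 0, x => nrm x
  | D + 1, x => nD nrm ch D (ch x false) + nD nrm ch D (ch x true)

section Crit

variable {X : Type} {nrm : X → ℕ} {ch : X → Bool → X}

theorem nD_succ_le (hne : ∀ x, nrm (ch x false) + nrm (ch x true) ≤ nrm x) (D : ℕ) (x : X) :
    nD nrm ch (D + 1) x ≤ nD nrm ch D x := by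
  induction D generalizing x with
  | zero => exact hne x
  | succ D ih => exact Nat.add_le_add (ih _) (ih _)

theorem nD_anti (hne : ∀ x, nrm (ch x false) + nrm (ch x true) ≤ nrm x) (x : X) {D E : ℕ}
    (h : D ≤ E) : nD nrm ch E x ≤ nD nrm ch D x := by
  induction h with
  | refl => exact le_rfl
  | step _ ih => exact (nD_succ_le hne _ x).trans ih

theorem rate_nD {K : Type} [Finite K] (key : X → K)
    (hinj : ∀ x y, key x = key y → ch x false = ch y false → ch x true = ch y true → x = y)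
    {t : ℝ} (ht : 0 ≤ t) (h : Rate Set.univ nrm t) (D : ℕ) : Rate Set.univ (nD nrm ch D) t := by
  induction D with
  | zero => exact h
  | succ D ih =>
    refine ((rate_finite (K := K) ht).pair (ih.pair ih)).of_inj
      (fun x => (key x, ch x false, ch x true)) (fun x _ y _ e => ?_) fun x _ => ⟨by simp, ?_⟩
    · simp only [Prod.mk.injEq] at e
      exact hinj x y e.1 e.2.1 e.2.2
    · simp [nD]

theorem count_G (hne : ∀ x, nrm (ch x false) + nrm (ch x true) ≤ nrm x)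
    (hfin : ∀ n, (cnt Set.univ nrm n).Finite) (comp : X → X → X) (c M D : ℕ)
    (hdec : ∀ x, M + c ≤ nrm x → ∃ x1 x2, x = comp x1 x2 ∧ M ≤ nrm x1 ∧ nrm x1 ≤ M + c ∧
      nrm x = nrm x1 + nrm x2 ∧ nD nrm ch D x ≤ nD nrm ch D x1 + nD nrm ch D x2)
    (J : Set X) (hJ : ∀ x, nrm x ≤ M + c → nD nrm ch D x = nrm x → x ∈ J) (r k : ℕ) :
    {x | nrm x ≤ r * M + (M + c) ∧ nrm x ≤ nD nrm ch D x + k}.ncard ≤
      (cnt Set.univ nrm (M + c)).ncard ^ (k + 1) * ((cnt J nrm (M + c)).ncard + 2) ^ r := by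
  set Γ := (cnt Set.univ nrm (M + c)).ncard
  set T := (cnt J nrm (M + c)).ncard
  let G : ℕ → ℕ → Set X := fun r k => {x | nrm x ≤ r * M + (M + c) ∧ nrm x ≤ nD nrm ch D x + k}
  have hG : ∀ r k, (G r k).Finite := fun r k => (hfin _).subset fun x hx => ⟨trivial, hx.1⟩
  have hΓ : ∀ k, Γ ≤ Γ ^ (k + 1) := fun k => Nat.le_self_pow (by omega) _
  change (G r k).ncard ≤ _
  induction r generalizing k with
  | zero =>
    simp only [pow_zero, mul_one]
    refine le_trans (Set.ncard_le_ncard (fun x hx => ?_) (hfin _)) (hΓ k)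
    exact ⟨trivial, by simpa using hx.1⟩
  | succ r ih =>
    let G' : Set X := if k = 0 then ∅ else G r (k - 1)
    have hG' : G'.Finite := by
      simp only [G']; split_ifs
      · exact Set.finite_empty
      · exact hG _ _
    have hG'c : Γ * G'.ncard ≤ Γ ^ (k + 1) * (T + 2) ^ r := by
      simp only [G']; split_ifs with h
      · simp
      · obtain ⟨k', rfl⟩ : ∃ k', k = k' + 1 := ⟨k - 1, by omega⟩
        have := ih k'
        simp only [Nat.add_sub_cancel]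
        rw [pow_succ' Γ (k' + 1), mul_assoc]
        exact Nat.mul_le_mul_left _ this
    have hJf : (cnt J nrm (M + c)).Finite := (hfin _).subset fun x hx => ⟨trivial, hx.2⟩
    have hsub : G (r + 1) k ⊆ cnt Set.univ nrm (M + c) ∪
        (Function.uncurry comp '' (cnt J nrm (M + c) ×ˢ G r k) ∪
          Function.uncurry comp '' (cnt Set.univ nrm (M + c) ×ˢ G')) := by
      rintro x ⟨h1, h2⟩
      by_cases hx : nrm x ≤ M + c
      · exact Or.inl ⟨trivial, hx⟩
      right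
      obtain ⟨x1, x2, e, a1, a2, a3, a4⟩ := hdec x (by omega)
      have b1 := nD_anti hne x1 (Nat.zero_le D)
      have b2 := nD_anti hne x2 (Nat.zero_le D)
      simp only [nD] at b1 b2
      rw [Nat.succ_mul] at h1
      by_cases hc : nD nrm ch D x1 = nrm x1
      · exact Or.inl ⟨(x1, x2), ⟨⟨hJ x1 a2 hc, a2⟩, by simp only; omega, by simp only; omega⟩, e.symm⟩
      · refine Or.inr ⟨(x1, x2), ⟨⟨trivial, a2⟩, ?_⟩, e.symm⟩
        simp only [G']
        rw [if_neg (by omega)]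
        exact ⟨by omega, by omega⟩
    have h1 := Set.ncard_le_ncard hsub ((hfin _).union (((hJf.prod (hG _ _)).image _).union
      (((hfin _).prod hG').image _)))
    have h2 := Set.ncard_union_le (cnt Set.univ nrm (M + c))
      (Function.uncurry comp '' (cnt J nrm (M + c) ×ˢ G r k) ∪
          Function.uncurry comp '' (cnt Set.univ nrm (M + c) ×ˢ G'))
    have h3 := Set.ncard_union_le (Function.uncurry comp '' (cnt J nrm (M + c) ×ˢ G r k))
          (Function.uncurry comp '' (cnt Set.univ nrm (M + c) ×ˢ G'))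
    have h4 := Set.ncard_image_le (f := Function.uncurry comp) (hJf.prod (hG r k))
    have h5 := Set.ncard_image_le (f := Function.uncurry comp) ((hfin (M + c)).prod hG')
    rw [Set.ncard_prod] at h4 h5
    change _ ≤ T * _ at h4
    change _ ≤ Γ * _ at h5
    change _ ≤ Γ + _ at h2
    have h6 := Nat.mul_le_mul_left T (ih k)
    have h7 : Γ ≤ Γ ^ (k + 1) * (T + 2) ^ r :=
      (hΓ k).trans (Nat.le_mul_of_pos_right _ (by positivity))
    calc (G (r + 1) k).ncard ≤ Γ + (T * (G r k).ncard + Γ * G'.ncard) := by omega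
      _ ≤ Γ ^ (k + 1) * (T + 2) ^ r + (T * (Γ ^ (k + 1) * (T + 2) ^ r) +
          Γ ^ (k + 1) * (T + 2) ^ r) := by omega
      _ = _ := by ring

theorem exists_depth (hne : ∀ x, nrm (ch x false) + nrm (ch x true) ≤ nrm x) {s : Set X}
    (hs : s.Finite) : ∃ D, ∀ x ∈ s, nD nrm ch D x = nrm x → ∀ E, nD nrm ch E x = nrm x := by
  have h1 : ∀ x, ∃ D, ∀ D' ≥ D, nD nrm ch D' x = nrm x → ∀ E, nD nrm ch E x = nrm x := by
    intro x
    by_cases h : ∀ E, nD nrm ch E x = nrm x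
    · exact ⟨0, fun _ _ _ => h⟩
    · push Not at h
      obtain ⟨E, hE⟩ := h
      refine ⟨E, fun D' hD' e => absurd ?_ hE⟩
      have a1 := nD_anti hne x hD'
      have a2 := nD_anti hne x (Nat.zero_le E)
      simp only [nD] at a2
      omega
  choose d hd using h1
  obtain ⟨D, hD⟩ := (hs.image d).bddAbove
  exact ⟨D, fun x hx => hd x D (hD ⟨x, hx, rfl⟩)⟩

theorem rate_apriori (hne : ∀ x, nrm (ch x false) + nrm (ch x true) ≤ nrm x)
    (hfin : ∀ n, (cnt Set.univ nrm n).Finite) (comp : X → X → X) (c : ℕ)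
    (hdec : ∀ M D x, M + c ≤ nrm x → ∃ x1 x2, x = comp x1 x2 ∧ M ≤ nrm x1 ∧ nrm x1 ≤ M + c ∧
      nrm x = nrm x1 + nrm x2 ∧ nD nrm ch D x ≤ nD nrm ch D x1 + nD nrm ch D x2) :
    ∃ t, Rate Set.univ nrm t := by
  set Γ := (cnt Set.univ nrm (1 + c)).ncard
  refine ⟨log (Γ + 2), fun δ hδ => ⟨Γ, fun n => ⟨hfin n, ?_⟩⟩⟩
  have h1 := count_G hne hfin comp c 1 0 (hdec 1 0) Set.univ (fun _ _ _ => trivial) n 0
  have hsub : cnt Set.univ nrm n ⊆ {x | nrm x ≤ n * 1 + (1 + c) ∧ nrm x ≤ nD nrm ch 0 x + 0} :=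
    fun x hx => ⟨by have := hx.2; omega, by simp [nD]⟩
  have h2 : (cnt Set.univ nrm n).ncard ≤ _ := le_trans (Set.ncard_le_ncard hsub
    ((hfin _).subset fun x hx => ⟨trivial, hx.1⟩)) h1
  have h3 : ((cnt Set.univ nrm n).ncard : ℝ) ≤ Γ * (Γ + 2) ^ n := by
    have : (cnt Set.univ nrm n).ncard ≤ Γ * (Γ + 2) ^ n := by simpa using h2
    exact_mod_cast this
  refine h3.trans ?_
  gcongr
  rw [add_mul, exp_add, mul_comm (log _), exp_nat_mul, exp_log (by positivity)]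
  exact le_mul_of_one_le_right (by positivity) (one_le_exp (by positivity))

theorem criterion (hne : ∀ x, nrm (ch x false) + nrm (ch x true) ≤ nrm x)
    (hfin : ∀ n, (cnt Set.univ nrm n).Finite) {K : Type} [Finite K] (key : X → K)
    (hinj : ∀ x y, key x = key y → ch x false = ch y false → ch x true = ch y true → x = y)
    (comp : X → X → X) (c : ℕ)
    (hdec : ∀ M D x, M + c ≤ nrm x → ∃ x1 x2, x = comp x1 x2 ∧ M ≤ nrm x1 ∧ nrm x1 ≤ M + c ∧
      nrm x = nrm x1 + nrm x2 ∧ nD nrm ch D x ≤ nD nrm ch D x1 + nD nrm ch D x2)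
    (hI : Rate {x | ∀ E, nD nrm ch E x = nrm x} nrm 0) : Rate Set.univ nrm 0 := by
  obtain ⟨t0, h0⟩ := rate_apriori hne hfin comp c hdec
  refine rate_zero h0 fun t ht hr => ?_
  set J : Set X := {x | ∀ E, nD nrm ch E x = nrm x}
  obtain ⟨K', K0', hK'⟩ := hI.pos (t / 8) (by linarith)
  obtain ⟨M, hM1, hM⟩ : ∃ M : ℕ, 1 ≤ M ∧ ((cnt J nrm (M + c)).ncard : ℝ) + 2 ≤ exp (t / 4 * M) := by
    obtain ⟨M, hM⟩ := exists_nat_ge ((K' * exp (t / 8 * c) + 2) / (t / 8))
    have hM' : K' * exp (t / 8 * c) + 2 ≤ t / 8 * M := by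
      rwa [div_le_iff₀ (by linarith), mul_comm (M : ℝ)] at hM
    have hp : 0 ≤ K' * exp (t / 8 * c) := by positivity
    have hM1 : 1 ≤ M := by
      by_contra h
      have : M = 0 := by omega
      subst this
      simp only [Nat.cast_zero, mul_zero] at hM'
      linarith
    refine ⟨M, hM1, ?_⟩
    have h1 := (hK' (M + c)).2
    have h2 := add_one_le_exp (t / 8 * M)
    have h3 : 1 ≤ exp (t / 8 * M) := one_le_exp (by positivity)
    have e1 : exp (t / 4 * M) = exp (t / 8 * M) * exp (t / 8 * M) := by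
      rw [← exp_add]; congr 1; ring
    have e2 : exp ((0 + t / 8) * (M + c : ℕ)) = exp (t / 8 * c) * exp (t / 8 * M) := by
      rw [← exp_add]; congr 1; push_cast; ring
    rw [e2] at h1
    rw [e1]
    nlinarith
  obtain ⟨D, hD⟩ := exists_depth hne (hfin (M + c))
  set Γ := (cnt Set.univ nrm (M + c)).ncard
  obtain ⟨q, hq1, hq⟩ : ∃ q : ℕ, 1 ≤ q ∧ (Γ : ℝ) ≤ exp (t / 4 * (q * M : ℕ)) := by
    obtain ⟨q, hq⟩ := exists_nat_ge ((Γ : ℝ) / (t / 4))
    refine ⟨q + 1, by omega, ?_⟩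
    rw [div_le_iff₀ (by linarith)] at hq
    have h2 := add_one_le_exp (t / 4 * ((q + 1) * M : ℕ))
    have h3 : (q : ℝ) ≤ ((q + 1) * M : ℕ) := by exact_mod_cast (by nlinarith : q ≤ (q + 1) * M)
    nlinarith
  have hqM : 0 < q * M := Nat.mul_pos hq1 hM1
  have hqM' : (0 : ℝ) < (q * M : ℕ) := by exact_mod_cast hqM
  have hqM1 : (1 : ℝ) ≤ (q * M : ℕ) := by exact_mod_cast hqM
  refine ⟨max (t * (1 - 1 / (q * M : ℕ))) (t / 2), max_lt ?_ (by linarith), fun δ hδ => ?_⟩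
  · have : 0 < t * (1 / (q * M : ℕ)) := by positivity
    linarith
  obtain ⟨K1, K10, hK1⟩ := (rate_nD key hinj ht.le hr D).pos δ hδ
  refine ⟨K1 + Γ, fun n => ⟨hfin n, ?_⟩⟩
  set k := n / (q * M) with hk
  have hG := count_G hne hfin comp c M D (hdec M D) J
    (fun x h1 h2 => hD x ⟨trivial, h1⟩ h2) (n / M) k
  have hsub : cnt Set.univ nrm n ⊆ cnt Set.univ (nD nrm ch D) (n - (k + 1)) ∪
      {x | nrm x ≤ n / M * M + (M + c) ∧ nrm x ≤ nD nrm ch D x + k} := by
    intro x hx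
    have h1 := hx.2
    by_cases h : nrm x ≤ nD nrm ch D x + k
    · refine Or.inr ⟨?_, h⟩
      have := Nat.lt_div_mul_add (a := n) (show 0 < M by omega)
      omega
    · exact Or.inl ⟨trivial, by omega⟩
  have h1 := (Set.ncard_le_ncard hsub ((hK1 _).1.union ((hfin _).subset
    fun x hx => ⟨trivial, hx.1⟩))).trans (Set.ncard_union_le _ _)
  have h2 : ((cnt Set.univ nrm n).ncard : ℝ) ≤ (cnt Set.univ (nD nrm ch D) (n - (k + 1))).ncard +
      Γ ^ (k + 1) * ((cnt J nrm (M + c)).ncard + 2) ^ (n / M) := by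
    exact_mod_cast h1.trans (Nat.add_le_add_left hG _)
  refine h2.trans ?_
  rw [add_mul]
  have hn0 : (0 : ℝ) ≤ n := Nat.cast_nonneg n
  gcongr ?_ + ?_
  · refine (hK1 _).2.trans ?_
    gcongr K1 * exp ?_
    have a1 : ((n - (k + 1) : ℕ) : ℝ) ≤ n * (1 - 1 / (q * M : ℕ)) := by
      have b1 : n < k * (q * M) + q * M := Nat.lt_div_mul_add hqM
      have b2 : (n : ℝ) / (q * M : ℕ) ≤ k + 1 := by
        rw [div_le_iff₀ hqM']
        exact_mod_cast (by nlinarith : n ≤ (k + 1) * (q * M))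
      rcases le_total (k + 1) n with h | h
      · rw [Nat.cast_sub h]; push_cast at b2 ⊢
        rw [mul_sub, mul_one_div]; linarith
      · rw [Nat.sub_eq_zero_of_le h, Nat.cast_zero]
        have : 1 / ((q * M : ℕ) : ℝ) ≤ 1 := by rw [div_le_one hqM']; exact hqM1
        exact mul_nonneg hn0 (by linarith)
    have a2 : 0 ≤ 1 / ((q * M : ℕ) : ℝ) := by positivity
    calc (t + δ) * ((n - (k + 1) : ℕ) : ℝ) ≤ (t + δ) * (n * (1 - 1 / (q * M : ℕ))) := by gcongr
      _ = (t * (1 - 1 / (q * M : ℕ)) + δ) * n - δ * n * (1 / (q * M : ℕ)) := by ring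
      _ ≤ (t * (1 - 1 / (q * M : ℕ)) + δ) * n := by
        have : 0 ≤ δ * n * (1 / ((q * M : ℕ) : ℝ)) := by positivity
        linarith
      _ ≤ _ := by gcongr; exact le_max_left _ _
  · rw [pow_succ', mul_assoc]
    gcongr
    have a1 : (Γ : ℝ) ^ k ≤ exp (t / 4 * n) := by
      calc (Γ : ℝ) ^ k ≤ exp (t / 4 * (q * M : ℕ)) ^ k := by gcongr
        _ = exp (t / 4 * ((k * (q * M) : ℕ) : ℝ)) := by
          rw [← exp_nat_mul]; congr 1; push_cast; ring
        _ ≤ _ := by gcongr; exact Nat.div_mul_le_self _ _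
    have a2 : (((cnt J nrm (M + c)).ncard : ℝ) + 2) ^ (n / M) ≤ exp (t / 4 * n) := by
      calc _ ≤ exp (t / 4 * M) ^ (n / M) := by gcongr
        _ = exp (t / 4 * ((n / M * M : ℕ) : ℝ)) := by
          rw [← exp_nat_mul]; congr 1; push_cast; ring
        _ ≤ _ := by gcongr; exact Nat.div_mul_le_self _ _
    calc _ ≤ exp (t / 4 * n) * exp (t / 4 * n) := by gcongr
      _ = exp (t / 2 * n) := by rw [← exp_add]; congr 1; ring
      _ ≤ _ := by
        gcongr
        have := le_max_right (t * (1 - 1 / (q * M : ℕ))) (t / 2)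
        linarith

end Crit

end Pool.Agent.MP_61ef33_al
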