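import Pool.Agent.MP_61ef33_al.K2
import Pool.Agent.MP_61ef33_al.K6
import Pool.Agent.MP_61ef33_al.K7

/- Subexponential growth in the non-star case. -/

namespace Pool.Agent.MP_61ef33_al

namespace KA

variable {S : Type} (A : KA S)

/-- The ball of radius `n`. -/
def wball (n : ℕ) : Set (Equiv.Perm (List Bool)) := {g | ∃ W : List S, W.length ≤ n ∧ A.ev W = g}

theorem wball_finite [Finite S] (n : ℕ) : (A.wball n).Finite :=
  ((List.finite_length_le S n).image A.ev).subset fun _ ⟨W, h1, h2⟩ => ⟨W, h1, h2⟩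

theorem exists_short [Finite S] (hs : ¬ A.Star) : ∃ z : ℕ, ∀ a (u : List S) b, ∃ u' : List S,
    A.ev u' = A.ev u ∧ u'.length ≤ z * (crs a (u.map A.cut0) b + 1) := by
  have hfin : ∀ c, (A.Wd {s | A.cut0 s = c}).Finite := fun c => A.finite_Wd hs fun e => by
    have h1 : A.sg ∈ {s | A.cut0 s = c} := e ▸ Set.mem_univ _
    have h2 : A.nx A.sg ∈ {s | A.cut0 s = c} := e ▸ Set.mem_univ _
    simp only [cut0, Set.mem_ofPred_eq, isg_sg, isg_nx] at h1 h2
    rw [← h1] at h2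
    cases h2
  have hch : ∀ g : Equiv.Perm (List Bool), ∃ k : ℕ, ∀ W, A.ev W = g →
      ∃ W' : List S, A.ev W' = g ∧ W'.length ≤ k := by
    intro g
    by_cases h : ∃ W, A.ev W = g
    · obtain ⟨W, hW⟩ := h
      exact ⟨W.length, fun _ _ => ⟨W, hW, le_rfl⟩⟩
    · exact ⟨0, fun W hW => absurd ⟨W, hW⟩ h⟩
  choose k hk using hch
  obtain ⟨z, hz⟩ := (((hfin false).union (hfin true)).image k).bddAbove
  have hmono : ∀ c (W : List S), (∀ s ∈ W, A.cut0 s = c) →
      ∃ W' : List S, A.ev W' = A.ev W ∧ W'.length ≤ z := by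
    intro c W hW
    obtain ⟨W', h1, h2⟩ := hk _ W rfl
    refine ⟨W', h1, h2.trans (hz ⟨_, ?_, rfl⟩)⟩
    cases c
    · exact Or.inl ⟨W, hW, rfl⟩
    · exact Or.inr ⟨W, hW, rfl⟩
  have key : ∀ (u : List S) a b, ∃ v u' : List S, (∀ s ∈ v, A.cut0 s = a) ∧
      A.ev (v ++ u') = A.ev u ∧ u'.length ≤ z * crs a (u.map A.cut0) b := by
    intro u
    induction u with
    | nil => intro a b; exact ⟨[], [], by simp, rfl, by simp⟩
    | cons s u ih =>
      intro a b
      obtain ⟨v, u', h1, h2, h3⟩ := ih (A.cut0 s) b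
      by_cases h : a = A.cut0 s
      · subst h
        refine ⟨s :: v, u', ?_, by simp [h2], by simpa using h3⟩
        intro t ht
        rcases List.mem_cons.1 ht with rfl | ht
        · rfl
        · exact h1 t ht
      · obtain ⟨W', e1, e2⟩ := hmono (A.cut0 s) (s :: v) (by
          intro t ht
          rcases List.mem_cons.1 ht with rfl | ht
          · rfl
          · exact h1 t ht)
        refine ⟨[], W' ++ u', by simp, ?_, ?_⟩
        · rw [List.nil_append, ev_append, e1, ev_cons, ev_cons, ← h2, ev_append, mul_assoc]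
        · simp only [List.length_append, List.map_cons, crs_cons, bd, if_neg h]
          rw [mul_add]; omega
  refine ⟨z, fun a u b => ?_⟩
  obtain ⟨v, u', h1, h2, h3⟩ := key u a b
  obtain ⟨W', e1, e2⟩ := hmono a v h1
  refine ⟨W' ++ u', by rw [ev_append, e1, ← h2, ev_append], ?_⟩
  rw [List.length_append, mul_add]; omega

theorem exists_sep {s : Set (Equiv.Perm (List Bool))} (hs : s.Finite) :
    ∃ c0 : ℕ, ∀ g ∈ s, ∀ h ∈ s, (∀ v : List Bool, v.length ≤ c0 → g v = h v) → g = h := by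
  have h1 : ∀ p : Equiv.Perm (List Bool) × Equiv.Perm (List Bool), ∃ d : ℕ,
      (∀ v : List Bool, v.length ≤ d → p.1 v = p.2 v) → p.1 = p.2 := by
    intro p
    by_cases h : p.1 = p.2
    · exact ⟨0, fun _ => h⟩
    · obtain ⟨v, hv⟩ : ∃ v, p.1 v ≠ p.2 v := by
        by_contra h'
        push Not at h'
        exact h (Equiv.ext h')
      exact ⟨v.length, fun h' => absurd (h' v le_rfl) hv⟩
  choose d hd using h1
  obtain ⟨c0, hc⟩ := ((hs.prod hs).image d).bddAbove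
  exact ⟨c0, fun g hg h hh e => hd (g, h) fun v hv => e v (hv.trans (hc ⟨(g, h), ⟨hg, hh⟩, rfl⟩))⟩

/-- Group elements with two end positions. -/
abbrev XT (I : Type) : Type := (I → Bool) × Set.range A.ev × (I → Bool)

noncomputable def cls {I : Type} (t : WT S I) : A.XT I := (t.a, ⟨A.ev t.W, t.W, rfl⟩, t.b)

theorem cls_eq {I : Type} {t u : WT S I} :
    A.cls t = A.cls u ↔ t.a = u.a ∧ A.ev t.W = A.ev u.W ∧ t.b = u.b := by
  simp [cls]

theorem cls_surj {I : Type} (x : A.XT I) : ∃ t, A.cls t = x := by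
  obtain ⟨a, ⟨g, W, rfl⟩, b⟩ := x
  exact ⟨⟨a, W, b⟩, rfl⟩

theorem cls_comp {I : Type} {t u t' u' : WT S I} (h : A.cls t = A.cls t') (h' : A.cls u = A.cls u') :
    A.cls (t.comp u) = A.cls (t'.comp u') := by
  rw [cls_eq] at *
  simp [WT.comp, ev_append, h, h']

namespace CS

variable {A} {I : Type} [Fintype I] (C : A.CS I)

theorem exists_geo (x : A.XT I) : ∃ t, A.cls t = x ∧ ∀ u, A.cls u = x → C.len t ≤ C.len u := by
  obtain ⟨t0, h0⟩ := A.cls_surj x
  obtain ⟨t, h1, h2⟩ := (InvImage.wf C.len wellFounded_lt).has_min {t | A.cls t = x} ⟨t0, h0⟩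
  exact ⟨t, h1, fun u hu => not_lt.1 (h2 u hu)⟩

noncomputable def geo (x : A.XT I) : WT S I := (C.exists_geo x).choose

theorem cls_geo (x : A.XT I) : A.cls (C.geo x) = x := (C.exists_geo x).choose_spec.1

noncomputable def nrm (x : A.XT I) : ℕ := C.len (C.geo x)

theorem nrm_le (t : WT S I) : C.nrm (A.cls t) ≤ C.len t := (C.exists_geo _).choose_spec.2 t rfl

noncomputable def ch (x : A.XT I) (y : Bool) : A.XT I := A.cls (C.child (C.geo x) y)

omit [Fintype I] in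
theorem cls_child {t u : WT S I} (h : A.cls t = A.cls u) (y : Bool) :
    A.cls (C.child t y) = A.cls (C.child u y) := by
  rw [cls_eq] at *
  simp [child, h.1, h.2.2, A.par_eq_of_ev h.2.1, A.sec_eq_of_ev h.2.1]

theorem ch_cls (t : WT S I) (y : Bool) : C.ch (A.cls t) y = A.cls (C.child t y) :=
  C.cls_child (C.cls_geo _) y

theorem nonexp (x : A.XT I) : C.nrm (C.ch x false) + C.nrm (C.ch x true) ≤ C.nrm x :=
  (Nat.add_le_add (C.nrm_le _) (C.nrm_le _)).trans (C.len_child_le _)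

theorem nD_le (D : ℕ) (t : WT S I) : nD C.nrm C.ch D (A.cls t) ≤ C.lenD D t := by
  induction D generalizing t with
  | zero => exact C.nrm_le t
  | succ D ih => rw [nD, ch_cls, ch_cls, lenD_succ]; exact Nat.add_le_add (ih _) (ih _)

theorem nD_comp_le (D : ℕ) {t u : WT S I} (h : t.b = u.a) : nD C.nrm C.ch D (A.cls (t.comp u)) ≤
    nD C.nrm C.ch D (A.cls t) + nD C.nrm C.ch D (A.cls u) := by
  induction D generalizing t u with
  | zero =>
    simp only [nD]
    rw [← A.cls_comp (C.cls_geo (A.cls t)) (C.cls_geo (A.cls u))]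
    refine (C.nrm_le _).trans (C.len_comp_le ?_)
    rw [(A.cls_eq.1 (C.cls_geo (A.cls t))).2.2, (A.cls_eq.1 (C.cls_geo (A.cls u))).1, h]
  | succ D ih =>
    simp only [nD, ch_cls, child_comp]
    have h1 := ih (t := C.child t false) (u := C.child u (xor false (A.par t.W)))
      (by simp [child, h])
    have h2 := ih (t := C.child t true) (u := C.child u (xor true (A.par t.W)))
      (by simp [child, h])
    revert h1 h2
    cases A.par t.W <;> simp <;> omega

theorem len_le (t : WT S I) : C.len t ≤ Fintype.card I * (t.W.length + 1) := by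
  unfold len
  rw [← Finset.card_univ, ← smul_eq_mul]
  refine Finset.sum_le_card_nsmul _ _ _ fun i _ => ?_
  simpa [cr] using crs_le_length (t.a i) (t.b i) (t.W.map (C.F i))

theorem len_cons (a b : I → Bool) (s : S) (W : List S) :
    C.len ⟨a, s :: W, b⟩ = ∑ i, bd (a i) (C.pos s i) + C.len ⟨C.pos s, W, b⟩ := by
  simp [len, cr, Finset.sum_add_distrib, pos]

theorem exists_cut (t : WT S I) (M : ℕ) (h : M + Fintype.card I ≤ C.len t) :
    ∃ t1 t2, t = t1.comp t2 ∧ C.Add t1 t2 ∧ M ≤ C.len t1 ∧ C.len t1 ≤ M + Fintype.card I := by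
  obtain ⟨a, W, b⟩ := t
  induction W generalizing a M with
  | nil =>
    have h1 := C.len_le ⟨a, [], b⟩
    have e : C.len ⟨a, [], a⟩ = 0 := by simp [len, cr]
    refine ⟨⟨a, [], a⟩, ⟨a, [], b⟩, rfl, ⟨rfl, by rw [e]; simp [WT.comp]⟩, ?_, by omega⟩
    simp at h1; omega
  | cons s W ih =>
    have e0 := C.len_cons a b s W
    have hd : ∑ i, bd (a i) (C.pos s i) ≤ Fintype.card I := by
      rw [← Finset.card_univ, ← mul_one Finset.univ.card, ← smul_eq_mul]
      exact Finset.sum_le_card_nsmul _ _ _ fun i _ => bd_le _ _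
    by_cases hM : M ≤ ∑ i, bd (a i) (C.pos s i)
    · have e1 := C.len_cons a (C.pos s) s []
      have e : C.len ⟨C.pos s, [], C.pos s⟩ = 0 := by simp [len, cr]
      exact ⟨⟨a, [s], C.pos s⟩, ⟨C.pos s, W, b⟩, rfl, ⟨rfl, by
        simp only [WT.comp, List.singleton_append]; omega⟩, by omega, by omega⟩
    · obtain ⟨⟨a1, W1, b1⟩, t2, h1, h2, h3, h4⟩ := ih (M - ∑ i, bd (a i) (C.pos s i)) (C.pos s)
        (by omega)
      have h5 := h2.2
      rw [← h1] at h5
      simp only [WT.comp, WT.mk.injEq] at h1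
      obtain ⟨rfl, rfl, rfl⟩ := h1
      have e1 := C.len_cons a b1 s W1
      exact ⟨⟨a, s :: W1, b1⟩, t2, rfl, ⟨h2.1, by
        simp only [WT.comp, List.cons_append]; omega⟩, by omega, by omega⟩

theorem geo_pieces {t u : WT S I} (h : C.Add t u) (hg : C.len (t.comp u) = C.nrm (A.cls (t.comp u))) :
    C.len t = C.nrm (A.cls t) ∧ C.len u = C.nrm (A.cls u) := by
  have h1 := C.nD_comp_le 0 h.1
  simp only [nD] at h1
  have h2 := C.nrm_le t
  have h3 := C.nrm_le u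
  have := h.2
  omega

theorem inc_pieces {t u : WT S I} (h : C.Add t u) (hg : C.len (t.comp u) = C.nrm (A.cls (t.comp u)))
    (hi : ∀ E, nD C.nrm C.ch E (A.cls (t.comp u)) = C.nrm (A.cls (t.comp u))) :
    (∀ E, nD C.nrm C.ch E (A.cls t) = C.nrm (A.cls t)) ∧
      ∀ E, nD C.nrm C.ch E (A.cls u) = C.nrm (A.cls u) := by
  have h0 := C.geo_pieces h hg
  have key : ∀ E, nD C.nrm C.ch E (A.cls t) = C.nrm (A.cls t) ∧
      nD C.nrm C.ch E (A.cls u) = C.nrm (A.cls u) := by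
    intro E
    have h1 := C.nD_comp_le E h.1
    have h2 := nD_anti C.nonexp (A.cls t) (Nat.zero_le E)
    have h3 := nD_anti C.nonexp (A.cls u) (Nat.zero_le E)
    simp only [nD] at h2 h3
    have := hi E
    have := h.2
    omega
  exact ⟨fun E => (key E).1, fun E => (key E).2⟩

theorem perf_of_inc {t : WT S I} (hg : C.len t = C.nrm (A.cls t))
    (hi : ∀ E, nD C.nrm C.ch E (A.cls t) = C.nrm (A.cls t)) : C.Perf t := by
  intro D
  have h1 := C.nD_le D t
  have h2 := C.lenD_le D t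
  have := hi D
  omega

theorem nrm_geo (x : A.XT I) : C.len (C.geo x) = C.nrm (A.cls (C.geo x)) := by rw [cls_geo]; rfl

theorem n_le_len (t : WT S I) : C.n t ≤ C.len t :=
  Finset.single_le_sum (f := fun i => C.cr i t) (fun _ _ => Nat.zero_le _) (Finset.mem_univ C.i1)

variable {z : ℕ} (hz : ∀ a (u : List S) b, ∃ u' : List S,
    A.ev u' = A.ev u ∧ u'.length ≤ z * (crs a (u.map A.cut0) b + 1))
include hz

omit [Fintype I] in
theorem mem_wball (t : WT S I) : A.ev t.W ∈ A.wball (z * (C.n t + 1)) := by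
  obtain ⟨u', h1, h2⟩ := hz (t.a C.i1) t.W (t.b C.i1)
  exact ⟨u', by simpa [n, cr, C.h1] using h2, h1⟩

theorem nrm_le_n (t : WT S I) : C.nrm (A.cls t) ≤ Fintype.card I * (z * (C.n t + 1) + 1) := by
  obtain ⟨u', h1, h2⟩ := C.mem_wball hz t
  have e : A.cls t = A.cls ⟨t.a, u', t.b⟩ := A.cls_eq.2 ⟨rfl, h2.symm, rfl⟩
  rw [e]
  refine (C.nrm_le _).trans ((C.len_le _).trans ?_)
  gcongr

theorem cnt_finite [Finite S] (k : ℕ) : (cnt Set.univ C.nrm k).Finite := by
  refine Set.Finite.of_injOn (f := fun x : A.XT I => (x.1, x.2.1.1, x.2.2))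
    (t := Set.univ ×ˢ A.wball (z * (k + 1)) ×ˢ Set.univ) ?_ ?_
    (Set.finite_univ.prod ((A.wball_finite _).prod Set.finite_univ))
  · intro x hx
    refine ⟨trivial, ?_, trivial⟩
    obtain ⟨W, h1, h2⟩ := C.mem_wball hz (C.geo x)
    refine ⟨W, h1.trans ?_, ?_⟩
    · have := (C.n_le_len (C.geo x)).trans hx.2
      gcongr
    · rw [h2]; conv_rhs => rw [← C.cls_geo x]
      rfl
  · rintro ⟨a, ⟨g, hg⟩, b⟩ _ ⟨a', ⟨g', hg'⟩, b'⟩ _ e
    simpa using e

theorem rate_inc [Finite S] : Rate {x | ∀ E, nD C.nrm C.ch E x = C.nrm x} C.nrm 0 := by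
  set J : Set (A.XT I) := {x | ∀ E, nD C.nrm C.ch E x = C.nrm x}
  set c := Fintype.card I
  have hdec : ∀ M D x, M + c ≤ C.nrm x → ∃ x1 x2, x = A.cls ((C.geo x1).comp (C.geo x2)) ∧
      M ≤ C.nrm x1 ∧ C.nrm x1 ≤ M + c ∧ C.nrm x = C.nrm x1 + C.nrm x2 ∧
      nD C.nrm C.ch D x ≤ nD C.nrm C.ch D x1 + nD C.nrm C.ch D x2 := by
    intro M D x h
    obtain ⟨t1, t2, e, h1, h2, h3⟩ := C.exists_cut (C.geo x) M h
    have hp := C.geo_pieces h1 (e ▸ C.nrm_geo x)
    have ex : x = A.cls (t1.comp t2) := by rw [← e, cls_geo]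
    refine ⟨A.cls t1, A.cls t2, ?_, by omega, by omega, ?_, ?_⟩
    · rw [ex]; exact A.cls_comp (C.cls_geo _).symm (C.cls_geo _).symm
    · rw [← hp.1, ← hp.2, ← h1.2, ← e]; rfl
    · rw [ex]; exact C.nD_comp_le D h1.1
  obtain ⟨t0, h0⟩ := rate_apriori C.nonexp (C.cnt_finite hz)
    (fun x1 x2 => A.cls ((C.geo x1).comp (C.geo x2))) c hdec
  obtain ⟨c0, hc0⟩ := exists_sep (A.wball_finite (z * (C.c3 + 1 + 1)))
  have hc0' : ∀ m m' : WT S I, C.n m ≤ C.c3 + 1 → C.n m' ≤ C.c3 + 1 →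
      (∀ v : List Bool, v.length ≤ c0 → A.ev m.W v = A.ev m'.W v) → A.ev m.W = A.ev m'.W := by
    intro m m' h1 h2
    have key : ∀ m : WT S I, C.n m ≤ C.c3 + 1 → A.ev m.W ∈ A.wball (z * (C.c3 + 1 + 1)) := by
      intro m h
      obtain ⟨W, a1, a2⟩ := C.mem_wball hz m
      exact ⟨W, a1.trans (by gcongr), a2⟩
    exact hc0 _ (key m h1) _ (key m' h2)
  set K0 := 2 ^ (c0 + C.L + 1) * (3 + C.c3) with hK0
  set K1 := c * (z * K0 + 1) with hK1
  refine rate_zero (h0.subset (Set.subset_univ _)) fun t ht hr => ?_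
  have hK1' : (0 : ℝ) < 4 * K1 + 6 := by positivity
  have hβ1 : 0 < 1 / (4 * (K1 : ℝ) + 6) := by positivity
  have hβ2 : 1 / (4 * (K1 : ℝ) + 6) ≤ 1 := by
    rw [div_le_one hK1']; have : (0 : ℝ) ≤ K1 := Nat.cast_nonneg _; linarith
  refine ⟨(1 - 1 / (4 * K1 + 6)) * t, by nlinarith, ?_⟩
  refine (hr.pair hr).shrink ht.le (by linarith) (by linarith) ((2 * K1 + 3) * (4 * c + 2))
    (2 * c + 1) (fun n => (C.cnt_finite hz n).subset fun x hx => ⟨trivial, hx.2⟩) fun k hk => ?_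
  have hq : k / (2 * K1 + 3) ≠ 0 := by
    have : 4 * c + 2 ≤ k / (2 * K1 + 3) := (Nat.le_div_iff_mul_le (by omega)).2 (by linarith)
    omega
  set j := Nat.log 2 (k / (2 * K1 + 3))
  have j1 : 2 ^ j ≤ k / (2 * K1 + 3) := Nat.pow_log_le_self 2 hq
  have j2 : k / (2 * K1 + 3) < 2 ^ (j + 1) := Nat.lt_pow_succ_log_self (by omega) _
  have j3 : 2 ^ j * (2 * K1 + 3) ≤ k := (Nat.le_div_iff_mul_le (by omega)).1 j1
  have j4 : k < 2 ^ (j + 1) * (2 * K1 + 3) := (Nat.div_lt_iff_lt_mul (by omega)).1 j2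
  have j5 : 2 * c + 1 ≤ 2 ^ j := by
    have : 4 * c + 2 ≤ k / (2 * K1 + 3) := (Nat.le_div_iff_mul_le (by omega)).2 (by linarith)
    rw [pow_succ] at j2
    omega
  set h := (k - 2 ^ j + 1) / 2 with hh
  have hK1h : K1 * 2 ^ j < h := by
    have : 2 ^ j * (2 * K1 + 3) = 2 * (K1 * 2 ^ j) + 3 * 2 ^ j := by ring
    omega
  have hle : 2 ^ j ≤ k := by nlinarith [Nat.zero_le (2 ^ j)]
  have hex : ∀ x ∈ J, C.nrm x = k → ∃ P m Y : WT S I, x = A.cls (P.comp (m.comp Y)) ∧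
      P.b = m.a ∧ m.b = Y.a ∧ A.cls P ∈ J ∧ A.cls Y ∈ J ∧
      C.nrm (A.cls P) + C.len m + C.nrm (A.cls Y) = k ∧ h ≤ C.nrm (A.cls P) ∧
      C.nrm (A.cls P) ≤ h + c ∧ h ≤ C.nrm (A.cls Y) ∧ C.nrm (A.cls Y) ≤ h + c := by
    intro x hx hxk
    have hxk' : C.len (C.geo x) = k := hxk
    obtain ⟨P, R, e, h1, h2, h3⟩ := C.exists_cut (C.geo x) h (by omega)
    have hg := C.nrm_geo x
    have hi : ∀ E, nD C.nrm C.ch E (A.cls (C.geo x)) = C.nrm (A.cls (C.geo x)) := by
      rw [cls_geo]; exact hx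
    rw [e] at hg hi hxk'
    have hp := C.geo_pieces h1 hg
    have hi1 := C.inc_pieces h1 hg hi
    have h1' := h1.2
    obtain ⟨m, Y, e', h4, h5, h6⟩ := C.exists_cut R (C.len R - h - c) (by omega)
    subst e'
    have hp' := C.geo_pieces h4 hp.2
    have hi2 := C.inc_pieces h4 hp.2 hi1.2
    have h4' := h4.2
    exact ⟨P, m, Y, by rw [← e, cls_geo], h1.1, h4.1, hi1.1, hi2.2, by omega, by omega, by omega,
      by omega, by omega⟩
  have : Nonempty (WT S I) := ⟨⟨fun _ => false, [], fun _ => false⟩⟩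
  choose! P m Y hPmY using hex
  refine ⟨fun x => ((A.cls (P x), A.cls (Y x)), C.n (m x)), ?_, fun x hx hxk => ?_⟩
  · rintro x ⟨hx, hxk⟩ x' ⟨hx', hxk'⟩ e
    simp only [Prod.mk.injEq] at e
    obtain ⟨⟨eP, eY⟩, en⟩ := e
    have key : ∀ x ∈ J, C.nrm x = k → C.Tri (C.geo (A.cls (P x))) (m x) (C.geo (A.cls (Y x))) ∧
        x = A.cls ((C.geo (A.cls (P x))).comp ((m x).comp (C.geo (A.cls (Y x))))) := by
      intro x hx hxk
      obtain ⟨a1, a2, a3, _, _, a4, _⟩ := hPmY x hx hxk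
      have ex : x = A.cls ((C.geo (A.cls (P x))).comp ((m x).comp (C.geo (A.cls (Y x))))) :=
        a1.trans (A.cls_comp (C.cls_geo _).symm (A.cls_comp rfl (C.cls_geo _).symm))
      have b1 : (C.geo (A.cls (P x))).b = ((m x).comp (C.geo (A.cls (Y x)))).a :=
        (A.cls_eq.1 (C.cls_geo (A.cls (P x)))).2.2.trans a2
      have b2 : (m x).b = (C.geo (A.cls (Y x))).a :=
        a3.trans (A.cls_eq.1 (C.cls_geo (A.cls (Y x)))).1.symm
      have l1 := C.len_comp_le b1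
      have l2 := C.len_comp_le b2
      have l3 := C.nrm_le ((C.geo (A.cls (P x))).comp ((m x).comp (C.geo (A.cls (Y x)))))
      rw [← ex] at l3
      unfold nrm at a4
      refine ⟨⟨⟨b2, by omega⟩, ⟨b1, by omega⟩, C.perf_of_inc (by rw [← ex]; omega) ?_⟩, ex⟩
      rw [← ex]; exact hx
    obtain ⟨t1, e1⟩ := key x hx hxk
    obtain ⟨t2, e2⟩ := key x' hx' hxk'
    rw [← eP, ← eY] at t2 e2
    obtain ⟨_, _, _, _, _, a4, a5, _, a6, _⟩ := hPmY x hx hxk
    have big : ∀ y : A.XT I, h ≤ C.nrm y → C.th (j + c0 + C.L + 1) ≤ C.n (C.geo y) := by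
      intro y hy
      by_contra hlt
      have b1 := C.nrm_le_n hz (C.geo y)
      rw [cls_geo] at b1
      have b2 := C.th_le (j + c0 + C.L + 1)
      have b3 : C.n (C.geo y) + 1 ≤ K0 * 2 ^ j := by
        have : 2 ^ (j + c0 + C.L + 1) * (3 + C.c3) = K0 * 2 ^ j := by rw [hK0]; ring
        omega
      have b4 : c * (z * (C.n (C.geo y) + 1) + 1) ≤ K1 * 2 ^ j := by
        calc c * (z * (C.n (C.geo y) + 1) + 1) ≤ c * (z * (K0 * 2 ^ j) + 2 ^ j) := by
              gcongr; exact Nat.one_le_two_pow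
          _ = _ := by rw [hK1]; ring
      change _ ≤ c * _ at b1
      omega
    have hm := C.n_le_len (m x)
    have := key_lemma hc0' j t1 t2 en (by omega) (big _ a5) (big _ a6)
    rw [e1, e2]
    refine A.cls_comp rfl (A.cls_comp (A.cls_eq.2 ⟨?_, this, ?_⟩) rfl)
    · exact t1.ad1.1.symm.trans t2.ad1.1
    · exact t1.ad2.1.trans t2.ad2.1.symm
  · obtain ⟨_, _, _, a1, a2, a4, _, a5, _, a6⟩ := hPmY x hx hxk
    have hm := C.n_le_len (m x)
    refine ⟨⟨a1, a2⟩, ?_, by simp only; omega⟩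
    have b1 : C.nrm (A.cls (P x)) + C.nrm (A.cls (Y x)) + 2 ^ j ≤ k + (2 * c + 1) := by omega
    have b2 : ((C.nrm (A.cls (P x)) + C.nrm (A.cls (Y x)) : ℕ) : ℝ) + 2 ^ j ≤ k + (2 * c + 1 : ℕ) := by
      exact_mod_cast b1
    have b3 : (k : ℝ) / (4 * K1 + 6) ≤ 2 ^ j := by
      rw [div_le_iff₀ hK1']
      have : k ≤ 2 ^ j * (4 * K1 + 6) := by rw [pow_succ] at j4; nlinarith
      exact_mod_cast this
    simp only
    rw [sub_mul, one_mul, one_div_mul_eq_div]
    linarith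

theorem rate_all [Finite S] : Rate Set.univ C.nrm 0 := by
  refine criterion C.nonexp (C.cnt_finite hz) (fun x => (x.1, x.2.2, A.par (C.geo x).W)) ?_
    (fun x1 x2 => A.cls ((C.geo x1).comp (C.geo x2))) (Fintype.card I) ?_ (C.rate_inc hz)
  · intro x y e h0 h1
    simp only [Prod.mk.injEq] at e
    rw [← C.cls_geo x, ← C.cls_geo y, cls_eq]
    refine ⟨?_, A.ev_eq_of_sec e.2.2 fun b => ?_, ?_⟩
    · have := e.1
      rwa [← C.cls_geo x, ← C.cls_geo y] at this
    · cases b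
      · exact (A.cls_eq.1 h0).2.1
      · exact (A.cls_eq.1 h1).2.1
    · have := e.2.1
      rwa [← C.cls_geo x, ← C.cls_geo y] at this
  · intro M D x h
    obtain ⟨t1, t2, e, h1, h2, h3⟩ := C.exists_cut (C.geo x) M h
    have hp := C.geo_pieces h1 (e ▸ C.nrm_geo x)
    have ex : x = A.cls (t1.comp t2) := by rw [← e, cls_geo]
    refine ⟨A.cls t1, A.cls t2, ?_, by omega, by omega, ?_, ?_⟩
    · rw [ex]; exact A.cls_comp (C.cls_geo _).symm (C.cls_geo _).symm
    · rw [← hp.1, ← hp.2, ← h1.2, ← e]; rfl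
    · rw [ex]; exact C.nD_comp_le D h1.1

end CS

theorem subexp [Finite S] (hs : ¬ A.Star) (δ : ℝ) (hδ : 0 < δ) :
    ∃ K : ℝ, ∀ n : ℕ, ((A.wball n).ncard : ℝ) ≤ K * Real.exp (δ * n) := by
  obtain ⟨I, _, ⟨C⟩⟩ := A.exists_CS hs
  obtain ⟨z, hz⟩ := A.exists_short hs
  set c := Fintype.card I
  obtain ⟨K, K0, hK⟩ := (C.rate_all hz).pos (δ / (c + 1)) (by positivity)
  refine ⟨K * Real.exp δ, fun n => ?_⟩
  have h1 : (A.wball n).ncard ≤ (cnt Set.univ C.nrm (c * (n + 1))).ncard := by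
    refine le_trans (Set.ncard_le_ncard ?_ ((hK _).1.image _))
      (Set.ncard_image_le (f := fun x : A.XT I => x.2.1.1) (hK _).1)
    rintro g ⟨W, h1, rfl⟩
    refine ⟨A.cls ⟨fun _ => false, W, fun _ => false⟩, ⟨trivial, ?_⟩, rfl⟩
    exact (C.nrm_le _).trans ((C.len_le _).trans (by gcongr))
  have h2 : ((A.wball n).ncard : ℝ) ≤ _ := le_trans (by exact_mod_cast h1) (hK _).2
  refine h2.trans ?_
  rw [mul_assoc, ← Real.exp_add]
  gcongr
  push_cast
  have : δ / (c + 1) * c ≤ δ := by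
    rw [div_mul_eq_mul_div, div_le_iff₀ (by positivity)]; nlinarith
  have hn : (0 : ℝ) ≤ n := Nat.cast_nonneg n
  calc (0 + δ / (c + 1)) * (c * (n + 1)) = δ / (c + 1) * c * (n + 1) := by ring
    _ ≤ δ * (n + 1) := by gcongr
    _ = _ := by ring

end KA

end Pool.Agent.MP_61ef33_al
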