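import Pool.Agent.MP_61ef33_al.K8

/- Sections in the group, centralisers of normal closures of generators. -/

namespace Pool.Agent.MP_61ef33_al

namespace KA

variable {S : Type} (A : KA S)

/-- The group generated by the automaton. -/
def G : Subgroup (Equiv.Perm (List Bool)) where
  carrier := Set.range A.ev
  one_mem' := ⟨[], rfl⟩
  mul_mem' := by rintro _ _ ⟨U, rfl⟩ ⟨V, rfl⟩; exact ⟨V ++ U, A.ev_append _ _⟩
  inv_mem' := by rintro _ ⟨U, rfl⟩; exact ⟨U.reverse, A.ev_reverse _⟩

theorem G_eq : A.G = Subgroup.closure (Set.range A.gen) := by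
  apply le_antisymm
  · rintro _ ⟨U, rfl⟩
    induction U with
    | nil => exact one_mem _
    | cons s U ih => exact mul_mem ih (Subgroup.subset_closure ⟨s, rfl⟩)
  · rw [Subgroup.closure_le]
    rintro _ ⟨s, rfl⟩
    exact ⟨[s], by simp⟩

noncomputable def el (W : List S) : A.G := ⟨A.ev W, W, rfl⟩

noncomputable def ga (s : S) : A.G := A.el [s]

theorem el_surj (g : A.G) : ∃ W, A.el W = g := by
  obtain ⟨_, W, rfl⟩ := g
  exact ⟨W, rfl⟩

theorem el_append (U V : List S) : A.el (U ++ V) = A.el V * A.el U := Subtype.ext (A.ev_append _ _)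

variable {A}

noncomputable def gp (g : A.G) : Bool := A.par (A.el_surj g).choose

noncomputable def gs (g : A.G) (y : Bool) : A.G := A.el (A.sec (A.el_surj g).choose y)

theorem gp_el (W : List S) : gp (A.el W) = A.par W :=
  A.par_eq_of_ev (congrArg Subtype.val (A.el_surj (A.el W)).choose_spec)

theorem gs_el (W : List S) (y : Bool) : gs (A.el W) y = A.el (A.sec W y) :=
  Subtype.ext (A.sec_eq_of_ev (congrArg Subtype.val (A.el_surj (A.el W)).choose_spec) y)

theorem g_nil (g : A.G) : g.1 [] = [] := by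
  obtain ⟨W, rfl⟩ := A.el_surj g
  exact A.ev_apply_nil W

theorem g_cons (g : A.G) (y : Bool) (v : List Bool) :
    g.1 (y :: v) = xor y (gp g) :: (gs g y).1 v := by
  obtain ⟨W, rfl⟩ := A.el_surj g
  rw [gp_el, gs_el]
  exact A.ev_apply_cons W y v

theorem gp_mul (g h : A.G) : gp (g * h) = xor (gp g) (gp h) := by
  obtain ⟨U, rfl⟩ := A.el_surj g
  obtain ⟨V, rfl⟩ := A.el_surj h
  rw [← el_append, gp_el, gp_el, gp_el, par_append, Bool.xor_comm]

theorem gs_mul (g h : A.G) (y : Bool) : gs (g * h) y = gs g (xor y (gp h)) * gs h y := by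
  obtain ⟨U, rfl⟩ := A.el_surj g
  obtain ⟨V, rfl⟩ := A.el_surj h
  rw [← el_append, gs_el, gs_el, gs_el, gp_el, sec_append, el_append]

@[simp] theorem gp_one : gp (1 : A.G) = false := gp_el []

@[simp] theorem gs_one (y : Bool) : gs (1 : A.G) y = 1 := gs_el [] y

@[simp] theorem gp_inv (g : A.G) : gp g⁻¹ = gp g := by
  have := gp_mul g⁻¹ g
  rw [inv_mul_cancel, gp_one] at this
  revert this
  cases gp g⁻¹ <;> cases gp g <;> simp

theorem gs_inv (g : A.G) (y : Bool) : gs g⁻¹ y = (gs g (xor y (gp g)))⁻¹ := by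
  have := gs_mul g g⁻¹ y
  rw [mul_inv_cancel, gs_one, gp_inv] at this
  exact eq_inv_of_mul_eq_one_right this.symm

theorem g_ext {g h : A.G} (hp : gp g = gp h) (hs : ∀ y, gs g y = gs h y) : g = h := by
  apply Subtype.ext
  ext1 v
  cases v with
  | nil => rw [g_nil, g_nil]
  | cons y v => rw [g_cons, g_cons, hp, hs]

theorem g_length (g : A.G) (v : List Bool) : (g.1 v).length = v.length := by
  induction v generalizing g with
  | nil => rw [g_nil]
  | cons y v ih => simp [g_cons, ih]

theorem g_append (g : A.G) (u w : List Bool) : ∃ w', g.1 (u ++ w) = g.1 u ++ w' := by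
  induction u generalizing g with
  | nil => exact ⟨g.1 w, by simp [g_nil]⟩
  | cons y u ih =>
    obtain ⟨w', h⟩ := ih (gs g y)
    exact ⟨w', by simp [g_cons, h]⟩

theorem gp_ga (s : S) : gp (A.ga s) = A.isg s := by simp [ga, gp_el]

theorem gs_ga (s : S) (y : Bool) : gs (A.ga s) y = A.el (A.prev y s).toList := by
  simp [ga, gs_el, sec_cons]

theorem gs_ga_nx (t : S) : gs (A.ga (A.nx t)) (A.cl t) = A.ga t := by
  rw [gs_ga, prev_nx]; rfl

theorem gs_ga_sg (y : Bool) : gs (A.ga A.sg) y = 1 := by rw [gs_ga, prev_sg]; rfl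

theorem gs_ga_cases (s : S) (y : Bool) :
    gs (A.ga s) y = 1 ∨ ∃ t, A.nx t = s ∧ A.cl t = y ∧ gs (A.ga s) y = A.ga t := by
  rw [gs_ga]
  cases e : A.prev y s with
  | none => left; rfl
  | some t => exact Or.inr ⟨t, (A.prev_eq_some.1 e).1, (A.prev_eq_some.1 e).2, rfl⟩

theorem ga_mul_self (s : S) : A.ga s * A.ga s = 1 :=
  Subtype.ext (by simpa [ga, el] using A.gen_mul_self s)

theorem ga_inv (s : S) : (A.ga s)⁻¹ = A.ga s := inv_eq_of_mul_eq_one_left (ga_mul_self s)

/-- Acts trivially down to level `d`. -/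
def Fix (d : ℕ) (g : A.G) : Prop := ∀ v : List Bool, v.length ≤ d → g.1 v = v

theorem fix_succ {d : ℕ} {g : A.G} : Fix (d + 1) g ↔ gp g = false ∧ ∀ y, Fix d (gs g y) := by
  constructor
  · intro h
    refine ⟨?_, fun y v hv => ?_⟩
    · have := h [false] (by simp)
      rw [g_cons] at this
      simpa using (List.cons.inj this).1
    · have := h (y :: v) (by simpa using hv)
      rw [g_cons] at this
      exact (List.cons.inj this).2
  · rintro ⟨h1, h2⟩ v hv
    cases v with
    | nil => exact g_nil g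
    | cons y v => rw [g_cons, h1, h2 y v (by simpa using hv)]; simp

theorem fix_ga (k : ℕ) (s : S) : Fix k (A.ga s) ↔ ∀ j < k, A.nx^[j] A.sg ≠ s := by
  induction k generalizing s with
  | zero =>
    refine ⟨fun _ j hj => absurd hj (by omega), fun _ v hv => ?_⟩
    have : v = [] := by simpa using hv
    rw [this, g_nil]
  | succ k ih =>
    rw [fix_succ, gp_ga, isg_eq_false]
    constructor
    · rintro ⟨h1, h2⟩ j hj
      cases j with
      | zero => exact h1.symm
      | succ j =>
        intro e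
        rw [Function.iterate_succ_apply'] at e
        have := h2 (A.cl (A.nx^[j] A.sg))
        rw [← e, gs_ga_nx, ih] at this
        exact this j (by omega) rfl
    · intro h
      refine ⟨(h 0 (by omega)).symm, fun y => ?_⟩
      rcases gs_ga_cases s y with e | ⟨t, h1, _, e⟩
      · rw [e]; intro v _; rfl
      · rw [e, ih]
        intro j hj e'
        exact h (j + 1) (by omega) (by rw [Function.iterate_succ_apply', e', h1])

theorem Fix.conj {d : ℕ} {g : A.G} (h : Fix d g) (r : A.G) : Fix d (r * g * r⁻¹) := by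
  intro v hv
  have := h (r⁻¹.1 v) (by rw [g_length]; exact hv)
  simp only [Subgroup.coe_mul, Equiv.Perm.mul_apply, this]
  simp

theorem ga_ne_one (s : S) : A.ga s ≠ 1 := by
  intro h
  obtain ⟨k, hk⟩ := A.hc s
  exact (fix_ga (k + 1) s).1 (h ▸ fun _ _ => rfl) k (by omega) hk

theorem ga_conj {s t : S} {r : A.G} (h : r * A.ga s * r⁻¹ = A.ga t) : s = t := by
  classical
  have h1 : ∀ k, (∀ j < k, A.nx^[j] A.sg ≠ s) → ∀ j < k, A.nx^[j] A.sg ≠ t := fun k hk =>
    (fix_ga k t).1 (h ▸ ((fix_ga k s).2 hk).conj r)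
  have h2 : ∀ k, (∀ j < k, A.nx^[j] A.sg ≠ t) → ∀ j < k, A.nx^[j] A.sg ≠ s := fun k hk => by
    have := ((fix_ga k t).2 hk).conj r⁻¹
    rw [← h] at this
    exact (fix_ga k s).1 (by simpa [mul_assoc] using this)
  have a := Nat.find_spec (A.hc s)
  have b := Nat.find_spec (A.hc t)
  rcases lt_trichotomy (Nat.find (A.hc s)) (Nat.find (A.hc t)) with hlt | he | hlt
  · exact absurd a (h2 _ (fun j hj => Nat.find_min (A.hc t) hj) _ hlt)
  · rw [← a, ← b, he]
  · exact absurd b (h1 _ (fun j hj => Nat.find_min (A.hc s) hj) _ hlt)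

variable (A) in
/-- A word fixing the first level whose section at `y` is a given word. -/
noncomputable def lift1 (y : Bool) : List S → List S
  | [] => []
  | t :: W => (if A.cl t = y then [A.nx t] else [A.sg, A.nx t, A.sg]) ++ lift1 y W

theorem lift1_spec (y : Bool) (W : List S) : A.par (A.lift1 y W) = false ∧
    A.sec (A.lift1 y W) y = W ∧ (A.lift1 y W).length ≤ 3 * W.length := by
  induction W with
  | nil => simp [lift1]
  | cons t W ih =>
    by_cases h : A.cl t = y
    · subst h
      refine ⟨by simp [lift1, ih.1], by simp [lift1, sec_cons, prev_nx, ih.2.1], ?_⟩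
      have := ih.2.2
      simp [lift1]; omega
    · have h' : (!y) = A.cl t := by revert h; cases y <;> cases A.cl t <;> simp
      have h'' : (!A.cl t) = y := by revert h; cases y <;> cases A.cl t <;> simp
      refine ⟨by simp [lift1, h, ih.1], by
        simp [lift1, h, sec_cons, prev_sg, h', prev_nx, h'', ih.2.1], ?_⟩
      have := ih.2.2
      simp [lift1, h]; omega

theorem exists_lift (g : A.G) (y : Bool) : ∃ h : A.G, gp h = false ∧ gs h y = g := by
  obtain ⟨W, rfl⟩ := A.el_surj g
  exact ⟨A.el (A.lift1 y W), by rw [gp_el, (lift1_spec y W).1], by rw [gs_el, (lift1_spec y W).2.1]⟩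

/-- Centraliser of the conjugacy class of a generator. -/
def Cen (s : S) (r : A.G) : Prop := ∀ g : A.G, r * (g * A.ga s * g⁻¹) = (g * A.ga s * g⁻¹) * r

theorem Cen.conj {s : S} {r : A.G} (h : Cen s r) (k : A.G) : Cen s (k * r * k⁻¹) := by
  intro g
  have := h (k⁻¹ * g)
  calc k * r * k⁻¹ * (g * A.ga s * g⁻¹) = k * (r * (k⁻¹ * g * A.ga s * (k⁻¹ * g)⁻¹)) * k⁻¹ := by group
    _ = _ := by rw [this]; group

theorem cen_nx {t : S} {r : A.G} (h : Cen (A.nx t) r) : gp r = false ∧ ∀ y, Cen t (gs r y) := by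
  have hp : gp r = false := by
    by_contra hp
    have hp : gp r = true := by simpa using hp
    have e := congrArg (fun g => gs g (A.cl t)) (h 1)
    simp only [one_mul, inv_one, mul_one, gs_mul, gp_ga, isg_nx, hp, Bool.xor_false, gs_ga_nx,
      Bool.xor_true] at e
    have e' : gs r (A.cl t) * A.ga t * (gs r (A.cl t))⁻¹ = gs (A.ga (A.nx t)) (!A.cl t) := by
      rw [e]; group
    rcases gs_ga_cases (A.nx t) (!A.cl t) with e1 | ⟨u, _, h2, e1⟩
    · rw [e1] at e'
      exact ga_ne_one t (by simpa using e')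
    · rw [e1] at e'
      rw [← ga_conj e'] at h2
      revert h2; cases A.cl t <;> simp
  have key : ∀ r : A.G, Cen (A.nx t) r → gp r = false → Cen t (gs r (A.cl t)) := by
    intro r h hp g
    obtain ⟨k, k1, k2⟩ := exists_lift g (A.cl t)
    have e := congrArg (fun g => gs g (A.cl t)) (h k)
    simpa only [gs_mul, gp_mul, gp_inv, gs_inv, k1, hp, gp_ga, isg_nx, Bool.xor_false, k2,
      gs_ga_nx] using e
  refine ⟨hp, fun y => ?_⟩
  by_cases hy : y = A.cl t
  · rw [hy]; exact key r h hp
  · have := key _ (h.conj (A.ga A.sg)) (by simp [gp_mul, hp])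
    have h' : (!A.cl t) = y := by revert hy; cases y <;> cases A.cl t <;> simp
    simpa [gs_mul, gs_inv, gs_ga_sg, gp_ga, h'] using this

/-- Total parity on the second level. -/
noncomputable def q2 (g : A.G) : Bool := xor (gp (gs g false)) (gp (gs g true))

theorem q2_mul (g h : A.G) : q2 (g * h) = xor (q2 g) (q2 h) := by
  simp only [q2, gs_mul, gp_mul]
  cases gp h <;> simp only [Bool.xor_false, Bool.xor_true, Bool.not_false, Bool.not_true] <;>
    cases gp (gs g false) <;> cases gp (gs g true) <;> cases gp (gs h false) <;>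
    cases gp (gs h true) <;> rfl

theorem q2_inv (g : A.G) : q2 g⁻¹ = q2 g := by
  simp only [q2, gs_inv, gp_inv]
  cases gp g <;> simp [Bool.xor_comm]

theorem q2_one : q2 (1 : A.G) = false := by simp [q2]

theorem gp_gs_ga (s : S) (y : Bool) :
    gp (gs (A.ga s) y) = true ↔ s = A.nx A.sg ∧ y = A.cl A.sg := by
  constructor
  · intro h
    rcases gs_ga_cases s y with e | ⟨t, h1, h2, e⟩
    · rw [e] at h; simp at h
    · rw [e, gp_ga, isg_eq_true] at h
      subst h
      exact ⟨h1.symm, h2.symm⟩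
  · rintro ⟨rfl, rfl⟩
    rw [gs_ga_nx, gp_ga, isg_sg]

theorem q2_ga (s : S) : q2 (A.ga s) = true ↔ s = A.nx A.sg := by
  have h0 := gp_gs_ga (A := A) s false
  have h1 := gp_gs_ga (A := A) s true
  unfold q2
  revert h0 h1
  cases gp (gs (A.ga s) false) <;> cases gp (gs (A.ga s) true) <;> cases A.cl A.sg <;> simp

theorem exists_phi {a : S} (ha : ∀ t, A.nx t = A.nx a → t = a) (g : A.G) (y : Bool) :
    ∃ h : A.G, gp h = false ∧ gs h y = g * A.ga a * g⁻¹ ∧ gs h (!y) = 1 := by
  have h0 : gs (A.ga (A.nx a)) (!A.cl a) = 1 := by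
    rcases gs_ga_cases (A.nx a) (!A.cl a) with e | ⟨t, h1, h2, _⟩
    · exact e
    · rw [ha t h1] at h2
      revert h2; cases A.cl a <;> simp
  have h1 : ∃ h : A.G, gp h = false ∧ gs h y = A.ga a ∧ gs h (!y) = 1 := by
    by_cases hy : y = A.cl a
    · subst hy
      exact ⟨A.ga (A.nx a), by simp [gp_ga], gs_ga_nx a, h0⟩
    · have h' : (!y) = A.cl a := by revert hy; cases y <;> cases A.cl a <;> simp
      have h'' : (!A.cl a) = y := by revert hy; cases y <;> cases A.cl a <;> simp
      refine ⟨A.ga A.sg * A.ga (A.nx a) * A.ga A.sg, by simp [gp_mul, gp_ga], ?_, ?_⟩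
      · simp [gs_mul, gp_ga, gs_ga_sg, h', gs_ga_nx]
      · simp [gs_mul, gp_ga, gs_ga_sg, ← h'', h0]
  obtain ⟨h, h1, h2, h3⟩ := h1
  obtain ⟨k, k1, k2⟩ := exists_lift g y
  exact ⟨k * h * k⁻¹, by simp [gp_mul, h1], by simp [gs_mul, gs_inv, k1, h1, k2, h2],
    by simp [gs_mul, gs_inv, k1, h1, h3]⟩

theorem cen_sg_eq {r : A.G} (h : Cen A.sg r) : gs r true = gs r false := by
  have e := congrArg (fun g => gs g false) (h 1)
  simpa [gs_mul, gp_ga, gs_ga_sg] using e

theorem cen_sg {a : S} (ha : ∀ t, A.nx t = A.nx a → t = a) {r : A.G} (h : Cen A.sg r) :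
    gp r = false ∧ ∀ y, Cen a (gs r y) := by
  have e0 := cen_sg_eq h
  have hd : ∀ k : A.G, gp k = false → gs r false * (gs k true * (gs k false)⁻¹) =
      gs k (!gp r) * (gs k (gp r))⁻¹ * gs r false := by
    intro k hk
    have e := congrArg (fun g => gs g false) (h k)
    simpa [gs_mul, gp_mul, gs_inv, hk, gp_ga, gs_ga_sg, e0] using e
  have hx : ∀ g : A.G, (g * A.ga a * g⁻¹)⁻¹ = g * A.ga a * g⁻¹ := fun g => by
    simp [mul_assoc, ga_inv]
  have hc : Cen a (gs r false) := by
    intro g
    obtain ⟨k, k1, k2, k3⟩ := exists_phi ha g false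
    have := hd k k1
    simp only [Bool.not_false] at k3
    revert this
    cases gp r <;> simp only [Bool.not_false, Bool.not_true, k2, k3, hx, one_mul, inv_one,
      mul_one] <;> exact id
  refine ⟨?_, fun y => by cases y; exact hc; exact e0 ▸ hc⟩
  by_contra hp
  have hp : gp r = true := by simpa using hp
  have hD : ∀ k : A.G, gp k = false → Cen a (gs k true * (gs k false)⁻¹) := by
    intro k hk g
    obtain ⟨f, f1, f2, f3⟩ := exists_phi ha g false
    simp only [Bool.not_false] at f3
    have a1 := hd k hk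
    have a2 := hd (f * k) (by simp [gp_mul, f1, hk])
    have a3 := hc g
    simp only [hp, Bool.not_true, gs_mul, hk, Bool.xor_false, f2, f3, one_mul] at a1 a2
    have hx' := hx g
    set x := g * A.ga a * g⁻¹
    set r0 := gs r false
    set d := gs k true * (gs k false)⁻¹ with hd'
    have b1 : r0 * d = d⁻¹ * r0 := by rw [a1, hd']; group
    have b2 : r0 * (d * x⁻¹) = x * d⁻¹ * r0 := by
      have : d * x⁻¹ = gs k true * (x * gs k false)⁻¹ := by rw [hd']; group
      rw [this, a2, hd']; group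
    rw [hx', ← mul_assoc, b1, mul_assoc, a3, ← mul_assoc] at b2
    have b3 : d⁻¹ * x = x * d⁻¹ := mul_right_cancel b2
    calc d * x = d * (x * d⁻¹) * d := by group
      _ = _ := by rw [← b3]; group
  by_cases has : a = A.sg
  · subst has
    have h1 := cen_sg_eq (hD (A.ga (A.nx (A.nx A.sg))) (by simp [gp_ga]))
    have h2 : q2 (gs (A.ga (A.nx (A.nx A.sg))) true * (gs (A.ga (A.nx (A.nx A.sg))) false)⁻¹) =
        false := by simp [q2, h1]
    rw [q2_mul, q2_inv] at h2
    have h3 : q2 (gs (A.ga (A.nx (A.nx A.sg))) (A.cl (A.nx A.sg))) = true := by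
      rw [gs_ga_nx, q2_ga]
    have h4 : q2 (gs (A.ga (A.nx (A.nx A.sg))) (!A.cl (A.nx A.sg))) = false := by
      rcases gs_ga_cases (A.nx (A.nx A.sg)) (!A.cl (A.nx A.sg)) with e | ⟨t, _, t2, e⟩
      · rw [e, q2_one]
      · rw [e]
        by_contra h5
        rw [(q2_ga t).1 (by simpa using h5)] at t2
        revert t2; cases A.cl (A.nx A.sg) <;> simp
    revert h2 h3 h4
    cases A.cl (A.nx A.sg) <;> simp +contextual
  · obtain ⟨k, hk⟩ := A.hc a
    cases k with
    | zero => exact has hk.symm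
    | succ k =>
      rw [Function.iterate_succ_apply'] at hk
      have h1 := hD (A.ga (A.nx A.sg)) (by simp [gp_ga])
      rw [← hk] at h1
      have h2 := (cen_nx h1).1
      have h3 := (q2_ga (A := A) (A.nx A.sg)).2 rfl
      rw [gp_mul, gp_inv, Bool.xor_comm] at h2
      rw [q2, h2] at h3
      cases h3

theorem cen_trivial {a : S} (ha : ∀ t, A.nx t = A.nx a → t = a) {s : S} {r : A.G} (h : Cen s r) :
    r = 1 := by
  apply Subtype.ext
  ext1 v
  change _ = v
  induction v generalizing s r with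
  | nil => exact g_nil r
  | cons y v ih =>
    obtain ⟨k, rfl⟩ := A.hc s
    cases k with
    | zero =>
      have := cen_sg ha h
      rw [g_cons, this.1, ih (this.2 y)]; simp
    | succ k =>
      rw [Function.iterate_succ_apply'] at h
      have := cen_nx h
      rw [g_cons, this.1, ih (this.2 y)]; simp

variable (A) in
theorem exists_uniq [Fintype S] (h3 : 3 ≤ Fintype.card S) : ∃ a, ∀ t, A.nx t = A.nx a → t = a := by
  classical
  by_contra h
  push Not at h
  have h1 := Finset.mul_card_image_le_card (f := A.nx) Finset.univ 2 (by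
    intro b hb
    obtain ⟨a, _, rfl⟩ := Finset.mem_image.1 hb
    obtain ⟨t, h1, h2⟩ := h a
    exact Finset.one_lt_card.2 ⟨t, by simp [h1], a, by simp, h2⟩)
  have h2 : Finset.univ.erase A.sg ⊆ Finset.univ.image A.nx := by
    intro s hs
    obtain ⟨k, rfl⟩ := A.hc s
    cases k with
    | zero => simp at hs
    | succ k => rw [Function.iterate_succ_apply']; simp
  have h4 := Finset.card_le_card h2
  rw [Finset.card_erase_of_mem (Finset.mem_univ _), Finset.card_univ] at h4
  rw [Finset.card_univ] at h1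
  omega

end KA

end Pool.Agent.MP_61ef33_al
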