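import Mathlib

/- Legs (arcs to infinity), canonical branches of the square root off a leg, crossing parity. -/

namespace Pool.Agent.MP_61ef33_al

open Filter Topology unitInterval Set

theorem sq_unique {α : Type} [TopologicalSpace α] {S : Set α} (hS : IsPreconnected S)
    {u v : α → ℂ} (hu : ContinuousOn u S) (hv : ContinuousOn v S) (h : ∀ x ∈ S, u x ^ 2 = v x ^ 2)
    (h0 : ∀ x ∈ S, v x ≠ 0) {a : α} (ha : a ∈ S) (e : u a = v a) : ∀ x ∈ S, u x = v x :=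
  hS.eq_of_sq_eq hu hv (fun x hx => h x hx) (fun hx => h0 _ hx) ha e

theorem sq_uniqueI {u v : I → ℂ} (hu : Continuous u) (hv : Continuous v)
    (h : ∀ x, u x ^ 2 = v x ^ 2) (h0 : ∀ x, v x ≠ 0) (e : u 0 = v 0) (x : I) : u x = v x :=
  sq_unique isPreconnected_univ hu.continuousOn hv.continuousOn (fun x _ => h x)
    (fun x _ => h0 x) (mem_univ 0) e x (mem_univ x)

theorem exists_sqrt_homotopy {A : Type} [TopologicalSpace A] (H : I × A → ℂ) (hH : Continuous H)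
    (h0 : ∀ p, H p ≠ 0) (g : A → ℂ) (hg : Continuous g) (hg0 : ∀ a, g a ^ 2 = H (0, a)) :
    ∃ R : I × A → ℂ, Continuous R ∧ (∀ p, R p ^ 2 = H p) ∧ ∀ a, R (0, a) = g a := by
  have cov := isCoveringMap_npow (𝕜 := ℂ) 2 (by norm_num)
  have hgne : ∀ a, g a ≠ 0 := fun a e => h0 (0, a) (by rw [← hg0, e]; simp)
  let H' : C(I × A, {x : ℂ // x ≠ 0}) := ⟨fun p => ⟨H p, h0 p⟩, by fun_prop⟩
  let g' : C(A, {x : ℂ // x ≠ 0}) := ⟨fun a => ⟨g a, hgne a⟩, by fun_prop⟩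
  have e : ∀ a, H' (0, a) = (fun x : {x : ℂ // x ≠ 0} =>
      (⟨x ^ 2, pow_ne_zero 2 x.2⟩ : {x : ℂ // x ≠ 0})) (g' a) := fun a => Subtype.ext (hg0 a).symm
  refine ⟨fun p => (cov.liftHomotopy H' g' e p).1, by fun_prop, fun p => ?_, fun a => ?_⟩
  · exact congrArg Subtype.val (congrFun (cov.liftHomotopy_lifts H' g' e) p)
  · exact congrArg Subtype.val (cov.liftHomotopy_zero H' g' e a)

theorem exists_sqrt_lift {γ : I → ℂ} (hγ : Continuous γ) (h0 : ∀ τ, γ τ ≠ 0) {v0 : ℂ}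
    (hv : v0 ^ 2 = γ 0) : ∃ v : I → ℂ, Continuous v ∧ (∀ τ, v τ ^ 2 = γ τ) ∧ v 0 = v0 := by
  obtain ⟨R, h1, h2, h3⟩ := exists_sqrt_homotopy (A := Unit) (fun p => γ p.1) (by fun_prop)
    (fun p => h0 _) (fun _ => v0) continuous_const (fun _ => hv)
  exact ⟨fun τ => R (τ, ()), by fun_prop, fun τ => h2 _, h3 _⟩

theorem exists_sq (z : ℂ) : ∃ w : ℂ, w ^ 2 = z := IsAlgClosed.exists_pow_nat_eq z (by norm_num)

theorem exists_sqrt_ball {x s : ℂ} {r : ℝ} (hs : s ∉ Metric.ball x r) :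
    ∃ q : ℂ → ℂ, ContinuousOn q (Metric.ball x r) ∧ ∀ z, q z ^ 2 = z - s := by
  rcases (Metric.ball x r).eq_empty_or_nonempty with h | h
  · choose q hq using fun z => exists_sq (z - s)
    exact ⟨q, by rw [h]; exact continuousOn_empty _, hq⟩
  · have := (convex_ball x r).contractibleSpace h
    refine Complex.exists_continuousOn_pow_eq (U := Metric.ball x r) ?_ Metric.isOpen_ball
      (by fun_prop) ?_ (by norm_num)
    · exact (inferInstance : SimplyConnectedSpace (Metric.ball x r))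
    · rintro ⟨z, hz, e⟩
      exact hs (sub_eq_zero.1 e ▸ hz)

/-- An arc from infinity (parameter `0`) to its tip (parameter `1`). -/
structure Leg where
  l : ℝ → ℂ
  cont : ContinuousOn l (Ioc 0 1)
  inf : Tendsto l (𝓝[>] 0) (Bornology.cobounded ℂ)

/-- Sign attached to a parity. -/
def sg (e : Bool) : ℂ := if e then -1 else 1

theorem sg_xor (a b : Bool) : sg (xor a b) = sg a * sg b := by cases a <;> cases b <;> simp [sg]
theorem sg_inj {a b : Bool} (h : sg a = sg b) : a = b := by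
  revert h; cases a <;> cases b <;> simp [sg] <;> norm_num
theorem sg_sq (a : Bool) : sg a ^ 2 = 1 := by cases a <;> simp [sg]
theorem sg_ne (a : Bool) : sg a ≠ 0 := by cases a <;> simp [sg]
theorem exists_sg {a b : ℂ} (h : a ^ 2 = b ^ 2) : ∃ e, a = sg e * b := by
  rcases sq_eq_sq_iff_eq_or_eq_neg.1 h with h | h
  · exact ⟨false, by simp [sg, h]⟩
  · exact ⟨true, by simp [sg, h]⟩

namespace Leg

variable (L : Leg)

def set : Set ℂ := L.l '' Ioc 0 1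

def tip : ℂ := L.l 1

theorem tip_mem : L.tip ∈ L.set := ⟨1, by simp, rfl⟩

theorem ne_tip {z : ℂ} (hz : z ∉ L.set) : z - L.tip ≠ 0 :=
  fun e => hz (sub_eq_zero.1 e ▸ L.tip_mem)

theorem preconn : IsPreconnected L.set := isPreconnected_Ioc.image _ L.cont

theorem closed : IsClosed L.set := by
  rw [← closure_subset_iff_isClosed]
  intro z hz
  have h1 : ∀ᶠ u in 𝓝[>] (0 : ℝ), ‖z‖ + 1 ≤ ‖L.l u‖ :=
    ((tendsto_norm_cobounded_atTop (E := ℂ)).comp L.inf).eventually (eventually_ge_atTop _)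
  obtain ⟨δ, hδ, h2⟩ := (nhdsGT_basis 0).eventually_iff.1 h1
  have hsub : L.set ⊆ L.l '' Icc (min δ 1) 1 ∪ {w | ‖z‖ + 1 ≤ ‖w‖} := by
    rintro _ ⟨u, hu, rfl⟩
    by_cases h : u < δ
    · exact Or.inr (h2 ⟨hu.1, by simpa using h⟩)
    · exact Or.inl ⟨u, ⟨(min_le_left _ _).trans (not_lt.1 h), hu.2⟩, rfl⟩
  have hI : Icc (min δ 1) 1 ⊆ Ioc (0 : ℝ) 1 := fun u hu =>
    ⟨lt_of_lt_of_le (lt_min hδ one_pos) hu.1, hu.2⟩
  have hcl : IsClosed (L.l '' Icc (min δ 1) 1 ∪ {w | ‖z‖ + 1 ≤ ‖w‖}) :=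
    (isCompact_Icc.image_of_continuousOn (L.cont.mono hI)).isClosed.union
      (isClosed_le continuous_const continuous_norm)
  rcases hcl.closure_subset_iff.2 hsub hz with h | h
  · exact image_mono hI h
  · exact absurd h (by simp)

def neg : Leg := ⟨fun u => -L.l u, L.cont.neg, Filter.tendsto_neg_cobounded.comp L.inf⟩

theorem mem_neg {z : ℂ} : z ∈ L.neg.set ↔ -z ∈ L.set := by
  constructor
  · rintro ⟨u, hu, rfl⟩; exact ⟨u, hu, by simp [neg]⟩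
  · rintro ⟨u, hu, e⟩; exact ⟨u, hu, by simp [neg, e]⟩

/-- `q` is the square root of `(z - tip) / (z' - tip)` continued along the leg from infinity. -/
def Rho (z z' q : ℂ) : Prop := ∃ r : I → ℂ, Continuous r ∧ r 0 = 1 ∧ r 1 = q ∧
  ∀ u : I, u ≠ 0 → r u ^ 2 * (z' - L.l u) = z - L.l u

theorem mem_set (u : I) (hu : u ≠ 0) : L.l u ∈ L.set :=
  ⟨u, ⟨lt_of_le_of_ne u.2.1 (fun e => hu (Subtype.ext e.symm)), u.2.2⟩, rfl⟩

theorem Rho.unique {L : Leg} {z z' q q' : ℂ} (hz : z ∉ L.set) (hz' : z' ∉ L.set)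
    (h : L.Rho z z' q) (h' : L.Rho z z' q') : q = q' := by
  obtain ⟨r, a1, a2, rfl, a4⟩ := h
  obtain ⟨r', b1, b2, rfl, b4⟩ := h'
  refine sq_uniqueI a1 b1 (fun u => ?_) (fun u => ?_) (a2.trans b2.symm) 1
  · by_cases hu : u = 0
    · rw [hu, a2, b2]
    · have : z' - L.l u ≠ 0 := fun e => hz' (sub_eq_zero.1 e ▸ L.mem_set u hu)
      exact mul_right_cancel₀ this ((a4 u hu).trans (b4 u hu).symm)
  · by_cases hu : u = 0
    · rw [hu, b2]; exact one_ne_zero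
    · intro e
      have := b4 u hu
      rw [e] at this
      have e2 : z = L.l u := by linear_combination -this
      exact hz (e2 ▸ L.mem_set u hu)

/-- A canonical branch of `sqrt (z - tip)` off the leg. -/
structure IsBr (h : ℂ → ℂ) : Prop where
  cont : ContinuousOn h L.setᶜ
  sq : ∀ z ∉ L.set, h z ^ 2 = z - L.tip
  rho : ∀ z ∉ L.set, ∀ z' ∉ L.set, L.Rho z z' (h z / h z')

theorem IsBr.ne {L : Leg} {h : ℂ → ℂ} (hh : L.IsBr h) {z : ℂ} (hz : z ∉ L.set) : h z ≠ 0 :=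
  fun e => L.ne_tip hz (by rw [← hh.sq z hz, e]; simp)

theorem IsBr.smul {L : Leg} {h : ℂ → ℂ} (hh : L.IsBr h) (e : Bool) :
    L.IsBr fun z => sg e * h z :=
  ⟨continuousOn_const.mul hh.cont, fun z hz => by rw [mul_pow, sg_sq, one_mul, hh.sq z hz],
    fun z hz z' hz' => by rw [mul_div_mul_left _ _ (sg_ne e)]; exact hh.rho z hz z' hz'⟩

theorem exists_isBr : ∃ h, L.IsBr h := by
  classical
  by_cases hne : ∃ z0, z0 ∉ L.set
  swap
  · push Not at hne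
    exact ⟨fun _ => 0, continuousOn_const, fun z hz => absurd (hne z) hz,
      fun z hz => absurd (hne z) hz⟩
  obtain ⟨z0, hz0⟩ := hne
  let κ : ℝ → ℂ := fun u => if u = 0 then 0 else (z0 - L.l u)⁻¹
  have hne0 : ∀ u ∈ Ioc (0 : ℝ) 1, z0 - L.l u ≠ 0 := fun u hu e =>
    hz0 (sub_eq_zero.1 e ▸ ⟨u, hu, rfl⟩)
  have hκ : ContinuousOn κ (Icc 0 1) := by
    intro u hu
    by_cases h0 : u = 0
    · subst h0
      have h1 : Tendsto (fun u => (z0 - L.l u)⁻¹) (𝓝[>] (0 : ℝ)) (𝓝 0) :=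
        tendsto_inv₀_cobounded.comp ((tendsto_const_sub_cobounded z0).comp L.inf)
      have h2 : ContinuousWithinAt κ (Ioi 0) 0 := by
        have : κ 0 = 0 := if_pos rfl
        rw [ContinuousWithinAt, this]
        refine h1.congr' ?_
        filter_upwards [self_mem_nhdsWithin] with u hu
        exact (if_neg (ne_of_gt hu)).symm
      exact (continuousWithinAt_Ioi_iff_Ici.1 h2).mono Icc_subset_Ici_self
    · have hu' : u ∈ Ioc (0 : ℝ) 1 := ⟨lt_of_le_of_ne hu.1 (Ne.symm h0), hu.2⟩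
      have h1 : ContinuousWithinAt (fun u => (z0 - L.l u)⁻¹) (Ioc 0 1) u :=
        ((continuousOn_const.sub L.cont).inv₀ hne0) u hu'
      have h2 : ContinuousWithinAt κ (Ioc 0 1) u :=
        h1.congr (fun y hy => if_neg (ne_of_gt hy.1)) (if_neg h0)
      refine h2.mono_of_mem_nhdsWithin ?_
      exact mem_nhdsWithin.2 ⟨Ioi 0, isOpen_Ioi, hu'.1, fun y hy => ⟨hy.1, hy.2.2⟩⟩
  have hκ' : Continuous fun u : I => κ u := hκ.domRestrict
  have hF : ∀ (u : I) (z : ℂ), u ≠ 0 → (1 + (z - z0) * κ u) * (z0 - L.l u) = z - L.l u := by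
    intro u z hu
    have h0 : (u : ℝ) ≠ 0 := fun e => hu (Subtype.ext e)
    have := hne0 u ⟨lt_of_le_of_ne u.2.1 (Ne.symm h0), u.2.2⟩
    simp only [κ, if_neg h0]
    field_simp
    ring
  obtain ⟨R, R1, R2, R3⟩ := exists_sqrt_homotopy (A := {z // z ∉ L.set})
    (fun p => 1 + (p.2.1 - z0) * κ p.1)
    (continuous_const.add (Continuous.mul (by fun_prop) (hκ'.comp continuous_fst))) (by
      rintro ⟨u, z⟩ e
      by_cases hu : u = 0
      · subst hu; simp [κ] at e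
      · have := hF u z.1 hu
        simp only at e
        rw [e, zero_mul] at this
        exact z.2 (sub_eq_zero.1 this.symm ▸ L.mem_set u hu))
    (fun _ => 1) continuous_const (fun a => by simp [κ])
  have Rne : ∀ u z, R (u, z) ≠ 0 := by
    intro u z e
    have := R2 (u, z)
    rw [e] at this
    by_cases hu : u = 0
    · subst hu; simp [κ] at this
    · have h2 := hF u z.1 hu
      simp only at this
      rw [← this] at h2
      have e2 : z.1 = L.l u := by linear_combination -h2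
      exact z.2 (e2 ▸ L.mem_set u hu)
  obtain ⟨w0, hw0⟩ := exists_sq (z0 - L.tip)
  have hw0' : w0 ≠ 0 := fun e => L.ne_tip hz0 (by rw [← hw0, e]; simp)
  refine ⟨fun z => if hz : z ∉ L.set then R (1, ⟨z, hz⟩) * w0 else 0, ?_, fun z hz => ?_,
    fun z hz z' hz' => ?_⟩
  · rw [continuousOn_iff_continuous_domRestrict]
    have : Continuous fun z : (L.setᶜ : Set ℂ) => R (1, ⟨z.1, z.2⟩) * w0 := by fun_prop
    refine this.congr fun z => ?_
    have hz : z.1 ∉ L.set := z.2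
    simp only [domRestrict_apply, dif_pos hz]
  · rw [dif_pos hz, mul_pow, R2, hw0]
    exact hF 1 z one_ne_zero
  · rw [dif_pos hz, dif_pos hz', mul_div_mul_right _ _ hw0']
    refine ⟨fun u => R (u, ⟨z, hz⟩) / R (u, ⟨z', hz'⟩),
      Continuous.div (by fun_prop) (by fun_prop) (fun u => Rne _ _), by simp [R3], rfl,
      fun u hu => ?_⟩
    have a1 := hF u z hu
    have a2 := hF u z' hu
    have a3 := R2 (u, ⟨z, hz⟩)
    have a4 := R2 (u, ⟨z', hz'⟩)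
    simp only at a3 a4
    rw [← a3] at a1
    rw [← a4] at a2
    rw [← a1, ← a2]
    have := Rne u ⟨z', hz'⟩
    field_simp

theorem IsBr.mul {L L' : Leg} {c : ℂ} (hL : ∀ u ∈ Ioc (0 : ℝ) 1, L'.l u ^ 2 + c = L.l u)
    {h h1 h2 : ℂ → ℂ} (hh : L.IsBr h) (hh1 : L'.IsBr h1) (hh2 : L'.neg.IsBr h2) {z z' : ℂ}
    (hz : z ^ 2 + c ∉ L.set) (hz' : z' ^ 2 + c ∉ L.set) :
    h (z ^ 2 + c) / h (z' ^ 2 + c) = h1 z / h1 z' * (h2 z / h2 z') := by
  have n1 : ∀ z, z ^ 2 + c ∉ L.set → z ∉ L'.set := by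
    rintro z hz ⟨u, hu, rfl⟩
    exact hz ⟨u, hu, (hL u hu).symm⟩
  have n2 : ∀ z, z ^ 2 + c ∉ L.set → z ∉ L'.neg.set := fun z hz h =>
    n1 (-z) (by simpa using hz) (L'.mem_neg.1 h)
  obtain ⟨r, a1, a2, a3, a4⟩ := hh1.rho z (n1 z hz) z' (n1 z' hz')
  obtain ⟨r', b1, b2, b3, b4⟩ := hh2.rho z (n2 z hz) z' (n2 z' hz')
  refine Rho.unique hz hz' (hh.rho _ hz _ hz') ⟨fun u => r u * r' u, a1.mul b1, by simp [a2, b2],
    by simp [a3, b3], fun u hu => ?_⟩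
  have c1 := a4 u hu
  have c2 := b4 u hu
  simp only [neg] at c2
  rw [← hL u ⟨lt_of_le_of_ne u.2.1 (fun e => hu (Subtype.ext e.symm)), u.2.2⟩]
  linear_combination (r' u ^ 2 * (z' + L'.l u)) * c1 + (z - L'.l u) * c2

/-- The path `γ` crosses the leg with parity `e`. -/
def Par (h : ℂ → ℂ) (γ : I → ℂ) (e : Bool) : Prop := ∃ v : I → ℂ, Continuous v ∧
  (∀ τ, v τ ^ 2 = γ τ - L.tip) ∧ v 1 * h (γ 0) = sg e * (v 0 * h (γ 1))

variable {L}

theorem exists_par {h : ℂ → ℂ} (hh : L.IsBr h) {γ : I → ℂ} (hγ : Continuous γ)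
    (ht : ∀ τ, γ τ ≠ L.tip) (h0 : γ 0 ∉ L.set) (h1 : γ 1 ∉ L.set) : ∃ e, L.Par h γ e := by
  obtain ⟨v, a1, a2, a3⟩ := exists_sqrt_lift (γ := fun τ => γ τ - L.tip) (by fun_prop)
    (fun τ => sub_ne_zero.2 (ht τ)) (hh.sq _ h0)
  obtain ⟨e, he⟩ := exists_sg (a := v 1) (b := h (γ 1)) (by rw [a2, hh.sq _ h1])
  exact ⟨e, v, a1, a2, by rw [he, a3]; ring⟩

theorem Par.unique {h : ℂ → ℂ} (hh : L.IsBr h) {γ : I → ℂ} (ht : ∀ τ, γ τ ≠ L.tip)
    (h1 : γ 1 ∉ L.set) {e e' : Bool} (p : L.Par h γ e) (p' : L.Par h γ e') : e = e' := by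
  obtain ⟨v, a1, a2, a3⟩ := p
  obtain ⟨v', b1, b2, b3⟩ := p'
  have hne : ∀ τ, v' τ ≠ 0 := fun τ e => ht τ (by
    have := b2 τ; rw [e] at this; linear_combination -this)
  obtain ⟨d, hd⟩ := exists_sg (a := v 0) (b := v' 0) (by rw [a2, b2])
  have := sq_uniqueI (u := v) (v := fun τ => sg d * v' τ) a1 (by fun_prop)
    (fun τ => by rw [mul_pow, sg_sq, one_mul, a2, b2])
    (fun τ => mul_ne_zero (sg_ne d) (hne τ)) hd 1
  rw [this, hd] at a3
  apply sg_inj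
  have h3 : sg d * (v' 0 * h (γ 1)) ≠ 0 := mul_ne_zero (sg_ne d) (mul_ne_zero (hne 0) (hh.ne h1))
  apply mul_right_cancel₀ h3
  linear_combination -a3 + sg d * b3

theorem par_false {h : ℂ → ℂ} (hh : L.IsBr h) {γ : I → ℂ} (hγ : Continuous γ)
    (ha : ∀ τ, γ τ ∉ L.set) : L.Par h γ false :=
  ⟨fun τ => h (γ τ), hh.cont.comp_continuous hγ ha, fun τ => hh.sq _ (ha τ), by simp [sg]; ring⟩

theorem Par.pull {L L' : Leg} {c : ℂ} (hL : ∀ u ∈ Ioc (0 : ℝ) 1, L'.l u ^ 2 + c = L.l u)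
    {h h1 : ℂ → ℂ} (hh : L.IsBr h) (hh1 : L'.IsBr h1) {γ : I → ℂ} (hγ : Continuous γ)
    (ht : ∀ τ, γ τ ^ 2 + c ≠ L.tip) (h0 : γ 0 ^ 2 + c ∉ L.set) (h1' : γ 1 ^ 2 + c ∉ L.set)
    (ha : ∀ τ, -γ τ ∉ L'.set) {e : Bool} (p : L.Par h (fun τ => γ τ ^ 2 + c) e) :
    L'.Par h1 γ e := by
  obtain ⟨h2, hh2⟩ := L'.neg.exists_isBr
  have n1 : ∀ z, z ^ 2 + c ∉ L.set → z ∉ L'.set := by
    rintro z hz ⟨u, hu, rfl⟩
    exact hz ⟨u, hu, (hL u hu).symm⟩
  have htip : L'.tip ^ 2 + c = L.tip := hL 1 (by simp)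
  have ha' : ∀ τ, γ τ ∉ L'.neg.set := fun τ h => ha τ (L'.mem_neg.1 h)
  obtain ⟨e', p'⟩ := exists_par hh1 hγ (fun τ e => ht τ (by rw [e, htip])) (n1 _ h0) (n1 _ h1')
  have hm := hh.mul hL hh1 hh2 h1' h0
  have : e = e' := by
    refine Par.unique hh ht h1' p ?_
    obtain ⟨v, a1, a2, a3⟩ := p'
    refine ⟨fun τ => v τ * h2 (γ τ), a1.mul (hh2.cont.comp_continuous hγ ha'), fun τ => ?_, ?_⟩
    · rw [mul_pow, a2, hh2.sq _ (ha' τ), ← htip]
      simp only [tip, neg]; ring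
    · have b1 := hh.ne h0
      have b2 := hh1.ne (n1 _ h0)
      have b3 := hh2.ne (ha' 0)
      field_simp at hm
      apply mul_right_cancel₀ b2
      simp only
      linear_combination (h2 (γ 1) * h (γ 0 ^ 2 + c)) * a3 - (sg e' * v 0) * hm
  rwa [this]

end Leg

end Pool.Agent.MP_61ef33_al
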