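import Pool.Agent.MP_61ef33_al.L1

/- Spiders (systems of legs compatible with pull-back) and the labelling of preimage trees. -/

namespace Pool.Agent.MP_61ef33_al

open Filter Topology unitInterval Set

/-- Kneading data without the orbit and separation axioms. -/
structure KB (S : Type) where
  sg : S
  nx : S → S
  cl : S → Bool
  ha : ∀ s, nx s ≠ sg
  hb : ∀ s t, nx s = nx t → cl s = cl t → s = t

namespace KB

variable {S : Type} (A : KB S)

open Classical in
noncomputable def prev (x : Bool) (s : S) : Option S :=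
  if h : ∃ t, A.nx t = s ∧ A.cl t = x then some h.choose else none

theorem prev_eq_some {x : Bool} {s t : S} : A.prev x s = some t ↔ A.nx t = s ∧ A.cl t = x := by
  unfold prev
  split_ifs with h
  · constructor
    · intro e
      have := h.choose_spec
      rw [Option.some.injEq] at e
      rw [← e]; exact this
    · rintro ⟨h1, h2⟩
      have := h.choose_spec
      rw [Option.some.injEq]
      exact A.hb _ _ (this.1.trans h1.symm) (this.2.trans h2.symm)
  · constructor
    · intro e; cases e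
    · intro e; exact absurd ⟨t, e⟩ h

theorem prev_sg (x : Bool) : A.prev x A.sg = none := by
  cases e : A.prev x A.sg with
  | none => rfl
  | some t => exact absurd (A.prev_eq_some.1 e).1 (A.ha t)

open Classical in
noncomputable def act : List Bool → S → List Bool
  | [], _ => []
  | x :: w, s => (xor x (decide (s = A.sg))) :: (match A.prev x s with
      | none => w
      | some t => act w t)

theorem act_act (w : List Bool) (s : S) : A.act (A.act w s) s = w := by
  induction w generalizing s with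
  | nil => rfl
  | cons x w ih =>
    by_cases h : s = A.sg
    · subst h
      simp [act, prev_sg]
    · cases e : A.prev x s with
      | none => simp [act, h, e]
      | some t => simp [act, h, e, ih]

noncomputable def gen (s : S) : Equiv.Perm (List Bool) :=
  Function.Involutive.toPerm (fun w => A.act w s) (fun w => A.act_act w s)

theorem gen_mul_self (s : S) : A.gen s * A.gen s = 1 := by
  ext1 w; exact A.act_act w s

noncomputable def genE (e : Bool) (s : S) : Equiv.Perm (List Bool) := if e then A.gen s else 1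

def G : Subgroup (Equiv.Perm (List Bool)) := Subgroup.closure (Set.range A.gen)

theorem genE_mem (e : Bool) (s : S) : A.genE e s ∈ A.G := by
  cases e
  · exact one_mem _
  · exact Subgroup.subset_closure ⟨s, rfl⟩

end KB

/-- The quadratic map. -/
def qf (c : ℂ) (z : ℂ) : ℂ := z ^ 2 + c

theorem continuous_qf (c : ℂ) : Continuous (qf c) := by unfold qf; fun_prop

/-- A system of legs for `z ^ 2 + c`, one for each level and each postcritical point. -/
structure Spider (S : Type) extends KB S where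
  c : ℂ
  pt : S → ℂ
  pt_sg : pt sg = c
  L : ℕ → S → Leg
  h : ℕ → S → ℂ → ℂ
  br : ∀ k s, (L k s).IsBr (h k s)
  tip : ∀ k s, (L k s).tip = pt s
  pull : ∀ k s, ∀ u ∈ Ioc (0 : ℝ) 1, (L (k + 1) s).l u ^ 2 + c = (L k (nx s)).l u
  disj : ∀ k s t, s ≠ t → Disjoint (L k s).set (L k t).set
  side : ∀ k s, cl s = true ↔ pt s = h k sg (pt s ^ 2 + c)

namespace Spider

variable {S : Type} (A : Spider S)

theorem pt_nx (s : S) : A.pt (A.nx s) = qf A.c (A.pt s) := by
  have := A.pull 0 s 1 (by simp)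
  rw [← A.tip 0, ← A.tip 1]
  exact this.symm

theorem pt_mem (k : ℕ) (s : S) : A.pt s ∈ (A.L k s).set := A.tip k s ▸ (A.L k s).tip_mem

theorem pt_inj {s t : S} (h : A.pt s = A.pt t) : s = t := by
  by_contra hne
  exact disjoint_left.1 (A.disj 0 s t hne) (A.pt_mem 0 s) (h ▸ A.pt_mem 0 t)

theorem pull_mem {k : ℕ} {s : S} {z : ℂ} (h : z ∈ (A.L (k + 1) s).set) :
    qf A.c z ∈ (A.L k (A.nx s)).set := by
  obtain ⟨u, hu, rfl⟩ := h
  exact ⟨u, hu, (A.pull k s u hu).symm⟩

/-- Complement of the legs of level `k`. -/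
def Om (k : ℕ) : Set ℂ := {z | ∀ s, z ∉ (A.L k s).set}

theorem om_pull {k : ℕ} {z : ℂ} (h : qf A.c z ∈ A.Om k) : z ∈ A.Om (k + 1) :=
  fun _ hs => h _ (A.pull_mem hs)

open Classical in
/-- The side of a point with respect to the preimage of the critical value leg. -/
noncomputable def sd (k : ℕ) (z : ℂ) : Bool := decide (z = A.h k A.sg (qf A.c z))

theorem sq_h {k : ℕ} {z : ℂ} (hz : qf A.c z ∉ (A.L k A.sg).set) :
    A.h k A.sg (qf A.c z) ^ 2 = z ^ 2 := by
  rw [(A.br k A.sg).sq _ hz, A.tip, A.pt_sg, qf]; ring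

theorem sd_iff {k : ℕ} {z : ℂ} (hz : qf A.c z ∉ (A.L k A.sg).set) (e : Bool) :
    z = sg e * A.h k A.sg (qf A.c z) ↔ A.sd k z = !e := by
  have hne := (A.br k A.sg).ne hz
  have h2 := sq_eq_sq_iff_eq_or_eq_neg.1 (A.sq_h hz).symm
  have h3 : ¬ (A.h k A.sg (qf A.c z) = -A.h k A.sg (qf A.c z)) := fun e => hne (by
    linear_combination e / 2)
  cases e
  · simp [sg, sd]
  · simp only [sg, sd, if_true, neg_mul, one_mul, Bool.not_true, decide_eq_false_iff_not]
    constructor
    · intro a b; exact h3 (b.symm.trans a)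
    · intro a; exact h2.resolve_left a

theorem eq_sd {k : ℕ} {z : ℂ} (hz : qf A.c z ∉ (A.L k A.sg).set) :
    z = sg (!A.sd k z) * A.h k A.sg (qf A.c z) := (A.sd_iff hz _).2 (by simp)

theorem sd_neg {k : ℕ} {z : ℂ} (hz : qf A.c z ∉ (A.L k A.sg).set) : A.sd k (-z) = !A.sd k z := by
  have e : qf A.c (-z) = qf A.c z := by simp [qf]
  rw [← A.sd_iff (e ▸ hz), e]
  have := A.eq_sd hz
  revert this
  generalize A.h k A.sg (qf A.c z) = w
  cases A.sd k z <;> intro this <;> rw [this] <;> simp [sg]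

theorem sd_const {α : Type} [TopologicalSpace α] {T : Set α} (hT : IsPreconnected T) {k : ℕ}
    {u : α → ℂ} (hu : ContinuousOn u T) (hz : ∀ x ∈ T, qf A.c (u x) ∉ (A.L k A.sg).set)
    {a b : α} (ha : a ∈ T) (hb : b ∈ T) : A.sd k (u b) = A.sd k (u a) := by
  have := sq_unique hT hu (v := fun x => sg (!A.sd k (u a)) * A.h k A.sg (qf A.c (u x)))
    (continuousOn_const.mul ((A.br k A.sg).cont.comp
      ((continuous_qf A.c).comp_continuousOn hu) hz))
    (fun x hx => by rw [mul_pow, sg_sq, one_mul, A.sq_h (hz x hx)])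
    (fun x hx => mul_ne_zero (sg_ne _) ((A.br k A.sg).ne (hz x hx))) ha (A.eq_sd (hz a ha)) b hb
  simpa using (A.sd_iff (hz b hb) _).1 this

theorem sd_pt (k : ℕ) (s : S) : A.sd k (A.pt s) = A.cl s := by
  have := A.side k s
  unfold sd qf
  cases h : A.cl s
  · rw [h] at this; simpa using this
  · rw [h] at this; simpa using this

theorem not_mem_sg {k : ℕ} {s : S} {z : ℂ} (h : z ∈ (A.L (k + 1) s).set) :
    qf A.c z ∉ (A.L k A.sg).set :=
  disjoint_left.1 (A.disj k _ _ (A.ha s)) (A.pull_mem h)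

theorem sd_leg {k : ℕ} {s : S} {z : ℂ} (h : z ∈ (A.L (k + 1) s).set) : A.sd k z = A.cl s := by
  rw [← A.sd_pt k s]
  exact A.sd_const (A.L (k + 1) s).preconn continuousOn_id (fun x hx => A.not_mem_sg hx)
    (A.pt_mem _ s) h

/-- The address of an `n`-th preimage. -/
noncomputable def lab : ℕ → ℕ → ℂ → List Bool
  | _, 0, _ => []
  | k, n + 1, z => A.sd k ((qf A.c)^[n] z) :: lab (k + 1) n z

theorem lab_const {n k : ℕ} {η : I → ℂ} (hη : Continuous η)
    (h : ∀ τ, (qf A.c)^[n] (η τ) ∈ A.Om k) : A.lab k n (η 1) = A.lab k n (η 0) := by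
  induction n generalizing k with
  | zero => rfl
  | succ n ih =>
    simp only [Function.iterate_succ_apply'] at h
    rw [lab, lab, ih fun τ => A.om_pull (h τ)]
    congr 1
    exact A.sd_const isPreconnected_univ (u := fun τ => (qf A.c)^[n] (η τ))
      (((continuous_qf A.c).iterate n).comp hη).continuousOn (fun τ _ => h τ _) (mem_univ _)
      (mem_univ _)

/-- The path meets no leg of level `k` but that of `s`, and crosses it with parity `e`. -/
structure Hyp (k : ℕ) (s : S) (γ : I → ℂ) (e : Bool) : Prop where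
  avoid : ∀ τ t, t ≠ s → γ τ ∉ (A.L k t).set
  ne : ∀ τ, γ τ ≠ A.pt s
  e0 : γ 0 ∉ (A.L k s).set
  e1 : γ 1 ∉ (A.L k s).set
  par : (A.L k s).Par (A.h k s) γ e

variable {A}

theorem Hyp.sd_const {k : ℕ} {s : S} {γ : I → ℂ} {e : Bool} (hγ : Continuous γ) (hs : s ≠ A.sg)
    (H : A.Hyp k s (fun τ => qf A.c (γ τ)) e) (τ : I) : A.sd k (γ τ) = A.sd k (γ 0) :=
  A.sd_const isPreconnected_univ hγ.continuousOn (fun τ _ => H.avoid τ _ hs.symm) (mem_univ _)
    (mem_univ _)

theorem Hyp.step {k : ℕ} {t : S} {γ : I → ℂ} {e : Bool} (hγ : Continuous γ)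
    (H : A.Hyp k (A.nx t) (fun τ => qf A.c (γ τ)) e) (ht : A.cl t = A.sd k (γ 0)) :
    A.Hyp (k + 1) t γ e := by
  have hsd := H.sd_const hγ (A.ha t)
  refine ⟨fun τ t' ht' h => ?_, fun τ h => H.ne τ (by rw [h, pt_nx]), fun h => H.e0 (A.pull_mem h),
    fun h => H.e1 (A.pull_mem h), ?_⟩
  · have h1 : A.nx t' = A.nx t := by
      by_contra h1
      exact H.avoid τ _ h1 (A.pull_mem h)
    exact ht' (A.hb _ _ h1 (by rw [← A.sd_leg h, hsd, ht]))
  · refine Leg.Par.pull (A.pull k t) (A.br _ _) (A.br _ _) hγ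
      (fun τ => by rw [A.tip]; exact H.ne τ) H.e0 H.e1 (fun τ h => ?_) H.par
    have h1 := A.sd_leg h
    rw [A.sd_neg (H.avoid τ _ (A.ha t).symm), hsd, ← ht] at h1
    simp at h1

theorem Hyp.lab {n k : ℕ} {s : S} {η : I → ℂ} {e : Bool} (hη : Continuous η)
    (H : A.Hyp k s (fun τ => (qf A.c)^[n] (η τ)) e) :
    A.lab k n (η 1) = A.genE e s (A.lab k n (η 0)) := by
  induction n generalizing k s with
  | zero => cases e <;> rfl
  | succ n ih =>
    simp only [Function.iterate_succ_apply'] at H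
    have hγ : Continuous fun τ => (qf A.c)^[n] (η τ) := ((continuous_qf A.c).iterate n).comp hη
    rw [Spider.lab, Spider.lab]
    by_cases hs : s = A.sg
    · subst hs
      rw [A.lab_const hη fun τ t h => H.avoid τ _ (A.ha t) (A.pull_mem h)]
      have h0 := A.eq_sd H.e0
      have h1 := A.eq_sd H.e1
      have hp : (A.L k A.sg).Par (A.h k A.sg) (fun τ => qf A.c ((qf A.c)^[n] (η τ)))
          (xor (A.sd k ((qf A.c)^[n] (η 0))) (A.sd k ((qf A.c)^[n] (η 1)))) := by
        refine ⟨_, hγ, fun τ => by rw [A.tip, A.pt_sg]; simp [qf], ?_⟩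
        revert h0 h1
        generalize A.h k A.sg (qf A.c ((qf A.c)^[n] (η 0))) = a
        generalize A.h k A.sg (qf A.c ((qf A.c)^[n] (η 1))) = b
        cases A.sd k ((qf A.c)^[n] (η 0)) <;> cases A.sd k ((qf A.c)^[n] (η 1)) <;>
          intro h0 h1 <;> rw [h0, h1] <;> simp [sg, mul_comm]
      have he := Leg.Par.unique (A.br _ _) (fun τ => by rw [A.tip]; exact H.ne τ) H.e1 H.par hp
      subst he
      cases A.sd k ((qf A.c)^[n] (η 0)) <;> cases A.sd k ((qf A.c)^[n] (η 1)) <;>
        simp [KB.genE, KB.gen, KB.act, KB.prev_sg]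
    · rw [H.sd_const hγ hs 1]
      cases hp : A.prev (A.sd k ((qf A.c)^[n] (η 0))) s with
      | none =>
        rw [A.lab_const hη fun τ t h => ?_]
        · cases e <;> simp [KB.genE, KB.gen, KB.act, hs, hp]
        · have h1 : A.nx t = s := by
            by_contra h1
            exact H.avoid τ _ h1 (A.pull_mem h)
          have h2 := (A.prev_eq_some (x := A.sd k ((qf A.c)^[n] (η 0)))).2
            ⟨h1, by rw [← A.sd_leg h, H.sd_const hγ hs]⟩
          rw [hp] at h2; cases h2
      | some t =>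
        obtain ⟨rfl, h2⟩ := A.prev_eq_some.1 hp
        rw [ih (H.step hγ h2)]
        cases e <;> simp [KB.genE, KB.gen, KB.act, hs, hp]

variable (A)

theorem lab_length (k n : ℕ) (z : ℂ) : (A.lab k n z).length = n := by
  induction n generalizing k with
  | zero => rfl
  | succ n ih => simp [lab, ih]

theorem lab_inj {n k : ℕ} {a y y' : ℂ} (ha : a ∈ A.Om k) (hy : (qf A.c)^[n] y = a)
    (hy' : (qf A.c)^[n] y' = a) (h : A.lab k n y = A.lab k n y') : y = y' := by
  induction n generalizing k a with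
  | zero => exact hy.trans hy'.symm
  | succ n ih =>
    rw [Function.iterate_succ_apply'] at hy hy'
    simp only [lab, List.cons.injEq] at h
    refine ih (A.om_pull (hy ▸ ha)) rfl ?_ h.2
    rw [A.eq_sd (k := k) (z := (qf A.c)^[n] y') (hy' ▸ ha _), ← h.1, hy', ← hy]
    exact (A.eq_sd (hy ▸ ha _)).symm

theorem lab_surj (w : List Bool) {k : ℕ} {a : ℂ} (ha : a ∈ A.Om k) :
    ∃ y, (qf A.c)^[w.length] y = a ∧ A.lab k w.length y = w := by
  induction w generalizing k a with
  | nil => exact ⟨a, rfl, rfl⟩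
  | cons x w ih =>
    have e : qf A.c (sg (!x) * A.h k A.sg a) = a := by
      rw [qf, mul_pow, sg_sq, (A.br k A.sg).sq _ (ha _), A.tip, A.pt_sg]; ring
    obtain ⟨y, h1, h2⟩ := ih (k := k + 1) (a := sg (!x) * A.h k A.sg a) (A.om_pull (e.symm ▸ ha))
    refine ⟨y, by rw [List.length_cons, Function.iterate_succ_apply', h1, e], ?_⟩
    rw [List.length_cons, lab, h2, h1]
    congr 1
    have := (A.sd_iff (k := k) (z := sg (!x) * A.h k A.sg a) (e.symm ▸ ha _) (!x)).1 (by rw [e])
    simpa using this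

theorem pull_P {z : ℂ} (h : qf A.c z ∉ range A.pt) : z ∉ range A.pt := by
  rintro ⟨s, rfl⟩
  exact h ⟨A.nx s, A.pt_nx s⟩

theorem pull_P_iter {n : ℕ} {z : ℂ} (h : (qf A.c)^[n] z ∉ range A.pt) : z ∉ range A.pt := by
  induction n with
  | zero => exact h
  | succ n ih => rw [Function.iterate_succ_apply'] at h; exact ih (A.pull_P h)

theorem ne_zero_of {z : ℂ} (h : qf A.c z ∉ range A.pt) : z ≠ 0 := by
  rintro rfl
  exact h ⟨A.sg, by simp [A.pt_sg, qf]⟩

theorem exists_lift {n : ℕ} {γ : I → ℂ} (hγ : Continuous γ) (hP : ∀ τ, γ τ ∉ range A.pt) {y : ℂ}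
    (hy : (qf A.c)^[n] y = γ 0) :
    ∃ Γ : I → ℂ, Continuous Γ ∧ (∀ τ, (qf A.c)^[n] (Γ τ) = γ τ) ∧ Γ 0 = y := by
  induction n generalizing γ with
  | zero => exact ⟨γ, hγ, fun _ => rfl, hy.symm⟩
  | succ n ih =>
    rw [Function.iterate_succ_apply'] at hy
    obtain ⟨v, h1, h2, h3⟩ := exists_sqrt_lift (γ := fun τ => γ τ - A.c) (by fun_prop)
      (fun τ e => hP τ ⟨A.sg, by rw [A.pt_sg, sub_eq_zero.1 e]⟩) (v0 := (qf A.c)^[n] y)
      (by rw [← hy, qf]; ring)
    have h4 : ∀ τ, qf A.c (v τ) = γ τ := fun τ => by rw [qf, h2]; ring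
    obtain ⟨Γ, a1, a2, a3⟩ := ih h1 (fun τ => A.pull_P (h4 τ ▸ hP τ)) h3.symm
    exact ⟨Γ, a1, fun τ => by rw [Function.iterate_succ_apply', a2, h4], a3⟩

theorem lift_unique {n : ℕ} {α : Type} [TopologicalSpace α] {T : Set α} (hT : IsPreconnected T)
    {Γ Γ' : α → ℂ} (h1 : ContinuousOn Γ T) (h2 : ContinuousOn Γ' T)
    (hP : ∀ τ ∈ T, (qf A.c)^[n] (Γ τ) ∉ range A.pt)
    (h : ∀ τ ∈ T, (qf A.c)^[n] (Γ τ) = (qf A.c)^[n] (Γ' τ)) {a : α} (ha : a ∈ T)
    (h0 : Γ a = Γ' a) : ∀ τ ∈ T, Γ τ = Γ' τ := by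
  induction n with
  | zero => exact h
  | succ n ih =>
    simp only [Function.iterate_succ_apply'] at h hP
    refine ih (fun τ hτ => A.pull_P (hP τ hτ)) ?_
    refine sq_unique hT (((continuous_qf A.c).iterate n).comp_continuousOn h1)
      (((continuous_qf A.c).iterate n).comp_continuousOn h2)
      (fun τ hτ => add_right_cancel (h τ hτ))
      (fun τ hτ => A.ne_zero_of (h τ hτ ▸ hP τ hτ)) ha (by simp [h0])

end Spider

end Pool.Agent.MP_61ef33_al
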