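import Pool.Agent.MP_61ef33_al.L2

/- Monodromy of paths in terms of addresses. -/

namespace Pool.Agent.MP_61ef33_al

open Filter Topology unitInterval Set Metric

namespace Spider

variable {S : Type} (A : Spider S)

/-- A disc meeting at most the leg of `s`, and not containing its tip. -/
def GoodBall (x : ℂ) (r : ℝ) (s : S) : Prop :=
  (∀ t, t ≠ s → ∀ z ∈ ball x r, z ∉ (A.L 0 t).set) ∧ A.pt s ∉ ball x r

theorem GoodBall.notP {A : Spider S} {x : ℂ} {r : ℝ} {s : S} (h : A.GoodBall x r s) {z : ℂ}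
    (hz : z ∈ ball x r) : z ∉ range A.pt := by
  rintro ⟨t, rfl⟩
  by_cases e : t = s
  · exact h.2 (e ▸ hz)
  · exact h.1 t e _ hz (A.pt_mem 0 t)

theorem isOpen_others [Finite S] (k : ℕ) (s : S) : IsOpen {z | ∀ t, t ≠ s → z ∉ (A.L k t).set} := by
  simp only [ofPred_forall]
  exact isOpen_iInter_of_finite fun t => isOpen_iInter_of_finite fun _ =>
    (A.L k t).closed.isOpen_compl

theorem exists_goodBall [Finite S] {x : ℂ} (hx : x ∉ range A.pt) :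
    ∃ r > 0, ∃ s, A.GoodBall x r s := by
  obtain ⟨s, hs⟩ : ∃ s, ∀ t, t ≠ s → x ∉ (A.L 0 t).set := by
    by_cases h : ∃ s, x ∈ (A.L 0 s).set
    · obtain ⟨s, hs⟩ := h
      exact ⟨s, fun t ht => disjoint_left.1 (A.disj 0 s t ht.symm) hs⟩
    · push Not at h
      exact ⟨A.sg, fun t _ => h t⟩
  obtain ⟨r, hr, h⟩ := Metric.isOpen_iff.1 ((A.isOpen_others 0 s).inter
    (isOpen_compl_singleton (x := A.pt s))) x ⟨hs, fun e => hx ⟨s, e.symm⟩⟩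
  exact ⟨r, hr, s, fun t ht z hz => (h hz).1 t ht, fun hz => (h hz).2 rfl⟩

theorem GoodBall.local {A : Spider S} {x : ℂ} {r : ℝ} {s : S} (h : A.GoodBall x r s) {a a' : ℂ}
    (ha : a ∈ A.Om 0) (ha' : a' ∈ A.Om 0) : ∃ g ∈ A.G, ∀ n y y', (qf A.c)^[n] y = a →
      (qf A.c)^[n] y' = a' → JoinedIn ((qf A.c)^[n] ⁻¹' ball x r) y y' →
      A.lab 0 n y' = g (A.lab 0 n y) := by
  obtain ⟨q, hq, hq2⟩ := exists_sqrt_ball h.2
  obtain ⟨e, he⟩ := exists_sg (a := q a' * A.h 0 s a) (b := q a * A.h 0 s a') (by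
    rw [mul_pow, mul_pow, hq2, hq2, (A.br 0 s).sq _ (ha s), (A.br 0 s).sq _ (ha' s), A.tip]; ring)
  refine ⟨A.genE e s, A.genE_mem e s, ?_⟩
  rintro n y y' rfl rfl ⟨η, hη⟩
  have hγ : Continuous fun τ => (qf A.c)^[n] (η τ) :=
    ((continuous_qf A.c).iterate n).comp η.continuous
  have := Hyp.lab (A := A) (n := n) (k := 0) (s := s) (e := e) η.continuous
    ⟨fun τ t ht => h.1 t ht _ (hη τ), fun τ e => h.2 (e ▸ hη τ), by simpa using ha s,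
      by simpa using ha' s, fun τ => q ((qf A.c)^[n] (η τ)), hq.comp_continuous hγ hη,
      fun τ => by rw [hq2, A.tip], by simpa using he⟩
  simpa using this

theorem exists_joined {n : ℕ} {B : Set ℂ} (hB : Convex ℝ B) (hP : ∀ z ∈ B, z ∉ range A.pt)
    {y a : ℂ} (hy : (qf A.c)^[n] y ∈ B) (ha : a ∈ B) :
    ∃ y', (qf A.c)^[n] y' = a ∧ JoinedIn ((qf A.c)^[n] ⁻¹' B) y y' := by
  have hm : ∀ τ, Path.segment ((qf A.c)^[n] y) a τ ∈ B := fun τ =>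
    hB.segment_subset hy ha (Path.range_segment ((qf A.c)^[n] y) a ▸ mem_range_self τ)
  obtain ⟨Γ, h1, h2, h3⟩ := A.exists_lift (n := n) (Path.segment ((qf A.c)^[n] y) a).continuous
    (fun τ => hP _ (hm τ)) (y := y) (by simp)
  exact ⟨Γ 1, by simp [h2], ⟨⟨Γ, h1⟩, h3, rfl⟩, fun τ => by
    change (qf A.c)^[n] (Γ τ) ∈ B
    rw [h2]; exact hm τ⟩

theorem near_joined {γ : I → ℂ} (hγ : Continuous γ) {B : Set ℂ} (hB : IsOpen B) {τ0 : I}
    (h0 : γ τ0 ∈ B) : ∀ᶠ τ in 𝓝 τ0, ∀ (f : ℂ → ℂ) (Γ : I → ℂ), Continuous Γ → (∀ τ, f (Γ τ) = γ τ) →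
      JoinedIn (f ⁻¹' B) (Γ τ0) (Γ τ) := by
  have : LocallyPathConnectedSpace I := (convex_Icc (0 : ℝ) 1).locallyPathConnectedSpace
  filter_upwards [pathComponentIn_mem_nhds ((hB.preimage hγ).mem_nhds h0)] with τ hτ f Γ hΓ h
  refine (JoinedIn.map hτ hΓ).mono ?_
  rintro _ ⟨τ', h', rfl⟩
  change f (Γ τ') ∈ B
  rw [h]; exact h'

theorem mon_exists [Finite S] (hd : Dense (A.Om 0)) {γ : I → ℂ} (hγ : Continuous γ)
    (hP : ∀ τ, γ τ ∉ range A.pt) (h0 : γ 0 ∈ A.Om 0) (h1 : γ 1 ∈ A.Om 0) :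
    ∃ g ∈ A.G, ∀ n (Γ : I → ℂ), Continuous Γ → (∀ τ, (qf A.c)^[n] (Γ τ) = γ τ) →
      A.lab 0 n (Γ 1) = g (A.lab 0 n (Γ 0)) := by
  let Q : I → Prop := fun τ => ∀ x r s, A.GoodBall x r s → γ τ ∈ ball x r → ∀ a' ∈ ball x r,
    a' ∈ A.Om 0 → ∃ g ∈ A.G, ∀ n (Γ : I → ℂ), Continuous Γ → (∀ τ, (qf A.c)^[n] (Γ τ) = γ τ) →
      ∀ y, (qf A.c)^[n] y = a' → JoinedIn ((qf A.c)^[n] ⁻¹' ball x r) (Γ τ) y →
        A.lab 0 n y = g (A.lab 0 n (Γ 0))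
  have Q0 : Q 0 := by
    intro x r s hg _ a' _ ha'
    obtain ⟨g, g1, g2⟩ := hg.local h0 ha'
    exact ⟨g, g1, fun n Γ _ h y hy hj => g2 n _ _ (h 0) hy hj⟩
  have trans : ∀ x r s, A.GoodBall x r s → ∀ τ τ', γ τ ∈ ball x r → γ τ' ∈ ball x r →
      (∀ (n : ℕ) (Γ : I → ℂ), Continuous Γ → (∀ τ, (qf A.c)^[n] (Γ τ) = γ τ) →
        JoinedIn ((qf A.c)^[n] ⁻¹' ball x r) (Γ τ) (Γ τ')) → Q τ → Q τ' := by
    intro x r s hg τ τ' m1 m2 hj hQ x' r' s' hg' m3 a' ha1 ha2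
    obtain ⟨b, ⟨b1, b2⟩, b3⟩ := hd.inter_open_nonempty _ (isOpen_ball.inter isOpen_ball)
      ⟨_, m2, m3⟩
    obtain ⟨g1, g1m, hg1⟩ := hQ x r s hg m1 b b1 b3
    obtain ⟨g2, g2m, hg2⟩ := hg'.local b3 ha2
    refine ⟨g2 * g1, mul_mem g2m g1m, fun n Γ hΓ h y hy hj' => ?_⟩
    obtain ⟨y', e1, e2⟩ := A.exists_joined (n := n) ((convex_ball x r).inter (convex_ball x' r'))
      (fun z hz => hg.notP hz.1) (y := Γ τ') (a := b) (by rw [h]; exact ⟨m2, m3⟩) ⟨b1, b2⟩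
    rw [Equiv.Perm.mul_apply, ← hg1 n Γ hΓ h y' e1
      ((hj n Γ hΓ h).trans (e2.mono (preimage_mono inter_subset_left)))]
    exact hg2 n y' y e1 hy ((e2.mono (preimage_mono inter_subset_right)).symm.trans hj')
  have Q1 : Q 1 := by
    refine PreconnectedSpace.induction₂' (fun τ τ' => Q τ → Q τ') (fun τ0 => ?_)
      ⟨fun _ _ _ h h' => h' ∘ h⟩ 0 1 Q0
    obtain ⟨r, hr, s, hg⟩ := A.exists_goodBall (hP τ0)
    filter_upwards [near_joined hγ isOpen_ball (mem_ball_self hr),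
      (isOpen_ball.preimage hγ).mem_nhds (mem_ball_self (x := γ τ0) hr)] with τ hτ hm
    exact ⟨trans _ r s hg τ0 τ (mem_ball_self hr) hm fun n Γ hΓ h => hτ _ Γ hΓ h,
      trans _ r s hg τ τ0 hm (mem_ball_self hr) fun n Γ hΓ h => (hτ _ Γ hΓ h).symm⟩
  obtain ⟨r, hr, s, hg⟩ := A.exists_goodBall (hP 1)
  obtain ⟨g, g1, g2⟩ := Q1 _ r s hg (mem_ball_self hr) _ (mem_ball_self hr) h1
  exact ⟨g, g1, fun n Γ hΓ h => g2 n Γ hΓ h _ (h 1) (JoinedIn.refl (by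
    change (qf A.c)^[n] (Γ 1) ∈ ball (γ 1) r
    rw [h]; exact mem_ball_self hr))⟩

/-- `z'` is the endpoint of the lift of `γ` starting at `z`. -/
def Tr {a b : ℂ} (γ : Path a b) (n : ℕ) (z z' : ℂ) : Prop :=
  ∃ Γ : Path z z', ∀ τ, (qf A.c)^[n] (Γ τ) = γ τ

variable {A}

theorem Tr.src {a b : ℂ} {γ : Path a b} {n : ℕ} {z z' : ℂ} (h : A.Tr γ n z z') :
    (qf A.c)^[n] z = a := by
  obtain ⟨Γ, h⟩ := h; simpa using h 0

theorem Tr.tgt {a b : ℂ} {γ : Path a b} {n : ℕ} {z z' : ℂ} (h : A.Tr γ n z z') :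
    (qf A.c)^[n] z' = b := by
  obtain ⟨Γ, h⟩ := h; simpa using h 1

theorem Tr.symm {a b : ℂ} {γ : Path a b} {n : ℕ} {z z' : ℂ} (h : A.Tr γ n z z') :
    A.Tr γ.symm n z' z := by
  obtain ⟨Γ, h⟩ := h
  exact ⟨Γ.symm, fun τ => h _⟩

theorem Tr.trans {a b d : ℂ} {γ : Path a b} {γ' : Path b d} {n : ℕ} {z z' z'' : ℂ}
    (h : A.Tr γ n z z') (h' : A.Tr γ' n z' z'') : A.Tr (γ.trans γ') n z z'' := by
  obtain ⟨Γ, h⟩ := h
  obtain ⟨Γ', h'⟩ := h'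
  refine ⟨Γ.trans Γ', fun τ => ?_⟩
  simp only [Path.trans_apply]
  split_ifs
  · exact h _
  · exact h' _

theorem Tr.unique {a b : ℂ} {γ : Path a b} (hP : ∀ τ, γ τ ∉ range A.pt) {n : ℕ} {z z' z'' : ℂ}
    (h : A.Tr γ n z z') (h' : A.Tr γ n z z'') : z' = z'' := by
  obtain ⟨Γ, h⟩ := h
  obtain ⟨Γ', h'⟩ := h'
  have := A.lift_unique (n := n) isPreconnected_univ Γ.continuous.continuousOn
    Γ'.continuous.continuousOn (fun τ _ => h τ ▸ hP τ) (fun τ _ => (h τ).trans (h' τ).symm)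
    (mem_univ 0) (by simp) 1 (mem_univ 1)
  simpa using this

theorem exists_tr {a b : ℂ} {γ : Path a b} (hP : ∀ τ, γ τ ∉ range A.pt) {n : ℕ} {z : ℂ}
    (hz : (qf A.c)^[n] z = a) : ∃ z', A.Tr γ n z z' := by
  obtain ⟨Γ, h1, h2, h3⟩ := A.exists_lift (n := n) γ.continuous hP (y := z) (by simpa using hz)
  exact ⟨Γ 1, ⟨⟨Γ, h1⟩, h3, rfl⟩, h2⟩

theorem notP_symm {a b : ℂ} {γ : Path a b} (hP : ∀ τ, γ τ ∉ range A.pt) (τ : I) :
    γ.symm τ ∉ range A.pt := hP _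

theorem notP_trans {a b d : ℂ} {γ : Path a b} {γ' : Path b d} (hP : ∀ τ, γ τ ∉ range A.pt)
    (hP' : ∀ τ, γ' τ ∉ range A.pt) (τ : I) : γ.trans γ' τ ∉ range A.pt := by
  simp only [Path.trans_apply]
  split_ifs
  · exact hP _
  · exact hP' _

variable (A) in
/-- Some path from `a` to `b` has monodromy `g` in terms of addresses. -/
def Mon (a b : ℂ) (g : Equiv.Perm (List Bool)) : Prop :=
  ∃ γ : Path a b, (∀ τ, γ τ ∉ range A.pt) ∧
    ∀ n z z', A.Tr γ n z z' → A.lab 0 n z' = g (A.lab 0 n z)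

theorem Mon.symm {a b : ℂ} {g : Equiv.Perm (List Bool)} (h : A.Mon a b g) : A.Mon b a g⁻¹ := by
  obtain ⟨γ, h1, h2⟩ := h
  refine ⟨γ.symm, notP_symm h1, fun n z z' h => ?_⟩
  have := h.symm
  rw [Path.symm_symm] at this
  simp [h2 n z' z this]

theorem Mon.trans {a b d : ℂ} {g g' : Equiv.Perm (List Bool)} (h : A.Mon a b g) (h' : A.Mon b d g') :
    A.Mon a d (g' * g) := by
  obtain ⟨γ, h1, h2⟩ := h
  obtain ⟨γ', h1', h2'⟩ := h'
  refine ⟨γ.trans γ', notP_trans h1 h1', fun n z z'' h => ?_⟩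
  obtain ⟨z', a1⟩ := exists_tr h1 h.src
  obtain ⟨z3, a2⟩ := exists_tr h1' a1.tgt
  rw [Tr.unique (notP_trans h1 h1') h (a1.trans a2), h2' n _ _ a2, h2 n _ _ a1]
  rfl

theorem om_notP {k : ℕ} {z : ℂ} (h : z ∈ A.Om k) : z ∉ range A.pt := by
  rintro ⟨s, rfl⟩
  exact h s (A.pt_mem k s)

theorem mon_one {a b : ℂ} (h : JoinedIn (A.Om 0) a b) : A.Mon a b 1 := by
  obtain ⟨γ, hγ⟩ := h
  refine ⟨γ, fun τ => om_notP (hγ τ), ?_⟩
  rintro n z z' ⟨Γ, h⟩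
  simpa using A.lab_const (n := n) (k := 0) Γ.continuous fun τ => h τ ▸ hγ τ

theorem mon_of_hyp {a b : ℂ} {γ : Path a b} {s : S} {e : Bool} (H : A.Hyp 0 s γ e) :
    A.Mon a b (A.genE e s) := by
  refine ⟨γ, ?_, ?_⟩
  · rintro τ ⟨t, ht⟩
    by_cases h : t = s
    · exact H.ne τ (h ▸ ht.symm)
    · exact H.avoid τ t h (ht ▸ A.pt_mem 0 t)
  · rintro n z z' ⟨Γ, h⟩
    have e' : (fun τ => (qf A.c)^[n] (Γ τ)) = γ := funext h
    simpa using Hyp.lab (n := n) Γ.continuous (e' ▸ H)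

theorem mon_cross {a b : ℂ} {γ : Path a b} {s : S} (h1 : ∀ τ t, t ≠ s → γ τ ∉ (A.L 0 t).set)
    (h2 : ∀ τ, γ τ ≠ A.pt s) (ha : a ∉ (A.L 0 s).set) (hb : b ∉ (A.L 0 s).set) :
    ∃ e, A.Mon a b (A.genE e s) := by
  obtain ⟨e, he⟩ := Leg.exists_par (A.br 0 s) γ.continuous (fun τ => by rw [A.tip]; exact h2 τ)
    (by simpa using ha) (by simpa using hb)
  exact ⟨e, mon_of_hyp ⟨h1, h2, by simpa using ha, by simpa using hb, he⟩⟩

/-- The circle about `p` through `a`. -/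
noncomputable def circ (p a : ℂ) : Path a a where
  toFun τ := p + (a - p) * Complex.exp (2 * Real.pi * Complex.I * (τ : ℝ))
  continuous_toFun := by fun_prop
  source' := by simp
  target' := by simp [Complex.exp_two_pi_mul_I]

theorem circ_dist (p a : ℂ) (τ : I) : dist (circ p a τ) p = dist a p := by
  change dist (p + (a - p) * Complex.exp (2 * Real.pi * Complex.I * (τ : ℝ))) p = _
  rw [dist_eq_norm, dist_eq_norm, add_sub_cancel_left, norm_mul,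
    show (2 * Real.pi * Complex.I * (τ : ℝ) : ℂ) = ((2 * Real.pi * τ : ℝ) : ℂ) * Complex.I by
      push_cast; ring, Complex.norm_exp_ofReal_mul_I, mul_one]

theorem hyp_circ {s : S} {r : ℝ} (hr : ∀ t, t ≠ s → ∀ z ∈ ball (A.pt s) r, z ∉ (A.L 0 t).set)
    {a : ℂ} (ha : a ∈ ball (A.pt s) r) (ha' : a ∉ (A.L 0 s).set) :
    A.Hyp 0 s (circ (A.pt s) a) true := by
  have hne : a ≠ A.pt s := fun e => ha' (e ▸ A.pt_mem 0 s)
  refine ⟨fun τ t ht => hr t ht _ (by rw [mem_ball, circ_dist]; exact ha), fun τ e => hne ?_,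
    by simpa using ha', by simpa using ha', ?_⟩
  · have := circ_dist (A.pt s) a τ
    rw [e, dist_self] at this
    exact dist_eq_zero.1 this.symm
  · obtain ⟨w, hw⟩ := exists_sq (a - A.pt s)
    refine ⟨fun τ => w * Complex.exp (Real.pi * Complex.I * (τ : ℝ)), by fun_prop, fun τ => ?_, ?_⟩
    · change _ = A.pt s + (a - A.pt s) * Complex.exp (2 * Real.pi * Complex.I * (τ : ℝ)) - _
      rw [mul_pow, hw, ← Complex.exp_nat_mul, A.tip]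
      push_cast
      rw [← mul_assoc, ← mul_assoc]; ring
    · simp [sg, Complex.exp_pi_mul_I]

end Spider

end Pool.Agent.MP_61ef33_al
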