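import Pool.Agent.MP_61ef33_al.L2

/- External rays in potential-angle coordinates, unlinking of landing pairs. -/

namespace Pool.Agent.MP_61ef33_al

open Filter Topology Set Metric

noncomputable def ex (t y : ℝ) : ℂ := Complex.exp (t + 2 * Real.pi * y * Complex.I)

/-- The inverse Boettcher map in (potential, angle) coordinates. -/
structure BD where
  c : ℂ
  Ψ : ℝ → ℝ → ℂ
  cont : ContinuousOn (fun p : ℝ × ℝ => Ψ p.1 p.2) {p | 0 < p.1}
  dbl : ∀ t y, 0 < t → Ψ (2 * t) (2 * y) = qf c (Ψ t y)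
  per : ∀ t y (m : ℤ), Ψ t (y + m) = Ψ t y
  inj : ∀ t y t' y', 0 < t → 0 < t' → Ψ t y = Ψ t' y' → t = t' ∧ ∃ m : ℤ, y' = y + m
  asym : ∀ ε > 0, ∃ R, ∀ t ≥ R, ∀ y, ‖Ψ t y / ex t y - 1‖ < ε
  opn : ∃ x r C, 0 < r ∧ ∀ z ∈ ball x r, ∃ t y, 0 < t ∧ t < C ∧ Ψ t y = z

theorem norm_ex (t y : ℝ) : ‖ex t y‖ = Real.exp t := by simp [ex, Complex.norm_exp]

theorem ex_ne (t y : ℝ) : ex t y ≠ 0 := Complex.exp_ne_zero _

namespace BD

variable (B : BD)

def U : Set ℂ := {z | ∃ t y, 0 < t ∧ B.Ψ t y = z}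

theorem contOn {α : Type} [TopologicalSpace α] {T : Set α} {a b : α → ℝ} (ha : ContinuousOn a T)
    (hb : ContinuousOn b T) (h : ∀ x ∈ T, 0 < a x) : ContinuousOn (fun x => B.Ψ (a x) (b x)) T :=
  B.cont.comp (ha.prodMk hb) h

theorem half {t : ℝ} (ht : 0 < t) (y : ℝ) : B.Ψ t (y + 1 / 2) = -B.Ψ t y := by
  have h1 := B.dbl t (y + 1 / 2) ht
  have h2 := B.dbl t y ht
  have h3 := B.per (2 * t) (2 * y) 1
  rw [show 2 * (y + 1 / 2) = 2 * y + (1 : ℤ) by push_cast; ring, h3, h2] at h1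
  rcases sq_eq_sq_iff_eq_or_eq_neg.1 (add_right_cancel h1).symm with h | h
  · obtain ⟨_, m, hm⟩ := B.inj _ _ _ _ ht ht h
    have : (2 * m + 1 : ℤ) = 0 := by
      have : (2 * m + 1 : ℝ) = 0 := by linarith
      exact_mod_cast this
    omega
  · exact h

theorem pre {t y : ℝ} (ht : 0 < t) {z : ℂ} (h : qf B.c z = B.Ψ t y) :
    ∃ y', z = B.Ψ (t / 2) y' := by
  have h1 := B.dbl (t / 2) (y / 2) (by linarith)
  rw [mul_div_cancel₀ _ two_ne_zero, mul_div_cancel₀ _ two_ne_zero, ← h] at h1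
  rcases sq_eq_sq_iff_eq_or_eq_neg.1 (add_right_cancel h1) with h | h
  · exact ⟨_, h⟩
  · exact ⟨y / 2 + 1 / 2, by rw [B.half (by linarith), h]⟩

theorem iter {t : ℝ} (ht : 0 < t) (y : ℝ) (n : ℕ) :
    (qf B.c)^[n] (B.Ψ t y) = B.Ψ (2 ^ n * t) (2 ^ n * y) := by
  induction n with
  | zero => simp
  | succ n ih =>
    rw [Function.iterate_succ_apply', ih, ← B.dbl _ _ (by positivity)]
    congr 1 <;> ring

theorem ray_inf (y : ℝ) : Tendsto (fun t => B.Ψ t y) atTop (Bornology.cobounded ℂ) := by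
  obtain ⟨R, hR⟩ := B.asym (1 / 2) (by norm_num)
  rw [← tendsto_norm_atTop_iff_cobounded]
  refine tendsto_atTop_mono' _ ?_ (Real.tendsto_exp_atTop.atTop_div_const (show (0 : ℝ) < 2 by norm_num))
  filter_upwards [eventually_ge_atTop R] with t ht
  have h1 := hR t ht y
  have h2 := norm_sub_norm_le (1 : ℂ) (1 - B.Ψ t y / ex t y)
  rw [norm_sub_rev] at h1
  simp only [norm_one, sub_sub_cancel, norm_div, norm_ex] at h2
  have h3 : 1 / 2 ≤ ‖B.Ψ t y‖ / Real.exp t := by linarith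
  rw [le_div_iff₀ (Real.exp_pos t)] at h3
  linarith

/-- The ray of angle `y` lands at `z`. -/
def Lands (y : ℝ) (z : ℂ) : Prop := Tendsto (fun t => B.Ψ t y) (𝓝[>] 0) (𝓝 z)

variable {B}

theorem Lands.unique {y : ℝ} {z z' : ℂ} (h : B.Lands y z) (h' : B.Lands y z') : z = z' :=
  tendsto_nhds_unique h h'

theorem Lands.int {y : ℝ} {z : ℂ} (h : B.Lands y z) (m : ℤ) : B.Lands (y + m) z := by
  unfold Lands at *; simpa only [B.per] using h

theorem Lands.half {y : ℝ} {z : ℂ} (h : B.Lands y z) : B.Lands (y + 1 / 2) (-z) := by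
  refine (Tendsto.neg h).congr' ?_
  filter_upwards [self_mem_nhdsWithin] with t ht
  exact (B.half ht y).symm

theorem tendsto_mul_nhdsGT {a : ℝ} (ha : 0 < a) :
    Tendsto (fun t : ℝ => a * t) (𝓝[>] 0) (𝓝[>] 0) := by
  refine tendsto_nhdsWithin_iff.2 ⟨?_, ?_⟩
  · have : Tendsto (fun t : ℝ => a * t) (𝓝 0) (𝓝 (a * 0)) := (continuous_const_mul a).tendsto 0
    rw [mul_zero] at this
    exact this.mono_left nhdsWithin_le_nhds
  · filter_upwards [self_mem_nhdsWithin] with t ht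
    exact mul_pos ha ht

theorem Lands.dbl {y : ℝ} {z : ℂ} (h : B.Lands y z) : B.Lands (2 * y) (qf B.c z) := by
  have := ((continuous_qf B.c).tendsto z).comp
    (Tendsto.comp h (tendsto_mul_nhdsGT (show (0 : ℝ) < 1 / 2 by norm_num)))
  refine this.congr' ?_
  filter_upwards [self_mem_nhdsWithin] with t ht
  have ht' : (0 : ℝ) < t := ht
  simp only [Function.comp]
  rw [← B.dbl _ _ (by linarith)]
  congr 1; ring

theorem Lands.iter {y : ℝ} {z : ℂ} (h : B.Lands y z) (n : ℕ) :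
    B.Lands (2 ^ n * y) ((qf B.c)^[n] z) := by
  induction n with
  | zero => simpa using h
  | succ n ih =>
    rw [Function.iterate_succ_apply', pow_succ', mul_assoc]
    exact ih.dbl

theorem Lands.sq {y : ℝ} {z : ℂ} (h : B.Lands y (qf B.c z)) :
    Tendsto (fun t => B.Ψ t (y / 2) ^ 2) (𝓝[>] 0) (𝓝 (z ^ 2)) := by
  have := (Tendsto.comp h (tendsto_mul_nhdsGT (show (0 : ℝ) < 2 by norm_num))).sub_const B.c
  rw [qf, add_sub_cancel_right] at this
  refine this.congr' ?_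
  filter_upwards [self_mem_nhdsWithin] with t ht
  have := B.dbl t (y / 2) ht
  rw [mul_div_cancel₀ _ two_ne_zero] at this
  simp [this, qf]

theorem Lands.zero {y : ℝ} (h : B.Lands y B.c) : B.Lands (y / 2) 0 := by
  have h1 := Lands.sq (z := 0) (by simpa [qf] using h)
  have h2 := (Real.continuous_sqrt.tendsto _).comp h1.norm
  rw [Lands, tendsto_zero_iff_norm_tendsto_zero]
  simpa [Function.comp_def] using h2

theorem Lands.pre {y : ℝ} {z : ℂ} (hz : z ≠ 0) (h : B.Lands y (qf B.c z)) :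
    ∃ y', B.Lands y' z ∧ ∃ m : ℤ, 2 * y' = y + m := by
  have h1 := h.sq
  have hz2 : 0 < ‖z ^ 2‖ := norm_pos_iff.2 (pow_ne_zero 2 hz)
  obtain ⟨q, hq, hq2⟩ := exists_sqrt_ball (x := z ^ 2) (s := 0) (r := ‖z ^ 2‖) (by simp)
  simp only [sub_zero] at hq2
  obtain ⟨δ, hδ, h2⟩ := (nhdsGT_basis 0).eventually_iff.1 (h1.eventually (ball_mem_nhds _ hz2))
  have hc : ContinuousOn (fun t => B.Ψ t (y / 2)) (Ioo 0 δ) :=
    B.contOn continuousOn_id continuousOn_const fun t ht => ht.1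
  obtain ⟨e, he⟩ := exists_sg (a := B.Ψ (δ / 2) (y / 2)) (b := q (B.Ψ (δ / 2) (y / 2) ^ 2))
    (hq2 _).symm
  have h3 := sq_unique isPreconnected_Ioo hc (v := fun t => sg e * q (B.Ψ t (y / 2) ^ 2))
    (continuousOn_const.mul (hq.comp (hc.pow 2) fun t ht => h2 ht))
    (fun t _ => by rw [mul_pow, sg_sq, one_mul, hq2]) (fun t ht => mul_ne_zero (sg_ne e) fun e0 => by
      have a := hq2 (B.Ψ t (y / 2) ^ 2)
      have b := h2 ht
      rw [← a, e0] at b
      simp at b) (a := δ / 2) ⟨by linarith, by linarith⟩ he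
  have h4 : B.Lands (y / 2) (sg e * q (z ^ 2)) := by
    have := ((hq.continuousAt (ball_mem_nhds _ hz2)).tendsto.comp h1).const_mul (sg e)
    refine this.congr' ?_
    filter_upwards [Ioo_mem_nhdsGT hδ] with t ht
    exact (h3 t ht).symm
  rcases sq_eq_sq_iff_eq_or_eq_neg.1 (show (sg e * q (z ^ 2)) ^ 2 = z ^ 2 by
    rw [mul_pow, sg_sq, one_mul, hq2]) with h5 | h5
  · exact ⟨y / 2, h5 ▸ h4, 0, by simp; ring⟩
  · refine ⟨y / 2 + 1 / 2, ?_, 1, by push_cast; ring⟩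
    have := h4.half
    rwa [h5, neg_neg] at this

/-- The leg along a landing ray, with potential scale `a`. -/
noncomputable def mkLeg {a : ℝ} (ha : 0 < a) {y : ℝ} {z : ℂ} (h : B.Lands y z) : Leg where
  l u := if u < 1 then B.Ψ (a * ((1 - u) / u)) y else z
  cont := by
    intro u hu
    have hc : ContinuousOn (fun u : ℝ => B.Ψ (a * ((1 - u) / u)) y) (Ioo 0 1) :=
      B.contOn (continuousOn_const.mul ((continuousOn_const.sub continuousOn_id).div continuousOn_id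
        fun u hu => ne_of_gt hu.1)) continuousOn_const fun u hu =>
          mul_pos ha (div_pos (by linarith [hu.2]) hu.1)
    rcases lt_or_eq_of_le hu.2 with h1 | h1
    · refine ContinuousAt.continuousWithinAt ?_
      refine (hc.continuousAt (Ioo_mem_nhds hu.1 h1)).congr ?_
      filter_upwards [Ioo_mem_nhds hu.1 h1] with v hv
      exact (if_pos hv.2).symm
    · subst h1
      refine ContinuousWithinAt.mono (continuousWithinAt_Iio_iff_Iic.1 ?_) Ioc_subset_Iic_self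
      rw [ContinuousWithinAt, if_neg (lt_irrefl _)]
      have h2 : Tendsto (fun u : ℝ => (1 - u) / u) (𝓝[<] 1) (𝓝[>] 0) := by
        refine tendsto_nhdsWithin_iff.2 ⟨?_, ?_⟩
        · have : ContinuousAt (fun u : ℝ => (1 - u) / u) 1 := by fun_prop (disch := norm_num)
          simpa using this.tendsto.mono_left nhdsWithin_le_nhds
        · filter_upwards [Ioo_mem_nhdsLT (show (0 : ℝ) < 1 by norm_num)] with u hu
          exact div_pos (by linarith [hu.2]) hu.1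
      refine (Tendsto.comp h ((tendsto_mul_nhdsGT ha).comp h2)).congr' ?_
      filter_upwards [self_mem_nhdsWithin] with u hu
      exact (if_pos hu).symm
  inf := by
    have h2 : Tendsto (fun u : ℝ => a * ((1 - u) / u)) (𝓝[>] 0) atTop := by
      refine Tendsto.const_mul_atTop ha ?_
      refine (tendsto_atTop_add_const_right _ (-1) tendsto_inv_nhdsGT_zero).congr' ?_
      filter_upwards [self_mem_nhdsWithin] with u hu
      have : u ≠ 0 := ne_of_gt hu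
      field_simp
      ring
    refine ((B.ray_inf y).comp h2).congr' ?_
    filter_upwards [Ioo_mem_nhdsGT (show (0 : ℝ) < 1 by norm_num)] with u hu
    exact (if_pos hu.2).symm

variable (B) in
/-- The leg consists of the ray of angle `y` and its landing point `z`. -/
structure IsRay (L : Leg) (y : ℝ) (z : ℂ) : Prop where
  lands : B.Lands y z
  notU : z ∉ B.U
  tip : L.tip = z
  mem : ∀ w, w ∈ L.set ↔ w = z ∨ ∃ t, 0 < t ∧ B.Ψ t y = w

theorem isRay_mkLeg {a : ℝ} (ha : 0 < a) {y : ℝ} {z : ℂ} (h : B.Lands y z) (hz : z ∉ B.U) :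
    B.IsRay (mkLeg ha h) y z := by
  refine ⟨h, hz, by simp [Leg.tip, mkLeg], fun w => ⟨?_, ?_⟩⟩
  · rintro ⟨u, hu, rfl⟩
    by_cases h1 : u < 1
    · exact Or.inr ⟨_, mul_pos ha (div_pos (by linarith) hu.1), (if_pos h1).symm⟩
    · exact Or.inl (if_neg h1)
  · rintro (rfl | ⟨t, ht, rfl⟩)
    · exact ⟨1, by simp, by simp [mkLeg]⟩
    · have h1 : a / (a + t) < 1 := by rw [div_lt_one (by linarith)]; linarith
      refine ⟨a / (a + t), ⟨by positivity, h1.le⟩, ?_⟩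
      simp only [mkLeg, if_pos h1]
      congr 1
      field_simp
      ring

theorem IsRay.int {L : Leg} {y : ℝ} {z : ℂ} (h : B.IsRay L y z) (m : ℤ) : B.IsRay L (y + m) z :=
  ⟨h.lands.int m, h.notU, h.tip, fun w => by simpa only [B.per] using h.mem w⟩

theorem IsRay.mem_iff {L : Leg} {y : ℝ} {z : ℂ} (h : B.IsRay L y z) {t y' : ℝ} (ht : 0 < t) :
    B.Ψ t y' ∈ L.set ↔ ∃ m : ℤ, y' = y + m := by
  rw [h.mem]
  constructor
  · rintro (e | ⟨t', ht', e⟩)
    · exact absurd ⟨t, y', ht, e⟩ h.notU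
    · exact (B.inj _ _ _ _ ht' ht e).2
  · rintro ⟨m, rfl⟩
    exact Or.inr ⟨t, ht, (B.per _ _ _).symm⟩

theorem IsRay.not_mem {L : Leg} {y : ℝ} {z : ℂ} (h : B.IsRay L y z) {z' : ℂ} (hz : z' ∉ B.U)
    (hne : z' ≠ z) : z' ∉ L.set := by
  rw [h.mem]
  rintro (e | ⟨t, ht, e⟩)
  · exact hne e
  · exact hz ⟨t, y, ht, e⟩

theorem IsRay.not_mem_of_lands {L : Leg} {y : ℝ} {z : ℂ} (h : B.IsRay L y z) {y' : ℝ} {z' : ℂ}
    (h' : B.Lands y' z') (hne : z' ≠ z) {t : ℝ} (ht : 0 < t) : B.Ψ t y' ∉ L.set := by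
  rw [h.mem_iff ht]
  rintro ⟨m, rfl⟩
  exact hne (h'.unique (h.lands.int m))

theorem IsRay.not_mem_Ioo {L : Leg} {y : ℝ} {z : ℂ} (h : B.IsRay L y z) {t y' : ℝ} (ht : 0 < t)
    (hy : y' ∈ Ioo y (y + 1)) : B.Ψ t y' ∉ L.set := by
  rw [h.mem_iff ht]
  rintro ⟨m, rfl⟩
  have h1 : (0 : ℤ) < m := by have := hy.1; exact_mod_cast (by linarith : (0 : ℝ) < m)
  have h2 : m < (1 : ℤ) := by have := hy.2; exact_mod_cast (by linarith : (m : ℝ) < 1)
  omega

theorem IsRay.disj {L L' : Leg} {y y' : ℝ} {z z' : ℂ} (h : B.IsRay L y z) (h' : B.IsRay L' y' z')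
    (hne : z ≠ z') : Disjoint L.set L'.set := by
  rw [disjoint_left]
  intro w hw
  rcases (h.mem w).1 hw with rfl | ⟨t, ht, rfl⟩
  · exact h'.not_mem h.notU hne
  · exact h'.not_mem_of_lands h.lands hne ht

variable (B) in
theorem exists_w (z : ℂ) : ∃ R, 0 < R ∧ ∃ w : ℝ → ℂ, Continuous w ∧
    (∀ y, w y ^ 2 = B.Ψ R y - z) ∧ ∀ y, w (y + 1) = -w y := by
  obtain ⟨R0, hR0⟩ := B.asym (1 / 2) (by norm_num)
  obtain ⟨R, hR1, hR2, hR3⟩ : ∃ R : ℝ, 0 < R ∧ R0 ≤ R ∧ 2 * ‖z‖ ≤ Real.exp R :=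
    ⟨max (max 1 R0) (2 * ‖z‖), lt_of_lt_of_le one_pos ((le_max_left _ _).trans (le_max_left _ _)),
      (le_max_right _ _).trans (le_max_left _ _), by
        have := Real.add_one_le_exp (max (max 1 R0) (2 * ‖z‖))
        linarith [le_max_right (max 1 R0) (2 * ‖z‖)]⟩
  obtain ⟨q, hq, hq2⟩ := exists_sqrt_ball (x := 1) (s := 0) (r := 1) (by simp)
  simp only [sub_zero] at hq2
  have hm : ∀ y, (B.Ψ R y - z) / ex R y ∈ ball (1 : ℂ) 1 := by
    intro y
    rw [mem_ball, dist_eq_norm, sub_div, sub_right_comm]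
    have h1 := hR0 R hR2 y
    have h2 : ‖z / ex R y‖ ≤ 1 / 2 := by
      rw [norm_div, norm_ex, div_le_iff₀ (Real.exp_pos R)]; linarith
    linarith [norm_sub_le (B.Ψ R y / ex R y - 1) (z / ex R y)]
  have hc : Continuous fun y => B.Ψ R y :=
    continuousOn_univ.1 (B.contOn continuousOn_const continuousOn_id fun _ _ => hR1)
  have hex : Continuous fun y => ex R y := by unfold ex; fun_prop
  refine ⟨R, hR1, fun y => ex (R / 2) (y / 2) * q ((B.Ψ R y - z) / ex R y),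
    Continuous.mul (by unfold ex; fun_prop)
      (hq.comp_continuous ((hc.sub continuous_const).div hex fun y => ex_ne _ _) hm),
    fun y => ?_, fun y => ?_⟩
  · have : ex (R / 2) (y / 2) ^ 2 = ex R y := by
      rw [ex, ex, ← Complex.exp_nat_mul]; congr 1; push_cast; ring
    rw [mul_pow, hq2, this, mul_div_cancel₀ _ (ex_ne _ _)]
  · have h1 : B.Ψ R (y + 1) = B.Ψ R y := by simpa using B.per R y 1
    have h2 : ex R (y + 1) = ex R y := by
      rw [ex, ex, ← mul_one (Complex.exp (R + 2 * Real.pi * y * Complex.I)),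
        ← Complex.exp_two_pi_mul_I, ← Complex.exp_add]
      congr 1; push_cast; ring
    have h3 : ex (R / 2) ((y + 1) / 2) = -ex (R / 2) (y / 2) := by
      rw [ex, ex, ← mul_neg_one, ← Complex.exp_pi_mul_I, ← Complex.exp_add]
      congr 1; push_cast; ring
    simp only [h1, h2, h3, neg_mul]

theorem IsRay.branch {L : Leg} {y0 : ℝ} {z : ℂ} (hL : B.IsRay L y0 z) {h : ℂ → ℂ} (hh : L.IsBr h)
    {R : ℝ} (hR : 0 < R) {w : ℝ → ℂ} (hw : Continuous w) (hw2 : ∀ y, w y ^ 2 = B.Ψ R y - z) :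
    ∃ d, ∀ y ∈ Ioo y0 (y0 + 1), w y = sg d * h (B.Ψ R y) := by
  have hm : y0 + 1 / 2 ∈ Ioo y0 (y0 + 1) := ⟨by linarith, by linarith⟩
  obtain ⟨d, hd⟩ := exists_sg (a := w (y0 + 1 / 2)) (b := h (B.Ψ R (y0 + 1 / 2)))
    (by rw [hw2, hh.sq _ (hL.not_mem_Ioo hR hm), hL.tip])
  exact ⟨d, sq_unique isPreconnected_Ioo hw.continuousOn (continuousOn_const.mul (hh.cont.comp
    (B.contOn continuousOn_const continuousOn_id fun _ _ => hR) fun y hy => hL.not_mem_Ioo hR hy))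
    (fun y hy => by rw [mul_pow, sg_sq, one_mul, hw2, hh.sq _ (hL.not_mem_Ioo hR hy), hL.tip])
    (fun y hy => mul_ne_zero (sg_ne d) (hh.ne (hL.not_mem_Ioo hR hy))) hm hd⟩

theorem radial {L0 L1 : Leg} {y0 y1 : ℝ} {z : ℂ} (r0 : B.IsRay L0 y0 z) (r1 : B.IsRay L1 y1 z)
    {h0 h1 : ℂ → ℂ} (b0 : L0.IsBr h0) (b1 : L1.IsBr h1) {y : ℝ} {z' : ℂ} (hl : B.Lands y z')
    (hz' : z' ∉ B.U) (hne : z' ≠ z) {R : ℝ} (hR : 0 < R) {e : Bool}
    (he : h0 (B.Ψ R y) = sg e * h1 (B.Ψ R y)) : h0 z' = sg e * h1 z' := by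
  have hc : ContinuousOn (fun t => B.Ψ t y) (Ioi 0) :=
    B.contOn continuousOn_id continuousOn_const fun t ht => ht
  have n0 : ∀ t ∈ Ioi (0 : ℝ), B.Ψ t y ∉ L0.set := fun t ht => r0.not_mem_of_lands hl hne ht
  have n1 : ∀ t ∈ Ioi (0 : ℝ), B.Ψ t y ∉ L1.set := fun t ht => r1.not_mem_of_lands hl hne ht
  have := sq_unique isPreconnected_Ioi (b0.cont.comp hc n0)
    (v := fun t => sg e * h1 (B.Ψ t y)) (continuousOn_const.mul (b1.cont.comp hc n1))
    (fun t ht => by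
      simp only [Function.comp]
      rw [mul_pow, sg_sq, one_mul, b0.sq _ (n0 t ht), b1.sq _ (n1 t ht), r0.tip, r1.tip])
    (fun t ht => mul_ne_zero (sg_ne e) (b1.ne (n1 t ht))) hR he
  have t0 := (b0.cont.continuousAt (L0.closed.isOpen_compl.mem_nhds (r0.not_mem hz' hne))).tendsto.comp hl
  have t1 := ((b1.cont.continuousAt
    (L1.closed.isOpen_compl.mem_nhds (r1.not_mem hz' hne))).tendsto.comp hl).const_mul (sg e)
  refine tendsto_nhds_unique t0 (t1.congr' ?_)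
  filter_upwards [self_mem_nhdsWithin] with t ht
  exact (this t ht).symm

theorem sectors {L0 L1 : Leg} {y0 y1 : ℝ} {z : ℂ} (r0 : B.IsRay L0 y0 z) (r1 : B.IsRay L1 y1 z)
    {h0 h1 : ℂ → ℂ} (b0 : L0.IsBr h0) (b1 : L1.IsBr h1) (h01 : y0 ≤ y1) (h10 : y1 ≤ y0 + 1) :
    ∃ e, ∀ y z', B.Lands y z' → z' ∉ B.U → z' ≠ z →
      (y ∈ Ioo y1 (y0 + 1) → h0 z' = sg e * h1 z') ∧ (y ∈ Ioo y0 y1 → h0 z' = sg (!e) * h1 z') := by
  obtain ⟨R, hR, w, w1, w2, w3⟩ := B.exists_w z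
  obtain ⟨d0, hd0⟩ := r0.branch b0 hR w1 w2
  obtain ⟨d1, hd1⟩ := r1.branch b1 hR w1 w2
  refine ⟨xor d0 d1, fun y z' hl hz' hne => ⟨fun hy => radial r0 r1 b0 b1 hl hz' hne hR ?_,
    fun hy => radial r0 r1 b0 b1 hl hz' hne hR ?_⟩⟩
  · have a0 := hd0 y ⟨by linarith [hy.1], hy.2⟩
    have a1 := hd1 y ⟨hy.1, by linarith [hy.2]⟩
    rw [a0] at a1
    revert a1
    cases d0 <;> cases d1 <;> simp only [sg] <;> intro a1 <;> simp at a1 ⊢ <;>
      first | exact a1 | linear_combination -a1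
  · have a0 := hd0 y ⟨hy.1, by linarith [hy.2]⟩
    have a1 := hd1 (y + 1) ⟨by linarith [hy.1], by linarith [hy.2]⟩
    have h1' : B.Ψ R (y + 1) = B.Ψ R y := by simpa using B.per R y 1
    rw [w3, a0, h1'] at a1
    revert a1
    cases d0 <;> cases d1 <;> simp only [sg] <;> intro a1 <;> simp at a1 ⊢ <;>
      first | exact a1 | linear_combination -a1

theorem exists_shift (y0 y : ℝ) : ∃ m : ℤ, y0 ≤ y + m ∧ y + m < y0 + 1 :=
  ⟨⌈y0 - y⌉, by linarith [Int.le_ceil (y0 - y)], by linarith [Int.ceil_lt_add_one (y0 - y)]⟩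

theorem unlink {y0 y1 : ℝ} {z : ℂ} (l0 : B.Lands y0 z) (l1 : B.Lands y1 z) (hz : z ∉ B.U)
    (h10 : y1 ≤ y0 + 1) {a b : ℝ} {z' : ℂ} (la : B.Lands a z') (lb : B.Lands b z') (hz' : z' ∉ B.U)
    (hne : z' ≠ z) (ha : a ∈ Ioo y0 y1) : ∃ m : ℤ, b + m ∈ Ioo y0 y1 := by
  have r0 := isRay_mkLeg one_pos l0 hz
  have r1 := isRay_mkLeg one_pos l1 hz
  obtain ⟨h0, b0⟩ := (mkLeg one_pos l0).exists_isBr
  obtain ⟨h1, b1⟩ := (mkLeg one_pos l1).exists_isBr
  obtain ⟨e, he⟩ := sectors r0 r1 b0 b1 (ha.1.trans ha.2).le h10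
  obtain ⟨m, m1, m2⟩ := exists_shift y0 b
  refine ⟨m, lt_of_le_of_ne m1 fun e => hne ((lb.int m).unique (e ▸ l0)), ?_⟩
  by_contra h
  have h' : y1 < b + m := lt_of_le_of_ne (not_lt.1 h) fun e => hne ((lb.int m).unique (e ▸ l1))
  have a1 := (he _ _ (lb.int m) hz' hne).1 ⟨h', m2⟩
  have a2 := (he _ _ la hz' hne).2 ha
  have := sg_inj (mul_right_cancel₀ (b1.ne (r1.not_mem hz' hne)) (a1.symm.trans a2))
  simp at this

theorem abs_add_int {d : ℝ} (_h0 : 0 ≤ d) (h1 : d ≤ 1 / 2) (m : ℤ) : d ≤ |d + m| := by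
  rcases le_or_gt 0 m with h | h
  · have : (0 : ℝ) ≤ m := by exact_mod_cast h
    exact le_trans (by linarith) (le_abs_self _)
  · have : (m : ℝ) ≤ -1 := by exact_mod_cast (by omega : m ≤ -1)
    exact le_trans (by linarith) (neg_le_abs _)

variable (B) in
/-- The critical value does not escape, and the critical point is not periodic. -/
structure Mis : Prop where
  notU : ∀ k, (qf B.c)^[k] B.c ∉ B.U
  ne0 : ∀ k, (qf B.c)^[k] B.c ≠ 0

theorem Mis.ne_c (M : B.Mis) (k : ℕ) : (qf B.c)^[k + 1] B.c ≠ B.c := by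
  rw [Function.iterate_succ_apply']
  intro e
  exact M.ne0 k (by simpa [qf] using e)

theorem Mis.zero (M : B.Mis) : (0 : ℂ) ∉ B.U := by
  rintro ⟨t, y, ht, e⟩
  exact M.notU 0 ⟨2 * t, 2 * y, by linarith, by rw [B.dbl _ _ ht, e]; simp [qf]⟩

theorem Mis.short (M : B.Mis) {y0 y1 : ℝ} (l0 : B.Lands y0 B.c) (l1 : B.Lands y1 B.c)
    (h01 : y0 < y1) (h10 : y1 - y0 ≤ 1 / 2) (k : ℕ) {a : ℝ}
    (la : B.Lands a ((qf B.c)^[k + 1] B.c)) : a ∉ Ioo y0 y1 := by
  have nh : ∀ k α, B.Lands α ((qf B.c)^[k] B.c) → ¬ B.Lands (α + 1 / 2) ((qf B.c)^[k] B.c) :=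
    fun k α h h' => M.ne0 k (by linear_combination (h'.unique h.half) / 2)
  have step : ∀ k α d, B.Lands α ((qf B.c)^[k] B.c) → B.Lands (α + d) ((qf B.c)^[k] B.c) →
      y1 - y0 ≤ d → d < 1 / 2 → ∃ α' d', B.Lands α' ((qf B.c)^[k + 1] B.c) ∧
        B.Lands (α' + d') ((qf B.c)^[k + 1] B.c) ∧ y1 - y0 < d' ∧ d' < 1 / 2 := by
    intro k α d la ld h1 h2
    have la' := la.dbl
    have ld' := ld.dbl
    rw [← Function.iterate_succ_apply' (qf B.c)] at la' ld'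
    have key : ∀ y, B.Lands y B.c → ∃ j : ℤ, y + j ∈ Ioo (2 * α + 2 * d) (2 * α + 1) := by
      intro y ly
      obtain ⟨j, j1, j2⟩ := exists_shift (2 * α) y
      refine ⟨j, ?_, j2⟩
      by_contra h
      have j3 : 2 * α < y + j := lt_of_le_of_ne j1 fun e =>
        M.ne_c k (la'.unique (e ▸ ly.int j))
      have j4 : y + j < 2 * α + 2 * d := lt_of_le_of_ne (not_lt.1 h) fun e =>
        M.ne_c k (ld'.unique (by rw [mul_add, ← e]; exact ly.int j))
      have z1 := (ly.int j).zero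
      have z2 := z1.half
      rw [neg_zero] at z2
      obtain ⟨m, m1, m2⟩ := unlink la ld (M.notU k) (by linarith) z1 z2 M.zero (M.ne0 k).symm
        ⟨by linarith, by linarith⟩
      have := abs_add_int (d := 1 / 2) (by norm_num) le_rfl m
      have h3 : |1 / 2 + (m : ℝ)| < d := abs_lt.2 ⟨by linarith, by linarith⟩
      linarith
    rcases lt_trichotomy (2 * d) (1 / 2) with h | h | h
    · exact ⟨2 * α, 2 * d, la', by rwa [← mul_add], by linarith, h⟩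
    · exact absurd (by rwa [mul_add, h] at ld') (nh _ _ la')
    · obtain ⟨j0, a1, a2⟩ := key y0 l0
      obtain ⟨j1, b1, b2⟩ := key y1 l1
      refine ⟨2 * (α + d), 1 - 2 * d, ld', ?_, ?_, by linarith⟩
      · have := la'.int 1
        rwa [show 2 * α + ((1 : ℤ) : ℝ) = 2 * (α + d) + (1 - 2 * d) by push_cast; ring] at this
      · refine lt_of_le_of_lt (abs_add_int (by linarith) h10 (j1 - j0)) (abs_lt.2 ⟨?_, ?_⟩) <;>
          push_cast <;> linarith
  have main : ∀ k, ∃ α' d', B.Lands α' ((qf B.c)^[k + 1] B.c) ∧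
      B.Lands (α' + d') ((qf B.c)^[k + 1] B.c) ∧ y1 - y0 < d' ∧ d' < 1 / 2 := by
    intro k
    induction k with
    | zero =>
      refine step 0 y0 (y1 - y0) l0 (by simpa using l1) le_rfl (lt_of_le_of_ne h10 fun e => ?_)
      exact nh 0 y0 l0 (by rw [← e]; simpa using l1)
    | succ k ih =>
      obtain ⟨α, d, a1, a2, a3, a4⟩ := ih
      exact step _ α d a1 a2 a3.le a4
  intro ha
  obtain ⟨α, d, a1, a2, a3, a4⟩ := main k
  obtain ⟨m1, b1, b2⟩ := unlink l0 l1 (M.notU 0) (by linarith) la a1 (M.notU _) (M.ne_c k) ha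
  obtain ⟨m2, c1, c2⟩ := unlink l0 l1 (M.notU 0) (by linarith) la a2 (M.notU _) (M.ne_c k) ha
  have := abs_add_int (d := d) (by linarith) a4.le (m2 - m1)
  have h3 : |d + ((m2 - m1 : ℤ) : ℝ)| < y1 - y0 := abs_lt.2 ⟨by push_cast; linarith, by push_cast; linarith⟩
  linarith

theorem Mis.const (M : B.Mis) {L0 L1 : Leg} {y0 y1 : ℝ} (r0 : B.IsRay L0 y0 B.c)
    (r1 : B.IsRay L1 y1 B.c) {h0 h1 : ℂ → ℂ} (b0 : L0.IsBr h0) (b1 : L1.IsBr h1) :
    ∃ e, ∀ k, h0 ((qf B.c)^[k + 1] B.c) = sg e * h1 ((qf B.c)^[k + 1] B.c) := by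
  obtain ⟨m, m1, m2⟩ := exists_shift y0 y1
  have r1' := r1.int m
  obtain ⟨e, he⟩ := sectors r0 r1' b0 b1 m1 m2.le
  have hk : ∀ k, ∃ a, B.Lands a ((qf B.c)^[k + 1] B.c) ∧ y0 < a ∧ a < y0 + 1 ∧ a ≠ y1 + m := by
    intro k
    have la := r0.lands.iter (k + 1)
    obtain ⟨j, j1, j2⟩ := exists_shift y0 (2 ^ (k + 1) * y0)
    exact ⟨_, la.int j, lt_of_le_of_ne j1 fun e => M.ne_c k ((la.int j).unique (e ▸ r0.lands)), j2,
      fun e => M.ne_c k ((la.int j).unique (e ▸ r1'.lands))⟩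
  by_cases hs : y1 + m - y0 ≤ 1 / 2
  · refine ⟨e, fun k => ?_⟩
    obtain ⟨a, la, a1, a2, a3⟩ := hk k
    refine (he a _ la (M.notU _) (M.ne_c k)).1 ⟨?_, a2⟩
    by_contra h
    have h' : a < y1 + m := lt_of_le_of_ne (not_lt.1 h) a3
    exact M.short r0.lands r1'.lands (a1.trans h') hs k la ⟨a1, h'⟩
  · refine ⟨!e, fun k => ?_⟩
    obtain ⟨a, la, a1, a2, a3⟩ := hk k
    refine (he a _ la (M.notU _) (M.ne_c k)).2 ⟨a1, ?_⟩
    by_contra h
    have h' : y1 + m < a := lt_of_le_of_ne (not_lt.1 h) a3.symm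
    exact M.short r1'.lands (by simpa using r0.lands.int 1) m2 (by linarith) k la ⟨h', a2⟩

end BD

end Pool.Agent.MP_61ef33_al
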