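import Pool.Agent.MP_61ef33_al.L3
import Pool.Agent.MP_61ef33_al.L4

/- The spider given by external rays, and surjectivity of the monodromy onto the automaton group. -/

namespace Pool.Agent.MP_61ef33_al

open Filter Topology Set Metric unitInterval

namespace BD

variable (B : BD)

/-- The forward orbit of the critical value. -/
def P : Set ℂ := range fun k => (qf B.c)^[k] B.c

variable {B}

theorem Mis.notU' (M : B.Mis) (s : B.P) : s.1 ∉ B.U := by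
  obtain ⟨_, k, rfl⟩ := s; exact M.notU k

theorem Mis.ne0' (M : B.Mis) (s : B.P) : s.1 ≠ 0 := by
  obtain ⟨_, k, rfl⟩ := s; exact M.ne0 k

def nxP (s : B.P) : B.P := ⟨qf B.c s.1, by
  obtain ⟨_, k, rfl⟩ := s
  exact ⟨k + 1, Function.iterate_succ_apply' _ _ _⟩⟩

def sgP : B.P := ⟨B.c, 0, rfl⟩

theorem nxP_iter (j : ℕ) : (nxP^[j] (sgP : B.P)).1 = (qf B.c)^[j] B.c := by
  induction j with
  | zero => rfl
  | succ j ih => rw [Function.iterate_succ_apply', Function.iterate_succ_apply', ← ih]; rfl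

theorem Mis.sides (M : B.Mis) {θ : ℝ} {L : Leg} (r : B.IsRay L θ B.c) {h : ℂ → ℂ} (b : L.IsBr h) :
    ∃ e, ∀ j : ℕ, (qf B.c)^[j] B.c = sg (xor (decide (Int.fract (2 ^ j * θ - θ / 2) < 1 / 2)) e) *
      h (qf B.c ((qf B.c)^[j] B.c)) := by
  let T : Set (ℝ × ℝ) := Ioi 0 ×ˢ Ioo (θ / 2) (θ / 2 + 1 / 2)
  have hT : IsPreconnected T := isPreconnected_Ioi.prod isPreconnected_Ioo
  have hn : ∀ p ∈ T, qf B.c (B.Ψ p.1 p.2) ∉ L.set := fun p hp => by
    have h1 : 0 < p.1 := hp.1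
    rw [← B.dbl _ _ h1]
    exact r.not_mem_Ioo (by linarith) ⟨by linarith [hp.2.1], by linarith [hp.2.2]⟩
  have hsq : ∀ p ∈ T, B.Ψ p.1 p.2 ^ 2 = h (qf B.c (B.Ψ p.1 p.2)) ^ 2 := fun p hp => by
    rw [b.sq _ (hn p hp), r.tip, qf]; ring
  have hc : ContinuousOn (fun p : ℝ × ℝ => B.Ψ p.1 p.2) T := B.cont.mono fun p hp => hp.1
  have hm : ((1 : ℝ), θ / 2 + 1 / 4) ∈ T :=
    ⟨mem_Ioi.2 one_pos, by simp only; linarith, by simp only; linarith⟩
  obtain ⟨e, he⟩ := exists_sg (hsq _ hm)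
  have h1 := sq_unique hT hc (v := fun p => sg e * h (qf B.c (B.Ψ p.1 p.2)))
    (continuousOn_const.mul (b.cont.comp ((continuous_qf _).comp_continuousOn hc) hn))
    (fun p hp => by rw [mul_pow, sg_sq, one_mul, hsq p hp])
    (fun p hp => mul_ne_zero (sg_ne e) (b.ne (hn p hp))) hm he
  have h2 : ∀ y z, B.Lands y z → qf B.c z ∉ L.set → y ∈ Ioo (θ / 2) (θ / 2 + 1 / 2) →
      z = sg e * h (qf B.c z) := by
    intro y z hl hz hy
    have t1 := ((b.cont.continuousAt (L.closed.isOpen_compl.mem_nhds hz)).tendsto.comp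
      (((continuous_qf B.c).tendsto z).comp hl)).const_mul (sg e)
    refine tendsto_nhds_unique hl (t1.congr' ?_)
    filter_upwards [self_mem_nhdsWithin] with t ht
    exact (h1 (t, y) ⟨ht, hy⟩).symm
  refine ⟨!e, fun j => ?_⟩
  have hz : qf B.c ((qf B.c)^[j] B.c) ∉ L.set := by
    rw [← Function.iterate_succ_apply' (qf B.c)]
    exact r.not_mem (M.notU _) (M.ne_c j)
  have hl := (r.lands.iter j).int (-⌊2 ^ j * θ - θ / 2⌋)
  have ey : 2 ^ j * θ + ((-⌊2 ^ j * θ - θ / 2⌋ : ℤ) : ℝ) = θ / 2 + Int.fract (2 ^ j * θ - θ / 2) := by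
    rw [Int.fract]; push_cast; ring
  rw [ey] at hl
  have f0 := Int.fract_nonneg (2 ^ j * θ - θ / 2)
  have f1 := Int.fract_lt_one (2 ^ j * θ - θ / 2)
  have z1 := r.lands.zero
  have z2 := z1.half
  rw [neg_zero] at z2
  set x := Int.fract (2 ^ j * θ - θ / 2)
  have x0 : x ≠ 0 := fun e => M.ne0 j (hl.unique (by rw [e, add_zero]; exact z1))
  have x1 : x ≠ 1 / 2 := fun e => M.ne0 j (hl.unique (by rw [e]; exact z2))
  by_cases hx : x < 1 / 2
  · have := h2 _ _ hl hz ⟨by linarith [lt_of_le_of_ne f0 x0.symm], by linarith⟩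
    simpa [hx, -one_div] using this
  · have hx' : 1 / 2 < x := lt_of_le_of_ne (not_lt.1 hx) x1.symm
    have hl' := (hl.half).int (-1)
    have e2 : qf B.c (-(qf B.c)^[j] B.c) = qf B.c ((qf B.c)^[j] B.c) := by simp [qf]
    have := h2 _ _ hl' (e2 ▸ hz) ⟨by push_cast; linarith, by push_cast; linarith⟩
    rw [e2] at this
    simp only [hx, decide_false, Bool.false_xor]
    revert this
    cases e <;> simp only [sg] <;> intro this <;> simp at this ⊢ <;>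
      first | exact this | linear_combination -this

theorem Mis.exists_spider (M : B.Mis) {θ : ℝ} (hθ : B.Lands θ B.c) :
    ∃ A : Spider B.P, A.c = B.c ∧ A.pt = Subtype.val ∧ A.sg = sgP ∧ A.nx = nxP ∧
      (∃ ang : B.P → ℝ, ∀ s, B.IsRay (A.L 0 s) (ang s) s) ∧
      ∃ e, ∀ j : ℕ, A.cl (nxP^[j] sgP) = xor (decide (Int.fract (2 ^ j * θ - θ / 2) < 1 / 2)) e := by
  classical
  have h0 : ∀ s : B.P, ∃ y, B.Lands y s := by
    rintro ⟨_, k, rfl⟩
    exact ⟨_, hθ.iter k⟩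
  choose a0 ha0 using h0
  have h1 : ∀ (s : B.P) (y : ℝ), B.Lands y (nxP s) → ∃ y', B.Lands y' s ∧ ∃ m : ℤ, 2 * y' = y + m :=
    fun s y h => Lands.pre (M.ne0' s) h
  choose! nxt hnxt using h1
  let ang : ℕ → B.P → ℝ := fun n => Nat.rec a0 (fun _ f s => nxt s (f (nxP s))) n
  have hang : ∀ n s, B.Lands (ang n s) s := by
    intro n
    induction n with
    | zero => exact ha0
    | succ n ih => exact fun s => (hnxt s _ (ih _)).1
  have hpos : ∀ n : ℕ, (0 : ℝ) < 1 / 2 ^ n := fun n => by positivity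
  let L : ℕ → B.P → Leg := fun n s => mkLeg (hpos n) (hang n s)
  have hL : ∀ n s, B.IsRay (L n s) (ang n s) s := fun n s => isRay_mkLeg _ _ (M.notU' s)
  choose h' hh' using fun n s => (L n s).exists_isBr
  have rθ := isRay_mkLeg one_pos hθ (M.notU 0)
  obtain ⟨g, hg⟩ := (mkLeg one_pos hθ).exists_isBr
  choose e he using fun n => M.const rθ (hL n sgP) hg (hh' n sgP)
  obtain ⟨e0, he0⟩ := M.sides rθ hg
  have hgn : ∀ s : B.P, qf B.c s ∉ (mkLeg one_pos hθ).set := by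
    rintro ⟨_, k, rfl⟩
    simp only
    rw [← Function.iterate_succ_apply' (qf B.c)]
    exact rθ.not_mem (M.notU _) (M.ne_c k)
  refine ⟨⟨⟨sgP, nxP, fun s => decide (s.1 = g (qf B.c s)), fun s e => M.ne0' s ?_,
    fun s t e1 e2 => ?_⟩, B.c, Subtype.val, rfl, L, fun n s z => sg (e n) * h' n s z,
    fun n s => (hh' n s).smul _, fun n s => (hL n s).tip, fun n s u hu => ?_,
    fun n s t hne => (hL n s).disj (hL n t) fun e => hne (Subtype.ext e), fun n s => ?_⟩,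
    rfl, rfl, rfl, rfl, ⟨ang 0, hL 0⟩, !e0, fun j => ?_⟩
  · simpa [nxP, sgP, qf] using congrArg Subtype.val e
  · have e1' : qf B.c s = qf B.c t := congrArg Subtype.val e1
    apply Subtype.ext
    rcases sq_eq_sq_iff_eq_or_eq_neg.1 (add_right_cancel e1') with h | h
    · exact h
    · exfalso
      have h2 : t.1 ^ 2 = g (qf B.c t) ^ 2 := by rw [hg.sq _ (hgn t), rθ.tip, qf]; ring
      have h3 := M.ne0' t
      rw [e1', h, decide_eq_decide] at e2
      rcases sq_eq_sq_iff_eq_or_eq_neg.1 h2 with h4 | h4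
      · exact h3 (by linear_combination (h4 - e2.2 h4) / 2)
      · have h5 : -t.1 = g (qf B.c t) := by linear_combination -h4
        exact h3 (by linear_combination (e2.1 h5 - h5) / 2)
  · by_cases h1 : u < 1
    · simp only [L, mkLeg, if_pos h1]
      obtain ⟨_, m, hm⟩ := hnxt s _ (hang n (nxP s))
      have := B.dbl _ (ang (n + 1) s) (mul_pos (hpos (n + 1)) (div_pos (sub_pos.2 h1) hu.1))
      rw [qf] at this
      rw [← this, show 2 * ang (n + 1) s = ang n (nxP s) + m from hm, B.per]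
      congr 1; ring
    · simp only [L, mkLeg, if_neg h1]; rfl
  · obtain ⟨_, k, rfl⟩ := s
    have := he n k
    rw [Function.iterate_succ_apply'] at this
    simp only [decide_eq_true_eq, this]
    rfl
  · have h1 := he0 j
    have h2 := hg.ne (hgn (nxP^[j] sgP))
    simp only [nxP_iter] at h2 ⊢
    revert h1
    generalize decide (Int.fract (2 ^ j * θ - θ / 2) < 1 / 2) = b
    generalize g (qf B.c ((qf B.c)^[j] B.c)) = w at h2
    intro h1
    rw [h1]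
    have h3 : ¬ (-w = w) := fun e => h2 (by linear_combination -e / 2)
    cases b <;> cases e0 <;> simp [sg, h3]

section Cosets

variable {S : Type} [Finite S] {A : Spider S} {ang : S → ℝ}
  (hr : ∀ s, B.IsRay (A.L 0 s) (ang s) (A.pt s))

theorem countable_ang : {y : ℝ | ∃ s, ∃ m : ℤ, y = ang s + m}.Countable :=
  (countable_range fun p : S × ℤ => ang p.1 + p.2).mono (by
    rintro _ ⟨s, m, e⟩; exact ⟨(s, m), e.symm⟩)

theorem isolated_ang (y0 : ℝ) : ∃ δ > 0, ∀ y ∈ ball y0 δ, (∃ s, ∃ m : ℤ, y = ang s + m) → y = y0 := by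
  have : ∀ᶠ y in 𝓝 y0, ∀ s, (∃ m : ℤ, y = ang s + m) → y = y0 := by
    rw [eventually_all]
    intro s
    obtain ⟨m0, m1, m2⟩ := exists_shift (ang s) y0
    rcases eq_or_lt_of_le m1 with h | h
    · filter_upwards [Ioo_mem_nhds (show y0 - 1 < y0 by linarith) (show y0 < y0 + 1 by linarith)]
      rintro y hy ⟨m, rfl⟩
      have a1 : (-1 : ℤ) < m + m0 := by
        have := hy.1; exact_mod_cast (by linarith : (-1 : ℝ) < m + m0)
      have a2 : m + m0 < (1 : ℤ) := by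
        have := hy.2; exact_mod_cast (by linarith : (m + m0 : ℝ) < 1)
      have : (m + m0 : ℝ) = 0 := by exact_mod_cast (by omega : m + m0 = 0)
      linarith
    · filter_upwards [Ioo_mem_nhds (show ang s - m0 < y0 by linarith)
        (show y0 < ang s - m0 + 1 by linarith)]
      rintro y hy ⟨m, rfl⟩
      have a1 : (0 : ℤ) < m + m0 := by
        have := hy.1; exact_mod_cast (by linarith : (0 : ℝ) < m + m0)
      have a2 : m + m0 < (1 : ℤ) := by
        have := hy.2; exact_mod_cast (by linarith : (m + m0 : ℝ) < 1)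
      omega
  obtain ⟨δ, hδ, h⟩ := Metric.eventually_nhds_iff_ball.1 this
  exact ⟨δ, hδ, fun y hy ⟨s, hs⟩ => h y hy s hs⟩

theorem near_ray {t : ℝ} (ht : 0 < t) (y : ℝ) {V : Set ℂ} (hV : V ∈ 𝓝 (B.Ψ t y)) :
    ∀ᶠ y' in 𝓝 y, B.Ψ t y' ∈ V :=
  (continuousOn_univ.1 (B.contOn continuousOn_const continuousOn_id fun _ _ => ht)).continuousAt hV

include hr

omit [Finite S] in
theorem mem_om {t y : ℝ} (ht : 0 < t) (hy : ¬ ∃ s, ∃ m : ℤ, y = ang s + m) : B.Ψ t y ∈ A.Om 0 :=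
  fun s h => hy ⟨s, ((hr s).mem_iff ht).1 h⟩

theorem dense_om : Dense (A.Om 0) := by
  rw [dense_iff_inter_open]
  rintro V hV ⟨z, hz⟩
  by_cases h : z ∈ A.Om 0
  · exact ⟨z, hz, h⟩
  obtain ⟨s, hs⟩ : ∃ s, z ∈ (A.L 0 s).set := by simpa [Spider.Om] using h
  obtain ⟨t, y, ht, hm⟩ : ∃ t y, 0 < t ∧ B.Ψ t y ∈ V := by
    rcases ((hr s).mem z).1 hs with rfl | ⟨t, ht, rfl⟩
    · obtain ⟨t, h1, h2⟩ := (((hr s).lands.eventually (hV.mem_nhds hz)).and
        self_mem_nhdsWithin).exists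
      exact ⟨t, _, h2, h1⟩
    · exact ⟨t, _, ht, hz⟩
  obtain ⟨y', h1, h2⟩ := ((countable_ang (ang := ang)).dense_compl ℝ).inter_nhds_nonempty
    (near_ray ht y (hV.mem_nhds hm))
  exact ⟨_, h2, mem_om hr ht h1⟩

omit [Finite S] in
theorem mon_line {t t' y y' : ℝ} (ht : 0 < t) (ht' : 0 < t')
    (h : ∀ τ ∈ Icc (0 : ℝ) 1, ¬ ∃ s, ∃ m : ℤ, y + τ * (y' - y) = ang s + m) :
    A.Mon (B.Ψ t y) (B.Ψ t' y') 1 := by
  have hp : ∀ τ ∈ Icc (0 : ℝ) 1, 0 < t + τ * (t' - t) := fun τ hτ => by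
    have := hτ.1; have := hτ.2
    rcases le_total t t' with h | h <;> nlinarith
  refine Spider.mon_one (JoinedIn.ofLine (f := fun τ => B.Ψ (t + τ * (t' - t)) (y + τ * (y' - y)))
    (B.contOn (by fun_prop) (by fun_prop) hp) (by simp) (by simp) ?_)
  rintro _ ⟨τ, hτ, rfl⟩
  exact mem_om hr (hp τ hτ) (h τ hτ)

omit [Finite S] in
theorem mon_near {s : S} {δ : ℝ}
    (hδ : ∀ y ∈ ball (ang s) δ, (∃ s, ∃ m : ℤ, y = ang s + m) → y = ang s) {y : ℝ}
    (hy : y ∈ ball (ang s) δ) (hne : y ≠ ang s) {ε : ℝ} (hε : 0 < ε) :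
    ∃ a ∈ ball (A.pt s) ε, a ∈ A.Om 0 ∧ A.Mon (B.Ψ 1 y) a 1 := by
  obtain ⟨t, h1, ht⟩ := (((hr s).lands.eventually (ball_mem_nhds _ hε)).and
    self_mem_nhdsWithin).exists
  have h2 : Tendsto (fun η : ℝ => ang s + η * (y - ang s)) (𝓝[>] 0) (𝓝 (ang s)) := by
    have : Continuous fun η : ℝ => ang s + η * (y - ang s) := by fun_prop
    simpa using (this.tendsto 0).mono_left nhdsWithin_le_nhds
  obtain ⟨η, h3, h4⟩ := ((h2.eventually (near_ray ht _ (isOpen_ball.mem_nhds h1))).and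
    (Ioo_mem_nhdsGT one_pos)).exists
  have key : ∀ κ ∈ Ioc (0 : ℝ) 1, ¬ ∃ s', ∃ m : ℤ, ang s + κ * (y - ang s) = ang s' + m := by
    intro κ hκ h
    have := hδ _ (by
      rw [mem_ball, Real.dist_eq] at hy ⊢
      rw [add_sub_cancel_left, abs_mul, abs_of_pos hκ.1]
      nlinarith [abs_nonneg (y - ang s), hκ.2]) h
    have h5 : κ * (y - ang s) = 0 := by linarith
    rcases mul_eq_zero.1 h5 with h6 | h6
    · exact hκ.1.ne' h6
    · exact hne (by linarith)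
  refine ⟨_, h3, mem_om hr ht (key η ⟨h4.1, h4.2.le⟩), mon_line hr one_pos ht fun τ hτ => ?_⟩
  have := key (1 - τ + τ * η) ⟨by nlinarith [hτ.1, hτ.2, h4.1, h4.2], by nlinarith [hτ.1, h4.2]⟩
  rwa [show ang s + (1 - τ + τ * η) * (y - ang s) = y + τ * (ang s + η * (y - ang s) - y) by ring]
    at this

theorem mon_loop {s : S} {δ : ℝ}
    (hδ : ∀ y ∈ ball (ang s) δ, (∃ s, ∃ m : ℤ, y = ang s + m) → y = ang s) {y : ℝ}
    (hy : y ∈ ball (ang s) δ) (hne : y ≠ ang s) : A.Mon (B.Ψ 1 y) (B.Ψ 1 y) (A.gen s) := by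
  obtain ⟨r, hr0, h⟩ := Metric.isOpen_iff.1 (A.isOpen_others 0 s) (A.pt s)
    fun t ht => disjoint_left.1 (A.disj 0 s t ht.symm) (A.pt_mem 0 s)
  obtain ⟨a, a1, a2, a3⟩ := mon_near hr hδ hy hne hr0
  have := (a3.trans (Spider.mon_of_hyp (Spider.hyp_circ (fun t ht z hz => h hz t ht) a1
    (a2 s)))).trans a3.symm
  simpa [KB.genE] using this

theorem mon_local (y0 : ℝ) : ∃ δ > 0, ∀ y ∈ ball y0 δ, ∀ y' ∈ ball y0 δ,
    (¬ ∃ s, ∃ m : ℤ, y = ang s + m) → (¬ ∃ s, ∃ m : ℤ, y' = ang s + m) →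
      A.Mon (B.Ψ 1 y) (B.Ψ 1 y') 1 := by
  obtain ⟨δ, hδ, h⟩ := isolated_ang (ang := ang) y0
  refine ⟨δ, hδ, fun y hy y' hy' n1 n2 => ?_⟩
  have hb : ∀ τ ∈ Icc (0 : ℝ) 1, y + τ * (y' - y) ∈ ball y0 δ := fun τ hτ => by
    simpa using (convex_ball y0 δ).add_smul_sub_mem hy hy' hτ
  by_cases h0 : ∃ s, ∃ m : ℤ, y0 = ang s + m
  swap
  · exact mon_line hr one_pos one_pos fun τ hτ h' => h0 (h _ (hb τ hτ) h' ▸ h')
  obtain ⟨s, m, rfl⟩ := h0
  let γ : Path (B.Ψ 1 y) (B.Ψ 1 y') := ⟨⟨fun τ => B.Ψ 1 (y + τ * (y' - y)),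
    continuousOn_univ.1 (B.contOn continuousOn_const (by fun_prop) fun _ _ => one_pos)⟩,
    by simp, by simp⟩
  obtain ⟨e, he⟩ := Spider.mon_cross (A := A) (γ := γ) (s := s) (fun τ t ht hm => by
      have h1 := h _ (hb τ τ.2) ⟨t, ((hr t).mem_iff one_pos).1 hm⟩
      exact disjoint_left.1 (A.disj 0 t s ht) hm (((hr s).mem_iff one_pos).2 ⟨m, h1⟩))
    (fun τ e => (hr s).notU ⟨1, _, one_pos, e⟩) (mem_om hr one_pos n1 s) (mem_om hr one_pos n2 s)
  cases e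
  · exact he
  · have h2 := mon_loop hr (s := s) (δ := δ) (y := y - m) (fun y hy ⟨s', m', e⟩ => by
        have := h (y + m) (by simpa [mem_ball, Real.dist_eq] using hy)
          ⟨s', m' + m, by rw [e]; push_cast; ring⟩
        linarith)
      (by rw [mem_ball, Real.dist_eq] at hy ⊢; rwa [show y - m - ang s = y - (ang s + m) by ring])
      (fun e => n1 ⟨s, m, by linarith⟩)
    have e1 : B.Ψ 1 (y - m) = B.Ψ 1 y := by rw [← B.per 1 (y - m) m, sub_add_cancel]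
    rw [e1] at h2
    simpa [KB.genE, KB.gen_mul_self] using h2.trans he

theorem mon_global {y y' : ℝ} (n1 : ¬ ∃ s, ∃ m : ℤ, y = ang s + m)
    (n2 : ¬ ∃ s, ∃ m : ℤ, y' = ang s + m) : A.Mon (B.Ψ 1 y) (B.Ψ 1 y') 1 := by
  let Q : ℝ → Prop := fun y0 => ∀ᶠ y' in 𝓝 y0, (¬ ∃ s, ∃ m : ℤ, y' = ang s + m) →
    A.Mon (B.Ψ 1 y) (B.Ψ 1 y') 1
  have tr : ∀ y0 δ, (∀ y ∈ ball y0 δ, ∀ y' ∈ ball y0 δ, (¬ ∃ s, ∃ m : ℤ, y = ang s + m) →
      (¬ ∃ s, ∃ m : ℤ, y' = ang s + m) → A.Mon (B.Ψ 1 y) (B.Ψ 1 y') 1) →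
      ∀ y1 ∈ ball y0 δ, ∀ y2 ∈ ball y0 δ, Q y1 → Q y2 := by
    intro y0 δ h y1 h1 y2 h2 hQ
    obtain ⟨y3, a1, a2, a3⟩ := ((countable_ang (ang := ang)).dense_compl ℝ).inter_nhds_nonempty
      (inter_mem hQ (isOpen_ball.mem_nhds h1))
    filter_upwards [isOpen_ball.mem_nhds h2] with y4 h4 n4
    simpa using (a2 a1).trans (h y3 a3 y4 h4 a1 n4)
  have Q0 : Q y := by
    obtain ⟨δ, hδ, h⟩ := mon_local hr y
    filter_upwards [ball_mem_nhds y hδ] with y4 h4 n4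
    exact h y (mem_ball_self hδ) y4 h4 n1 n4
  have Q1 : Q y' := by
    refine PreconnectedSpace.induction₂' (fun a b => Q a → Q b) (fun y0 => ?_)
      ⟨fun _ _ _ h h' => h' ∘ h⟩ y y' Q0
    obtain ⟨δ, hδ, h⟩ := mon_local hr y0
    filter_upwards [ball_mem_nhds y0 hδ] with y4 h4
    exact ⟨tr y0 δ h y0 (mem_ball_self hδ) y4 h4, tr y0 δ h y4 h4 y0 (mem_ball_self hδ)⟩
  exact Q1.self_of_nhds n2

theorem full : ∃ t0 ∈ A.Om 0, (∀ g ∈ A.G, A.Mon t0 t0 g) ∧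
    ∀ s, ∀ ε > 0, ∃ a ∈ ball (A.pt s) ε, a ∈ A.Om 0 ∧ A.Mon t0 a 1 := by
  obtain ⟨y, hy⟩ := ((countable_ang (ang := ang)).dense_compl ℝ).nonempty
  have near : ∀ s, ∃ δ y', (∀ y ∈ ball (ang s) δ, (∃ s, ∃ m : ℤ, y = ang s + m) → y = ang s) ∧
      y' ∈ ball (ang s) δ ∧ y' ≠ ang s ∧ A.Mon (B.Ψ 1 y) (B.Ψ 1 y') 1 := by
    intro s
    obtain ⟨δ, hδ, h⟩ := isolated_ang (ang := ang) (ang s)
    have h1 : ang s + δ / 2 ∈ ball (ang s) δ := by
      rw [mem_ball, Real.dist_eq, add_sub_cancel_left, abs_of_pos (by linarith)]; linarith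
    have h2 : ang s + δ / 2 ≠ ang s := by linarith
    exact ⟨δ, _, h, h1, h2, mon_global hr hy fun h' => h2 (h _ h1 h')⟩
  refine ⟨B.Ψ 1 y, mem_om hr one_pos hy, fun g hg => ?_, fun s ε hε => ?_⟩
  · induction hg using Subgroup.closure_induction with
    | mem g hg =>
      obtain ⟨s, rfl⟩ := hg
      obtain ⟨δ, y', h1, h2, h3, h4⟩ := near s
      simpa using (h4.trans (mon_loop hr h1 h2 h3)).trans h4.symm
    | one => exact Spider.mon_one (JoinedIn.refl (mem_om hr one_pos hy))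
    | mul g g' _ _ h h' => exact h'.trans h
    | inv g _ h => exact h.symm
  · obtain ⟨δ, y', h1, h2, h3, h4⟩ := near s
    obtain ⟨a, a1, a2, a3⟩ := mon_near hr h1 h2 h3 hε
    exact ⟨a, a1, a2, by simpa using h4.trans a3⟩

end Cosets

end BD

end Pool.Agent.MP_61ef33_al
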