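import Pool.Agent.MP_61ef33_al.L5

/- The shrinking lemma for inverse branches. -/

namespace Pool.Agent.MP_61ef33_al

open Filter Topology Set Metric unitInterval

theorem three_circles {r R M ε : ℝ} (hr : 0 < r) (hR : 0 < R) (hε : 0 < ε) :
    ∃ η > 0, ∀ (x : ℂ) (G : ℂ → ℂ), DifferentiableOn ℂ G (ball x R) →
      (∀ z ∈ ball x R, ‖G z - G x‖ ≤ M) → (∀ z ∈ ball x r, z ∈ ball x R → ‖G z - G x‖ ≤ η) →
      ∀ z ∈ ball x (R / 2), ‖G z - G x‖ ≤ ε := by
  set ρ := min r R / 4 with hρ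
  have ρ0 : 0 < ρ := by have := lt_min hr hR; positivity
  have ρ1 : ρ < r := by have := min_le_left r R; linarith
  have ρ2 : ρ ≤ R / 4 := by have := min_le_right r R; linarith
  set l := Real.log ρ
  set u := Real.log (3 * R / 4)
  set v := Real.log (R / 2)
  have hlv : l < v := Real.log_lt_log ρ0 (by linarith)
  have hvu : v < u := Real.log_lt_log (by linarith) (by linarith)
  have hlu : l < u := hlv.trans hvu
  set κ := 1 - (v - l) / (u - l) with hκ
  have κ0 : 0 < κ := by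
    rw [hκ, sub_pos, div_lt_one (by linarith)]; linarith
  set M' := max M 1
  have M1 : 1 ≤ M' := le_max_right _ _
  refine ⟨min (min 1 ε) ((ε / M') ^ (1 / κ)), by positivity, fun x G hG hM hη z hz => ?_⟩
  set η := min (min 1 ε) ((ε / M') ^ (1 / κ))
  have η0 : 0 < η := by positivity
  have η1 : η ≤ 1 := (min_le_left _ _).trans (min_le_left _ _)
  have η2 : η ≤ ε := (min_le_left _ _).trans (min_le_right _ _)
  have η3 : η ^ κ * M' ≤ ε := by
    have h1 : η ^ κ ≤ ((ε / M') ^ (1 / κ)) ^ κ := Real.rpow_le_rpow η0.le (min_le_right _ _) κ0.le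
    rw [← Real.rpow_mul (by positivity), one_div_mul_cancel κ0.ne', Real.rpow_one,
      le_div_iff₀ (by linarith)] at h1
    exact h1
  rw [mem_ball, dist_eq_norm] at hz
  by_cases h : ‖z - x‖ ≤ ρ
  · exact (hη z (by rw [mem_ball, dist_eq_norm]; linarith)
      (by rw [mem_ball, dist_eq_norm]; linarith)).trans η2
  push Not at h
  have hne : z - x ≠ 0 := norm_pos_iff.1 (ρ0.trans h)
  have hm : ∀ w : ℂ, w.re ≤ u → x + Complex.exp w ∈ ball x R := fun w hw => by
    rw [mem_ball, dist_eq_norm, add_sub_cancel_left, Complex.norm_exp]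
    calc Real.exp w.re ≤ Real.exp u := Real.exp_le_exp.2 hw
      _ = 3 * R / 4 := Real.exp_log (by linarith)
      _ < R := by linarith
  have hre : (Complex.log (z - x)).re = Real.log ‖z - x‖ := Complex.log_re _
  have h1 : l ≤ (Complex.log (z - x)).re := hre ▸ (Real.log_lt_log ρ0 h).le
  have h2 : (Complex.log (z - x)).re ≤ v := hre ▸ (Real.log_lt_log (ρ0.trans h) hz).le
  have hd : DifferentiableOn ℂ (fun w => G (x + Complex.exp w) - G x)
      (Complex.re ⁻¹' Icc l u) :=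
    (hG.comp (by fun_prop) fun w hw => hm w hw.2).sub_const _
  have key := Complex.HadamardThreeLines.norm_le_interp_of_mem_verticalClosedStrip'
    (f := fun w => G (x + Complex.exp w) - G x) (z := Complex.log (z - x)) (a := η) (b := M') hlu
    ⟨h1, h2.trans hvu.le⟩ (DifferentiableOn.diffContOnCl (by
      rw [Complex.HadamardThreeLines.verticalStrip, Complex.closure_preimage_re,
        closure_Ioo hlu.ne]
      exact hd))
    ⟨M, by rintro _ ⟨w, hw, rfl⟩; exact hM _ (hm w hw.2)⟩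
    (fun w hw => hη _ (by
      rw [mem_ball, dist_eq_norm, add_sub_cancel_left, Complex.norm_exp,
        show w.re = l from hw, Real.exp_log ρ0]; exact ρ1) (hm w (le_of_eq_of_le hw hlu.le)))
    (fun w hw => (hM _ (hm w (le_of_eq hw))).trans (le_max_left _ _))
  rw [Complex.exp_log hne, add_sub_cancel] at key
  refine key.trans (le_trans ?_ η3)
  set lam := ((Complex.log (z - x)).re - l) / (u - l)
  have l0 : 0 ≤ lam := div_nonneg (by linarith) (by linarith)
  have l1 : lam ≤ (v - l) / (u - l) := div_le_div_of_nonneg_right (by linarith) (by linarith)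
  gcongr ?_ * ?_
  · exact Real.rpow_le_rpow_of_exponent_ge η0 η1 (by linarith)
  · calc M' ^ lam ≤ M' ^ (1 : ℝ) := Real.rpow_le_rpow_of_exponent_le M1 (by linarith)
      _ = M' := Real.rpow_one _

theorem landau {R M δ : ℝ} (hR : 0 < R) (hδ : 0 < δ) : ∃ ρ > 0, ∀ (g : ℂ → ℂ) (z0 : ℂ),
    DifferentiableOn ℂ g (ball z0 R) → (∀ z ∈ ball z0 R, ‖g z‖ ≤ M) → δ ≤ ‖deriv g z0‖ →
    ball (g z0) ρ ⊆ g '' ball z0 R := by
  set M' := max M 0
  have M0 : 0 ≤ M' := le_max_right _ _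
  set r := min (R / 2) (δ * R ^ 2 / (8 * M' + 1))
  have r0 : 0 < r := by positivity
  have r1 : r ≤ R / 2 := min_le_left _ _
  have r2 : r * (8 * M' + 1) ≤ δ * R ^ 2 := (le_div_iff₀ (by positivity)).1 (min_le_right _ _)
  refine ⟨δ * r / 2 / 2, by positivity, fun g z0 hg hM hd => ?_⟩
  have h1 : ∀ z ∈ ball z0 R, ‖g z - g z0‖ ≤ 2 * M' := fun z hz => by
    have := hM z hz
    have := hM z0 (mem_ball_self hR)
    have := le_max_left M 0
    linarith [norm_sub_le (g z) (g z0)]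
  have h2 : ‖deriv g z0‖ ≤ 2 * M' / R :=
    Complex.norm_deriv_le_div_of_mapsTo_ball hg (fun z hz => by
      rw [mem_closedBall, dist_eq_norm]; exact h1 z hz) hR
  have hda : HasDerivAt g (deriv g z0) z0 := (hg.differentiableAt (ball_mem_nhds _ hR)).hasDerivAt
  have h3 : ∀ z ∈ ball z0 R, ‖g z - g z0 - (z - z0) * deriv g z0‖ ≤ 4 * M' * (dist z z0 / R) ^ 2 := by
    intro z hz
    have := Complex.dist_le_mul_div_pow_of_mapsTo_ball_of_isLittleO (n := 1)
      (f := fun z => g z - (z - z0) * deriv g z0) (c := z0) (R₁ := R) (R₂ := 4 * M')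
      (hg.sub (by fun_prop)) (fun w hw => by
        rw [mem_closedBall, dist_eq_norm]
        have a1 := h1 w hw
        have a2 : ‖(w - z0) * deriv g z0‖ ≤ 2 * M' := by
          rw [norm_mul]
          rw [mem_ball, dist_eq_norm] at hw
          calc _ ≤ R * (2 * M' / R) := by gcongr
            _ = _ := by field_simp
        calc _ = ‖(g w - g z0) - (w - z0) * deriv g z0‖ := by congr 1; ring
          _ ≤ _ := (norm_sub_le _ _).trans (by linarith))
      (by
        have := (hasDerivAt_iff_isLittleO.1 hda).norm_right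
        simp only [pow_one]
        refine this.congr_left fun w => ?_
        simp only [smul_eq_mul]; ring) hz
    rw [dist_eq_norm] at this
    calc _ = ‖g z - (z - z0) * deriv g z0 - (g z0 - (z0 - z0) * deriv g z0)‖ := by congr 1; ring
      _ ≤ _ := this
  have hsub : closedBall z0 r ⊆ ball z0 R := closedBall_subset_ball (by linarith)
  refine (DiffContOnCl.ball_subset_image_closedBall (ε := δ * r / 2)
    (hg.diffContOnCl_ball hsub) r0 (fun z hz => ?_) ?_).trans (image_mono hsub)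
  · have a1 := h3 z (hsub (sphere_subset_closedBall hz))
    rw [mem_sphere] at hz
    rw [hz] at a1
    have a2 : δ * r ≤ ‖(z - z0) * deriv g z0‖ := by
      rw [norm_mul, ← dist_eq_norm, hz, mul_comm]; gcongr
    have a3 : 4 * M' * (r / R) ^ 2 ≤ δ * r / 2 := by
      rw [div_pow, ← mul_div_assoc, div_le_iff₀ (by positivity)]
      nlinarith
    have a4 := norm_sub_norm_le ((z - z0) * deriv g z0) ((z - z0) * deriv g z0 - (g z - g z0))
    rw [sub_sub_cancel, norm_sub_rev ((z - z0) * deriv g z0)] at a4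
    linarith
  · exact ((hda.eventually_ne (norm_pos_iff.1 (hδ.trans_le hd))).frequently).filter_mono
      nhdsWithin_le_nhds

theorem norm_le_iter (c : ℂ) (n : ℕ) (y : ℂ) : ‖y‖ ≤ max ‖(qf c)^[n] y‖ (2 + ‖c‖) := by
  induction n with
  | zero => exact le_max_left _ _
  | succ n ih =>
    refine ih.trans (max_le ?_ (le_max_right _ _))
    rw [Function.iterate_succ_apply']
    set z := (qf c)^[n] y
    by_cases h : ‖z‖ ≤ 2 + ‖c‖
    · exact h.trans (le_max_right _ _)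
    · refine le_trans ?_ (le_max_left _ _)
      have h1 := norm_sub_norm_le (z ^ 2) (-c)
      rw [norm_pow, norm_neg, sub_neg_eq_add] at h1
      have := norm_nonneg c
      rw [qf]
      nlinarith

namespace Spider

variable {S : Type} (A : Spider S)

theorem hasDeriv_iter {n : ℕ} {y : ℂ} (h : (qf A.c)^[n] y ∉ range A.pt) :
    ∃ d ≠ 0, HasDerivAt (qf A.c)^[n] d y := by
  induction n with
  | zero => exact ⟨1, one_ne_zero, hasDerivAt_id y⟩
  | succ n ih =>
    rw [Function.iterate_succ_apply'] at h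
    obtain ⟨d, h1, h2⟩ := ih (A.pull_P h)
    refine ⟨2 * (qf A.c)^[n] y * d, mul_ne_zero (mul_ne_zero two_ne_zero (A.ne_zero_of h)) h1, ?_⟩
    rw [Function.iterate_succ']
    have : HasDerivAt (qf A.c) (2 * (qf A.c)^[n] y) ((qf A.c)^[n] y) := by
      have h0 : HasDerivAt (fun x : ℂ => x ^ 2) (2 * (qf A.c)^[n] y) ((qf A.c)^[n] y) := by
        simpa using hasDerivAt_pow 2 ((qf A.c)^[n] y)
      exact h0.add_const A.c
    exact this.comp y h2

theorem exists_cbranch {x : ℂ} {R : ℝ} (hP : ∀ z ∈ ball x R, z ∉ range A.pt) (n : ℕ) {y : ℂ}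
    (hy : (qf A.c)^[n] y ∈ ball x R) : ∃ g : ℂ → ℂ, ContinuousOn g (ball x R) ∧
      (∀ z ∈ ball x R, (qf A.c)^[n] (g z) = z) ∧ g ((qf A.c)^[n] y) = y := by
  induction n generalizing y with
  | zero => exact ⟨id, continuousOn_id, fun _ _ => rfl, rfl⟩
  | succ n ih =>
    obtain ⟨g, h1, h2, h3⟩ := ih (y := qf A.c y) hy
    have := (convex_ball x R).contractibleSpace ⟨_, hy⟩
    obtain ⟨q, q1, q2⟩ := Complex.exists_continuousOn_pow_eq (U := ball x R)
      (g := fun z => g z - A.c) (n := 2) (inferInstance : SimplyConnectedSpace (ball x R))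
      isOpen_ball (h1.sub continuousOn_const) (by
        rintro ⟨z, hz, e⟩
        refine A.pull_P_iter (n := n) (z := g z) (by rw [h2 z hz]; exact hP z hz) ⟨A.sg, ?_⟩
        rw [A.pt_sg, sub_eq_zero.1 e]) (by norm_num)
    obtain ⟨e, he⟩ := exists_sg (a := y) (b := q ((qf A.c)^[n + 1] y)) (by
      rw [q2, Function.iterate_succ_apply, h3, qf]; ring)
    refine ⟨fun z => sg e * q z, continuousOn_const.mul q1, fun z hz => ?_, he.symm⟩
    rw [Function.iterate_succ_apply, qf, mul_pow, sg_sq, one_mul, q2, sub_add_cancel, h2 z hz]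

theorem exists_branch {x : ℂ} {R : ℝ} (hP : ∀ z ∈ ball x R, z ∉ range A.pt) (n : ℕ) {y : ℂ}
    (hy : (qf A.c)^[n] y ∈ ball x R) : ∃ g : ℂ → ℂ, DifferentiableOn ℂ g (ball x R) ∧
      (∀ z ∈ ball x R, (qf A.c)^[n] (g z) = z) ∧
      ∀ y', JoinedIn ((qf A.c)^[n] ⁻¹' ball x R) y y' → g ((qf A.c)^[n] y') = y' := by
  obtain ⟨g, h1, h2, h3⟩ := A.exists_cbranch hP n hy
  refine ⟨g, fun z hz => ?_, h2, ?_⟩
  · obtain ⟨d, d1, d2⟩ := A.hasDeriv_iter (n := n) (y := g z) (by rw [h2 z hz]; exact hP z hz)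
    exact (HasDerivAt.of_local_left_inverse (h1.continuousAt (isOpen_ball.mem_nhds hz)) d2 d1
      (mem_of_superset (isOpen_ball.mem_nhds hz) h2)).differentiableAt.differentiableWithinAt
  · rintro y' ⟨η, hη⟩
    have hc : Continuous fun τ => (qf A.c)^[n] (η τ) :=
      ((continuous_qf A.c).iterate n).comp η.continuous
    have := A.lift_unique (n := n) isPreconnected_univ η.continuous.continuousOn
      (Γ' := fun τ => g ((qf A.c)^[n] (η τ))) (h1.comp_continuous hc hη).continuousOn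
      (fun τ _ => hP _ (hη τ)) (fun τ _ => (h2 _ (hη τ)).symm) (mem_univ 0) (by simp [h3]) 1
      (mem_univ 1)
    simpa using this.symm

theorem branch_bound {x : ℂ} {R : ℝ} {n : ℕ} {g : ℂ → ℂ}
    (h : ∀ z ∈ ball x R, (qf A.c)^[n] (g z) = z) {z : ℂ} (hz : z ∈ ball x R) :
    ‖g z‖ ≤ max (‖x‖ + R) (2 + ‖A.c‖) := by
  have := norm_le_iter A.c n (g z)
  rw [h z hz] at this
  refine this.trans (max_le_max ?_ le_rfl)
  rw [mem_ball, dist_eq_norm] at hz
  linarith [norm_sub_norm_le z x]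

/-- Preimages of a small disc about `x` shrink uniformly. -/
def Shr (x : ℂ) : Prop := ∃ r > 0, ∀ ε > 0, ∃ N, ∀ n ≥ N, ∀ y y',
  JoinedIn ((qf A.c)^[n] ⁻¹' ball x r) y y' → dist y y' ≤ ε

theorem shr_of {x x' : ℂ} {R r : ℝ} (hP : ∀ z ∈ ball x R, z ∉ range A.pt) (hr : 0 < r)
    (hsub : ball x' r ⊆ ball x R) (h : ∀ ε > 0, ∃ N, ∀ n ≥ N, ∀ g : ℂ → ℂ,
      DifferentiableOn ℂ g (ball x R) → (∀ z ∈ ball x R, (qf A.c)^[n] (g z) = z) →
      ∀ z ∈ ball x' r, ∀ z' ∈ ball x' r, dist (g z) (g z') ≤ ε) : A.Shr x' := by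
  refine ⟨r, hr, fun ε hε => ?_⟩
  obtain ⟨N, hN⟩ := h ε hε
  refine ⟨N, fun n hn y y' hj => ?_⟩
  obtain ⟨g, h1, h2, h3⟩ := A.exists_branch hP n (hsub hj.source_mem)
  have := hN n hn g h1 h2 _ hj.source_mem _ hj.target_mem
  rwa [h3 y' (hj.mono (preimage_mono hsub)), h3 y (JoinedIn.refl (hsub hj.source_mem))] at this

theorem Shr.prop {A : Spider S} {x : ℂ} (h : A.Shr x) {R : ℝ} (hP : ∀ z ∈ ball x R, z ∉ range A.pt)
    {x' : ℂ} (hx' : x' ∈ ball x (R / 2)) : A.Shr x' := by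
  have hR : 0 < R := by have := pos_of_mem_ball hx'; linarith
  obtain ⟨r', hr', hsub⟩ := Metric.isOpen_iff.1 isOpen_ball x' hx'
  refine A.shr_of hP hr' (hsub.trans (ball_subset_ball (by linarith))) fun ε hε => ?_
  obtain ⟨r, hr, h⟩ := h
  obtain ⟨η, hη, h3⟩ := three_circles (M := 2 * max (‖x‖ + R) (2 + ‖A.c‖)) hr hR
    (show 0 < ε / 2 by linarith)
  obtain ⟨N, hN⟩ := h η hη
  refine ⟨N, fun n hn g g1 g2 => ?_⟩
  have key := h3 x g g1 (fun z hz => by
      have := A.branch_bound g2 hz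
      have := A.branch_bound g2 (mem_ball_self hR)
      linarith [norm_sub_le (g z) (g x)]) (fun z hz hz' => by
      rw [← dist_eq_norm]
      refine hN n hn _ _ ?_
      have hc : Convex ℝ (ball x r ∩ ball x R) := (convex_ball _ _).inter (convex_ball _ _)
      have hj := (hc.isPathConnected ⟨z, hz, hz'⟩).joinedIn z ⟨hz, hz'⟩ x
        ⟨mem_ball_self hr, mem_ball_self hR⟩
      refine (hj.map_continuousOn (g1.continuousOn.mono inter_subset_right)).mono ?_
      rintro _ ⟨w, hw, rfl⟩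
      change (qf A.c)^[n] (g w) ∈ ball x r
      rw [g2 w hw.2]; exact hw.1)
  intro z hz z' hz'
  have a1 := key z (hsub hz)
  have a2 := key z' (hsub hz')
  rw [← dist_eq_norm] at a1 a2
  linarith [dist_triangle_right (g z) (g z') (g x)]

theorem shr_all [Finite S] {x0 : ℂ} (hx0 : x0 ∉ range A.pt) (h0 : A.Shr x0) {x : ℂ}
    (hx : x ∉ range A.pt) : A.Shr x := by
  have hc : IsPreconnected (range A.pt)ᶜ :=
    ((finite_range A.pt).countable.isPathConnected_compl_of_one_lt_rank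
      (by simp)).isConnected.isPreconnected
  refine hc.induction₂' (fun a b => A.Shr a → A.Shr b) (fun a ha => ?_)
    (fun _ _ _ _ _ _ h h' => h' ∘ h) hx0 hx h0
  obtain ⟨R, hR, hsub⟩ := Metric.isOpen_iff.1 (finite_range A.pt).isClosed.isOpen_compl a ha
  refine mem_nhdsWithin_of_mem_nhds ?_
  filter_upwards [ball_mem_nhds a (show 0 < R / 4 by linarith)] with b hb
  refine ⟨fun h => h.prop (R := R) (fun z hz => hsub hz) (ball_subset_ball (by linarith) hb),
    fun h => h.prop (R := R / 2) (fun z hz => hsub ?_) (by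
      rw [mem_ball, dist_comm]; rw [mem_ball] at hb; linarith)⟩
  rw [mem_ball] at *
  linarith [dist_triangle z b a]

theorem shr_path (hs : ∀ x ∉ range A.pt, A.Shr x) {γ : I → ℂ} (hγ : Continuous γ)
    (hP : ∀ τ, γ τ ∉ range A.pt) : ∀ ε > 0, ∃ N, ∀ n ≥ N, ∀ Γ : I → ℂ, Continuous Γ →
      (∀ τ, (qf A.c)^[n] (Γ τ) = γ τ) → ∀ τ, dist (Γ τ) (Γ 0) ≤ ε := by
  let p : I → Set I → Prop := fun τ0 s => ∀ ε > 0, ∃ N, ∀ n ≥ N, ∀ Γ : I → ℂ, Continuous Γ →
      (∀ τ, (qf A.c)^[n] (Γ τ) = γ τ) → ∀ τ ∈ s, dist (Γ τ) (Γ τ0) ≤ ε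
  have loc : ∀ τ0, ∃ s ∈ 𝓝 τ0, p τ0 s := by
    intro τ0
    obtain ⟨r, hr, h⟩ := hs _ (hP τ0)
    refine ⟨_, near_joined hγ isOpen_ball (mem_ball_self hr), fun ε hε => ?_⟩
    obtain ⟨N, hN⟩ := h ε hε
    exact ⟨N, fun n hn Γ h1 h2 τ hτ => hN n hn _ _ (hτ _ Γ h1 h2).symm⟩
  have tr : ∀ a b s, p a {b} → p b s → p a s := by
    intro a b s h h' ε hε
    obtain ⟨N, hN⟩ := h (ε / 2) (by linarith)
    obtain ⟨N', hN'⟩ := h' (ε / 2) (by linarith)
    refine ⟨max N N', fun n hn Γ h1 h2 τ hτ => ?_⟩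
    have a1 := hN n (le_of_max_le_left hn) Γ h1 h2 b rfl
    have a2 := hN' n (le_of_max_le_right hn) Γ h1 h2 τ hτ
    linarith [dist_triangle (Γ τ) (Γ b) (Γ a)]
  have pt : ∀ a b, p a {b} := by
    intro a b
    refine PreconnectedSpace.induction₂' (fun a b => p a {b}) (fun a => ?_)
      ⟨fun a b c h h' => tr a b _ h h'⟩ a b
    obtain ⟨s, h1, h2⟩ := loc a
    filter_upwards [h1] with b hb
    constructor
    · intro ε hε
      obtain ⟨N, hN⟩ := h2 ε hε
      exact ⟨N, fun n hn Γ a1 a2 τ hτ => hτ ▸ hN n hn Γ a1 a2 b hb⟩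
    · intro ε hε
      obtain ⟨N, hN⟩ := h2 ε hε
      exact ⟨N, fun n hn Γ a1 a2 τ hτ => by rw [hτ, dist_comm]; exact hN n hn Γ a1 a2 b hb⟩
  have : p 0 univ := by
    refine isCompact_univ.induction_on (p := p 0) (fun ε _ => ⟨0, fun _ _ _ _ _ _ h => h.elim⟩)
      (fun s t hst h ε hε => ?_) (fun s t h h' ε hε => ?_) fun τ _ => ?_
    · obtain ⟨N, hN⟩ := h ε hε
      exact ⟨N, fun n hn Γ a1 a2 τ hτ => hN n hn Γ a1 a2 τ (hst hτ)⟩
    · obtain ⟨N, hN⟩ := h ε hε
      obtain ⟨N', hN'⟩ := h' ε hε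
      exact ⟨max N N', fun n hn Γ a1 a2 τ hτ => hτ.elim (hN n (le_of_max_le_left hn) Γ a1 a2 τ)
        (hN' n (le_of_max_le_right hn) Γ a1 a2 τ)⟩
    · obtain ⟨s, h1, h2⟩ := loc τ
      exact ⟨s, mem_nhdsWithin_of_mem_nhds h1, tr 0 τ s (pt 0 τ) h2⟩
  intro ε hε
  obtain ⟨N, hN⟩ := this ε hε
  exact ⟨N, fun n hn Γ a1 a2 τ => hN n hn Γ a1 a2 τ (mem_univ τ)⟩

end Spider

namespace BD

variable (B : BD)

theorem pre_iter {n : ℕ} {t y : ℝ} (ht : 0 < t) {z : ℂ} (h : (qf B.c)^[n] z = B.Ψ t y) :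
    ∃ y', z = B.Ψ (t / 2 ^ n) y' := by
  induction n generalizing t y with
  | zero => exact ⟨y, by simpa using h⟩
  | succ n ih =>
    rw [Function.iterate_succ_apply'] at h
    obtain ⟨y1, h1⟩ := B.pre ht h
    obtain ⟨y2, h2⟩ := ih (by linarith) h1
    exact ⟨y2, by rw [h2]; congr 1; ring⟩

theorem inradius (C M : ℝ) {ρ : ℝ} (hρ : 0 < ρ) : ∃ N, ∀ n ≥ N, ∀ ζ : ℂ, ‖ζ‖ ≤ M →
    ¬ ball ζ ρ ⊆ {z | ∃ t y, 0 < t ∧ t < C / 2 ^ n ∧ B.Ψ t y = z} := by
  have h1 : ∀ ζ : ℂ, ∀ᶠ n : ℕ in atTop, ¬ ∃ t y, 0 < t ∧ t < C / 2 ^ n ∧ B.Ψ t y = ζ := by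
    intro ζ
    by_cases h : ζ ∈ B.U
    · obtain ⟨t, y, ht, rfl⟩ := h
      have : Tendsto (fun n : ℕ => C / 2 ^ n) atTop (𝓝 0) :=
        tendsto_const_nhds.div_atTop (tendsto_pow_atTop_atTop_of_one_lt one_lt_two)
      filter_upwards [this.eventually (gt_mem_nhds ht)] with n hn
      rintro ⟨t', y', h1, h2, h3⟩
      have := (B.inj _ _ _ _ h1 ht h3).1
      linarith
    · exact Eventually.of_forall fun n ⟨t, y, h1, _, h3⟩ => h ⟨t, y, h1, h3⟩
  obtain ⟨T, _, h2, h3⟩ := finite_cover_balls_of_compact (isCompact_closedBall (0 : ℂ) M) hρ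
  obtain ⟨N, hN⟩ := eventually_atTop.1 ((eventually_all_finite h2).2 fun ζ _ => h1 ζ)
  refine ⟨N, fun n hn ζ hζ hsub => ?_⟩
  obtain ⟨ζ0, a1, a2⟩ := mem_iUnion₂.1 (h3 (mem_closedBall_zero_iff.2 hζ))
  exact hN n hn ζ0 a1 (hsub (mem_ball_comm.1 a2))

theorem shr_base {S : Type} {A : Spider S} (hc : A.c = B.c) (hU : ∀ s, A.pt s ∉ B.U) :
    ∃ x ∉ range A.pt, A.Shr x := by
  obtain ⟨x, r, C, hr, h⟩ := B.opn
  have hP : ∀ z ∈ ball x r, z ∉ range A.pt := by
    rintro z hz ⟨s, rfl⟩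
    obtain ⟨t, y, h1, _, h3⟩ := h _ hz
    exact hU s ⟨t, y, h1, h3⟩
  refine ⟨x, hP x (mem_ball_self hr), A.shr_of hP (show 0 < r / 2 by linarith)
    (ball_subset_ball (by linarith)) fun ε hε => ?_⟩
  obtain ⟨ρ, hρ, hl⟩ := landau (M := max (‖x‖ + r) (2 + ‖A.c‖)) (show 0 < r / 2 by linarith)
    (show 0 < ε / r by positivity)
  obtain ⟨N, hN⟩ := B.inradius C (max (‖x‖ + r) (2 + ‖A.c‖)) hρ
  refine ⟨N, fun n hn g g1 g2 z hz z' hz' => ?_⟩
  have hb : ball x (r / 2) ⊆ ball x r := ball_subset_ball (by linarith)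
  have hd : ∀ z0 ∈ ball x (r / 2), ‖deriv g z0‖ ≤ ε / r := by
    intro z0 h0
    by_contra hlt
    have hsub : ball z0 (r / 2) ⊆ ball x r := ball_subset_ball' (by rw [mem_ball] at h0; linarith)
    refine hN n hn (g z0) (A.branch_bound g2 (hb h0)) ((hl g z0 (g1.mono hsub)
      (fun w hw => A.branch_bound g2 (hsub hw)) (not_le.1 hlt).le).trans ?_)
    rintro _ ⟨w, hw, rfl⟩
    obtain ⟨t, y, a1, a2, a3⟩ := h w (hsub hw)
    obtain ⟨y', e⟩ := B.pre_iter (n := n) a1 (z := g w) (by rw [← hc, g2 w (hsub hw), a3])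
    exact ⟨t / 2 ^ n, y', by positivity, by gcongr, e.symm⟩
  have := (convex_ball x (r / 2)).norm_image_sub_le_of_norm_deriv_le
    (fun z0 h0 => g1.differentiableAt (isOpen_ball.mem_nhds (hb h0))) hd hz' hz
  rw [dist_eq_norm]
  refine this.trans ?_
  have h2 : ‖z - z'‖ ≤ r := by
    rw [← dist_eq_norm]; rw [mem_ball] at hz hz'
    linarith [dist_triangle_right z z' x]
  calc ε / r * ‖z - z'‖ ≤ ε / r * r := by gcongr
    _ = ε := by field_simp

end BD

end Pool.Agent.MP_61ef33_al
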