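import Pool.Agent.MP_61ef33_al.L6
import Pool.Agent.MP_61ef33_al.K11
import Pool.Agent.MP_61ef33_al.Defs2

/- Separation of itineraries; the iterated monodromy group is the kneading automaton group. -/

namespace Pool.Agent.MP_61ef33_al

open Filter Topology Set Metric unitInterval Polynomial

namespace Spider

variable {S : Type} {A : Spider S}

variable (A) in
def addr : ℕ → (ℕ → S) → List Bool
  | 0, _ => []
  | n + 1, s => A.cl (s 1) :: addr n fun j => s (j + 1)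

theorem addr_length (n : ℕ) (s : ℕ → S) : (A.addr n s).length = n := by
  induction n generalizing s with
  | zero => rfl
  | succ n ih => simp [addr, ih]

theorem addr_congr (n : ℕ) {s t : ℕ → S} (h : ∀ j, A.cl (s j) = A.cl (t j)) :
    A.addr n s = A.addr n t := by
  induction n generalizing s t with
  | zero => rfl
  | succ n ih => rw [addr, addr, h, ih fun j => h (j + 1)]

theorem Hyp.chain {n k : ℕ} {s : ℕ → S} (hs : ∀ j, A.nx (s (j + 1)) = s j) {η : I → ℂ} {e : Bool}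
    (hη : Continuous η) (H : A.Hyp k (s 0) (fun τ => (qf A.c)^[n] (η τ)) e)
    (h : A.lab k n (η 0) = A.addr n s) :
    (∃ k', A.Hyp k' (s n) η e) ∧ A.lab k n (η 1) = A.lab k n (η 0) := by
  induction n generalizing k s with
  | zero => exact ⟨⟨k, H⟩, rfl⟩
  | succ n ih =>
    simp only [Function.iterate_succ_apply'] at H
    have hγ : Continuous fun τ => (qf A.c)^[n] (η τ) := ((continuous_qf A.c).iterate n).comp hη
    rw [← hs 0] at H
    simp only [Spider.lab, addr, List.cons.injEq] at h ⊢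
    obtain ⟨h1, h2⟩ := ih (s := fun j => s (j + 1)) (fun j => hs (j + 1)) (H.step hγ h.1.symm) h.2
    exact ⟨h1, H.sd_const hγ (A.ha _) 1, h2⟩

theorem approx [Finite S] (hs : ∀ x ∉ range A.pt, A.Shr x) {t0 : ℂ}
    (hf : ∀ s, ∀ ε > 0, ∃ a ∈ Metric.ball (A.pt s) ε, a ∈ A.Om 0 ∧ A.Mon t0 a 1)
    {s : ℕ → S} (h : ∀ j, A.nx (s (j + 1)) = s j) : ∃ a ∈ A.Om 0, A.Mon t0 a 1 ∧ ∀ ε > 0, ∃ N,
      ∀ n ≥ N, ∀ y, (qf A.c)^[n] y = a → A.lab 0 n y = A.addr n s → dist y (A.pt (s n)) ≤ ε := by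
  obtain ⟨r, hr0, hr⟩ := Metric.isOpen_iff.1 (A.isOpen_others 0 (s 0)) (A.pt (s 0))
    fun t ht => disjoint_left.1 (A.disj 0 _ t ht.symm) (A.pt_mem 0 _)
  obtain ⟨a, a1, a2, a3⟩ := hf (s 0) r hr0
  have H := hyp_circ (fun t ht z hz => hr hz t ht) a1 (a2 _)
  have hP : ∀ τ, circ (A.pt (s 0)) a τ ∉ range A.pt := by
    rintro τ ⟨t, ht⟩
    by_cases e : t = s 0
    · exact H.ne τ (e ▸ ht.symm)
    · exact H.avoid τ t e (ht ▸ A.pt_mem 0 t)
  refine ⟨a, a2, a3, fun ε hε => ?_⟩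
  obtain ⟨N, hN⟩ := A.shr_path hs (circ (A.pt (s 0)) a).continuous hP ε hε
  refine ⟨N, fun n hn y hy hl => ?_⟩
  obtain ⟨Γ, g1, g2, rfl⟩ := A.exists_lift (n := n) (circ (A.pt (s 0)) a).continuous hP (y := y)
    (by simpa using hy)
  have e' : (fun τ => (qf A.c)^[n] (Γ τ)) = circ (A.pt (s 0)) a := funext g2
  obtain ⟨⟨k', H'⟩, h2⟩ := Hyp.chain h g1 (e' ▸ H) hl
  have hcl : Γ 1 = Γ 0 := A.lab_inj a2 (by simp [g2]) hy h2
  by_contra hlt
  push Not at hlt
  obtain ⟨q, q1, q2⟩ := exists_sqrt_ball (x := Γ 0) (s := A.pt (s n))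
    (r := dist (Γ 0) (A.pt (s n))) (by simp [dist_comm])
  have := Leg.Par.unique (A.br _ _) (fun τ => by rw [A.tip]; exact H'.ne τ) H'.e1 H'.par
    (e' := false) ⟨fun τ => q (Γ τ), q1.comp_continuous g1 fun τ =>
      lt_of_le_of_lt (hN n hn Γ g1 g2 τ) hlt, fun τ => by rw [q2, A.tip], by simp [hcl, sg]⟩
  cases this

theorem separated [Finite S] (hs : ∀ x ∉ range A.pt, A.Shr x) {t0 : ℂ}
    (hf : ∀ s, ∀ ε > 0, ∃ a ∈ Metric.ball (A.pt s) ε, a ∈ A.Om 0 ∧ A.Mon t0 a 1) (s t : S)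
    (h : ∀ i, A.cl (A.nx^[i] s) = A.cl (A.nx^[i] t)) : s = t := by
  by_contra hne
  let T := {p : S × S // p.1 ≠ p.2 ∧ ∀ i, A.cl (A.nx^[i] p.1) = A.cl (A.nx^[i] p.2)}
  let F : T → T := fun p => ⟨(A.nx p.1.1, A.nx p.1.2), fun e => p.2.1 (A.hb _ _ e (p.2.2 0)),
    fun i => p.2.2 (i + 1)⟩
  obtain ⟨a, b, hab, e⟩ := Finite.exists_ne_map_eq_of_infinite
    (fun n => F^[n] (⟨(s, t), hne, h⟩ : T))
  wlog hlt : a < b generalizing a b
  · exact this b a hab.symm e.symm (by omega)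
  obtain ⟨q, rfl⟩ : ∃ q, b = q + 1 + a := ⟨b - a - 1, by omega⟩
  set p0 : T := F^[a] ⟨(s, t), hne, h⟩ with hp0
  have hfix : F^[q + 1] p0 = p0 := by
    rw [hp0, ← Function.iterate_add_apply]; exact e.symm
  let p : ℕ → T := fun k => F^[q * k] p0
  have hp : ∀ k, F (p (k + 1)) = p k := by
    intro k
    show F (F^[q * (k + 1)] p0) = F^[q * k] p0
    rw [← Function.iterate_succ_apply' F]
    have : (q * (k + 1)).succ = q * k + (q + 1) := by simp [Nat.succ_eq_add_one]; ring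
    rw [this, Function.iterate_add_apply, hfix]
  obtain ⟨a, a1, a2, a3⟩ := approx hs hf (s := fun k => (p k).1.1)
    fun j => congrArg (fun x : T => x.1.1) (hp j)
  obtain ⟨b, b1, b2, b3⟩ := approx hs hf (s := fun k => (p k).1.2)
    fun j => congrArg (fun x : T => x.1.2) (hp j)
  obtain ⟨δ, d1, d2⟩ := a2.symm.trans b2
  have : Nonempty T := ⟨p0⟩
  obtain ⟨p1, hp1⟩ := Finite.exists_min (α := T) fun x => dist (A.pt x.1.1) (A.pt x.1.2)
  have hm : 0 < dist (A.pt p1.1.1) (A.pt p1.1.2) := dist_pos.2 fun e => p1.2.1 (A.pt_inj e)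
  set m := dist (A.pt p1.1.1) (A.pt p1.1.2)
  obtain ⟨N1, h1⟩ := a3 (m / 4) (by linarith)
  obtain ⟨N2, h2⟩ := b3 (m / 4) (by linarith)
  obtain ⟨N3, h3⟩ := A.shr_path hs δ.continuous d1 (m / 4) (by linarith)
  set n := max N1 (max N2 N3)
  obtain ⟨y, y1, y2⟩ := A.lab_surj (A.addr n fun k => (p k).1.1) a1
  rw [addr_length] at y1 y2
  obtain ⟨z, hz⟩ := exists_tr d1 y1
  have z2 := d2 n y z hz
  have c1 := h1 n (le_max_left _ _) y y1 y2
  have c2 := h2 n ((le_max_left _ _).trans (le_max_right _ _)) z hz.tgt (by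
    rw [z2, y2]; simpa using addr_congr n fun j => (p j).2.2 0)
  obtain ⟨Γ, hΓ⟩ := hz
  have c3 := h3 n ((le_max_right _ _).trans (le_max_right _ _)) Γ Γ.continuous hΓ 1
  simp only [Path.target, Path.source] at c3
  have c4 := hp1 (p n)
  have c5 := dist_triangle4 (A.pt (p n).1.1) y z (A.pt (p n).1.2)
  rw [dist_comm] at c1 c3
  linarith

theorem img_equiv [Finite S] (hd : Dense (A.Om 0)) {t0 : ℂ} (h0 : t0 ∈ A.Om 0)
    (hf : ∀ g ∈ A.G, A.Mon t0 t0 g) {f : ℂ[X]} (hfe : (fun x => f.eval x) = qf A.c)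
    (hP : postcrit f = range A.pt) {t : ℂ} (ht : t ∉ range A.pt) :
    Nonempty (IMG f t ≃* A.G) := by
  obtain ⟨δ, hδ⟩ : JoinedIn (range A.pt)ᶜ t t0 :=
    ((finite_range A.pt).countable.isPathConnected_compl_of_one_lt_rank (by simp)).joinedIn
      t ht t0 (om_notP h0)
  have hit : ∀ n z, (fun x => f.eval x)^[n] z = (qf A.c)^[n] z := fun n z => by rw [hfe]
  have hv : ∀ v : PreTree f t, (qf A.c)^[v.1.1] v.1.2 = t := fun v => (hit _ _).symm.trans v.2
  choose E hE using fun v : PreTree f t => exists_tr (A := A) (γ := δ) hδ (hv v)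
  have hbij : Function.Bijective fun v : PreTree f t => A.lab 0 v.1.1 (E v) := by
    constructor
    · rintro ⟨⟨n, z⟩, hz⟩ ⟨⟨n', z'⟩, hz'⟩ e
      have hn : n = n' := by simpa [lab_length] using congrArg List.length e
      subst hn
      have e1 := A.lab_inj h0 (hE ⟨(n, z), hz⟩).tgt (hE ⟨(n, z'), hz'⟩).tgt e
      have := Tr.unique (notP_symm hδ) (hE ⟨(n, z), hz⟩).symm (e1 ▸ (hE ⟨(n, z'), hz'⟩).symm)
      simp only at this
      subst this
      rfl
    · intro w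
      obtain ⟨y, y1, y2⟩ := A.lab_surj w h0
      obtain ⟨z, hz⟩ := exists_tr (notP_symm hδ) y1
      have hz' := hz.symm
      rw [Path.symm_symm] at hz'
      refine ⟨⟨(w.length, z), (hit _ _).trans hz.tgt⟩, ?_⟩
      simp only
      rw [Tr.unique hδ (hE ⟨(w.length, z), (hit _ _).trans hz.tgt⟩) hz', y2]
  let e : PreTree f t ≃ List Bool := Equiv.ofBijective _ hbij
  have he : ∀ v, e v = A.lab 0 v.1.1 (E v) := fun _ => rfl
  have key : ∀ (γ : Path t t) (g : Equiv.Perm (List Bool)),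
      (∀ n z z', A.Tr ((δ.symm.trans γ).trans δ) n z z' → A.lab 0 n z' = g (A.lab 0 n z)) →
      ∀ v w : PreTree f t, w.1.1 = v.1.1 → A.Tr γ v.1.1 v.1.2 w.1.2 → e w = g (e v) := by
    intro γ g h v w hn hT
    have h1 := hE w
    rw [hn] at h1
    rw [he, he, hn]
    exact h _ _ _ (((hE v).symm.trans hT).trans h1)
  have hmap : (IMG f t).map (e.permCongrHom : Equiv.Perm (PreTree f t) →* _) = A.G := by
    apply le_antisymm
    · rw [IMG, MonoidHom.map_closure, Subgroup.closure_le]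
      rintro _ ⟨π, ⟨γ, h1, h2⟩, rfl⟩
      rw [hP] at h1
      have h3 := notP_trans (notP_trans (notP_symm hδ) h1) hδ
      obtain ⟨g, g1, g2⟩ := A.mon_exists hd ((δ.symm.trans γ).trans δ).continuous h3
        (by simpa using h0) (by simpa using h0)
      have : e.permCongrHom π = g := by
        ext1 x
        obtain ⟨v, rfl⟩ := e.surjective x
        obtain ⟨z, hz⟩ := exists_tr h1 (hv v)
        have a1 := h2 v ⟨(v.1.1, z), (hit _ _).trans hz.tgt⟩ rfl (by simp only [hit]; exact hz)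
        have a2 := key γ g (by
          rintro n z z' ⟨Γ, hΓ⟩
          simpa using g2 n Γ Γ.continuous hΓ) v ⟨(v.1.1, z), (hit _ _).trans hz.tgt⟩ rfl hz
        rw [← a2, ← a1]
        simp
      exact this ▸ g1
    · intro g hg
      obtain ⟨γ0, h1, h2⟩ := hf g hg
      refine ⟨e.permCongrHom.symm g, Subgroup.subset_closure ⟨(δ.trans γ0).trans δ.symm,
        hP ▸ notP_trans (notP_trans hδ h1) (notP_symm hδ), fun v w hn hT => ?_⟩,
        e.permCongrHom.apply_symm_apply g⟩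
      simp only [hit] at hT
      obtain ⟨y, hy⟩ := exists_tr h1 (hE v).tgt
      obtain ⟨z, hz⟩ := exists_tr (notP_symm hδ) hy.tgt
      have a1 := Tr.unique (notP_trans (notP_trans hδ h1) (notP_symm hδ)) hT
        (((hE v).trans hy).trans hz)
      have a2 := hz.symm
      rw [Path.symm_symm, ← a1, ← hn] at a2
      have a3 := Tr.unique hδ a2 (hE w)
      apply e.injective
      have a4 := h2 _ _ _ hy
      rw [he w, hn, ← a3, a4, ← he]
      simp [Equiv.permCongrHom]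
  exact ⟨(e.permCongrHom.subgroupMap _).trans (MulEquiv.subgroupCongr hmap)⟩

end Spider

theorem KA.G_eq_KB {S : Type} (A : KA S) (B : KB S) (h1 : A.sg = B.sg) (h2 : A.nx = B.nx)
    (h3 : A.cl = B.cl) : A.G = B.G := by
  have hp : ∀ x s, A.prev x s = B.prev x s := fun x s => Option.ext fun t => by
    rw [A.prev_eq_some, B.prev_eq_some, h2, h3]
  have ha : ∀ w s, A.act w s = B.act w s := by
    intro w
    induction w with
    | nil => intro s; rfl
    | cons x w ih =>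
      intro s
      simp only [KA.act, KB.act, hp, KA.isg, h1]
      cases B.prev x s <;> simp [ih, h1]
  rw [A.G_eq, KB.G]
  congr 2
  funext s
  ext1 w
  exact ha w s

/-- The link: the iterated monodromy group is generated by a kneading automaton whose kneading
sequence is that of the landing angle. -/
theorem BD.Mis.link {B : BD} (M : B.Mis) [Finite B.P] {θ : ℝ} (hθ : B.Lands θ B.c) :
    ∃ A : KA B.P, A.sg = BD.sgP ∧ A.nx = BD.nxP ∧
      (∃ e, ∀ j, A.cl (A.nx^[j] A.sg) = xor (kneading θ j) e) ∧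
      ∀ f : ℂ[X], (fun x => f.eval x) = qf B.c → postcrit f = B.P → ∀ t ∉ B.P,
        Nonempty (IMG f t ≃* A.G) := by
  obtain ⟨A, hc, hpt, hsg, hnx, ⟨ang, hr⟩, e, he⟩ := M.exists_spider hθ
  have hr' : ∀ s, B.IsRay (A.L 0 s) (ang s) (A.pt s) := hpt ▸ hr
  obtain ⟨t0, h0, h1, h2⟩ := BD.full hr'
  obtain ⟨x0, x1, x2⟩ := B.shr_base hc fun s => (hr' s).notU
  have hs : ∀ x ∉ range A.pt, A.Shr x := fun x hx => A.shr_all x1 x2 hx
  let K : KA B.P := ⟨A.sg, A.nx, A.cl, A.ha, A.hb, by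
    rintro ⟨_, k, rfl⟩
    exact ⟨k, Subtype.ext (by rw [hsg, hnx]; exact BD.nxP_iter k)⟩, Spider.separated hs h2⟩
  refine ⟨K, hsg, hnx, ⟨e, fun j => ?_⟩, fun f hf hP t ht => ?_⟩
  · change A.cl (A.nx^[j] A.sg) = _
    rw [hsg, hnx]; exact he j
  · have e1 : range A.pt = B.P := by rw [hpt, Subtype.range_val]
    rw [KA.G_eq_KB K A.toKB rfl rfl rfl]
    exact Spider.img_equiv (BD.dense_om hr') h0 h1 (hc ▸ hf) (hP.trans e1.symm) (by rw [e1]; exact ht)

end Pool.Agent.MP_61ef33_al
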