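import Pool.Agent.MP_61ef33_al.L7

/- From the inverse Boettcher map to the main theorem. -/

namespace Pool.Agent.MP_61ef33_al

open Filter Topology Set Polynomial

theorem ex_mem {t : ℝ} (ht : 0 < t) (y : ℝ) : ex t y ∈ {w : ℂ | 1 < ‖w‖} := by
  change 1 < ‖ex t y‖
  rw [norm_ex]; exact Real.one_lt_exp_iff.2 ht

theorem exists_ex {w : ℂ} (hw : w ≠ 0) : ∃ y, ex (Real.log ‖w‖) y = w := by
  refine ⟨Complex.arg w / (2 * Real.pi), ?_⟩
  have hp : (Real.pi : ℂ) ≠ 0 := by exact_mod_cast Real.pi_ne_zero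
  rw [ex]
  conv_rhs => rw [← Complex.exp_log hw, Complex.log]
  congr 2
  push_cast
  field_simp

/-- Boettcher data from an inverse Boettcher map. -/
noncomputable def mkBD (c : ℂ) (φ : ℂ → ℂ) (hd : DifferentiableOn ℂ φ {w | 1 < ‖w‖})
    (hinj : InjOn φ {w | 1 < ‖w‖}) (hconj : ∀ w, 1 < ‖w‖ → φ (w ^ 2) = φ w ^ 2 + c)
    (hasym : Tendsto (fun w => φ w / w) (Bornology.cobounded ℂ) (𝓝 1)) : BD where
  c := c
  Ψ t y := φ (ex t y)
  cont := hd.continuousOn.comp (by unfold ex; fun_prop) fun p hp => ex_mem hp _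
  dbl t y ht := by
    rw [qf, ← hconj _ (ex_mem ht y), ex, ex, ← Complex.exp_nat_mul]
    congr 2; push_cast; ring
  per t y m := by
    congr 1
    rw [ex, ex, Complex.exp_eq_exp_iff_exists_int]
    exact ⟨m, by push_cast; ring⟩
  inj t y t' y' ht ht' h := by
    have h1 := hinj (ex_mem ht y) (ex_mem ht' y') h
    rw [ex, ex, Complex.exp_eq_exp_iff_exists_int] at h1
    obtain ⟨n, hn⟩ := h1
    have a1 := congrArg Complex.re hn
    have a2 := congrArg Complex.im hn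
    simp at a1 a2
    refine ⟨a1, -n, ?_⟩
    have hp := Real.pi_pos
    push_cast
    apply mul_left_cancel₀ (show 2 * Real.pi ≠ 0 by positivity)
    linarith
  asym ε hε := by
    have h1 := hasym.eventually (Metric.ball_mem_nhds (1 : ℂ) hε)
    rw [← comap_norm_atTop, eventually_comap, eventually_atTop] at h1
    obtain ⟨R, hR⟩ := h1
    refine ⟨R, fun t ht y => ?_⟩
    have := hR _ (show R ≤ Real.exp t by linarith [Real.add_one_le_exp t]) (ex t y) (norm_ex t y)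
    simpa [dist_eq_norm] using this
  opn := by
    have ho : IsOpen {w : ℂ | 1 < ‖w‖} := isOpen_lt continuous_const continuous_norm
    have h2 : (2 : ℂ) ∈ {w : ℂ | 1 < ‖w‖} := by simp
    have ha : AnalyticAt ℂ φ 2 := hd.analyticAt (ho.mem_nhds h2)
    have hV : {w : ℂ | 1 < ‖w‖} ∩ {w : ℂ | ‖w‖ < 3} ∈ 𝓝 (2 : ℂ) :=
      inter_mem (ho.mem_nhds h2) ((isOpen_lt continuous_norm continuous_const).mem_nhds (by
        simp; norm_num))
    rcases ha.eventually_constant_or_nhds_le_map_nhds with h | h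
    · obtain ⟨w, ⟨h1, h3⟩, h4⟩ := (((h.and (ho.mem_nhds h2)).filter_mono
        nhdsWithin_le_nhds).and (self_mem_nhdsWithin (s := {2}ᶜ))).exists
      exact absurd (hinj h3 h2 h1) h4
    · obtain ⟨r, hr, hsub⟩ := Metric.mem_nhds_iff.1 (h (image_mem_map hV))
      refine ⟨φ 2, r, 3, hr, fun z hz => ?_⟩
      obtain ⟨w, ⟨w1, w2⟩, rfl⟩ := hsub hz
      have w1' : 1 < ‖w‖ := w1
      have w2' : ‖w‖ < 3 := w2
      obtain ⟨y, hy⟩ := exists_ex (w := w) (norm_pos_iff.1 (by linarith))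
      refine ⟨Real.log ‖w‖, y, Real.log_pos w1', ?_, by rw [hy]⟩
      linarith [Real.log_le_sub_one_of_pos (show 0 < ‖w‖ by linarith)]

theorem eval_quad (c : ℂ) : (fun x => (X ^ 2 + C c : ℂ[X]).eval x) = qf c := by
  funext x; simp [qf]

theorem postcrit_quad (c : ℂ) : postcrit (X ^ 2 + C c) = range fun k => (qf c)^[k] c := by
  ext z
  simp only [postcrit, eval_quad, mem_range, mem_ofPred_eq]
  constructor
  · rintro ⟨n, hn, w, h1, rfl⟩
    have : w = 0 := by simpa using h1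
    subst this
    obtain ⟨k, rfl⟩ : ∃ k, n = k + 1 := ⟨n - 1, by omega⟩
    exact ⟨k, by simp [qf]⟩
  · rintro ⟨k, rfl⟩
    exact ⟨k + 1, by omega, 0, by simp, by simp [qf]⟩

theorem BD.mis_of_finite (B : BD) (hf : B.P.Finite) (h0 : (0 : ℂ) ∉ B.P) : B.Mis := by
  refine ⟨fun k ⟨t, y, ht, e⟩ => ?_, fun k e => h0 ⟨k, e⟩⟩
  have := hf.to_subtype
  obtain ⟨m, n, hne, h⟩ := Finite.exists_ne_map_eq_of_infinite
    (fun m => (⟨(qf B.c)^[m + k] B.c, m + k, rfl⟩ : B.P))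
  have h1 : (qf B.c)^[m + k] B.c = (qf B.c)^[n + k] B.c := congrArg Subtype.val h
  rw [Function.iterate_add_apply, Function.iterate_add_apply, ← e, B.iter ht, B.iter ht] at h1
  have h2 := mul_right_cancel₀ ht.ne' (B.inj _ _ _ _ (by positivity) (by positivity) h1).1
  exact hne (pow_right_injective₀ (by norm_num) (by norm_num) h2)

theorem BD.three_le (B : BD) (M : B.Mis) [Fintype B.P] (hc : B.c ≠ -2) : 3 ≤ Fintype.card B.P := by
  refine Fintype.two_lt_card_iff.2 ⟨BD.sgP, BD.nxP BD.sgP, BD.nxP (BD.nxP BD.sgP), fun e => ?_,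
    fun e => ?_, fun e => ?_⟩
  · exact M.ne_c 0 (congrArg Subtype.val e).symm
  · exact M.ne_c 1 (congrArg Subtype.val e).symm
  · have h : qf B.c B.c = qf B.c (qf B.c B.c) := congrArg Subtype.val e
    rcases sq_eq_sq_iff_eq_or_eq_neg.1 (add_right_cancel h) with h | h
    · exact M.ne_c 0 h.symm
    · have h0 : B.c ≠ 0 := M.ne0 0
      apply hc
      apply mul_left_cancel₀ h0
      rw [qf] at h
      linear_combination h

theorem main (c : ℂ) (φ : ℂ → ℂ) (θ : ℝ) (hd : DifferentiableOn ℂ φ {w | 1 < ‖w‖})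
    (hinj : InjOn φ {w | 1 < ‖w‖}) (hconj : ∀ w, 1 < ‖w‖ → φ (w ^ 2) = φ w ^ 2 + c)
    (hasym : Tendsto (fun w => φ w / w) (Bornology.cobounded ℂ) (𝓝 1))
    (hland : Tendsto (fun r : ℝ => φ (r * Complex.exp (2 * Real.pi * θ * Complex.I)))
      (𝓝[>] 1) (𝓝 c))
    (hfin : (postcrit (X ^ 2 + C c)).Finite) (h0 : (0 : ℂ) ∉ postcrit (X ^ 2 + C c)) (hc : c ≠ -2)
    (hν : ¬ ∃ p, 2 ≤ p ∧ ∀ j, ¬ p ∣ j + 1 → kneading θ (j + p) = kneading θ j)
    (t : ℂ) (ht : t ∉ postcrit (X ^ 2 + C c)) : IntermediateGrowth (IMG (X ^ 2 + C c) t) := by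
  let B := mkBD c φ hd hinj hconj hasym
  have hP : postcrit (X ^ 2 + C c) = B.P := postcrit_quad c
  rw [hP] at hfin h0 ht
  have M := B.mis_of_finite hfin h0
  have := hfin.to_subtype
  have := Fintype.ofFinite B.P
  have hθ : B.Lands θ B.c := by
    have h1 : Tendsto Real.exp (𝓝[>] 0) (𝓝[>] 1) := by
      refine tendsto_nhdsWithin_iff.2 ⟨?_, ?_⟩
      · simpa using (Real.continuous_exp.tendsto 0).mono_left nhdsWithin_le_nhds
      · filter_upwards [self_mem_nhdsWithin] with t ht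
        exact Real.one_lt_exp_iff.2 ht
    refine (hland.comp h1).congr fun t => ?_
    simp [B, mkBD, ex, Complex.exp_add]
  obtain ⟨A, _, _, ⟨e, he⟩, hA⟩ := M.link hθ
  obtain ⟨E⟩ := hA _ (eval_quad c) hP t ht
  refine IntermediateGrowth.of_equiv E.symm (A.intermediate ?_ (B.three_le M hc))
  rintro ⟨p, h1, h2⟩
  refine hν ⟨p, h1, fun j hj => ?_⟩
  have := h2 j hj
  rw [he, he] at this
  simpa using this

end Pool.Agent.MP_61ef33_al
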