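import Pool.Agent.MP_61ef33_al.M1

/- Extension of the inverse Boettcher map to the whole basin of infinity. -/

namespace Pool.Agent.MP_61ef33_al

open Filter Topology Set Metric

theorem exists_ex' {w : ℂ} (hw : w ≠ 0) : ∃ y, ex (Real.log ‖w‖) y = w := by
  refine ⟨Complex.arg w / (2 * Real.pi), ?_⟩
  have hp : (Real.pi : ℂ) ≠ 0 := by exact_mod_cast Real.pi_ne_zero
  rw [ex]
  conv_rhs => rw [← Complex.exp_log hw, Complex.log]
  congr 2
  push_cast
  field_simp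

theorem ex_sq (t y : ℝ) : ex (2 * t) (2 * y) = ex t y ^ 2 := by
  rw [ex, ex, ← Complex.exp_nat_mul]
  congr 1; push_cast; ring

theorem ex_int (t y : ℝ) (m : ℤ) : ex t (y + m) = ex t y := by
  rw [ex, ex, Complex.exp_eq_exp_iff_exists_int]
  exact ⟨m, by push_cast; ring⟩

theorem ex_inj {t y t' y' : ℝ} (h : ex t y = ex t' y') : t = t' ∧ ∃ m : ℤ, y' = y + m := by
  rw [ex, ex, Complex.exp_eq_exp_iff_exists_int] at h
  obtain ⟨n, hn⟩ := h
  have a1 := congrArg Complex.re hn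
  have a2 := congrArg Complex.im hn
  simp at a1 a2
  refine ⟨a1, -n, ?_⟩
  have hp := Real.pi_pos
  push_cast
  apply mul_left_cancel₀ (show 2 * Real.pi ≠ 0 by positivity)
  linarith

/-- Half planes exhausting the right half plane. -/
def HP (T : ℝ) (n : ℕ) : Set (ℝ × ℝ) := {p | T / 2 ^ n < p.1}

def dbp (p : ℝ × ℝ) : ℝ × ℝ := (2 * p.1, 2 * p.2)

theorem HP_convex (T : ℝ) (n : ℕ) : Convex ℝ (HP T n) :=
  (convex_Ioi (T / 2 ^ n)).linear_preimage (LinearMap.fst ℝ ℝ ℝ)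

theorem HP_open (T : ℝ) (n : ℕ) : IsOpen (HP T n) := isOpen_lt continuous_const continuous_fst

theorem HP_mono {T : ℝ} (hT : 0 < T) {m n : ℕ} (h : m ≤ n) : HP T m ⊆ HP T n := fun p hp => by
  have : T / 2 ^ n ≤ T / 2 ^ m := by gcongr; norm_num
  exact this.trans_lt hp

theorem dbp_mem {T : ℝ} {n : ℕ} {p : ℝ × ℝ} (h : p ∈ HP T (n + 1)) : dbp p ∈ HP T n := by
  change T / 2 ^ n < 2 * p.1
  have : T / 2 ^ (n + 1) < p.1 := h
  rw [pow_succ, ← div_div] at this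
  linarith

theorem HP_pos {T : ℝ} (hT : 0 < T) {n : ℕ} {p : ℝ × ℝ} (h : p ∈ HP T n) : 0 < p.1 :=
  (by positivity : 0 < T / 2 ^ n).trans h

theorem exists_HP (T : ℝ) {p : ℝ × ℝ} (h : 0 < p.1) : ∃ n, p ∈ HP T n := by
  have : Tendsto (fun n : ℕ => T / 2 ^ n) atTop (𝓝 0) :=
    tendsto_const_nhds.div_atTop (tendsto_pow_atTop_atTop_of_one_lt one_lt_two)
  exact (this.eventually (gt_mem_nhds h)).exists

theorem base_mem (T : ℝ) : (T + 1, (0 : ℝ)) ∈ HP T 0 := by simp [HP]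

theorem continuous_dbp : Continuous dbp := by unfold dbp; fun_prop

theorem exists_ext {c : ℂ} {T : ℝ} (hT : 0 < T) {F : ℝ × ℝ → ℂ} (hF : ContinuousOn F (HP T 0))
    (hd : ∀ p ∈ HP T 0, F (dbp p) = qf c (F p)) (hne : ∀ p ∈ HP T 0, ∀ k, F p ≠ (qf c)^[k] c) :
    ∃ Ψ : ℝ × ℝ → ℂ, ContinuousOn Ψ {p | 0 < p.1} ∧ (∀ p, 0 < p.1 → Ψ (dbp p) = qf c (Ψ p)) ∧
      (∀ p ∈ HP T 0, Ψ p = F p) ∧ (∀ p, 0 < p.1 → Ψ p ≠ 0) ∧ ∀ p, ¬ 0 < p.1 → Ψ p = 0 := by
  classical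
  let Good : ℕ → (ℝ × ℝ → ℂ) → Prop := fun n G => ContinuousOn G (HP T n) ∧
    (∀ p ∈ HP T 0, G p = F p) ∧ ∀ p ∈ HP T n, ∀ k, G p ≠ (qf c)^[k] c
  have nz : ∀ {a b : ℂ}, b = qf c a → b ≠ (qf c)^[0] c → a ≠ 0 := by
    rintro a _ rfl h rfl
    exact h (by simp [qf])
  have d0 : ∀ p ∈ HP T 0, dbp p ∈ HP T 0 := fun p hp => dbp_mem (HP_mono hT (Nat.zero_le 1) hp)
  have step : ∀ n G, Good n G → ∃ G', Good (n + 1) G' ∧
      ∀ p ∈ HP T (n + 1), G (dbp p) = qf c (G' p) := by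
    rintro n G ⟨g1, g2, g3⟩
    have hb := HP_mono hT (Nat.zero_le (n + 1))
    have := (HP_convex T (n + 1)).contractibleSpace ⟨_, hb (base_mem T)⟩
    obtain ⟨q, q1, q2⟩ := Complex.exists_continuousOn_pow_eq (U := HP T (n + 1))
      (g := fun p => G (dbp p) - c) (n := 2) (inferInstance : SimplyConnectedSpace (HP T (n + 1)))
      (HP_open _ _) ((g1.comp continuous_dbp.continuousOn fun p hp => dbp_mem hp).sub
        continuousOn_const) (by
        rintro ⟨p, hp, e⟩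
        exact g3 _ (dbp_mem hp) 0 (sub_eq_zero.1 e)) two_ne_zero
    have q3 : ∀ p ∈ HP T 0, F p ^ 2 = q p ^ 2 := fun p hp => by
      rw [q2, g2 _ (d0 p hp), hd p hp, qf]; ring
    obtain ⟨e, he⟩ := exists_sg (q3 _ (base_mem T))
    have q4 : ∀ p, G (dbp p) = qf c (sg e * q p) := fun p => by
      rw [qf, mul_pow, sg_sq, one_mul, q2]; ring
    refine ⟨fun p => sg e * q p, ⟨continuousOn_const.mul q1, fun p hp => ?_, fun p hp k e => ?_⟩,
      fun p _ => q4 p⟩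
    · refine sq_unique (HP_convex T 0).isPreconnected (u := fun p => sg e * q p)
        (continuousOn_const.mul (q1.mono hb)) hF
        (fun p hp => by rw [mul_pow, sg_sq, one_mul, q3 p hp])
        (fun p hp => nz (hd p hp) (hne _ (d0 p hp) 0)) (base_mem T) he.symm p hp
    · exact g3 _ (dbp_mem hp) (k + 1) (by rw [q4, Function.iterate_succ_apply']; exact congrArg _ e)
  choose! nxt hnxt using step
  let Φ : ℕ → ℝ × ℝ → ℂ := fun n => Nat.rec F nxt n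
  have hΦ : ∀ n, Good n (Φ n) := by
    intro n
    induction n with
    | zero => exact ⟨hF, fun _ _ => rfl, hne⟩
    | succ n ih => exact (hnxt n _ ih).1
  have hdb : ∀ n, ∀ p ∈ HP T (n + 1), Φ n (dbp p) = qf c (Φ (n + 1) p) :=
    fun n => (hnxt n _ (hΦ n)).2
  have hz : ∀ n, ∀ p ∈ HP T (n + 1), Φ (n + 1) p ≠ 0 :=
    fun n p hp => nz (hdb n p hp) ((hΦ n).2.2 _ (dbp_mem hp) 0)
  have comp : ∀ n, ∀ p ∈ HP T n, Φ (n + 1) p = Φ n p := by
    intro n
    induction n with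
    | zero => exact (hΦ 1).2.1
    | succ n ih =>
      have hb := HP_mono hT (Nat.le_succ (n + 1))
      refine sq_unique (HP_convex T _).isPreconnected ((hΦ (n + 2)).1.mono hb) (hΦ (n + 1)).1
        (fun p hp => ?_) (hz n) (HP_mono hT (Nat.zero_le _) (base_mem T))
        (((hΦ (n + 2)).2.1 _ (base_mem T)).trans ((hΦ (n + 1)).2.1 _ (base_mem T)).symm)
      have a1 := hdb (n + 1) p (hb hp)
      rw [ih _ (dbp_mem hp), hdb n p hp] at a1
      exact (add_right_cancel a1).symm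
  have comp' : ∀ m n, m ≤ n → ∀ p ∈ HP T m, Φ n p = Φ m p := by
    intro m n h p hp
    induction n, h using Nat.le_induction with
    | base => rfl
    | succ n h ih => rw [comp n p (HP_mono hT h hp), ih]
  choose N hN using fun (p : ℝ × ℝ) (h : 0 < p.1) => exists_HP T h
  let Ψ : ℝ × ℝ → ℂ := fun p => if h : 0 < p.1 then Φ (N p h) p else 0
  have hΨ : ∀ n, ∀ p ∈ HP T n, Ψ p = Φ n p := fun n p hp => by
    have h := HP_pos hT hp
    simp only [Ψ, dif_pos h]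
    rw [← comp' _ _ (le_max_left (N p h) n) p (hN p h), comp' _ _ (le_max_right _ _) p hp]
  refine ⟨Ψ, fun p hp => ?_, fun p hp => ?_, hΨ 0, fun p hp => ?_, fun p hp => dif_neg hp⟩
  · obtain ⟨n, hn⟩ := exists_HP T hp
    have := (HP_open T n).mem_nhds hn
    exact (((hΦ n).1.continuousAt this).congr
      (mem_of_superset this fun q hq => (hΨ n q hq).symm)).continuousWithinAt
  · obtain ⟨n, hn⟩ := exists_HP T hp
    have h1 := HP_mono hT (Nat.le_succ n) hn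
    rw [hΨ _ _ h1, hΨ _ _ (dbp_mem h1), hdb n p h1]
  · obtain ⟨n, hn⟩ := exists_HP T hp
    have h1 := HP_mono hT (Nat.le_succ n) hn
    rw [hΨ _ _ h1]; exact hz n p h1

theorem exists_BD (c : ℂ) (hb : ∃ M, ∀ k, ‖(qf c)^[k] c‖ ≤ M) :
    ∃ B : BD, B.c = c ∧ ∃ R, ∀ z, R < ‖z‖ → z ∈ B.U := by
  obtain ⟨T, φ, hT, h1, h2, h3, h4, h5, R, hR⟩ := exists_phi c
  have hm : ∀ p ∈ HP T 0, Real.exp T < ‖ex p.1 p.2‖ := fun p hp => by
    rw [norm_ex]; exact Real.exp_lt_exp.2 (by simpa [HP] using hp)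
  have d0 : ∀ p ∈ HP T 0, dbp p ∈ HP T 0 := fun p hp => dbp_mem (HP_mono hT (Nat.zero_le 1) hp)
  have hlow : ∀ w, Real.exp T < ‖w‖ → ‖w‖ ≤ 2 * ‖φ w‖ := fun w hw => by
    have a1 := (re_ge_of_near (h5 w hw)).trans (Complex.re_le_norm _)
    rw [norm_div, le_div_iff₀ ((Real.exp_pos T).trans hw)] at a1
    linarith [norm_nonneg (φ w)]
  have hd : ∀ p ∈ HP T 0, φ (ex (dbp p).1 (dbp p).2) = qf c (φ (ex p.1 p.2)) := fun p hp => by
    rw [← h3 _ (hm p hp), ← ex_sq]; rfl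
  obtain ⟨Ψ, p1, p2, p3, p4, p5⟩ := exists_ext (c := c) hT (F := fun p => φ (ex p.1 p.2))
    (h1.comp (by unfold ex; fun_prop) hm) hd (by
      intro p hp k e
      obtain ⟨M, hM⟩ := hb
      have a1 : ∀ n : ℕ, dbp^[n] p ∈ HP T 0 ∧ (dbp^[n] p).1 = 2 ^ n * p.1 ∧
          φ (ex (dbp^[n] p).1 (dbp^[n] p).2) = (qf c)^[n + k] c := by
        intro n
        induction n with
        | zero => simpa using ⟨hp, e⟩
        | succ n ih =>
          rw [Function.iterate_succ_apply', hd _ ih.1, ih.2.2, add_right_comm,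
            Function.iterate_succ_apply']
          exact ⟨d0 _ ih.1, by simp only [dbp, ih.2.1]; ring, rfl⟩
      obtain ⟨n, hn⟩ := pow_unbounded_of_one_lt (2 * M / p.1) (one_lt_two (α := ℝ))
      rw [div_lt_iff₀ (HP_pos hT hp)] at hn
      obtain ⟨b1, b2, b3⟩ := a1 n
      have := hlow _ (hm _ b1)
      rw [b3, norm_ex, b2] at this
      linarith [hM (n + k), Real.add_one_le_exp (2 ^ n * p.1)])
  have hpc : IsPreconnected {p : ℝ × ℝ | 0 < p.1} :=
    ((convex_Ioi (0 : ℝ)).linear_preimage (LinearMap.fst ℝ ℝ ℝ)).isPreconnected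
  have sh : ∀ δ : ℝ, ContinuousOn (fun p : ℝ × ℝ => Ψ (p.1, p.2 + δ)) {p | 0 < p.1} :=
    fun δ => p1.comp (by fun_prop) fun p hp => hp
  have per : ∀ n, ∀ m : ℤ, ∀ p ∈ HP T n, Ψ (p.1, p.2 + m) = Ψ p := by
    have b0 : ∀ m : ℤ, ∀ p ∈ HP T 0, Ψ (p.1, p.2 + m) = Ψ p := fun m p hp => by
      rw [p3 p hp, p3 (p.1, p.2 + m) hp, ex_int]
    intro n
    induction n with
    | zero => exact b0
    | succ n ih =>
      intro m
      refine sq_unique (HP_convex T _).isPreconnected ((sh m).mono fun p hp => HP_pos hT hp)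
        (p1.mono fun p hp => HP_pos hT hp) (fun p hp => ?_) (fun p hp => p4 p (HP_pos hT hp))
        (HP_mono hT (Nat.zero_le _) (base_mem T)) (b0 m _ (base_mem T))
      have a1 := ih (2 * m) _ (dbp_mem hp)
      rw [p2 p (HP_pos hT hp), show ((dbp p).1, (dbp p).2 + ((2 * m : ℤ) : ℝ)) =
        dbp (p.1, p.2 + m) by simp only [dbp]; push_cast; congr 1; ring,
        p2 (p.1, p.2 + m) (HP_pos hT hp)] at a1
      exact add_right_cancel a1
  have per' : ∀ t y (m : ℤ), Ψ (t, y + m) = Ψ (t, y) := fun t y m => by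
    by_cases h : 0 < t
    · obtain ⟨n, hn⟩ := exists_HP T (p := (t, y)) h
      exact per n m _ hn
    · rw [p5 (t, y + m) h, p5 (t, y) h]
  have inj0 : ∀ p ∈ HP T 0, ∀ q ∈ HP T 0, Ψ p = Ψ q → p.1 = q.1 ∧ ∃ m : ℤ, q.2 = p.2 + m :=
    fun p hp q hq e => ex_inj (h2 (hm p hp) (hm q hq) (by rwa [p3 p hp, p3 q hq] at e))
  have hsq : ∀ p : ℝ × ℝ, 0 < p.1 → Ψ (p.1, p.2 + 1 / 2) ^ 2 = (-Ψ p) ^ 2 := fun p hp => by
    have a1 := per' (2 * p.1) (2 * p.2) 1
    have a2 := p2 (p.1, p.2 + 1 / 2) hp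
    rw [show dbp (p.1, p.2 + 1 / 2) = (2 * p.1, 2 * p.2 + ((1 : ℤ) : ℝ)) by
      simp only [dbp]; push_cast; congr 1; ring, a1] at a2
    rw [neg_sq]
    exact add_right_cancel (a2.symm.trans (p2 p hp))
  have half : ∀ p : ℝ × ℝ, 0 < p.1 → Ψ (p.1, p.2 + 1 / 2) = -Ψ p := by
    have hb := base_mem T
    refine sq_unique hpc (sh _) p1.neg hsq (fun p hp => neg_ne_zero.2 (p4 p hp)) (HP_pos hT hb) ?_
    rcases sq_eq_sq_iff_eq_or_eq_neg.1 (hsq _ (HP_pos hT hb)) with h | h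
    · exact h
    · rw [neg_neg] at h
      obtain ⟨_, m, hm⟩ := inj0 (T + 1, 0 + 1 / 2) hb _ hb h
      have : (2 * m + 1 : ℤ) = 0 := by
        have : (2 * m + 1 : ℝ) = 0 := by simp only at hm; linarith
        exact_mod_cast this
      omega
  have inj : ∀ n, ∀ p ∈ HP T n, ∀ q ∈ HP T n, Ψ p = Ψ q → p.1 = q.1 ∧ ∃ m : ℤ, q.2 = p.2 + m := by
    intro n
    induction n with
    | zero => exact inj0
    | succ n ih =>
      rintro ⟨t, y⟩ hp ⟨t', y'⟩ hq e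
      obtain ⟨a1, m, a2⟩ := ih _ (dbp_mem hp) _ (dbp_mem hq)
        (by rw [p2 _ (HP_pos hT hp), p2 _ (HP_pos hT hq), e])
      simp only [dbp] at a1 a2
      obtain rfl : t = t' := by linarith
      refine ⟨rfl, ?_⟩
      obtain ⟨k, rfl | rfl⟩ := Int.even_or_odd' m
      · exact ⟨k, by push_cast at a2; simp only; linarith⟩
      · have a3 := half (t, y) (HP_pos hT hp)
        rw [show y' = y + 1 / 2 + k by push_cast at a2; linarith, per', a3] at e
        exact absurd (by linear_combination e / 2) (p4 _ (HP_pos hT hp))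
  have surj : ∀ z, R < ‖z‖ → ∃ t y, 0 < t ∧ t ≤ 2 * ‖z‖ ∧ Ψ (t, y) = z := fun z hz => by
    obtain ⟨w, w1, rfl⟩ := hR z hz
    have w0 := (Real.exp_pos T).trans w1
    obtain ⟨y, hy⟩ := exists_ex' (norm_pos_iff.1 w0)
    have w2 : T < Real.log ‖w‖ := (Real.lt_log_iff_exp_lt w0).2 w1
    refine ⟨_, y, hT.trans w2, ?_, by rw [p3 _ (by simpa [HP] using w2), hy]⟩
    linarith [Real.log_le_sub_one_of_pos w0, hlow w w1]
  refine ⟨⟨c, fun t y => Ψ (t, y), p1, fun t y ht => p2 (t, y) ht, per',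
    fun t y t' y' ht ht' e => ?_, fun ε hε => ?_, ((|R| + 2 : ℝ) : ℂ), 1, 2 * (|R| + 3), one_pos,
    fun z hz => ?_⟩, rfl, R, fun z hz => ?_⟩
  · obtain ⟨n, hn⟩ := exists_HP T (p := (t, y)) ht
    obtain ⟨n', hn'⟩ := exists_HP T (p := (t', y')) ht'
    exact inj _ _ (HP_mono hT (le_max_left n n') hn) _ (HP_mono hT (le_max_right n n') hn') e
  · refine ⟨T + 1 + 2 * ‖c‖ / ε, fun t ht y => ?_⟩
    have a0 : 0 ≤ 2 * ‖c‖ / ε := by positivity
    have a1 : (t, y) ∈ HP T 0 := by simp only [HP, mem_ofPred_eq]; linarith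
    rw [p3 _ a1]
    refine (h4 _ (hm _ a1)).trans_lt ?_
    have a2 := Real.add_one_le_exp t
    have a3 : 2 * ‖c‖ < ε * Real.exp t ^ 2 := by
      rw [← div_lt_iff₀' hε]; nlinarith
    rw [norm_inv, norm_ex, inv_pow, ← mul_assoc, ← div_eq_mul_inv, div_lt_iff₀ (by positivity)]
    exact a3
  · rw [mem_ball, dist_eq_norm] at hz
    have a1 := abs_norm_sub_norm_le z ((|R| + 2 : ℝ) : ℂ)
    rw [Complex.norm_real, Real.norm_of_nonneg (by positivity), abs_le] at a1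
    obtain ⟨t, y, b1, b2, b3⟩ := surj z (by linarith [le_abs_self R])
    exact ⟨t, y, b1, by linarith, b3⟩
  · obtain ⟨t, y, b1, _, b3⟩ := surj z hz
    exact ⟨t, y, b1, b3⟩

end Pool.Agent.MP_61ef33_al
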