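import Pool.Agent.MP_61ef33_al.M2

/- The shrinking lemma without legs, and landing of a ray at the critical value. -/

namespace Pool.Agent.MP_61ef33_al

open Filter Topology Set Metric unitInterval

/-- A forward invariant set containing the critical value. -/
structure PC where
  c : ℂ
  P : Set ℂ
  hc : c ∈ P
  hf : ∀ z ∈ P, qf c z ∈ P

namespace PC

variable (A : PC)

theorem pull_P {z : ℂ} (h : qf A.c z ∉ A.P) : z ∉ A.P := fun hz => h (A.hf z hz)

theorem pull_P_iter {n : ℕ} {z : ℂ} (h : (qf A.c)^[n] z ∉ A.P) : z ∉ A.P := by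
  induction n with
  | zero => exact h
  | succ n ih => rw [Function.iterate_succ_apply'] at h; exact ih (A.pull_P h)

theorem ne_zero_of {z : ℂ} (h : qf A.c z ∉ A.P) : z ≠ 0 := by
  rintro rfl
  exact h (by simpa [qf] using A.hc)

theorem lift_unique {n : ℕ} {α : Type} [TopologicalSpace α] {T : Set α} (hT : IsPreconnected T)
    {Γ Γ' : α → ℂ} (h1 : ContinuousOn Γ T) (h2 : ContinuousOn Γ' T)
    (hP : ∀ τ ∈ T, (qf A.c)^[n] (Γ τ) ∉ A.P)
    (h : ∀ τ ∈ T, (qf A.c)^[n] (Γ τ) = (qf A.c)^[n] (Γ' τ)) {a : α} (ha : a ∈ T)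
    (h0 : Γ a = Γ' a) : ∀ τ ∈ T, Γ τ = Γ' τ := by
  induction n with
  | zero => exact h
  | succ n ih =>
    simp only [Function.iterate_succ_apply'] at h hP
    refine ih (fun τ hτ => A.pull_P (hP τ hτ)) ?_
    refine sq_unique hT (((continuous_qf A.c).iterate n).comp_continuousOn h1)
      (((continuous_qf A.c).iterate n).comp_continuousOn h2)
      (fun τ hτ => add_right_cancel (h τ hτ))
      (fun τ hτ => A.ne_zero_of (h τ hτ ▸ hP τ hτ)) ha (by simp [h0])

theorem hasDeriv_iter {n : ℕ} {y : ℂ} (h : (qf A.c)^[n] y ∉ A.P) :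
    ∃ d ≠ 0, HasDerivAt (qf A.c)^[n] d y := by
  induction n with
  | zero => exact ⟨1, one_ne_zero, hasDerivAt_id y⟩
  | succ n ih =>
    rw [Function.iterate_succ_apply'] at h
    obtain ⟨d, h1, h2⟩ := ih (A.pull_P h)
    refine ⟨2 * (qf A.c)^[n] y * d, mul_ne_zero (mul_ne_zero two_ne_zero (A.ne_zero_of h)) h1, ?_⟩
    rw [Function.iterate_succ']
    have : HasDerivAt (qf A.c) (2 * (qf A.c)^[n] y) ((qf A.c)^[n] y) := by
      have h0 : HasDerivAt (fun x : ℂ => x ^ 2) (2 * (qf A.c)^[n] y) ((qf A.c)^[n] y) := by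
        simpa using hasDerivAt_pow 2 ((qf A.c)^[n] y)
      exact h0.add_const A.c
    exact this.comp y h2

theorem exists_cbranch {x : ℂ} {R : ℝ} (hP : ∀ z ∈ ball x R, z ∉ A.P) (n : ℕ) {y : ℂ}
    (hy : (qf A.c)^[n] y ∈ ball x R) : ∃ g : ℂ → ℂ, ContinuousOn g (ball x R) ∧
      (∀ z ∈ ball x R, (qf A.c)^[n] (g z) = z) ∧ g ((qf A.c)^[n] y) = y := by
  induction n generalizing y with
  | zero => exact ⟨id, continuousOn_id, fun _ _ => rfl, rfl⟩
  | succ n ih =>
    obtain ⟨g, h1, h2, h3⟩ := ih (y := qf A.c y) hy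
    have := (convex_ball x R).contractibleSpace ⟨_, hy⟩
    obtain ⟨q, q1, q2⟩ := Complex.exists_continuousOn_pow_eq (U := ball x R)
      (g := fun z => g z - A.c) (n := 2) (inferInstance : SimplyConnectedSpace (ball x R))
      isOpen_ball (h1.sub continuousOn_const) (by
        rintro ⟨z, hz, e⟩
        refine A.pull_P_iter (n := n) (z := g z) (by rw [h2 z hz]; exact hP z hz) ?_
        rw [sub_eq_zero.1 e]; exact A.hc) (by norm_num)
    obtain ⟨e, he⟩ := exists_sg (a := y) (b := q ((qf A.c)^[n + 1] y)) (by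
      rw [q2, Function.iterate_succ_apply, h3, qf]; ring)
    refine ⟨fun z => sg e * q z, continuousOn_const.mul q1, fun z hz => ?_, he.symm⟩
    rw [Function.iterate_succ_apply, qf, mul_pow, sg_sq, one_mul, q2, sub_add_cancel, h2 z hz]

theorem exists_branch {x : ℂ} {R : ℝ} (hP : ∀ z ∈ ball x R, z ∉ A.P) (n : ℕ) {y : ℂ}
    (hy : (qf A.c)^[n] y ∈ ball x R) : ∃ g : ℂ → ℂ, DifferentiableOn ℂ g (ball x R) ∧
      (∀ z ∈ ball x R, (qf A.c)^[n] (g z) = z) ∧
      ∀ y', JoinedIn ((qf A.c)^[n] ⁻¹' ball x R) y y' → g ((qf A.c)^[n] y') = y' := by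
  obtain ⟨g, h1, h2, h3⟩ := A.exists_cbranch hP n hy
  refine ⟨g, fun z hz => ?_, h2, ?_⟩
  · obtain ⟨d, d1, d2⟩ := A.hasDeriv_iter (n := n) (y := g z) (by rw [h2 z hz]; exact hP z hz)
    exact (HasDerivAt.of_local_left_inverse (h1.continuousAt (isOpen_ball.mem_nhds hz)) d2 d1
      (mem_of_superset (isOpen_ball.mem_nhds hz) h2)).differentiableAt.differentiableWithinAt
  · rintro y' ⟨η, hη⟩
    have hc : Continuous fun τ => (qf A.c)^[n] (η τ) :=
      ((continuous_qf A.c).iterate n).comp η.continuous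
    have := A.lift_unique (n := n) isPreconnected_univ η.continuous.continuousOn
      (Γ' := fun τ => g ((qf A.c)^[n] (η τ))) (h1.comp_continuous hc hη).continuousOn
      (fun τ _ => hP _ (hη τ)) (fun τ _ => (h2 _ (hη τ)).symm) (mem_univ 0) (by simp [h3]) 1
      (mem_univ 1)
    simpa using this.symm

theorem branch_bound {x : ℂ} {R : ℝ} {n : ℕ} {g : ℂ → ℂ}
    (h : ∀ z ∈ ball x R, (qf A.c)^[n] (g z) = z) {z : ℂ} (hz : z ∈ ball x R) :
    ‖g z‖ ≤ max (‖x‖ + R) (2 + ‖A.c‖) := by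
  have := norm_le_iter A.c n (g z)
  rw [h z hz] at this
  refine this.trans (max_le_max ?_ le_rfl)
  rw [mem_ball, dist_eq_norm] at hz
  linarith [norm_sub_norm_le z x]

/-- Preimages of a small disc about `x` shrink uniformly. -/
def Shr (x : ℂ) : Prop := ∃ r > 0, ∀ ε > 0, ∃ N, ∀ n ≥ N, ∀ y y',
  JoinedIn ((qf A.c)^[n] ⁻¹' ball x r) y y' → dist y y' ≤ ε

theorem shr_of {x x' : ℂ} {R r : ℝ} (hP : ∀ z ∈ ball x R, z ∉ A.P) (hr : 0 < r)
    (hsub : ball x' r ⊆ ball x R) (h : ∀ ε > 0, ∃ N, ∀ n ≥ N, ∀ g : ℂ → ℂ,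
      DifferentiableOn ℂ g (ball x R) → (∀ z ∈ ball x R, (qf A.c)^[n] (g z) = z) →
      ∀ z ∈ ball x' r, ∀ z' ∈ ball x' r, dist (g z) (g z') ≤ ε) : A.Shr x' := by
  refine ⟨r, hr, fun ε hε => ?_⟩
  obtain ⟨N, hN⟩ := h ε hε
  refine ⟨N, fun n hn y y' hj => ?_⟩
  obtain ⟨g, h1, h2, h3⟩ := A.exists_branch hP n (hsub hj.source_mem)
  have := hN n hn g h1 h2 _ hj.source_mem _ hj.target_mem
  rwa [h3 y' (hj.mono (preimage_mono hsub)), h3 y (JoinedIn.refl (hsub hj.source_mem))] at this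

theorem Shr.prop {A : PC} {x : ℂ} (h : A.Shr x) {R : ℝ} (hP : ∀ z ∈ ball x R, z ∉ A.P)
    {x' : ℂ} (hx' : x' ∈ ball x (R / 2)) : A.Shr x' := by
  have hR : 0 < R := by have := pos_of_mem_ball hx'; linarith
  obtain ⟨r', hr', hsub⟩ := Metric.isOpen_iff.1 isOpen_ball x' hx'
  refine A.shr_of hP hr' (hsub.trans (ball_subset_ball (by linarith))) fun ε hε => ?_
  obtain ⟨r, hr, h⟩ := h
  obtain ⟨η, hη, h3⟩ := three_circles (M := 2 * max (‖x‖ + R) (2 + ‖A.c‖)) hr hR
    (show 0 < ε / 2 by linarith)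
  obtain ⟨N, hN⟩ := h η hη
  refine ⟨N, fun n hn g g1 g2 => ?_⟩
  have key := h3 x g g1 (fun z hz => by
      have := A.branch_bound g2 hz
      have := A.branch_bound g2 (mem_ball_self hR)
      linarith [norm_sub_le (g z) (g x)]) (fun z hz hz' => by
      rw [← dist_eq_norm]
      refine hN n hn _ _ ?_
      have hc : Convex ℝ (ball x r ∩ ball x R) := (convex_ball _ _).inter (convex_ball _ _)
      have hj := (hc.isPathConnected ⟨z, hz, hz'⟩).joinedIn z ⟨hz, hz'⟩ x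
        ⟨mem_ball_self hr, mem_ball_self hR⟩
      refine (hj.map_continuousOn (g1.continuousOn.mono inter_subset_right)).mono ?_
      rintro _ ⟨w, hw, rfl⟩
      change (qf A.c)^[n] (g w) ∈ ball x r
      rw [g2 w hw.2]; exact hw.1)
  intro z hz z' hz'
  have a1 := key z (hsub hz)
  have a2 := key z' (hsub hz')
  rw [← dist_eq_norm] at a1 a2
  linarith [dist_triangle_right (g z) (g z') (g x)]

theorem shr_all (hfin : A.P.Finite) {x0 : ℂ} (hx0 : x0 ∉ A.P) (h0 : A.Shr x0) {x : ℂ}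
    (hx : x ∉ A.P) : A.Shr x := by
  have hc : IsPreconnected A.Pᶜ :=
    (hfin.countable.isPathConnected_compl_of_one_lt_rank
      (by simp)).isConnected.isPreconnected
  refine hc.induction₂' (fun a b => A.Shr a → A.Shr b) (fun a ha => ?_)
    (fun _ _ _ _ _ _ h h' => h' ∘ h) hx0 hx h0
  obtain ⟨R, hR, hsub⟩ := Metric.isOpen_iff.1 hfin.isClosed.isOpen_compl a ha
  refine mem_nhdsWithin_of_mem_nhds ?_
  filter_upwards [ball_mem_nhds a (show 0 < R / 4 by linarith)] with b hb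
  refine ⟨fun h => h.prop (R := R) (fun z hz => hsub hz) (ball_subset_ball (by linarith) hb),
    fun h => h.prop (R := R / 2) (fun z hz => hsub ?_) (by
      rw [mem_ball, dist_comm]; rw [mem_ball] at hb; linarith)⟩
  rw [mem_ball] at *
  linarith [dist_triangle z b a]

end PC

namespace BD

variable (B : BD)

theorem shr_base' {A : PC} (hc : A.c = B.c) (hU : ∀ s ∈ A.P, s ∉ B.U) :
    ∃ x ∉ A.P, A.Shr x := by
  obtain ⟨x, r, C, hr, h⟩ := B.opn
  have hP : ∀ z ∈ ball x r, z ∉ A.P := by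
    intro z hz hs
    obtain ⟨t, y, h1, _, h3⟩ := h _ hz
    exact hU z hs ⟨t, y, h1, h3⟩
  refine ⟨x, hP x (mem_ball_self hr), A.shr_of hP (show 0 < r / 2 by linarith)
    (ball_subset_ball (by linarith)) fun ε hε => ?_⟩
  obtain ⟨ρ, hρ, hl⟩ := landau (M := max (‖x‖ + r) (2 + ‖A.c‖)) (show 0 < r / 2 by linarith)
    (show 0 < ε / r by positivity)
  obtain ⟨N, hN⟩ := B.inradius C (max (‖x‖ + r) (2 + ‖A.c‖)) hρ
  refine ⟨N, fun n hn g g1 g2 z hz z' hz' => ?_⟩
  have hb : ball x (r / 2) ⊆ ball x r := ball_subset_ball (by linarith)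
  have hd : ∀ z0 ∈ ball x (r / 2), ‖deriv g z0‖ ≤ ε / r := by
    intro z0 h0
    by_contra hlt
    have hsub : ball z0 (r / 2) ⊆ ball x r := ball_subset_ball' (by rw [mem_ball] at h0; linarith)
    refine hN n hn (g z0) (A.branch_bound g2 (hb h0)) ((hl g z0 (g1.mono hsub)
      (fun w hw => A.branch_bound g2 (hsub hw)) (not_le.1 hlt).le).trans ?_)
    rintro _ ⟨w, hw, rfl⟩
    obtain ⟨t, y, a1, a2, a3⟩ := h w (hsub hw)
    obtain ⟨y', e⟩ := B.pre_iter (n := n) a1 (z := g w) (by rw [← hc, g2 w (hsub hw), a3])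
    exact ⟨t / 2 ^ n, y', by positivity, by gcongr, e.symm⟩
  have := (convex_ball x (r / 2)).norm_image_sub_le_of_norm_deriv_le
    (fun z0 h0 => g1.differentiableAt (isOpen_ball.mem_nhds (hb h0))) hd hz' hz
  rw [dist_eq_norm]
  refine this.trans ?_
  have h2 : ‖z - z'‖ ≤ r := by
    rw [← dist_eq_norm]; rw [mem_ball] at hz hz'
    linarith [dist_triangle_right z z' x]
  calc ε / r * ‖z - z'‖ ≤ ε / r * r := by gcongr
    _ = ε := by field_simp

end BD

end Pool.Agent.MP_61ef33_al
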