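import Pool.Agent.MP_61ef33_al.M3

/- Some external ray lands at the critical value. -/

namespace Pool.Agent.MP_61ef33_al

open Filter Topology Set Metric

namespace BD

variable (B : BD)

def pc : PC := ⟨B.c, B.P, ⟨0, rfl⟩, fun z hz => (nxP ⟨z, hz⟩).2⟩

variable {B}

theorem Mis.shr (M : B.Mis) (hf : B.P.Finite) {x : ℂ} (hx : x ∉ B.P) : B.pc.Shr x := by
  obtain ⟨x0, h1, h2⟩ := B.shr_base' (A := B.pc) rfl fun s hs => M.notU' ⟨s, hs⟩
  exact B.pc.shr_all hf h1 h2 hx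

noncomputable def dn (B : BD) (n : ℕ) (m : ℤ) (p : ℝ × ℝ) : ℂ := B.Ψ (p.1 / 2 ^ n) ((p.2 + m) / 2 ^ n)

theorem Mis.unif (M : B.Mis) (hf : B.P.Finite) {K : Set (ℝ × ℝ)} (hK : IsCompact K)
    (hpos : ∀ p ∈ K, 0 < p.1) : ∀ ε > 0, ∃ N, ∀ n ≥ N, ∀ m, ∀ p ∈ K,
      dist (B.dn n m p) (B.dn n m (1, 0)) ≤ ε := by
  let V : ℝ × ℝ → Set (ℝ × ℝ) → Prop := fun q S => ∀ ε > 0, ∃ N, ∀ n ≥ N, ∀ m, ∀ p ∈ S,
    dist (B.dn n m p) (B.dn n m q) ≤ ε
  have ho : IsOpen {p : ℝ × ℝ | 0 < p.1} := isOpen_lt continuous_const continuous_fst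
  have loc : ∀ q : ℝ × ℝ, 0 < q.1 → ∃ S ∈ 𝓝 q, V q S := by
    intro q hq
    obtain ⟨r, hr, h⟩ := M.shr hf (x := B.Ψ q.1 q.2) fun h => M.notU' ⟨_, h⟩ ⟨_, _, hq, rfl⟩
    obtain ⟨δ, hδ, hsub⟩ := Metric.mem_nhds_iff.1 (inter_mem (ho.mem_nhds hq)
      ((B.cont.continuousAt (ho.mem_nhds hq)).preimage_mem_nhds (ball_mem_nhds _ hr)))
    refine ⟨_, ball_mem_nhds q hδ, fun ε hε => ?_⟩
    obtain ⟨N, hN⟩ := h ε hε
    refine ⟨N, fun n hn m p hp => hN n hn _ _ ?_⟩
    have hj := ((convex_ball q δ).isPathConnected ⟨p, hp⟩).joinedIn p hp q (mem_ball_self hδ)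
    refine (hj.map_continuousOn (f := B.dn n m) (B.contOn (by fun_prop) (by fun_prop)
      fun a ha => div_pos (hsub ha).1 (by positivity))).mono ?_
    rintro _ ⟨a, ha, rfl⟩
    change (qf B.c)^[n] (B.dn n m a) ∈ ball _ r
    rw [dn, B.iter (div_pos (hsub ha).1 (by positivity)), mul_div_cancel₀ _ (by positivity),
      mul_div_cancel₀ _ (by positivity), B.per]
    exact (hsub ha).2
  have tr : ∀ a b S, V a {b} → V b S → V a S := by
    intro a b S h h' ε hε
    obtain ⟨N, hN⟩ := h (ε / 2) (by linarith)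
    obtain ⟨N', hN'⟩ := h' (ε / 2) (by linarith)
    refine ⟨max N N', fun n hn m p hp => ?_⟩
    linarith [hN n (le_of_max_le_left hn) m b rfl, hN' n (le_of_max_le_right hn) m p hp,
      dist_triangle (B.dn n m p) (B.dn n m b) (B.dn n m a)]
  have hpc : IsPreconnected {p : ℝ × ℝ | 0 < p.1} :=
    ((convex_Ioi (0 : ℝ)).linear_preimage (LinearMap.fst ℝ ℝ ℝ)).isPreconnected
  have pt : ∀ b : ℝ × ℝ, 0 < b.1 → V (1, 0) {b} := by
    intro b hb
    refine hpc.induction₂' (fun a b => V a {b}) (fun a ha => ?_)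
      (fun a b c _ _ _ h h' => tr a b _ h h') (show (0 : ℝ) < 1 from one_pos) hb
    obtain ⟨S, h1, h2⟩ := loc a ha
    refine mem_nhdsWithin_of_mem_nhds ?_
    filter_upwards [h1] with b hb
    constructor
    · intro ε hε
      obtain ⟨N, hN⟩ := h2 ε hε
      exact ⟨N, fun n hn m p hp => hp ▸ hN n hn m b hb⟩
    · intro ε hε
      obtain ⟨N, hN⟩ := h2 ε hε
      exact ⟨N, fun n hn m p hp => by rw [hp, dist_comm]; exact hN n hn m b hb⟩
  refine hK.induction_on (p := V (1, 0)) (fun ε _ => ⟨0, fun _ _ _ _ h => h.elim⟩)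
    (fun s t hst h ε hε => ?_) (fun s t h h' ε hε => ?_) fun q hq => ?_
  · obtain ⟨N, hN⟩ := h ε hε
    exact ⟨N, fun n hn m p hp => hN n hn m p (hst hp)⟩
  · obtain ⟨N, hN⟩ := h ε hε
    obtain ⟨N', hN'⟩ := h' ε hε
    exact ⟨max N N', fun n hn m p hp => hp.elim (hN n (le_of_max_le_left hn) m p)
      (hN' n (le_of_max_le_right hn) m p)⟩
  · obtain ⟨S, h1, h2⟩ := loc q (hpos q hq)
    exact ⟨S, mem_nhdsWithin_of_mem_nhds h1, tr _ q S (pt q (hpos q hq)) h2⟩

theorem Mis.seg (M : B.Mis) (hf : B.P.Finite) {d ε : ℝ} (hd : 1 ≤ d) (hε : 0 < ε) :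
    ∃ τ > 0, ∀ t, 0 < t → t ≤ τ → ∀ y, ∀ s ∈ Icc t (d * t), dist (B.Ψ s y) (B.Ψ t y) ≤ ε := by
  obtain ⟨N, hN⟩ := M.unif hf (K := Icc 1 (2 * d) ×ˢ Icc 0 1) (isCompact_Icc.prod isCompact_Icc)
    (fun p hp => one_pos.trans_le hp.1.1) (ε / 2) (by linarith)
  refine ⟨1 / 2 ^ N, by positivity, fun t ht hτ y s hs => ?_⟩
  have h1 : (2 : ℝ) ^ N ≤ 1 / t := by
    rw [le_div_iff₀ ht]; rw [le_div_iff₀ (by positivity)] at hτ; linarith
  obtain ⟨k, k1, k2⟩ := exists_nat_pow_near ((one_le_pow₀ one_le_two).trans h1) one_lt_two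
  have k3 : N ≤ k + 1 := (pow_le_pow_iff_right₀ one_lt_two).1 (h1.trans k2.le)
  rw [le_div_iff₀ ht] at k1
  rw [div_lt_iff₀ ht] at k2
  have key : ∀ s ∈ Icc t (d * t), dist (B.Ψ s y)
      (B.dn (k + 1) ⌊2 ^ (k + 1) * y⌋ (1, 0)) ≤ ε / 2 := by
    intro s hs
    have p0 : (0 : ℝ) < 2 ^ (k + 1) := by positivity
    have := hN (k + 1) k3 ⌊2 ^ (k + 1) * y⌋ (2 ^ (k + 1) * s, Int.fract (2 ^ (k + 1) * y))
      ⟨⟨k2.le.trans (mul_le_mul_of_nonneg_left hs.1 p0.le),
        (mul_le_mul_of_nonneg_left hs.2 p0.le).trans (by rw [pow_succ]; nlinarith)⟩,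
        Int.fract_nonneg _, (Int.fract_lt_one _).le⟩
    rwa [dn, Int.fract_add_floor, mul_div_cancel_left₀ _ p0.ne', mul_div_cancel_left₀ _ p0.ne']
      at this
  linarith [key s hs, key t ⟨le_rfl, by nlinarith⟩, dist_triangle_right (B.Ψ s y) (B.Ψ t y)
    (B.dn (k + 1) ⌊2 ^ (k + 1) * y⌋ (1, 0))]

theorem Mis.cbranch (M : B.Mis) {p : ℂ} {R : ℝ} (hR : 0 < R)
    (hP : ∀ z ∈ ball p R, z ∈ B.P → z = p) (n : ℕ) {y : ℂ} (hy : y ∈ B.P)
    (e : (qf B.c)^[n] y = p) : ∃ g : ℂ → ℂ, ContinuousOn g (ball p R) ∧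
      (∀ z ∈ ball p R, (qf B.c)^[n] (g z) = z) ∧ g p = y := by
  induction n generalizing y with
  | zero => exact ⟨id, continuousOn_id, fun _ _ => rfl, e.symm⟩
  | succ n ih =>
    obtain ⟨g, h1, h2, h3⟩ := ih (B.pc.hf y hy) e
    have := (convex_ball p R).contractibleSpace ⟨_, mem_ball_self hR⟩
    obtain ⟨q, q1, q2⟩ := Complex.exists_continuousOn_pow_eq (U := ball p R)
      (g := fun z => g z - B.c) (n := 2) (inferInstance : SimplyConnectedSpace (ball p R))
      isOpen_ball (h1.sub continuousOn_const) (by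
        rintro ⟨z, hz, e⟩
        have e1 := sub_eq_zero.1 e
        obtain rfl := hP z hz ⟨n, by rw [← h2 z hz, e1]⟩
        exact M.ne0' ⟨y, hy⟩ (by simpa [pc, qf] using h3.symm.trans e1)) (by norm_num)
    obtain ⟨e, he⟩ := exists_sg (a := y) (b := q p) (by rw [q2, h3, pc, qf]; ring)
    refine ⟨fun z => sg e * q z, continuousOn_const.mul q1, fun z hz => ?_, he.symm⟩
    rw [Function.iterate_succ_apply, qf, mul_pow, sg_sq, one_mul, q2, sub_add_cancel, h2 z hz]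

theorem Mis.contr (M : B.Mis) (hf : B.P.Finite) {p : ℂ} (hp : p ∈ B.P) {m : ℕ} (hm : 0 < m)
    (e : (qf B.c)^[m] p = p) : ∃ r > 0, ∃ j > 0, ∃ G : ℂ → ℂ, ContinuousOn G (ball p r) ∧
      (∀ z ∈ ball p r, (qf B.c)^[j] (G z) = z) ∧ ∀ z ∈ ball p r, dist (G z) p ≤ dist z p / 2 := by
  obtain ⟨R, hR, hsub⟩ := Metric.isOpen_iff.1 (hf.subset (sdiff_subset (t := {p}))).isClosed.isOpen_compl
    p (by simp)
  have hP : ∀ z ∈ ball p R, z ∈ B.P → z = p := fun z hz h => by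
    by_contra hne; exact hsub hz ⟨h, hne⟩
  set x := p + (R / 4 : ℝ)
  have hx : dist x p = R / 4 := by
    rw [dist_eq_norm, add_sub_cancel_left, Complex.norm_real, Real.norm_of_nonneg (by positivity)]
  have s1 : ball x (3 * R / 4) ⊆ ball p R := ball_subset_ball' (by linarith)
  have s2 : ball p (R / 8) ⊆ ball x (3 * R / 4 / 2) :=
    ball_subset_ball' (by rw [dist_comm]; linarith)
  have hx1 : x ∈ ball x (3 * R / 4) := mem_ball_self (by linarith)
  obtain ⟨r, hr, h⟩ := M.shr hf (x := x) fun h => by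
    rw [hP x (s1 hx1) h, dist_self] at hx; linarith
  obtain ⟨η, hη, h3⟩ := three_circles (M := 2 * max (‖p‖ + R) (2 + ‖B.c‖)) hr
    (show 0 < 3 * R / 4 by linarith) (show 0 < R / 32 by linarith)
  obtain ⟨N, hN⟩ := h η hη
  obtain ⟨g, g1, g2, g3⟩ := M.cbranch hR hP (m * (N + 1)) hp (by
    rw [Function.iterate_mul]; exact Function.iterate_fixed e _)
  have gd : DifferentiableOn ℂ g (ball p R) := by
    rw [← Complex.differentiableOn_compl_singleton_and_continuousAt_iff (ball_mem_nhds p hR)]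
    refine ⟨fun z hz => ?_, g1.continuousAt (ball_mem_nhds p hR)⟩
    obtain ⟨d, d1, d2⟩ := B.pc.hasDeriv_iter (n := m * (N + 1)) (y := g z)
      (by change (qf B.c)^[_] _ ∉ B.P; rw [g2 z hz.1]; exact fun h => hz.2 (hP z hz.1 h))
    exact (HasDerivAt.of_local_left_inverse (g1.continuousAt (isOpen_ball.mem_nhds hz.1)) d2 d1
      (mem_of_superset (isOpen_ball.mem_nhds hz.1) g2)).differentiableAt.differentiableWithinAt
  have key := h3 x g (gd.mono s1) (fun z hz => by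
      have := B.pc.branch_bound g2 (s1 hz)
      have := B.pc.branch_bound g2 (s1 hx1)
      simp only [pc] at *
      linarith [norm_sub_le (g z) (g x)]) (fun z hz hz' => by
      rw [← dist_eq_norm]
      refine hN (m * (N + 1)) (by nlinarith) _ _ ?_
      have hc : Convex ℝ (ball x r ∩ ball x (3 * R / 4)) := (convex_ball _ _).inter (convex_ball _ _)
      have hj := (hc.isPathConnected ⟨z, hz, hz'⟩).joinedIn z ⟨hz, hz'⟩ x ⟨mem_ball_self hr, hx1⟩
      refine (hj.map_continuousOn (g1.mono (inter_subset_right.trans s1))).mono ?_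
      rintro _ ⟨w, hw, rfl⟩
      change (qf B.c)^[_] (g w) ∈ ball x r
      rw [g2 w (s1 hw.2)]; exact hw.1)
  have s3 : ball p (R / 8) ⊆ ball p R := ball_subset_ball (by linarith)
  refine ⟨R / 8, by linarith, _, by positivity, g, g1.mono s3, fun z hz => g2 z (s3 hz),
    fun z hz => ?_⟩
  have := Complex.dist_le_div_mul_dist_of_mapsTo_ball (gd.mono s3) (R₂ := R / 16) (fun w hw => by
    have a1 := key w (s2 hw)
    have a2 := key p (s2 (mem_ball_self (by linarith)))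
    rw [← dist_eq_norm] at a1 a2
    rw [mem_closedBall]
    linarith [dist_triangle_right (g w) (g p) (g x)]) hz
  rw [g3, show R / 16 / (R / 8) = 1 / 2 by field_simp; norm_num] at this
  linarith

theorem iter_contr {c p : ℂ} {r : ℝ} {j : ℕ} {G : ℂ → ℂ}
    (h1 : ∀ z ∈ ball p r, (qf c)^[j] (G z) = z) (h2 : ∀ z ∈ ball p r, dist (G z) p ≤ dist z p / 2)
    {z : ℂ} (hz : z ∈ ball p r) (n : ℕ) :
    ∃ w ∈ ball p r, (qf c)^[j * n] w = z ∧ dist w p ≤ dist z p / 2 ^ n := by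
  induction n with
  | zero => exact ⟨z, hz, rfl, by simp⟩
  | succ n ih =>
    obtain ⟨w, w1, w2, w3⟩ := ih
    have := h2 w w1
    refine ⟨G w, ?_, by rw [mul_add, mul_one, Function.iterate_add_apply, h1 w w1, w2], ?_⟩
    · rw [mem_ball] at *; linarith [dist_nonneg (x := w) (y := p)]
    · rw [pow_succ, ← div_div]; linarith

theorem meets_U {R0 : ℝ} (hR : ∀ z, R0 < ‖z‖ → z ∈ B.U) {p : ℂ} {r : ℝ} (hr : 0 < r) {j : ℕ}
    {G : ℂ → ℂ} (h1 : ∀ z ∈ ball p r, (qf B.c)^[j] (G z) = z)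
    (h2 : ∀ z ∈ ball p r, dist (G z) p ≤ dist z p / 2) : ∃ z ∈ ball p r, z ∈ B.U := by
  by_contra hn
  push Not at hn
  have hb : ∀ n, ∀ z ∈ ball p r, ‖(qf B.c)^[n] z‖ ≤ R0 := fun n z hz => not_lt.1 fun h => by
    obtain ⟨t, y, ht, e⟩ := hR _ h
    obtain ⟨y', e'⟩ := B.pre_iter ht e.symm
    exact hn z hz ⟨_, y', by positivity, e'.symm⟩
  have hp : (qf B.c)^[j] p = p := by
    have := h2 p (mem_ball_self hr)
    rw [dist_self, zero_div, dist_le_zero] at this
    simpa [this] using h1 p (mem_ball_self hr)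
  have hd : ∀ n, Differentiable ℂ (qf B.c)^[n] := fun n =>
    Differentiable.iterate (by unfold qf; fun_prop) n
  set z := p + (r / 2 : ℝ)
  have hz : dist z p = r / 2 := by
    rw [dist_eq_norm, add_sub_cancel_left, Complex.norm_real, Real.norm_of_nonneg (by positivity)]
  obtain ⟨n, hn⟩ := pow_unbounded_of_one_lt (2 * R0 / r) (one_lt_two (α := ℝ))
  obtain ⟨w, w1, w2, w3⟩ := iter_contr h1 h2 (z := z) (by rw [mem_ball]; linarith) n
  have := Complex.dist_le_div_mul_dist_of_mapsTo_ball (hd (j * n)).differentiableOn (R₂ := 2 * R0)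
    (fun a ha => by
      rw [mem_closedBall, dist_eq_norm]
      linarith [hb (j * n) a ha, hb (j * n) p (mem_ball_self hr), norm_sub_le ((qf B.c)^[j * n] a)
        ((qf B.c)^[j * n] p)]) w1
  rw [w2, Function.iterate_mul, Function.iterate_fixed hp, hz] at this
  rw [hz, le_div_iff₀ (by positivity)] at w3
  have h0 : 0 < dist w p := lt_of_le_of_ne dist_nonneg fun e => by
    rw [← e] at this; linarith
  nlinarith [mul_lt_mul_of_pos_right hn h0]

theorem Mis.lands_per (M : B.Mis) (hf : B.P.Finite) {R0 : ℝ} (hR : ∀ z, R0 < ‖z‖ → z ∈ B.U)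
    {p : ℂ} (hp : p ∈ B.P) {m : ℕ} (hm : 0 < m) (e : (qf B.c)^[m] p = p) : ∃ y, B.Lands y p := by
  obtain ⟨r, hr, j, hj, G, g1, g2, g3⟩ := M.contr hf hp hm e
  set d : ℝ := 2 ^ j with hd
  have d1 : 1 < d := one_lt_pow₀ one_lt_two hj.ne'
  obtain ⟨τ, hτ, hs⟩ := M.seg hf d1.le (show 0 < r / 4 by linarith)
  obtain ⟨t, y0, ht, htτ, h0⟩ : ∃ t y, 0 < t ∧ t ≤ τ ∧ dist (B.Ψ t y) p ≤ r / 2 := by
    obtain ⟨z, hz, t, y, ht, rfl⟩ := meets_U hR hr g2 g3
    obtain ⟨n, hn⟩ := pow_unbounded_of_one_lt (t / τ) (one_lt_two (α := ℝ))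
    obtain ⟨w, w1, w2, w3⟩ := iter_contr g2 g3 hz (n + 1)
    obtain ⟨y', e'⟩ := B.pre_iter ht w2
    have a1 : (2 : ℝ) ^ n ≤ 2 ^ (j * (n + 1)) := pow_le_pow_right₀ one_le_two (by nlinarith)
    refine ⟨_, y', by positivity, ?_, e' ▸ w3.trans ?_⟩
    · rw [div_le_iff₀ (by positivity)]
      rw [div_lt_iff₀ hτ] at hn
      nlinarith
    · rw [mem_ball] at hz
      have : (2 : ℝ) ^ 1 ≤ 2 ^ (n + 1) := pow_le_pow_right₀ one_le_two (by omega)
      rw [pow_one] at this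
      gcongr
  let Q : ℕ → ℝ → Prop := fun i y => ∀ l ≤ i, ∀ s ∈ Icc (t / d ^ i) (d * t / d ^ l),
    dist (B.Ψ s y) p ≤ 3 * r / 4 / 2 ^ l
  have hpos : ∀ i, 0 < t / d ^ i := fun i => by positivity
  have hQ : ∀ i, ∃ y, Q i y := by
    intro i
    induction i with
    | zero =>
      refine ⟨y0, fun l hl s h => ?_⟩
      obtain rfl : l = 0 := by omega
      simp only [pow_zero, div_one] at h ⊢
      linarith [hs t ht htτ y0 s h, dist_triangle (B.Ψ s y0) (B.Ψ t y0) p]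
    | succ i ih =>
      obtain ⟨y, hy⟩ := ih
      have hJ : ∀ s ∈ Icc (t / d ^ i) (d * t), B.Ψ s y ∈ ball p r := fun s h => by
        have := hy 0 (Nat.zero_le _) s (by simpa using h)
        rw [mem_ball]; simp only [pow_zero, div_one] at this; linarith
      have le1 : t / d ^ i ≤ t := div_le_self ht.le (one_le_pow₀ d1.le)
      have top : d * t ∈ Icc (t / d ^ i) (d * t) := ⟨by nlinarith, le_rfl⟩
      obtain ⟨y', e'⟩ := B.pre_iter (by positivity : 0 < d * t) (g2 _ (hJ _ top))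
      have e1 := g2 _ (hJ _ top)
      rw [e', B.iter (by positivity)] at e1
      obtain ⟨_, k, hk⟩ := B.inj _ _ _ _ (by positivity) (by positivity) e1
      have e2 : ∀ s ∈ Icc (t / d ^ i) (d * t), (qf B.c)^[j] (B.Ψ (s / d) y') = B.Ψ s y :=
        fun s h => by
          have := (hpos i).trans_le h.1
          rw [B.iter (by positivity), hk, B.per, ← hd, mul_div_cancel₀ _ (by positivity)]
      have lift := B.pc.lift_unique (n := j) isPreconnected_Icc (Γ := fun s => B.Ψ (s / d) y')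
        (Γ' := fun s => G (B.Ψ s y)) (B.contOn (by fun_prop) (by fun_prop)
          fun s h => div_pos ((hpos i).trans_le h.1) (by positivity))
        (g1.comp (B.contOn (by fun_prop) (by fun_prop) fun s h => (hpos i).trans_le h.1) hJ)
        (fun s h => by
          change (qf B.c)^[j] _ ∉ B.P
          rw [e2 s h]
          exact fun h' => M.notU' ⟨_, h'⟩ ⟨s, y, (hpos i).trans_le h.1, rfl⟩)
        (fun s h => (e2 s h).trans (g2 _ (hJ s h)).symm) top e'.symm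
      have hl : ∀ l ≤ i, ∀ s ∈ Icc (t / d ^ (i + 1)) (d * t / d ^ (l + 1)),
          dist (B.Ψ s y') p ≤ 3 * r / 4 / 2 ^ (l + 1) := by
        intro l hl s h
        have a1 : d * s ∈ Icc (t / d ^ i) (d * t / d ^ l) := by
          obtain ⟨b1, b2⟩ := h
          rw [pow_succ, ← div_div, div_le_iff₀ (by positivity)] at b1
          rw [pow_succ, ← div_div, le_div_iff₀ (by positivity)] at b2
          constructor <;> linarith
        have a2 : d * s ∈ Icc (t / d ^ i) (d * t) :=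
          ⟨a1.1, a1.2.trans (div_le_self (by positivity) (one_le_pow₀ d1.le))⟩
        have a3 := lift _ a2
        simp only [mul_div_cancel_left₀ s (show d ≠ 0 by positivity)] at a3
        rw [a3, pow_succ, ← div_div]
        linarith [g3 _ (hJ _ a2), hy l hl _ a1]
      refine ⟨y', fun l hl' s h => ?_⟩
      cases l with
      | succ l => exact hl l (by omega) s h
      | zero =>
        have a0 : d * t / d ^ (0 + 1) = t := by rw [zero_add, pow_one]; field_simp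
        have a1 := hl 0 (Nat.zero_le _)
        rw [a0] at a1
        simp only [pow_zero, div_one, zero_add, pow_one] at h a1 ⊢
        rcases le_total s t with h' | h'
        · linarith [a1 s ⟨h.1, h'⟩]
        · linarith [a1 t ⟨div_le_self ht.le (one_le_pow₀ d1.le), le_rfl⟩, hs t ht htτ y' s ⟨h', h.2⟩,
            dist_triangle (B.Ψ s y') (B.Ψ t y') p]
  have hcl : ∀ i, IsClosed (Icc 0 1 ∩ {y | Q i y}) := fun i => by
    refine isClosed_Icc.inter ?_
    simp only [Q, ofPred_forall]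
    refine isClosed_iInter fun l => isClosed_iInter fun _ => isClosed_iInter fun s =>
      isClosed_iInter fun h => isClosed_le (Continuous.dist ?_ continuous_const) continuous_const
    exact continuousOn_univ.1 (B.contOn (by fun_prop) (by fun_prop)
      fun _ _ => (hpos i).trans_le h.1)
  have mono : ∀ i i', i ≤ i' → ∀ s, t / d ^ i ≤ s → t / d ^ i' ≤ s := fun i i' h s h' =>
    le_trans (by gcongr; exact d1.le) h'
  obtain ⟨y, hy⟩ := IsCompact.nonempty_iInter_of_sequence_nonempty_isCompact_isClosed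
    (fun i => Icc 0 1 ∩ {y | Q i y})
    (fun i y h => ⟨h.1, fun l hl s hs => h.2 l (by omega) s ⟨mono _ _ (by omega) s hs.1, hs.2⟩⟩)
    (fun i => by
      obtain ⟨y, hy⟩ := hQ i
      refine ⟨Int.fract y, ⟨Int.fract_nonneg _, (Int.fract_lt_one _).le⟩, fun l hl s h => ?_⟩
      have := B.per s (Int.fract y) ⌊y⌋
      rw [Int.fract_add_floor] at this
      exact this ▸ hy l hl s h)
    (isCompact_Icc.of_isClosed_subset (hcl 0) inter_subset_left) hcl
  refine ⟨y, Metric.tendsto_nhds.2 fun ε hε => ?_⟩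
  obtain ⟨l, hl⟩ := pow_unbounded_of_one_lt (3 * r / 4 / ε) (one_lt_two (α := ℝ))
  filter_upwards [Ioc_mem_nhdsGT (show 0 < d * t / d ^ l by positivity)] with s h
  obtain ⟨i, hi⟩ := pow_unbounded_of_one_lt (t / s) d1
  have a1 : t / d ^ i ≤ s := by
    rw [div_lt_iff₀ h.1] at hi
    rw [div_le_iff₀ (by positivity)]; linarith
  refine ((mem_iInter.1 hy (max i l)).2 l (le_max_right _ _) s
    ⟨mono _ _ (le_max_left _ _) s a1, h.2⟩).trans_lt ?_
  rw [div_lt_iff₀ hε] at hl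
  rw [div_lt_iff₀ (by positivity)]; linarith

theorem Mis.lands_c (M : B.Mis) (hf : B.P.Finite) {R0 : ℝ} (hR : ∀ z, R0 < ‖z‖ → z ∈ B.U) :
    ∃ θ, B.Lands θ B.c := by
  have := hf.to_subtype
  obtain ⟨a, b, hab, h⟩ : ∃ a b, a < b ∧ (qf B.c)^[a] B.c = (qf B.c)^[b] B.c := by
    obtain ⟨a, b, hne, h⟩ := Finite.exists_ne_map_eq_of_infinite
      (fun m => (⟨(qf B.c)^[m] B.c, m, rfl⟩ : B.P))
    have h1 := congrArg Subtype.val h
    rcases lt_or_gt_of_ne hne with h' | h'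
    · exact ⟨a, b, h', h1⟩
    · exact ⟨b, a, h', h1.symm⟩
  have := M.lands_per hf hR ⟨a, rfl⟩ (m := b - a) (by omega)
    (by rw [← Function.iterate_add_apply, Nat.sub_add_cancel hab.le]; exact h.symm)
  clear h hab
  induction a with
  | zero => exact this
  | succ a ih =>
    obtain ⟨y, hy⟩ := this
    simp only [Function.iterate_succ_apply'] at hy
    obtain ⟨y', h, _⟩ := Lands.pre (M.ne0 a) hy
    exact ih ⟨y', h⟩

end BD

end Pool.Agent.MP_61ef33_al
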