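import Pool.Agent.MP_61ef33_al.L2
import Pool.Agent.MP_61ef33_al.Defs3

/- From an isolated invariant continuum to a quadratic-like restriction. -/

namespace Pool.Agent.MP_61ef33_al

open Filter Topology Set

theorem pre_conn {f : ℂ → ℂ} (ho : IsOpenMap f) {W D C E : Set ℂ} (hW : IsOpen W)
    (hD : ∀ s, IsClosed s → IsClosed (f '' (D ∩ s))) (h1 : W ∩ f ⁻¹' C ⊆ D) (h2 : D ⊆ W)
    (hC : IsPreconnected C) {y0 : ℂ} (hy : y0 ∈ C) (hE : IsPreconnected E) (h3 : E ⊆ W ∩ f ⁻¹' C)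
    (h4 : ∀ z ∈ W, f z = y0 → z ∈ E) : IsPreconnected (W ∩ f ⁻¹' C) := by
  have key : ∀ u v, IsOpen u → IsOpen v → W ∩ f ⁻¹' C ⊆ u ∪ v → E ⊆ u →
      (W ∩ f ⁻¹' C ∩ v).Nonempty → (W ∩ f ⁻¹' C ∩ (u ∩ v)).Nonempty := by
    rintro u v hu hv hs hEu ⟨z, hz, hzv⟩
    obtain ⟨_, a1, ⟨w, a2, rfl⟩, a3⟩ := hC (f '' (W ∩ v)) (f '' (D ∩ uᶜ))ᶜ (ho _ (hW.inter hv))
      (hD _ hu.isClosed_compl).isOpen_compl (fun y hy => by
        by_cases h : y ∈ f '' (D ∩ uᶜ)
        · obtain ⟨w, b, rfl⟩ := h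
          exact Or.inl ⟨w, ⟨h2 b.1, (hs ⟨h2 b.1, hy⟩).resolve_left b.2⟩, rfl⟩
        · exact Or.inr h) ⟨f z, hz.2, z, ⟨hz.1, hzv⟩, rfl⟩
      ⟨y0, hy, fun ⟨w, b, e⟩ => b.2 (hEu (h4 w (h2 b.1) e))⟩
    exact ⟨w, ⟨a2.1, a1⟩, by_contra fun h => a3 ⟨w, ⟨h1 ⟨a2.1, a1⟩, h⟩, rfl⟩, a2.2⟩
  intro u v hu hv hs h5 h6
  by_cases h : (E ∩ (u ∩ v)).Nonempty
  · exact h.mono (inter_subset_inter_left _ h3)
  by_cases hEu : E ⊆ u
  · exact key u v hu hv hs hEu h6
  · rw [inter_comm u v]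
    refine key v u hv hu (union_comm u v ▸ hs) (fun z hz => by_contra fun hv' => ?_) h5
    obtain ⟨w, w1, w2⟩ := not_subset.1 hEu
    exact h (hE u v hu hv (h3.trans hs) ⟨z, hz, (hs (h3 hz)).resolve_right hv'⟩
      ⟨w, w1, (hs (h3 w1)).resolve_left w2⟩)

theorem isOpenMap_qf (c : ℂ) : IsOpenMap (qf c) :=
  (isOpenMap_add_right c).comp (Complex.isOpenQuotientMap_pow 2).isOpenMap

theorem norm_qf (c z : ℂ) : ‖z‖ ^ 2 - ‖c‖ ≤ ‖qf c z‖ := by
  have := norm_sub_norm_le (z ^ 2) (-c)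
  rwa [norm_pow, norm_neg, sub_neg_eq_add] at this

theorem isClosedMap_qf (c : ℂ) : IsClosedMap (qf c) := by
  refine (isProperMap_iff_tendsto_cocompact.2 ⟨continuous_qf c, ?_⟩).isClosedMap
  rw [← Metric.cobounded_eq_cocompact, ← tendsto_norm_atTop_iff_cobounded]
  exact tendsto_atTop_mono (norm_qf c) (tendsto_atTop_add_const_right _ _
    ((tendsto_pow_atTop two_ne_zero).comp tendsto_norm_cobounded_atTop))

theorem isOpenMap_iter (c : ℂ) (n : ℕ) : IsOpenMap (qf c)^[n] := by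
  induction n with
  | zero => exact IsOpenMap.id
  | succ n ih => exact ih.comp (isOpenMap_qf c)

theorem far_conn {R : ℝ} (hR : 0 ≤ R) : IsPreconnected {z : ℂ | R ≤ ‖z‖} := by
  have : {z : ℂ | R ≤ ‖z‖} = (fun p : ℝ × ℝ => p.1 * Complex.exp (p.2 * Complex.I)) ''
      Ici R ×ˢ univ := by
    ext z
    constructor
    · exact fun h => ⟨(‖z‖, z.arg), ⟨h, trivial⟩, Complex.norm_mul_exp_arg_mul_I z⟩
    · rintro ⟨p, h, rfl⟩
      have h1 : R ≤ p.1 := h.1
      simpa [abs_of_nonneg (hR.trans h1)] using h1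
  rw [this]
  exact (isPreconnected_Ici.prod isPreconnected_univ).image _ (by fun_prop)

/-- A connected neighbourhood of infinity. -/
def Far (C : Set ℂ) : Prop := IsPreconnected C ∧ ∃ R, ∀ z : ℂ, R ≤ ‖z‖ → z ∈ C

theorem Far.union {C D : Set ℂ} (h : Far C) (h' : Far D) : Far (C ∪ D) := by
  obtain ⟨h1, R, hR⟩ := h
  obtain ⟨h2, R', hR'⟩ := h'
  obtain ⟨z, hz⟩ := NormedSpace.exists_lt_norm ℝ ℂ (max R R')
  exact ⟨h1.union z (hR z (le_of_max_le_left hz.le)) (hR' z (le_of_max_le_right hz.le)) h2,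
    R, fun z hz => Or.inl (hR z hz)⟩

theorem Far.pre {C : Set ℂ} (h : Far C) (c : ℂ) : Far (qf c ⁻¹' C) := by
  obtain ⟨h1, R, hR⟩ := h
  set R' := |R| + ‖c‖ + 1
  have a0 := abs_nonneg R
  have a1 := norm_nonneg c
  have hf : ∀ z : ℂ, R' ≤ ‖z‖ → qf c z ∈ C := fun z hz =>
    hR _ (le_trans (by simp only [R'] at hz; nlinarith [le_abs_self R]) (norm_qf c z))
  refine ⟨?_, R', hf⟩
  obtain ⟨y, hy⟩ := NormedSpace.exists_lt_norm ℝ ℂ (max R (R' ^ 2 + ‖c‖))
  have := pre_conn (isOpenMap_qf c) isOpen_univ (D := univ)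
    (fun s hs => isClosedMap_qf c _ (by simpa using hs)) (subset_univ _) subset_rfl h1
    (hR y (le_of_max_le_left hy.le)) (far_conn (show 0 ≤ R' by positivity))
    (fun z hz => ⟨trivial, hf z hz⟩) (by
      rintro z - rfl
      have b1 := (norm_add_le (z ^ 2) c).trans' (le_of_max_le_right hy.le)
      rw [norm_pow] at b1
      exact (pow_le_pow_iff_left₀ (by positivity) (norm_nonneg z) two_ne_zero).1 (by linarith))
  simpa using this

theorem Far.pre_iter {C : Set ℂ} (h : Far C) (c : ℂ) (n : ℕ) : Far ((qf c)^[n] ⁻¹' C) := by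
  induction n with
  | zero => exact h
  | succ n ih => exact ih.pre c

theorem Far.comp {V : Set ℂ} (h : Far Vᶜ) (hV : IsOpen V) (x : ℂ) :
    Far (connectedComponentIn V x)ᶜ := by
  obtain ⟨h1, R, hR⟩ := h
  have hs : Vᶜ ⊆ (connectedComponentIn V x)ᶜ := compl_subset_compl.2 (connectedComponentIn_subset _ _)
  refine ⟨?_, R, fun z hz => hs (hR z hz)⟩
  obtain ⟨y, hy⟩ := NormedSpace.exists_lt_norm ℝ ℂ R
  refine isPreconnected_of_forall y fun z hz => ?_
  by_cases hzV : z ∈ V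
  swap
  · exact ⟨Vᶜ, hs, hR y hy.le, hzV, h1⟩
  obtain ⟨w, w1, w2⟩ : ∃ w ∈ closure (connectedComponentIn V z), w ∉ V := by
    by_contra hn
    push Not at hn
    have hc : IsClopen (connectedComponentIn V z) := ⟨closure_subset_iff_isClosed.1
      (isPreconnected_connectedComponentIn.closure.subset_connectedComponentIn
        (subset_closure (mem_connectedComponentIn hzV)) hn), hV.connectedComponentIn⟩
    have := hc.eq_univ ⟨z, mem_connectedComponentIn hzV⟩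
    exact hR y hy.le (connectedComponentIn_subset V z (this ▸ mem_univ y))
  refine ⟨Vᶜ ∪ insert w (connectedComponentIn V z), union_subset hs (insert_subset (hs w2)
    fun a ha hx => hz ?_), Or.inl (hR y hy.le), Or.inr (Or.inr (mem_connectedComponentIn hzV)),
    h1.union w w2 (mem_insert _ _) (isPreconnected_connectedComponentIn.subset_closure
      (subset_insert _ _) (insert_subset w1 subset_closure))⟩
  rw [connectedComponentIn_eq hx, ← connectedComponentIn_eq ha]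
  exact mem_connectedComponentIn hzV

theorem Far.disc {U : Set ℂ} (h : Far Uᶜ) (ho : IsOpen U) (hc : IsConnected U) : IsDisc U := by
  obtain ⟨h1, R, hR⟩ := h
  obtain ⟨y, hy⟩ := NormedSpace.exists_lt_norm ℝ ℂ R
  exact ⟨ho, isBounded_iff_forall_norm_le.2 ⟨R, fun z hz => le_of_not_ge fun h => hR z h hz⟩, hc,
    ⟨y, hR y hy.le⟩, h1⟩

theorem exists_nbhds {K : Set ℂ} (hK : IsCompact K) (h0 : K.Nonempty) (hs : ∀ z ∈ K, -z ∈ K)
    (hf : IsPreconnected Kᶜ) : ∃ O : ℝ → Set ℂ, (∀ δ, IsOpen (O δ)) ∧ (∀ δ > 0, K ⊆ O δ) ∧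
      (∀ δ ≤ 1, Far (O δ)ᶜ) ∧ (∀ δ δ', δ < δ' → δ' ≤ 1 → closure (O δ) ⊆ O δ') ∧
      (∀ δ ≤ 1, ∀ z ∈ O δ, -z ∈ O δ) ∧
      ∀ W, IsOpen W → K ⊆ W → ∀ η > 0, ∃ δ > 0, δ < η ∧ closure (O δ) ⊆ W := by
  obtain ⟨R, R0, hR⟩ := hK.isBounded.exists_pos_norm_le
  let d : ℂ → ℝ := fun z => Metric.infDist z K
  let x0 : ℂ := (R + 1 : ℝ)
  have hx0 : R + 1 ≤ ‖x0‖ := by rw [Complex.norm_real, Real.norm_of_nonneg (by positivity)]
  have hfar : ∀ z : ℂ, R + 1 ≤ ‖z‖ → 1 ≤ d z := fun z hz =>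
    (Metric.le_infDist h0).2 fun y hy => by
      rw [dist_eq_norm]; linarith [norm_sub_norm_le z y, hR y hy]
  let C : ℝ → Set ℂ := fun δ => connectedComponentIn {z | δ ≤ d z} x0
  have hd : Continuous d := Metric.continuous_infDist_pt K
  have c0 : ∀ δ, ∀ z ∈ C δ, δ ≤ d z := fun δ z hz =>
    connectedComponentIn_subset {z | δ ≤ d z} x0 hz
  have c1 : ∀ δ ≤ 1, ∀ z : ℂ, R + 1 ≤ ‖z‖ → z ∈ C δ := fun δ hδ z hz =>
    (far_conn (show 0 ≤ R + 1 by positivity)).subset_connectedComponentIn hx0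
      (fun w hw => hδ.trans (hfar w hw)) hz
  have c2 : ∀ δ, ∀ S, IsPreconnected S → S ⊆ {z | δ ≤ d z} → ∀ a ∈ S, a ∈ C δ → S ⊆ C δ :=
    fun δ S h1 h2 a h3 h4 => by
      simp only [C]
      rw [connectedComponentIn_eq h4]
      exact h1.subset_connectedComponentIn h3 h2
  have c3 : ∀ δ, IsClosed (C δ) := fun δ => by
    rcases (C δ).eq_empty_or_nonempty with h | ⟨a, h⟩
    · rw [h]; exact isClosed_empty
    · exact closure_subset_iff_isClosed.1 (c2 δ _ isPreconnected_connectedComponentIn.closure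
        (closure_minimal (connectedComponentIn_subset _ _) (isClosed_le continuous_const hd)) a
        (subset_closure h) h)
  have c4 : ∀ δ δ', δ < δ' → δ' ≤ 1 → closure (C δ)ᶜ ⊆ (C δ')ᶜ := by
    intro δ δ' h h1 z hz hz'
    have a1 : C δ' ⊆ C δ := connectedComponentIn_mono _ fun w hw => h.le.trans hw
    have a2 : δ' ≤ d z := c0 _ _ hz'
    have a3 := c2 δ (Metric.ball z (δ' - δ)) (convex_ball _ _).isPreconnected (fun w hw => by
      have := Metric.infDist_le_infDist_add_dist (x := z) (y := w) (s := K)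
      rw [Metric.mem_ball, dist_comm] at hw
      change δ ≤ Metric.infDist w K
      linarith) z (Metric.mem_ball_self (by linarith)) (a1 hz')
    obtain ⟨w, w1, w2⟩ := mem_closure_iff.1 hz _ Metric.isOpen_ball
      (Metric.mem_ball_self (show 0 < δ' - δ by linarith))
    exact w2 (a3 w1)
  have c5 : ∀ δ ≤ 1, Far (C δ)ᶜᶜ := fun δ hδ => by
    rw [compl_compl]; exact ⟨isPreconnected_connectedComponentIn, R + 1, c1 δ hδ⟩
  refine ⟨fun δ => (C δ)ᶜ, fun δ => (c3 δ).isOpen_compl, fun δ hδ z hz h => ?_, c5, c4,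
    fun δ hδ z hz h => hz ?_, fun W hW hKW η hη => ?_⟩
  · have : δ ≤ d z := c0 _ _ h
    simp only [d, Metric.infDist_zero_of_mem hz] at this
    linarith
  · refine c2 δ (Neg.neg '' C δ) (isPreconnected_connectedComponentIn.image _ (by fun_prop)) ?_ x0
      ⟨-x0, c1 δ hδ _ (by rwa [norm_neg]), neg_neg _⟩ (c1 δ hδ _ hx0) ⟨-z, h, neg_neg _⟩
    rintro _ ⟨w, hw, rfl⟩
    refine le_trans (c0 _ _ hw) ((Metric.le_infDist h0).2 fun y hy => ?_)
    rw [← dist_neg_neg, neg_neg]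
    exact Metric.infDist_le_dist_of_mem (hs y hy)
  · let ρ : ℕ → ℝ := fun n => min η 1 / 2 / 2 ^ n
    have m0 : 0 < min η 1 := lt_min hη one_pos
    have r0 : ∀ n, 0 < ρ n := fun n => by positivity
    have r1 : ∀ n, ρ n < min η 1 := fun n =>
      (div_le_self (by positivity) (one_le_pow₀ one_le_two)).trans_lt (by linarith)
    have r2 : ∀ n, ρ n ≤ 1 := fun n => (r1 n).le.trans (min_le_right _ _)
    obtain ⟨n, hn⟩ := exists_subset_nhds_of_isCompact (V := fun n => closure (C (ρ n))ᶜ) (U := W)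
      (directed_of_isDirected_le fun m n h => closure_mono (compl_subset_compl.2
        (connectedComponentIn_mono _ fun w hw => le_trans
          (show ρ n ≤ ρ m by simp only [ρ]; gcongr; norm_num) hw)))
      (fun n => (isBounded_iff_forall_norm_le.2 ⟨R + 1, fun z (hz : z ∉ C (ρ n)) => le_of_not_ge
        fun h => hz (c1 _ (r2 n) z h)⟩).isCompact_closure) (fun x hx => by
        refine hW.mem_nhds (hKW (by_contra fun hxK => ?_))
        have hx1 : x0 ∈ Kᶜ := fun h => by linarith [hR x0 h]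
        obtain ⟨γ, hγ⟩ := ((hK.isClosed.isOpen_compl.isConnected_iff_isPathConnected).1
          ⟨⟨x0, hx1⟩, hf⟩).joinedIn x0 hx1 x hxK
        obtain ⟨τ, -, hτ⟩ := isCompact_univ.exists_isMinOn univ_nonempty
          (hd.comp γ.continuous).continuousOn
        have a1 : 0 < d (γ τ) := (hK.isClosed.notMem_iff_infDist_pos h0).1 (hγ τ)
        have a2 : Tendsto ρ atTop (𝓝 0) :=
          tendsto_const_nhds.div_atTop (tendsto_pow_atTop_atTop_of_one_lt one_lt_two)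
        obtain ⟨n, hn⟩ := (a2.eventually (gt_mem_nhds a1)).exists
        have a3 : ρ (n + 1) < ρ n := by
          simp only [ρ]; gcongr; exacts [one_lt_two, Nat.lt_succ_self n]
        refine c4 _ _ a3 (r2 n) (mem_iInter.1 hx (n + 1)) ?_
        exact c2 _ (range γ) (isPreconnected_range γ.continuous) (by
          rintro _ ⟨σ, rfl⟩; exact hn.le.trans (hτ (mem_univ σ))) x0 ⟨0, γ.source⟩
          (c1 _ (r2 n) _ hx0) ⟨1, γ.target⟩)
    exact ⟨ρ n, r0 n, (r1 n).trans_le (min_le_left _ _), hn⟩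

theorem renorm_of {c : ℂ} {p : ℕ} (hp : 2 ≤ p) {K : Set ℂ} (hK : IsCompact K)
    (hc : IsPreconnected K) (h0 : (0 : ℂ) ∈ K) (hs : ∀ z ∈ K, -z ∈ K) (hf : IsPreconnected Kᶜ)
    (hm : MapsTo (qf c)^[p] K K) (hsurj : K ⊆ (qf c)^[p] '' K)
    (H1 : ∀ i, 0 < i → i < p → ∀ z ∈ K, ∀ z' ∈ K, (qf c)^[i] z ≠ -(qf c)^[i] z')
    {W0 : Set ℂ} (o0 : IsOpen W0) (k0 : K ⊆ W0)
    (H2 : ∀ z, (∀ n, ((qf c)^[p])^[n] z ∈ W0) → z ∈ K) : Renormalizable c := by
  set F := (qf c)^[p] with hF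
  have cF : Continuous F := (continuous_qf c).iterate p
  have oF : IsOpenMap F := isOpenMap_iter c p
  have eF : ∀ z, F (-z) = F z := fun z => by
    obtain ⟨q, rfl⟩ : ∃ q, p = q + 1 := ⟨p - 1, by omega⟩
    simp [hF, qf]
  obtain ⟨u, v, hu, hv, ku, kv, huv⟩ := generalized_tube_lemma hK hK
    (n := ⋂ i ∈ Finset.Ioo 0 p, {q : ℂ × ℂ | (qf c)^[i] q.1 ≠ -(qf c)^[i] q.2})
    (isOpen_biInter_finset fun i _ => isOpen_ne_fun (((continuous_qf c).iterate i).comp continuous_fst)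
      (((continuous_qf c).iterate i).comp continuous_snd).neg)
    (fun q hq => mem_iInter₂.2 fun i hi => H1 i (Finset.mem_Ioo.1 hi).1 (Finset.mem_Ioo.1 hi).2
      _ hq.1 _ hq.2)
  have two : ∀ z ∈ u, ∀ z' ∈ v, F z = F z' → z = z' ∨ z = -z' := by
    intro z hz z' hz' e
    have : ∀ i, i < p → (qf c)^[i + 1] z = (qf c)^[i + 1] z' → z = z' ∨ z = -z' := by
      intro i
      induction i with
      | zero => exact fun _ e => sq_eq_sq_iff_eq_or_eq_neg.1 (add_right_cancel e)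
      | succ i ih =>
        intro hi e
        rw [Function.iterate_succ_apply', Function.iterate_succ_apply' (qf c) (i + 1)] at e
        exact ih (by omega) ((sq_eq_sq_iff_eq_or_eq_neg.1 (add_right_cancel e)).resolve_right
          (mem_iInter₂.1 (huv (mk_mem_prod hz hz')) (i + 1) (Finset.mem_Ioo.2 ⟨by omega, hi⟩)))
    exact this (p - 1) (by omega) (by rwa [Nat.sub_add_cancel (by omega)])
  obtain ⟨O, O1, O2, O3, O4, O5, O6⟩ := exists_nbhds hK ⟨0, h0⟩ hs hf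
  obtain ⟨δ1, d1, d2, d3⟩ := O6 (W0 ∩ (u ∩ v)) (o0.inter (hu.inter hv))
    (subset_inter k0 (subset_inter ku kv)) 1 one_pos
  obtain ⟨δ0, d4, d5, d6⟩ := O6 (F '' O δ1) (oF _ (O1 δ1)) (hsurj.trans (image_mono (O2 δ1 d1)))
    δ1 d1
  have cp : IsCompact (closure (O δ1)) := by
    obtain ⟨R, hR⟩ := (O3 δ1 d2.le).2
    exact (isBounded_iff_forall_norm_le.2
      ⟨R, fun z hz => le_of_not_ge fun h => hR z h hz⟩).isCompact_closure
  obtain ⟨n, hn⟩ := exists_subset_nhds_of_isCompact (U := O δ0)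
    (V := fun n : ℕ => ⋂ i ≤ n, F^[i] ⁻¹' closure (O δ1))
    (directed_of_isDirected_le fun m n h => biInter_subset_biInter_left fun i hi => le_trans hi h)
    (fun n => cp.of_isClosed_subset (isClosed_biInter fun i _ => isClosed_closure.preimage
      (cF.iterate i)) fun z hz => mem_iInter₂.1 hz 0 (Nat.zero_le n))
    (fun z hz => (O1 δ0).mem_nhds (O2 δ0 d4 (H2 z fun n =>
      (d3 (mem_iInter₂.1 (mem_iInter.1 hz n) n le_rfl)).1)))
  let ρ : ℕ → ℝ := fun i => δ1 - (δ1 - δ0) / 2 ^ i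
  have r0 : ρ 0 = δ0 := by simp [ρ]
  have r1 : ∀ i, ρ i < δ1 := fun i => by
    have := div_pos (sub_pos.2 d5) (show (0 : ℝ) < 2 ^ i by positivity)
    simp only [ρ]; linarith
  have r2 : ∀ i, ρ i < ρ (i + 1) := fun i => by
    have := div_pos (sub_pos.2 d5) (show (0 : ℝ) < 2 ^ i by positivity)
    simp only [ρ, pow_succ, ← div_div]; linarith
  have r3 : ∀ i, 0 < ρ i := fun i => by
    have := div_le_self (show 0 ≤ δ1 - δ0 by linarith) (one_le_pow₀ (n := i) (one_le_two (α := ℝ)))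
    simp only [ρ]; linarith
  let V : ℕ → Set ℂ := fun n => {z | ∀ i ≤ n, F^[i] z ∈ O (ρ i)}
  have V1 : IsOpen (V n) := by
    simp only [V, ofPred_forall]
    exact (finite_Iic n).isOpen_biInter fun i _ => (O1 _).preimage (cF.iterate i)
  have V2 : K ⊆ V n := fun z hz i _ => O2 _ (r3 i) (hm.iterate i hz)
  have V3 : V n ⊆ O δ0 := fun z hz => r0 ▸ hz 0 (Nat.zero_le _)
  have V4 : ∀ n, Far (V n)ᶜ := by
    have : ∀ i, Far (F^[i] ⁻¹' (O (ρ i))ᶜ) := fun i => by
      rw [hF, ← Function.iterate_mul]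
      exact (O3 _ ((r1 i).le.trans d2.le)).pre_iter c _
    intro n
    induction n with
    | zero => simpa [V, compl_def] using this 0
    | succ n ih =>
      have e : (V (n + 1))ᶜ = (V n)ᶜ ∪ F^[n + 1] ⁻¹' (O (ρ (n + 1)))ᶜ := by
        rw [preimage_compl, ← compl_inter]
        congr 1
        ext z
        exact ⟨fun h => ⟨fun i hi => h i (by omega), h _ le_rfl⟩, fun h i hi =>
          (Nat.of_le_succ hi).elim (h.1 i) fun e => e ▸ h.2⟩
      exact e ▸ ih.union (this _)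
  have sub : O δ0 ⊆ O δ1 := subset_closure.trans (O4 _ _ d5 d2.le)
  let V0 := connectedComponentIn (V n) 0
  have W1 : V0 ⊆ V n := connectedComponentIn_subset _ _
  have W2 : K ⊆ V0 := hc.subset_connectedComponentIn h0 V2
  let U := O δ1 ∩ F ⁻¹' V0
  have U0 : closure U ⊆ closure (O δ1) := closure_mono inter_subset_left
  have U1 : closure U ⊆ V n := by
    intro z hz
    have a1 : ∀ i ≤ n, F^[i + 1] z ∈ O (ρ (i + 1)) := fun i hi =>
      O4 _ _ (r2 i) ((r1 _).le.trans d2.le) (map_mem_closure (cF.iterate (i + 1)) hz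
        fun w hw => W1 hw.2 i hi)
    intro i hi
    cases i with
    | succ i => exact a1 i (by omega)
    | zero =>
      refine r0 ▸ hn (mem_iInter₂.2 fun i hi => ?_)
      cases i with
      | zero => exact U0 hz
      | succ i => exact subset_closure (O4 _ _ (r1 _) d2.le (subset_closure (a1 i (by omega))))
  have U2 : K ⊆ U := fun z hz => ⟨O2 _ d1 hz, W2 (hm hz)⟩
  have U3 : IsCompact (closure U) := cp.of_isClosed_subset isClosed_closure U0
  have U4 : closure U ⊆ O δ1 := U1.trans (V3.trans sub)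
  have two' : ∀ z ∈ O δ1, ∀ z' ∈ O δ1, F z = F z' → z = z' ∨ z = -z' := fun z hz z' hz' =>
    two z (d3 (subset_closure hz)).2.1 z' (d3 (subset_closure hz')).2.2
  have U5 : IsPreconnected U := pre_conn oF (O1 _) (D := closure U)
    (fun s hs => ((U3.inter_right hs).image cF).isClosed) subset_closure U4
    isPreconnected_connectedComponentIn (W2 (hm h0)) isPreconnected_singleton
    (singleton_subset_iff.2 (U2 h0)) fun z hz e => by simpa using two' z hz 0 (O2 _ d1 h0) e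
  have oV : IsOpen V0 := V1.connectedComponentIn
  have fV : Far V0ᶜ := (V4 n).comp V1 0
  refine ⟨p, F, U, V0, hp, rfl, Far.disc ?_ ((O1 _).inter (oV.preimage cF)) ⟨⟨0, U2 h0⟩, U5⟩,
    fV.disc oV ⟨⟨0, W2 h0⟩, isPreconnected_connectedComponentIn⟩,
    U5.closure.subset_connectedComponentIn (subset_closure (U2 h0)) U1, fun z hz => hz.2,
    fun C hC h => ?_, fun y hy => ?_, fun k => U2 (hm.iterate k h0)⟩
  · rw [compl_inter]
    exact (O3 _ d2.le).union (fV.pre_iter c p)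
  · have : U ∩ F ⁻¹' C = closure U ∩ F ⁻¹' C := subset_antisymm
      (inter_subset_inter_left _ subset_closure) fun z hz => ⟨⟨U4 hz.1, hC hz.2⟩, hz.2⟩
    exact this ▸ U3.inter_right (h.isClosed.preimage cF)
  · obtain ⟨z, hz, rfl⟩ := d6 (subset_closure (V3 (W1 hy)))
    refine ⟨z, subset_antisymm (fun w hw => two' w hw.1.1 z hz hw.2) ?_⟩
    rintro w (rfl | rfl)
    · exact ⟨⟨hz, hy⟩, rfl⟩
    · exact ⟨⟨O5 _ d2.le z hz, by rwa [mem_preimage, eF]⟩, eF z⟩

end Pool.Agent.MP_61ef33_al
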